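import Mathlib

-- part Pool.Agent.Lib.MP_dfc9b7_an.Cap
section

/-! Analytic capacity: basic facts. -/

set_option autoImplicit false
open Filter Topology Set Metric

namespace Pool.Agent.Lib.MP_dfc9b7_an

noncomputable section

/-- Admissible functions. -/
structure Adm (S : Set ℂ) (f : ℂ → ℂ) (a : ℂ) (M : ℝ) : Prop where
  diff : DifferentiableOn ℂ f Sᶜ
  bd : ∀ z ∈ Sᶜ, ‖f z‖ ≤ M
  lim : Tendsto (fun z => z * f z) (cocompact ℂ) (𝓝 a)

/-- Analytic capacity. -/
def cap (S : Set ℂ) : ℝ := sSup {r : ℝ | ∃ f : ℂ → ℂ, ∃ a : ℂ,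
  DifferentiableOn ℂ f Sᶜ ∧ (∀ z ∈ Sᶜ, ‖f z‖ ≤ 1) ∧
    Tendsto (fun z => z * f z) (cocompact ℂ) (𝓝 a) ∧ r = ‖a‖}

theorem tendsto_inv_sub (c : ℂ) : Tendsto (fun z : ℂ => (z - c)⁻¹) (cocompact ℂ) (𝓝 0) := by
  rw [← cobounded_eq_cocompact]
  exact tendsto_inv₀_cobounded.comp (tendsto_sub_const_cobounded c)

theorem eventually_norm_sub_gt (c : ℂ) (R : ℝ) : ∀ᶠ z in cocompact ℂ, R < ‖z - c‖ := by
  filter_upwards [(isCompact_closedBall c R).compl_mem_cocompact] with z hz
  simpa [dist_eq_norm] using hz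

theorem tendsto_of_norm_le_div {g : ℂ → ℂ} {c : ℂ} {A R : ℝ}
    (h : ∀ z, R < ‖z - c‖ → ‖(z - c) * g z‖ ≤ A) : Tendsto g (cocompact ℂ) (𝓝 0) := by
  have h1 : Tendsto (fun z : ℂ => A * ‖(z - c)⁻¹‖) (cocompact ℂ) (𝓝 0) := by
    simpa using ((tendsto_inv_sub c).norm).const_mul A
  refine squeeze_zero_norm' ?_ h1
  filter_upwards [eventually_norm_sub_gt c R, eventually_norm_sub_gt c 0] with z h1 h2
  have := h z h1
  rw [norm_mul] at this
  rw [norm_inv, ← div_eq_mul_inv, le_div_iff₀ h2]; linarith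

theorem tendsto_zero_of_mul {f : ℂ → ℂ} {a : ℂ}
    (h : Tendsto (fun z => z * f z) (cocompact ℂ) (𝓝 a)) : Tendsto f (cocompact ℂ) (𝓝 0) := by
  have h1 := (tendsto_inv_sub 0).mul h
  rw [zero_mul] at h1
  refine h1.congr' ?_
  filter_upwards [eventually_norm_sub_gt 0 0] with z hz
  have : z ≠ 0 := by simpa using hz
  simp [this]

theorem tendsto_shift {f : ℂ → ℂ} {a : ℂ} (c : ℂ)
    (h : Tendsto (fun z => z * f z) (cocompact ℂ) (𝓝 a)) :
    Tendsto (fun z => (z - c) * f z) (cocompact ℂ) (𝓝 a) := by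
  have := h.sub ((tendsto_zero_of_mul h).const_mul c)
  simp only [mul_zero, sub_zero] at this
  exact this.congr fun z => by ring

theorem ext_schwarz {h : ℂ → ℂ} {c : ℂ} {R M : ℝ} (hR : 0 < R)
    (hd : DifferentiableOn ℂ h {z | R < ‖z - c‖}) (hb : ∀ z, R < ‖z - c‖ → ‖h z‖ ≤ M)
    (h0 : Tendsto h (cocompact ℂ) (𝓝 0)) :
    ∃ a, Tendsto (fun z => (z - c) * h z) (cocompact ℂ) (𝓝 a) ∧ ‖a‖ ≤ M * R ∧
      ∀ z, R < ‖z - c‖ → ‖(z - c) * h z‖ ≤ M * R := by
  classical
  set g : ℂ → ℂ := fun w => if w = 0 then 0 else h (c + w⁻¹) with hg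
  have hM : 0 ≤ M := (norm_nonneg _).trans (hb (c + (R + 1 : ℝ)) (by
    rw [add_sub_cancel_left, Complex.norm_real, Real.norm_of_nonneg (by linarith)]; linarith))
  have hmem : ∀ w ∈ ball (0:ℂ) R⁻¹, w ≠ 0 → R < ‖c + w⁻¹ - c‖ := fun w hw h0 => by
    rw [add_sub_cancel_left, norm_inv]
    rw [mem_ball_zero_iff] at hw
    exact (lt_inv_comm₀ (norm_pos_iff.2 h0) hR).1 hw
  have hopen : IsOpen {z : ℂ | R < ‖z - c‖} := isOpen_lt continuous_const (by fun_prop)
  have hb0 : ball (0:ℂ) R⁻¹ ∈ 𝓝 (0:ℂ) := ball_mem_nhds _ (by positivity)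
  have hgd : DifferentiableOn ℂ g (ball 0 R⁻¹) := by
    refine (Complex.differentiableOn_compl_singleton_and_continuousAt_iff hb0).1 ⟨?_, ?_⟩
    · intro w hw
      have h1 : w ≠ 0 := hw.2
      have h2 : DifferentiableAt ℂ (fun w : ℂ => h (c + w⁻¹)) w :=
        (hd.differentiableAt (hopen.mem_nhds (hmem w hw.1 h1))).comp w
          ((differentiableAt_inv h1).const_add c)
      refine (h2.congr_of_eventuallyEq ?_).differentiableWithinAt
      filter_upwards [isOpen_ne.mem_nhds h1] with u hu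
      simp [hg, hu]
    · rw [continuousAt_iff_punctured_nhds]
      have h1 : Tendsto (fun w : ℂ => c + w⁻¹) (𝓝[≠] 0) (cocompact ℂ) := by
        rw [← cobounded_eq_cocompact]
        exact (tendsto_const_add_cobounded c).comp tendsto_inv₀_nhdsNE_zero
      have : g 0 = 0 := by simp [hg]
      rw [this]
      refine (h0.comp h1).congr' ?_
      filter_upwards [self_mem_nhdsWithin] with u hu
      have : u ≠ 0 := hu
      simp [hg, this]
  have hmaps : MapsTo g (ball 0 R⁻¹) (closedBall (g 0) M) := fun w hw => by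
    have : g 0 = 0 := by simp [hg]
    rw [this, mem_closedBall_zero_iff]
    by_cases h1 : w = 0
    · simp [hg, h1, hM]
    · simp only [hg, if_neg h1]; exact hb _ (hmem w hw h1)
  have hs : ∀ w ∈ ball (0:ℂ) R⁻¹, ‖dslope g 0 w‖ ≤ M * R := fun w hw => by
    simpa using Complex.norm_dslope_le_div_of_mapsTo_ball hgd hmaps hw
  have he : ∀ z, z ≠ c → dslope g 0 (z - c)⁻¹ = (z - c) * h z := fun z hz => by
    have h1 : (z - c)⁻¹ ≠ 0 := inv_ne_zero (sub_ne_zero.2 hz)
    rw [dslope_of_ne _ h1, slope_def_field]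
    simp [hg, sub_ne_zero.2 hz, mul_comm]
  refine ⟨dslope g 0 0, ?_, hs 0 (mem_ball_self (by positivity)), fun z hz => ?_⟩
  · have h1 : ContinuousAt (dslope g 0) 0 :=
      continuousAt_dslope_same.2 (hgd.differentiableAt hb0)
    refine (h1.tendsto.comp (tendsto_inv_sub c)).congr' ?_
    filter_upwards [eventually_norm_sub_gt c 0] with z hz
    exact he z fun h => by simp [h] at hz
  · rw [← he z fun h => by rw [h, sub_self, norm_zero] at hz; linarith]
    refine hs _ ?_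
    rw [mem_ball_zero_iff, norm_inv]
    exact inv_strictAnti₀ hR hz

variable {S : Set ℂ} {f : ℂ → ℂ} {a : ℂ} {M : ℝ}

theorem ext_subset {c : ℂ} {R R' : ℝ} (hS : S ⊆ closedBall c R) (h : R ≤ R') :
    {z | R' < ‖z - c‖} ⊆ Sᶜ := fun z hz hs => by
  have := hS hs
  rw [mem_closedBall, dist_eq_norm] at this
  exact absurd hz (not_lt.2 (this.trans h))

theorem Adm.norm_le_radius (h : Adm S f a M) {c : ℂ} {R : ℝ} (hR : 0 < R)
    (hS : S ⊆ closedBall c R) : ‖a‖ ≤ M * R := by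
  obtain ⟨a', h1, h2, _⟩ := ext_schwarz hR (h.diff.mono (ext_subset hS le_rfl))
    (fun z hz => h.bd z (ext_subset hS le_rfl hz)) (tendsto_zero_of_mul h.lim)
  rwa [tendsto_nhds_unique (tendsto_shift c h.lim) h1]

theorem Adm.mono {T : Set ℂ} (h : Adm S f a M) (hT : S ⊆ T) : Adm T f a M :=
  ⟨h.diff.mono (compl_subset_compl.2 hT), fun z hz => h.bd z (compl_subset_compl.2 hT hz), h.lim⟩

theorem Adm.mono_bd (h : Adm S f a M) {M' : ℝ} (hM : M ≤ M') : Adm S f a M' :=
  ⟨h.diff, fun z hz => (h.bd z hz).trans hM, h.lim⟩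

theorem Adm.const_mul (h : Adm S f a M) (t : ℂ) : Adm S (fun z => t * f z) (t * a) (‖t‖ * M) :=
  ⟨h.diff.const_mul t, fun z hz => by
    rw [norm_mul]; exact mul_le_mul_of_nonneg_left (h.bd z hz) (norm_nonneg _),
    (h.lim.const_mul t).congr fun z => by ring⟩

theorem Adm.add {g : ℂ → ℂ} {b : ℂ} {N : ℝ} (h : Adm S f a M) (h' : Adm S g b N) :
    Adm S (fun z => f z + g z) (a + b) (M + N) :=
  ⟨h.diff.add h'.diff, fun z hz => (norm_add_le _ _).trans (add_le_add (h.bd z hz) (h'.bd z hz)),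
    (h.lim.add h'.lim).congr fun z => by ring⟩

theorem Adm.sub {g : ℂ → ℂ} {b : ℂ} {N : ℝ} (h : Adm S f a M) (h' : Adm S g b N) :
    Adm S (fun z => f z - g z) (a - b) (M + N) :=
  ⟨h.diff.sub h'.diff, fun z hz => (norm_sub_le _ _).trans (add_le_add (h.bd z hz) (h'.bd z hz)),
    (h.lim.sub h'.lim).congr fun z => by ring⟩

theorem adm_zero (S : Set ℂ) : Adm S (fun _ => 0) 0 0 :=
  ⟨differentiableOn_const _, by simp, by simp⟩

theorem cap_bdd (hS : Bornology.IsBounded S) : BddAbove {r : ℝ | ∃ f : ℂ → ℂ, ∃ a : ℂ,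
    DifferentiableOn ℂ f Sᶜ ∧ (∀ z ∈ Sᶜ, ‖f z‖ ≤ 1) ∧
    Tendsto (fun z => z * f z) (cocompact ℂ) (𝓝 a) ∧ r = ‖a‖} := by
  obtain ⟨R, hR, h⟩ := hS.subset_closedBall_lt 0 0
  refine ⟨1 * R, ?_⟩
  rintro r ⟨f, a, h1, h2, h3, rfl⟩
  exact Adm.norm_le_radius ⟨h1, h2, h3⟩ hR h

theorem Adm.le_cap_one (h : Adm S f a 1) (hS : Bornology.IsBounded S) : ‖a‖ ≤ cap S :=
  le_csSup (cap_bdd hS) ⟨f, a, h.diff, h.bd, h.lim, rfl⟩

theorem cap_nonneg (S : Set ℂ) : 0 ≤ cap S :=
  Real.sSup_nonneg fun _ ⟨_, _, _, _, _, h⟩ => h ▸ norm_nonneg _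

theorem cap_le {c : ℝ} (hc : 0 ≤ c) (h : ∀ f a, Adm S f a 1 → ‖a‖ ≤ c) : cap S ≤ c :=
  Real.sSup_le (fun _ ⟨f, a, h1, h2, h3, h4⟩ => h4 ▸ h f a ⟨h1, h2, h3⟩) hc

theorem Adm.le_cap (h : Adm S f a M) (hS : Bornology.IsBounded S) (hM : 0 ≤ M) :
    ‖a‖ ≤ M * cap S := by
  refine le_of_forall_pos_le_add fun ε hε => ?_
  set t := M + ε / (cap S + 1) with ht
  have hc := cap_nonneg S
  have ht0 : 0 < t := by positivity
  have h1 := ((h.const_mul ((t⁻¹ : ℝ) : ℂ)).mono_bd (M' := 1) (by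
    rw [Complex.norm_real, Real.norm_of_nonneg (by positivity), inv_mul_le_iff₀ ht0]
    have : 0 ≤ ε / (cap S + 1) := by positivity
    linarith)).le_cap_one hS
  rw [norm_mul, Complex.norm_real, Real.norm_of_nonneg (by positivity), inv_mul_le_iff₀ ht0] at h1
  have h2 : ε / (cap S + 1) * cap S ≤ ε := by
    rw [div_mul_eq_mul_div, div_le_iff₀ (by positivity)]; nlinarith
  nlinarith

theorem cap_mono {T : Set ℂ} (h : S ⊆ T) (hT : Bornology.IsBounded T) : cap S ≤ cap T :=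
  cap_le (cap_nonneg T) fun _ _ hf => (hf.mono h).le_cap_one hT

theorem cap_le_radius {c : ℂ} {R : ℝ} (hR : 0 < R) (hS : S ⊆ closedBall c R) : cap S ≤ R :=
  cap_le hR.le fun _ _ hf => by simpa using hf.norm_le_radius hR hS

theorem cap_empty : cap ∅ = 0 :=
  le_antisymm (le_of_forall_pos_le_add fun ε hε => by
    simpa using cap_le_radius (c := 0) hε (empty_subset _)) (cap_nonneg _)

theorem exists_adm_lt {t : ℝ} (ht : t < cap S) :
    ∃ f, ∃ a : ℝ, Adm S f a 1 ∧ t < a ∧ 0 ≤ a := by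
  by_cases h0 : t < 0
  · exact ⟨fun _ => 0, 0, by simpa using (adm_zero S).mono_bd zero_le_one, h0, le_rfl⟩
  by_contra hc
  push Not at hc h0
  refine absurd ht (not_lt.2 (cap_le h0 fun f a hf => ?_))
  by_cases ha : a = 0
  · simp [ha, h0]
  have h1 := hf.const_mul ((‖a‖ : ℂ) / a)
  rw [div_mul_cancel₀ _ ha, norm_div, Complex.norm_real, norm_norm,
    div_self (norm_ne_zero_iff.2 ha), one_mul] at h1
  by_contra h2
  exact absurd (norm_nonneg a) (not_le.2 (hc _ _ h1 (not_le.1 h2)))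

theorem dslope_bound {F : ℂ → ℂ} {U : Set ℂ} {z : ℂ} {d : ℝ} (hd : 0 < d) (hU : ball z d ⊆ U)
    (hF : DifferentiableOn ℂ F (ball z d)) (hb : ∀ w ∈ U, ‖F w‖ ≤ M) {w : ℂ} (hw : w ∈ U) :
    ‖dslope F z w‖ ≤ 2 * M / d := by
  have hz := hb z (hU (mem_ball_self hd))
  by_cases h : w ∈ ball z d
  · refine Complex.norm_dslope_le_div_of_mapsTo_ball hF (fun u hu => ?_) h
    rw [mem_closedBall, dist_eq_norm]
    linarith [norm_sub_le (F u) (F z), hb u (hU hu)]
  · rw [mem_ball, not_lt, dist_eq_norm] at h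
    have hne : w ≠ z := fun e => by rw [e, sub_self, norm_zero] at h; linarith
    rw [dslope_of_ne _ hne, slope_def_field, norm_div]
    exact div_le_div₀ (by linarith [norm_nonneg (F z)])
      (by linarith [norm_sub_le (F w) (F z), hb w hw]) hd h

theorem Adm.norm_le_cap (h : Adm S f a M) (hS : IsCompact S) {z : ℂ} {d : ℝ} (hd : 0 < d)
    (hz : ball z d ⊆ Sᶜ) : ‖f z‖ ≤ 2 * M * cap S / d := by
  have hz' : Sᶜ ∈ 𝓝 z := mem_of_superset (ball_mem_nhds z hd) hz
  have hM : 0 ≤ M := (norm_nonneg _).trans (h.bd z (hz (mem_ball_self hd)))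
  have h1 : Adm S (dslope f z) (-f z) (2 * M / d) := by
    refine ⟨(Complex.differentiableOn_dslope hz').2 h.diff,
      fun w hw => dslope_bound hd hz (h.diff.mono hz) h.bd hw, ?_⟩
    have a1 := ((tendsto_zero_of_mul h.lim).sub_const (f z)).mul
      (((tendsto_inv_sub z).const_mul z).const_add 1)
    simp only [zero_sub, mul_zero, add_zero, mul_one] at a1
    refine a1.congr' ?_
    filter_upwards [eventually_norm_sub_gt z 0] with w hw
    have hne : w ≠ z := fun e => by simp [e] at hw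
    rw [dslope_of_ne _ hne, slope_def_field]
    have := sub_ne_zero.2 hne
    field_simp; ring
  have := h1.le_cap hS.isBounded (by positivity)
  rw [norm_neg] at this
  exact this.trans (le_of_eq (by ring))

/-- Second coefficient at infinity. -/
def Lim2 (f : ℂ → ℂ) (a b : ℂ) : Prop :=
  Tendsto (fun z => z * (z * f z - a)) (cocompact ℂ) (𝓝 b)

theorem lim2_shift {b : ℂ} (c : ℂ) (h : Tendsto (fun z => z * f z) (cocompact ℂ) (𝓝 a)) :
    Lim2 f a b ↔ Tendsto (fun z => (z - c) * ((z - c) * f z - a)) (cocompact ℂ) (𝓝 (b - c * a)) := by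
  have h1 := ((h.const_mul (2 * c)).sub ((tendsto_zero_of_mul h).const_mul (c ^ 2))).sub_const
    (c * a)
  constructor
  · intro h2
    have := h2.sub h1
    convert this using 2 <;> ring
  · intro h2
    have := h2.add h1
    unfold Lim2
    convert this using 2 <;> ring

theorem ext_coef2 {c : ℂ} {R : ℝ} (hR : 0 < R) (hd : DifferentiableOn ℂ f {z | R < ‖z - c‖})
    (hb : ∀ z, R < ‖z - c‖ → ‖f z‖ ≤ M) (hl : Tendsto (fun z => z * f z) (cocompact ℂ) (𝓝 a)) :
    ∃ b, Lim2 f a b ∧ ‖b - c * a‖ ≤ 2 * M * R ^ 2 ∧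
      ∀ z, R < ‖z - c‖ → ‖(z - c) * ((z - c) * f z - a)‖ ≤ 2 * M * R ^ 2 := by
  obtain ⟨a', h1, h2, h3⟩ := ext_schwarz hR hd hb (tendsto_zero_of_mul hl)
  obtain rfl := tendsto_nhds_unique (tendsto_shift c hl) h1
  obtain ⟨b', g1, g2, g3⟩ := ext_schwarz (h := fun z => (z - c) * f z - a) (M := 2 * M * R) hR
    (((differentiableOn_id.sub_const c).mul hd).sub_const a)
    (fun z hz => by linarith [norm_sub_le ((z - c) * f z) a, h3 z hz])
    (by simpa using h1.sub_const a)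
  refine ⟨b' + c * a, (lim2_shift c hl).2 (by simpa using g1), by
    rw [add_sub_cancel_right]; linarith, fun z hz => by linarith [g3 z hz]⟩

theorem Adm.coef2 (h : Adm S f a M) (hS : IsCompact S) {c : ℂ} {R : ℝ} (hR : 0 < R)
    (hSR : S ⊆ closedBall c R) : ∃ b, Lim2 f a b ∧ ‖b - c * a‖ ≤ 16 * M * R * cap S := by
  obtain ⟨b, h1, h2, _⟩ := ext_coef2 (c := c) (R := 2 * R) (M := 2 * M * cap S / R) (by linarith)
    (h.diff.mono (ext_subset hSR (by linarith))) (fun z hz => h.norm_le_cap hS hR fun w hw => by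
      refine ext_subset hSR le_rfl ?_
      rw [mem_ball, dist_eq_norm] at hw
      have := norm_sub_le_norm_sub_add_norm_sub z w c
      rw [norm_sub_rev z w] at this
      show R < ‖w - c‖
      linarith) h.lim
  refine ⟨b, h1, h2.trans (le_of_eq ?_)⟩
  field_simp; ring

theorem triple_zero {c : ℂ} {R : ℝ} (hR : 0 < R) (hd : DifferentiableOn ℂ f {z | R < ‖z - c‖})
    (hb : ∀ z, R < ‖z - c‖ → ‖f z‖ ≤ M) (hl : Tendsto (fun z => z * f z) (cocompact ℂ) (𝓝 0))
    (h2 : Lim2 f 0 0) {z : ℂ} (hz : R < ‖z - c‖) : ‖f z‖ ≤ M * R ^ 3 / ‖z - c‖ ^ 3 := by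
  obtain ⟨_, _, _, a3⟩ := ext_schwarz hR hd hb (tendsto_zero_of_mul hl)
  have d1 := (differentiableOn_id.sub_const c).mul hd
  obtain ⟨_, _, _, b3⟩ := ext_schwarz (h := fun z => (z - c) * f z) hR d1 a3 (tendsto_shift c hl)
  have h3 := (lim2_shift c hl).1 h2
  simp only [sub_zero, mul_zero] at h3
  obtain ⟨_, _, _, c3⟩ := ext_schwarz (h := fun z => (z - c) * ((z - c) * f z)) hR
    ((differentiableOn_id.sub_const c).mul d1) b3 h3
  have := c3 z hz
  rw [norm_mul, norm_mul, norm_mul] at this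
  rw [le_div_iff₀ (by have : 0 < ‖z - c‖ := by linarith
                      positivity)]
  linarith

theorem Lim2.add {g : ℂ → ℂ} {b a' b' : ℂ} (h : Lim2 f a b) (h' : Lim2 g a' b') :
    Lim2 (fun z => f z + g z) (a + a') (b + b') :=
  (Tendsto.add h h').congr fun z => by ring

theorem Lim2.const_mul {b : ℂ} (h : Lim2 f a b) (t : ℂ) :
    Lim2 (fun z => t * f z) (t * a) (t * b) :=
  (Tendsto.const_mul t h).congr fun z => by ring

theorem Lim2.sub {g : ℂ → ℂ} {b a' b' : ℂ} (h : Lim2 f a b) (h' : Lim2 g a' b') :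
    Lim2 (fun z => f z - g z) (a - a') (b - b') :=
  (Tendsto.sub h h').congr fun z => by ring

end

end Pool.Agent.Lib.MP_dfc9b7_an
end

-- part Pool.Agent.Lib.MP_dfc9b7_an.CI
section

/-! Planar Cauchy integrals of bounded compactly supported functions, Pompeiu formula. -/

set_option autoImplicit false
open Filter Topology Set Metric MeasureTheory
open scoped Real

namespace Pool.Agent.Lib.MP_dfc9b7_an

noncomputable section

/-- Bounded measurable functions with bounded support. -/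
structure BC (ψ : ℂ → ℂ) (Λ : ℝ) : Prop where
  meas : AEStronglyMeasurable ψ volume
  bd : ∀ w, ‖ψ w‖ ≤ Λ
  supp : ∃ R, ∀ w, R < ‖w‖ → ψ w = 0

/-- Planar Cauchy integral. -/
def CI (ψ : ℂ → ℂ) (z : ℂ) : ℂ := ∫ w, ψ w / (w - z)

variable {ψ : ℂ → ℂ} {Λ : ℝ}

theorem BC.nonneg (h : BC ψ Λ) : 0 ≤ Λ := (norm_nonneg _).trans (h.bd 0)

theorem BC.integrable (h : BC ψ Λ) : Integrable ψ := by
  obtain ⟨R, hR⟩ := h.supp
  refine Integrable.mono' (g := indicator (closedBall 0 R) fun _ => Λ)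
    ((integrable_indicator_iff measurableSet_closedBall).2
      (integrableOn_const measure_closedBall_lt_top.ne)) h.meas (ae_of_all _ fun w => ?_)
  by_cases hw : w ∈ closedBall (0:ℂ) R
  · rw [indicator_of_mem hw]; exact h.bd w
  · rw [indicator_of_notMem hw, hR w (by simpa using hw), norm_zero]

theorem inv_ball_integrable (z : ℂ) (r : ℝ) :
    Integrable (indicator (ball z r) fun w => ‖w - z‖⁻¹) := by
  have h1 : IntegrableOn (fun w : ℂ => ‖w‖⁻¹) (ball 0 r) :=
    integrableOn_ball_of_norm_le_rpow (C := 1) (α := 1) (by simp) (by simp)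
      (ae_of_all _ fun w => by simp [Real.rpow_neg_one]) (by fun_prop)
  have h2 := ((integrable_indicator_iff measurableSet_ball).2 h1).comp_sub_right z
  refine h2.congr (ae_of_all _ fun w => ?_)
  simp only [indicator, mem_ball, dist_eq_norm, sub_zero]

theorem inv_ball_integral (z : ℂ) {r : ℝ} (hr : 0 < r) :
    ∫ w, indicator (ball z r) (fun w => ‖w - z‖⁻¹) w = 2 * π * r := by
  have h1 := integral_fun_norm_addHaar (volume : Measure ℂ) (indicator (Iio r) fun y : ℝ => y⁻¹)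
  have h2 := integral_sub_right_eq_self (μ := (volume : Measure ℂ))
    (fun w : ℂ => indicator (Iio r) (fun y : ℝ => y⁻¹) ‖w‖) z
  have e1 : ∫ w, indicator (ball z r) (fun w => ‖w - z‖⁻¹) w =
      ∫ w : ℂ, indicator (Iio r) (fun y : ℝ => y⁻¹) ‖w - z‖ :=
    integral_congr_ae (ae_of_all _ fun w => by simp only [indicator, mem_ball, dist_eq_norm, mem_Iio])
  have e2 : ∫ y in Ioi (0:ℝ), y ^ (Module.finrank ℝ ℂ - 1) • indicator (Iio r) (fun y : ℝ => y⁻¹) y
      = r := by
    rw [setIntegral_congr_fun (g := indicator (Iio r) fun _ => (1:ℝ)) measurableSet_Ioi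
      fun y hy => by
        have : y ≠ 0 := ne_of_gt hy
        simp only [indicator, Complex.finrank_real_complex]
        split_ifs <;> simp [this], integral_indicator measurableSet_Iio,
      Measure.restrict_restrict measurableSet_Iio, Iio_inter_Ioi]
    simp [hr.le]
  rw [e1, h2, h1, e2]
  simp [Measure.real, Complex.volume_ball]
  ring

theorem BC.div_le (h : BC ψ Λ) (z : ℂ) {r : ℝ} (hr : 0 < r) (w : ℂ) :
    ‖ψ w / (w - z)‖ ≤ Λ * indicator (ball z r) (fun w => ‖w - z‖⁻¹) w + ‖ψ w‖ / r := by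
  rw [norm_div]
  by_cases hw : w ∈ ball z r
  · rw [indicator_of_mem hw, ← div_eq_mul_inv]
    have := div_le_div_of_nonneg_right (h.bd w) (norm_nonneg (w - z))
    have : 0 ≤ ‖ψ w‖ / r := by positivity
    linarith
  · rw [indicator_of_notMem hw, mul_zero, zero_add]
    rw [mem_ball, dist_eq_norm, not_lt] at hw
    exact div_le_div_of_nonneg_left (norm_nonneg _) hr hw

theorem BC.integrable_div (h : BC ψ Λ) (z : ℂ) : Integrable fun w => ψ w / (w - z) :=
  Integrable.mono' (((inv_ball_integrable z 1).const_mul Λ).add (h.integrable.norm.div_const 1))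
    (h.meas.mul (by fun_prop : Measurable fun w : ℂ => (w - z)⁻¹).aestronglyMeasurable)
    (ae_of_all _ fun w => h.div_le z one_pos w)

theorem BC.int_div_le (h : BC ψ Λ) (z : ℂ) {r : ℝ} (hr : 0 < r) :
    ∫ w, ‖ψ w / (w - z)‖ ≤ 2 * π * Λ * r + (∫ w, ‖ψ w‖) / r := by
  refine (integral_mono (h.integrable_div z).norm
    (((inv_ball_integrable z r).const_mul Λ).add (h.integrable.norm.div_const r))
    fun w => h.div_le z hr w).trans (le_of_eq ?_)
  rw [integral_add' ((inv_ball_integrable z r).const_mul Λ) (h.integrable.norm.div_const r),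
    integral_const_mul, inv_ball_integral z hr, integral_div]
  ring

theorem BC.norm_CI_le (h : BC ψ Λ) (z : ℂ) {r : ℝ} (hr : 0 < r) :
    ‖CI ψ z‖ ≤ 2 * π * Λ * r + (∫ w, ‖ψ w‖) / r :=
  (norm_integral_le_integral_norm _).trans (h.int_div_le z hr)

theorem int_norm_le_of_ball {c : ℂ} {R : ℝ} (hR : 0 ≤ R) (h : ∀ w, ‖ψ w‖ ≤ Λ)
    (h0 : ∀ w, R < ‖w - c‖ → ψ w = 0) : ∫ w, ‖ψ w‖ ≤ Λ * (π * R ^ 2) := by
  have h1 : ∫ w, ‖ψ w‖ ≤ ∫ w, indicator (closedBall c R) (fun _ => Λ) w := by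
    refine integral_mono_of_nonneg (ae_of_all _ fun w => norm_nonneg _)
      ((integrable_indicator_iff measurableSet_closedBall).2
        (integrableOn_const measure_closedBall_lt_top.ne)) (ae_of_all _ fun w => ?_)
    by_cases hw : w ∈ closedBall c R
    · simp only [indicator_of_mem hw]; exact h w
    · simp only [indicator_of_notMem hw]
      rw [h0 w (by simpa [dist_eq_norm] using hw), norm_zero]
  refine h1.trans (le_of_eq ?_)
  rw [integral_indicator measurableSet_closedBall, setIntegral_const]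
  simp [Measure.real, Complex.volume_closedBall, hR]
  ring

theorem BC.norm_CI_le_ball (h : BC ψ Λ) {c : ℂ} {R : ℝ} (hR : 0 < R)
    (h0 : ∀ w, R < ‖w - c‖ → ψ w = 0) (z : ℂ) : ‖CI ψ z‖ ≤ 3 * π * Λ * R := by
  refine (h.norm_CI_le z hR).trans ?_
  have := div_le_div_of_nonneg_right (int_norm_le_of_ball hR.le h.bd h0) hR.le
  have e : Λ * (π * R ^ 2) / R = π * Λ * R := by field_simp
  linarith

theorem differentiableOn_param {U : Set ℂ} (hU : IsOpen U) {G : ℂ → ℂ → ℂ} {B : ℂ → ℝ}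
    (hm : ∀ z ∈ U, AEStronglyMeasurable (G z) volume)
    (hd : ∀ w, DifferentiableOn ℂ (fun z => G z w) U) (hb : ∀ z ∈ U, ∀ w, ‖G z w‖ ≤ B w)
    (hB : Integrable B) : DifferentiableOn ℂ (fun z => ∫ w, G z w) U := by
  intro z₀ hz₀
  obtain ⟨r, hr, hrU⟩ := Metric.isOpen_iff.1 hU z₀ hz₀
  have hsub : ∀ z ∈ ball z₀ (r / 2), ball z (r / 2) ⊆ U := fun z hz =>
    (ball_subset_ball' (by rw [mem_ball] at hz; linarith)).trans hrU
  have hmem : ∀ z ∈ ball z₀ (r / 2), z ∈ U := fun z hz => hsub z hz (mem_ball_self (by linarith))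
  have key := hasDerivAt_integral_of_dominated_loc_of_deriv_le (μ := volume) (F := G)
    (ball_mem_nhds z₀ (half_pos hr)) (F' := fun z w => deriv (fun z => G z w) z)
    (bound := fun w => 2 * B w / (r / 2))
    (by filter_upwards [hU.mem_nhds hz₀] with z hz using hm z hz)
    (hB.mono' (hm z₀ hz₀) (ae_of_all _ (hb z₀ hz₀))) ?_
    (ae_of_all _ fun w z hz => ?_) ((hB.const_mul 2).div_const _)
    (ae_of_all _ fun w z hz => ((hd w).differentiableAt (hU.mem_nhds (hmem z hz))).hasDerivAt)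
  · exact key.2.differentiableAt.differentiableWithinAt
  · set t : ℕ → ℂ := fun n => ((r / 4 / (n + 1) : ℝ) : ℂ) with ht
    have ht0 : ∀ n, t n ≠ 0 := fun n => by
      simp only [ht]; exact_mod_cast (by positivity : r / 4 / ((n:ℝ) + 1) ≠ 0)
    have ht1 : Tendsto t atTop (𝓝[≠] 0) := by
      refine tendsto_nhdsWithin_iff.2 ⟨?_, Eventually.of_forall ht0⟩
      have := (Complex.continuous_ofReal.tendsto 0).comp
        (tendsto_const_div_atTop_nhds_zero_nat (r / 4) |>.comp (tendsto_add_atTop_nat 1))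
      refine this.congr fun n => by simp [ht]
    have ht2 : ∀ n, z₀ + t n ∈ U := fun n => hrU (by
      rw [mem_ball, dist_eq_norm, add_sub_cancel_left, ht, Complex.norm_real,
        Real.norm_of_nonneg (by positivity)]
      have : r / 4 / ((n:ℝ) + 1) ≤ r / 4 := div_le_self (by positivity) (by simp)
      linarith)
    refine aestronglyMeasurable_of_tendsto_ae atTop
      (f := fun n w => (t n)⁻¹ • (G (z₀ + t n) w - G z₀ w))
      (fun n => ((hm _ (ht2 n)).sub (hm _ hz₀)).const_smul (t n)⁻¹) (ae_of_all _ fun w => ?_)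
    exact (((hd w).differentiableAt (hU.mem_nhds hz₀)).hasDerivAt.tendsto_slope_zero).comp ht1
  · refine Complex.norm_deriv_le_div_of_mapsTo_ball ((hd w).mono (hsub z hz)) (fun u hu => ?_)
      (half_pos hr)
    rw [mem_closedBall, dist_eq_norm]
    linarith [norm_sub_le (G u w) (G z w), hb u (hsub z hz hu) w, hb z (hmem z hz) w]

theorem BC.differentiableOn_CI (h : BC ψ Λ) {T : Set ℂ} (hT : IsClosed T)
    (h0 : ∀ w, w ∉ T → ψ w = 0) : DifferentiableOn ℂ (CI ψ) Tᶜ := by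
  intro z₀ hz₀
  obtain ⟨r, hr, hrU⟩ := Metric.isOpen_iff.1 hT.isOpen_compl z₀ hz₀
  have hsep : ∀ z ∈ ball z₀ (r / 2), ∀ w ∈ T, r / 2 ≤ ‖w - z‖ := fun z hz w hw => by
    by_contra hc
    refine hrU (a := w) ?_ hw
    rw [mem_ball, dist_eq_norm] at hz ⊢
    linarith [norm_sub_le_norm_sub_add_norm_sub w z z₀]
  refine ((differentiableOn_param isOpen_ball (G := fun z w => ψ w / (w - z))
    (B := fun w => ‖ψ w‖ / (r / 2)) (fun z _ => (h.integrable_div z).1) (fun w => ?_)
    (fun z hz w => ?_) (h.integrable.norm.div_const _)).differentiableAt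
      (ball_mem_nhds z₀ (half_pos hr))).differentiableWithinAt
  · by_cases hw : w ∈ T
    · refine (differentiableOn_const _).div ((differentiableOn_const _).sub differentiableOn_id)
        fun z hz h => ?_
      have := hsep z hz w hw
      rw [h, norm_zero] at this; linarith
    · simp [h0 w hw]
  · by_cases hw : w ∈ T
    · rw [norm_div]; exact div_le_div_of_nonneg_left (norm_nonneg _) (half_pos hr) (hsep z hz w hw)
    · simp [h0 w hw]

theorem BC.tendsto_CI (h : BC ψ Λ) :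
    Tendsto (fun z => z * CI ψ z) (cocompact ℂ) (𝓝 (-∫ w, ψ w)) := by
  obtain ⟨R, hR⟩ := h.supp
  set R' := max R 1 with hR'
  have hR1 : 1 ≤ R' := le_max_right _ _
  have h1 : Tendsto (fun z => z * CI ψ z + ∫ w, ψ w) (cocompact ℂ) (𝓝 0) := by
    refine tendsto_of_norm_le_div (c := 0) (R := 2 * R') (A := 2 * R' * ∫ w, ‖ψ w‖) fun z hz => ?_
    rw [sub_zero] at hz ⊢
    unfold CI
    rw [← integral_const_mul, ← integral_add ((h.integrable_div z).const_mul z) h.integrable,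
      ← integral_const_mul, ← integral_const_mul]
    refine norm_integral_le_of_norm_le (h.integrable.norm.const_mul _) (ae_of_all _ fun w => ?_)
    by_cases hw : R' < ‖w‖
    · rw [hR w (lt_of_le_of_lt (le_max_left _ _) hw)]; simp
    push Not at hw
    have a1 : ‖z‖ / 2 ≤ ‖w - z‖ := by
      have := norm_sub_norm_le z w
      rw [norm_sub_rev] at this; linarith
    have a2 : w - z ≠ 0 := fun e => by rw [e, norm_zero] at a1; linarith
    have e : z * (z * (ψ w / (w - z)) + ψ w) = z * w / (w - z) * ψ w := by field_simp; ring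
    rw [e, norm_mul, norm_div, norm_mul]
    refine mul_le_mul_of_nonneg_right ?_ (norm_nonneg _)
    rw [div_le_iff₀ (by linarith)]
    nlinarith [norm_nonneg z, norm_nonneg w]
  simpa using h1.sub_const (∫ w, ψ w)

/-- The conjugate Wirtinger derivative. -/
def dbar (φ : ℂ → ℂ) (w : ℂ) : ℂ := (fderiv ℝ φ w 1 + Complex.I * fderiv ℝ φ w Complex.I) / 2

theorem norm_dbar_le (φ : ℂ → ℂ) (w : ℂ) : ‖dbar φ w‖ ≤ ‖fderiv ℝ φ w‖ := by
  unfold dbar
  have h1 := (fderiv ℝ φ w).le_opNorm 1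
  have h2 := (fderiv ℝ φ w).le_opNorm Complex.I
  have h3 := norm_add_le (fderiv ℝ φ w 1) (Complex.I * fderiv ℝ φ w Complex.I)
  simp only [norm_one, mul_one, Complex.norm_I, norm_mul, one_mul] at h1 h2 h3
  rw [norm_div, Complex.norm_two]; linarith

theorem clm_polar (A : ℂ →L[ℝ] ℂ) (e : ℂ) :
    A e + Complex.I * A (Complex.I * e) = (A 1 + Complex.I * A Complex.I) * (starRingEnd ℂ) e := by
  have h0 : ∀ x y : ℝ, A (x + y * Complex.I) = x * A 1 + y * A Complex.I := fun x y => by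
    have : (x + y * Complex.I : ℂ) = x • (1:ℂ) + y • Complex.I := by simp
    rw [this, map_add, map_smul, map_smul, Complex.real_smul, Complex.real_smul]
  have h1 := h0 e.re e.im
  have h2 := h0 (-e.im) e.re
  have h3 : (starRingEnd ℂ) e = e.re - e.im * Complex.I := by apply Complex.ext <;> simp
  have h4 : Complex.I * e = ((-e.im : ℝ) : ℂ) + e.re * Complex.I := by apply Complex.ext <;> simp
  rw [Complex.re_add_im] at h1
  rw [h4, h1, h2, h3]
  push_cast
  linear_combination (A Complex.I * e.im) * Complex.I_mul_I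

theorem pompeiu {φ : ℂ → ℂ} (h1 : ContDiff ℝ 1 φ) (h2 : HasCompactSupport φ) (z : ℂ) :
    CI (dbar φ) z = -π * φ z := by
  have hd := h1.differentiable one_ne_zero
  have hc : Continuous (fderiv ℝ φ) := h1.continuous_fderiv one_ne_zero
  obtain ⟨R, hR0, hR⟩ := h2.isCompact.isBounded.subset_closedBall_lt 0 z
  set e : ℝ → ℂ := fun θ => (Real.cos θ : ℂ) + (Real.sin θ : ℂ) * Complex.I with he
  have hen : ∀ θ, ‖e θ‖ = 1 := fun θ => by
    simp only [he]; push_cast; rw [← Complex.exp_mul_I]; simp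
  have hec : Continuous e := by simp only [he]; fun_prop
  have hfar : ∀ (r θ : ℝ), R < r → z + r * e θ ∉ tsupport φ := fun r θ hr hm => by
    have := hR hm
    rw [mem_closedBall, dist_eq_norm, add_sub_cancel_left, norm_mul, hen, mul_one,
      Complex.norm_real, Real.norm_of_nonneg (by linarith)] at this
    linarith
  have hint : ∀ v : ℝ → ℂ, Continuous v → (∀ θ, ‖v θ‖ = 1) →
      IntegrableOn (fun p : ℝ × ℝ => fderiv ℝ φ (z + p.1 * e p.2) (v p.2))
        (Ioi 0 ×ˢ Ioo (-π) π) := by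
    intro v hv hv1
    have hcont : Continuous fun p : ℝ × ℝ => fderiv ℝ φ (z + p.1 * e p.2) (v p.2) :=
      (hc.comp (by fun_prop)).clm_apply (by fun_prop)
    refine IntegrableOn.of_forall_sdiff_eq_zero (s := Icc 0 R ×ˢ Icc (-π) π)
      (hcont.continuousOn.integrableOn_compact (isCompact_Icc.prod isCompact_Icc))
      (measurableSet_Ioi.prod measurableSet_Ioo) fun p hp => ?_
    have : R < p.1 := by
      by_contra hc
      exact hp.2 ⟨⟨hp.1.1.le, not_lt.1 hc⟩, hp.1.2.1.le, hp.1.2.2.le⟩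
    rw [fderiv_of_notMem_tsupport ℝ (hfar _ _ this)]; rfl
  have i1 := hint e hec hen
  have i2 := hint (fun θ => Complex.I * e θ) (by fun_prop) (fun θ => by simp [hen])
  have e1 : CI (dbar φ) z = ∫ p : ℝ × ℝ in Ioi 0 ×ˢ Ioo (-π) π,
      (fderiv ℝ φ (z + p.1 * e p.2) (e p.2) +
        Complex.I * fderiv ℝ φ (z + p.1 * e p.2) (Complex.I * e p.2)) / 2 := by
    unfold CI
    rw [← integral_add_left_eq_self _ z, ← Complex.integral_comp_polarCoord_symm]
    refine setIntegral_congr_fun (measurableSet_Ioi.prod measurableSet_Ioo) fun p hp => ?_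
    have hp0 : (p.1 : ℂ) ≠ 0 := by exact_mod_cast ne_of_gt hp.1
    have he0 : e p.2 ≠ 0 := fun h => by have := hen p.2; rw [h] at this; simp at this
    have hm : e p.2 * (starRingEnd ℂ) (e p.2) = 1 := by rw [Complex.mul_conj', hen]; simp
    simp only [Complex.polarCoord_symm_apply, add_sub_cancel_left, clm_polar, dbar,
      Complex.real_smul]
    change (p.1 : ℂ) * (_ / 2 / (p.1 * e p.2)) = _
    field_simp
    linear_combination (-(fderiv ℝ φ (z + p.1 * e p.2) 1 +
      Complex.I * fderiv ℝ φ (z + p.1 * e p.2) Complex.I)) * hm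
  have e2 : ∫ p : ℝ × ℝ in Ioi 0 ×ˢ Ioo (-π) π, fderiv ℝ φ (z + p.1 * e p.2) (e p.2) = -(2 * π) * φ z := by
    have i1' := i1
    rw [IntegrableOn, Measure.volume_eq_prod, ← Measure.prod_restrict] at i1'
    rw [Measure.volume_eq_prod, ← Measure.prod_restrict, integral_prod_symm _ i1']
    have : ∀ θ, ∫ r in Ioi (0:ℝ), fderiv ℝ φ (z + r * e θ) (e θ) = -φ z := by
      intro θ
      have hder : ∀ r : ℝ, HasDerivAt (fun r : ℝ => φ (z + r * e θ))
          (fderiv ℝ φ (z + r * e θ) (e θ)) r := fun r =>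
        (hd _).hasFDerivAt.comp_hasDerivAt r (by
          simpa using ((Complex.ofRealCLM.hasDerivAt (x := r)).mul_const (e θ)).const_add z)
      have hcont : Continuous fun r : ℝ => fderiv ℝ φ (z + r * e θ) (e θ) :=
        (hc.comp (by fun_prop)).clm_apply (by fun_prop)
      rw [integral_Ioi_of_hasDerivAt_of_tendsto' (m := 0) (fun r _ => hder r)]
      · simp
      · refine IntegrableOn.of_forall_sdiff_eq_zero (s := Icc 0 R)
          (hcont.continuousOn.integrableOn_compact isCompact_Icc) measurableSet_Ioi fun r hr => ?_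
        have : R < r := by
          by_contra hc
          exact hr.2 ⟨hr.1.le, not_lt.1 hc⟩
        rw [fderiv_of_notMem_tsupport ℝ (hfar _ _ this)]; rfl
      · refine tendsto_const_nhds.congr' ?_
        filter_upwards [eventually_gt_atTop R] with r hr
        exact (image_eq_zero_of_notMem_tsupport (hfar _ _ hr)).symm
    simp only [this]
    rw [setIntegral_const]
    simp [Real.pi_pos.le, ← two_mul]
  have e3 : ∫ p : ℝ × ℝ in Ioi 0 ×ˢ Ioo (-π) π,
      fderiv ℝ φ (z + p.1 * e p.2) (Complex.I * e p.2) = 0 := by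
    rw [Measure.volume_eq_prod, setIntegral_prod _ (by rwa [← Measure.volume_eq_prod])]
    refine setIntegral_eq_zero_of_forall_eq_zero fun r hr => ?_
    have hr0 : (r : ℂ) ≠ 0 := by exact_mod_cast ne_of_gt hr
    have hder : ∀ θ : ℝ, HasDerivAt (fun θ : ℝ => (r : ℂ)⁻¹ * φ (z + r * e θ))
        (fderiv ℝ φ (z + r * e θ) (Complex.I * e θ)) θ := fun θ => by
      have a1 : HasDerivAt e (Complex.I * e θ) θ := by
        have := ((Real.hasDerivAt_cos θ).ofReal_comp).add
          (((Real.hasDerivAt_sin θ).ofReal_comp).mul_const Complex.I)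
        refine HasDerivAt.congr_deriv this ?_
        simp only [he]; push_cast
        linear_combination (-Complex.sin θ) * Complex.I_mul_I
      have a2 := ((hd _).hasFDerivAt.comp_hasDerivAt θ
        ((a1.const_mul (r : ℂ)).const_add z)).const_mul (r : ℂ)⁻¹
      refine HasDerivAt.congr_deriv a2 ?_
      rw [← Complex.real_smul (x := r) (z := Complex.I * e θ), map_smul, Complex.real_smul]
      field_simp
    have hcont : Continuous fun θ : ℝ => fderiv ℝ φ (z + r * e θ) (Complex.I * e θ) :=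
      (hc.comp (by fun_prop)).clm_apply (by fun_prop)
    rw [← integral_Ioc_eq_integral_Ioo, ← intervalIntegral.integral_of_le (by linarith [Real.pi_pos]),
      intervalIntegral.integral_eq_sub_of_hasDerivAt (fun θ _ => hder θ)
        (hcont.intervalIntegrable _ _)]
    simp [he]
  rw [e1, integral_div, integral_add i1 (i2.const_mul _), integral_const_mul, e2, e3]
  ring

end

end Pool.Agent.Lib.MP_dfc9b7_an
end

-- part Pool.Agent.Lib.MP_dfc9b7_an.Loc
section

/-! The Vitushkin localisation operator. -/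

set_option autoImplicit false
open Filter Topology Set Metric MeasureTheory
open scoped Real

namespace Pool.Agent.Lib.MP_dfc9b7_an

noncomputable section

/-- Test functions. -/
structure Tst (φ : ℂ → ℂ) : Prop where
  c1 : ContDiff ℝ 1 φ
  cs : HasCompactSupport φ

/-- Admissible functions that are bounded and measurable on the whole plane. -/
structure Nice (S : Set ℂ) (F : ℂ → ℂ) (a : ℂ) (M : ℝ) : Prop where
  adm : Adm S F a M
  bd : ∀ z, ‖F z‖ ≤ M
  meas : AEStronglyMeasurable F volume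
  cpt : IsCompact S

/-- Pairing of the distributional derivative with a test function. -/
def pr (F φ : ℂ → ℂ) : ℂ := -(π : ℂ)⁻¹ * ∫ w, F w * dbar φ w

/-- Localisation operator. -/
def Tl (F φ : ℂ → ℂ) (z : ℂ) : ℂ := φ z * F z + (π : ℂ)⁻¹ * CI (fun w => F w * dbar φ w) z

variable {S : Set ℂ} {f F φ ψ : ℂ → ℂ} {a : ℂ} {M : ℝ}

theorem Adm.congr {g : ℂ → ℂ} (h : Adm S f a M) (hS : IsCompact S) (hg : ∀ z ∈ Sᶜ, g z = f z) :
    Adm S g a M :=
  ⟨h.diff.congr hg, fun z hz => by rw [hg z hz]; exact h.bd z hz, h.lim.congr' (by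
    filter_upwards [hS.compl_mem_cocompact] with z hz; rw [hg z hz])⟩

theorem Adm.nonneg (h : Adm S f a M) (hS : IsCompact S) : 0 ≤ M := by
  obtain ⟨z, hz⟩ := hS.compl_mem_cocompact |> Filter.nonempty_of_mem
  exact (norm_nonneg _).trans (h.bd z hz)

theorem Adm.nice (h : Adm S f a M) (hS : IsCompact S) : Nice S (indicator Sᶜ f) a M := by
  refine ⟨h.congr hS fun z hz => indicator_of_mem hz f, fun z => ?_, ?_, hS⟩
  · by_cases hz : z ∈ Sᶜ
    · rw [indicator_of_mem hz]; exact h.bd z hz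
    · rw [indicator_of_notMem hz, norm_zero]; exact h.nonneg hS
  · rw [aestronglyMeasurable_indicator_iff hS.isClosed.isOpen_compl.measurableSet]
    exact h.diff.continuousOn.aestronglyMeasurable hS.isClosed.isOpen_compl.measurableSet

theorem dbar_of_notMem {w : ℂ} (h : w ∉ tsupport φ) : dbar φ w = 0 := by
  simp [dbar, fderiv_of_notMem_tsupport ℝ h]

theorem dbar_congr {w : ℂ} (h : φ =ᶠ[𝓝 w] ψ) : dbar φ w = dbar ψ w := by
  unfold dbar; rw [h.fderiv_eq]

theorem dbar_const (c w : ℂ) : dbar (fun _ => c) w = 0 := by simp [dbar]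

theorem dbar_mul {w : ℂ} (h1 : DifferentiableAt ℝ φ w) (h2 : DifferentiableAt ℝ ψ w) :
    dbar (fun u => φ u * ψ u) w = φ w * dbar ψ w + ψ w * dbar φ w := by
  unfold dbar; rw [fderiv_fun_mul h1 h2]; simp; ring

theorem dbar_add {w : ℂ} (h1 : DifferentiableAt ℝ φ w) (h2 : DifferentiableAt ℝ ψ w) :
    dbar (fun u => φ u + ψ u) w = dbar φ w + dbar ψ w := by
  unfold dbar; rw [fderiv_fun_add h1 h2]; simp; ring

theorem dbar_sub {w : ℂ} (h1 : DifferentiableAt ℝ φ w) (h2 : DifferentiableAt ℝ ψ w) :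
    dbar (fun u => φ u - ψ u) w = dbar φ w - dbar ψ w := by
  unfold dbar; rw [fderiv_fun_sub h1 h2]; simp; ring

theorem dbar_holo {w : ℂ} (h : DifferentiableAt ℂ φ w) : dbar φ w = 0 := by
  unfold dbar
  rw [(h.hasDerivAt.hasFDerivAt.restrictScalars ℝ).fderiv]
  simp
  linear_combination (deriv φ w) * Complex.I_mul_I

theorem dbar_conj_aux (φ : ℂ → ℂ) (h : ContDiff ℝ 1 φ) : Continuous (dbar φ) := by
  have hc : Continuous (fderiv ℝ φ) := h.continuous_fderiv one_ne_zero
  unfold dbar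
  exact ((hc.clm_apply continuous_const).add
    (continuous_const.mul (hc.clm_apply continuous_const))).div_const _

theorem Tst.diff (h : Tst φ) (w : ℂ) : DifferentiableAt ℝ φ w := h.c1.differentiable one_ne_zero w

theorem Tst.mul_right (h : Tst φ) (h' : ContDiff ℝ 1 ψ) : Tst fun w => φ w * ψ w :=
  ⟨h.c1.mul h', h.cs.mul_right⟩

theorem Tst.add (h : Tst φ) (h' : Tst ψ) : Tst fun w => φ w + ψ w := ⟨h.c1.add h'.c1, h.cs.add h'.cs⟩

theorem Tst.sub (h : Tst φ) (h' : Tst ψ) : Tst fun w => φ w - ψ w :=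
  ⟨h.c1.sub h'.c1, h.cs.sub h'.cs⟩

theorem tst_zero : Tst fun _ => 0 := ⟨contDiff_const, HasCompactSupport.zero⟩

theorem tst_sum {ι : Type*} (s : Finset ι) {φ : ι → ℂ → ℂ} (h : ∀ i ∈ s, Tst (φ i)) :
    Tst fun w => ∑ i ∈ s, φ i w := by
  classical
  induction s using Finset.induction_on with
  | empty => simpa using tst_zero
  | insert i s hi ih =>
    simp only [Finset.sum_insert hi]
    exact (h i (Finset.mem_insert_self _ _)).add
      (ih fun j hj => h j (Finset.mem_insert_of_mem hj))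

theorem dbar_sum {ι : Type*} (s : Finset ι) {φ : ι → ℂ → ℂ} (h : ∀ i ∈ s, Tst (φ i)) (w : ℂ) :
    dbar (fun w => ∑ i ∈ s, φ i w) w = ∑ i ∈ s, dbar (φ i) w := by
  classical
  induction s using Finset.induction_on with
  | empty => simpa using dbar_const 0 w
  | insert i s hi ih =>
    simp only [Finset.sum_insert hi]
    rw [dbar_add ((h i (Finset.mem_insert_self _ _)).diff w)
      ((tst_sum s fun j hj => h j (Finset.mem_insert_of_mem hj)).diff w),
      ih fun j hj => h j (Finset.mem_insert_of_mem hj)]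

theorem Tst.exists_bd (h : Tst φ) : ∃ Λ, ∀ w, ‖dbar φ w‖ ≤ Λ :=
  (dbar_conj_aux φ h.c1).bounded_above_of_compact_support
    (h.cs.mono' fun w hw => by by_contra hc; exact hw (dbar_of_notMem hc))

theorem Tst.bc (h : Tst φ) {G : ℂ → ℂ} (hm : AEStronglyMeasurable G volume) (hb : ∀ w, ‖G w‖ ≤ M)
    {Λ : ℝ} (hΛ : ∀ w, ‖dbar φ w‖ ≤ Λ) : BC (fun w => G w * dbar φ w) (M * Λ) := by
  refine ⟨hm.mul (dbar_conj_aux φ h.c1).aestronglyMeasurable, fun w => ?_, ?_⟩
  · rw [norm_mul]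
    exact mul_le_mul (hb w) (hΛ w) (norm_nonneg _) ((norm_nonneg _).trans (hb w))
  · obtain ⟨R, hR⟩ := h.cs.isCompact.isBounded.subset_closedBall 0
    exact ⟨R, fun w hw => by
      rw [dbar_of_notMem fun hm => absurd hw (not_lt.2 (by simpa using hR hm)), mul_zero]⟩

theorem Tst.bc' (h : Tst φ) {Λ : ℝ} (hΛ : ∀ w, ‖dbar φ w‖ ≤ Λ) : BC (dbar φ) Λ := by
  simpa using h.bc (G := fun _ => 1) (M := 1) aestronglyMeasurable_const (by simp) hΛ

theorem Tst.int_dbar (h : Tst φ) : Integrable (dbar φ) := by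
  obtain ⟨Λ, hΛ⟩ := h.exists_bd; exact (h.bc' hΛ).integrable

theorem Nice.int (hF : Nice S F a M) (h : Tst φ) : Integrable fun w => F w * dbar φ w := by
  obtain ⟨Λ, hΛ⟩ := h.exists_bd; exact (h.bc hF.meas hF.bd hΛ).integrable

theorem Nice.int_div (hF : Nice S F a M) (h : Tst φ) (z : ℂ) :
    Integrable fun w => F w * dbar φ w / (w - z) := by
  obtain ⟨Λ, hΛ⟩ := h.exists_bd; exact (h.bc hF.meas hF.bd hΛ).integrable_div z

theorem Nice.Tl_eq (hF : Nice S F a M) (h : Tst φ) (z : ℂ) :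
    Tl F φ z = -(π : ℂ)⁻¹ * ∫ w, dslope F w z * -dbar φ w := by
  obtain ⟨Λ, hΛ⟩ := h.exists_bd
  have hp : (π : ℂ) ≠ 0 := by exact_mod_cast Real.pi_ne_zero
  have e : ∫ w, dslope F w z * -dbar φ w =
      F z * CI (dbar φ) z - CI (fun w => F w * dbar φ w) z := by
    unfold CI
    rw [← integral_const_mul, ← integral_sub (((h.bc' hΛ).integrable_div z).const_mul _)
      (hF.int_div h z)]
    refine integral_congr_ae ?_
    filter_upwards [compl_mem_ae_iff.2 (measure_singleton z)] with w hw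
    have hne : z ≠ w := fun e => hw (by simp [e])
    rw [dslope_of_ne _ hne, slope_def_field]
    have h1 := sub_ne_zero.2 hne
    have h2 := sub_ne_zero.2 hne.symm
    field_simp; ring
  rw [e, pompeiu h.c1 h.cs, Tl]
  field_simp; ring

theorem dslope_symm (F : ℂ → ℂ) (w z : ℂ) : dslope F w z = dslope F z w := by
  by_cases h : z = w
  · rw [h]
  · rw [dslope_of_ne _ h, dslope_of_ne _ (Ne.symm h), slope_comm]

theorem Nice.Tl_diff (hF : Nice S F a M) (h : Tst φ) :
    DifferentiableOn ℂ (Tl F φ) (S ∩ tsupport φ)ᶜ := by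
  obtain ⟨Λ, hΛ⟩ := h.exists_bd
  intro z₀ hz₀
  refine DifferentiableAt.differentiableWithinAt ?_
  by_cases h1 : z₀ ∈ tsupport φ
  swap
  · have ho := (isClosed_tsupport φ).isOpen_compl.mem_nhds h1
    have := (((h.bc hF.meas hF.bd hΛ).differentiableOn_CI (isClosed_tsupport φ) fun w hw => by
      rw [dbar_of_notMem hw, mul_zero]).differentiableAt ho).const_mul (π : ℂ)⁻¹
    refine this.congr_of_eventuallyEq ?_
    filter_upwards [ho] with z hz
    rw [Tl, image_eq_zero_of_notMem_tsupport hz, zero_mul, zero_add]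
  have h2 : z₀ ∈ Sᶜ := fun h2 => hz₀ ⟨h2, h1⟩
  have hSo := hF.cpt.isClosed.isOpen_compl
  obtain ⟨r, hr, hrU⟩ := Metric.isOpen_iff.1 hSo z₀ h2
  have hsub : ∀ z ∈ ball z₀ (r / 2), ball z (r / 2) ⊆ Sᶜ := fun z hz =>
    (ball_subset_ball' (by rw [mem_ball] at hz; linarith)).trans hrU
  have hin : ball z₀ (r / 2) ⊆ Sᶜ := (ball_subset_ball (by linarith)).trans hrU
  have := differentiableOn_param isOpen_ball (U := ball z₀ (r / 2))
    (G := fun z w => dslope F w z * -dbar φ w) (B := fun w => 2 * M / (r / 2) * ‖dbar φ w‖)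
    (fun z _ => ?_) (fun w => ?_) (fun z hz w => ?_) (h.int_dbar.norm.const_mul _)
  · rw [funext (hF.Tl_eq h)]
    exact (this.differentiableAt (ball_mem_nhds _ (half_pos hr))).const_mul _
  · refine AEStronglyMeasurable.mul ?_ (dbar_conj_aux φ h.c1).neg.aestronglyMeasurable
    refine ((((aestronglyMeasurable_const (b := F z)).sub hF.meas).mul
      (by fun_prop : Measurable fun w : ℂ => (z - w)⁻¹).aestronglyMeasurable).congr ?_)
    filter_upwards [compl_mem_ae_iff.2 (measure_singleton z)] with w hw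
    have hne : z ≠ w := fun e => hw (by simp [e])
    rw [dslope_of_ne _ hne, slope_def_field, div_eq_mul_inv]; rfl
  · refine DifferentiableOn.mul_const ?_ _
    by_cases hw : w ∈ Sᶜ
    · exact ((Complex.differentiableOn_dslope (hSo.mem_nhds hw)).2 hF.adm.diff).mono hin
    · exact (differentiableOn_dslope_of_notMem fun h => hw (hin h)).2 (hF.adm.diff.mono hin)
  · rw [norm_mul, norm_neg, dslope_symm]
    exact mul_le_mul_of_nonneg_right (dslope_bound (U := univ) (half_pos hr) (subset_univ _)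
      (hF.adm.diff.mono (hsub z hz)) (fun w _ => hF.bd w) (mem_univ w)) (norm_nonneg _)

theorem Nice.Tl_lim (hF : Nice S F a M) (h : Tst φ) :
    Tendsto (fun z => z * Tl F φ z) (cocompact ℂ) (𝓝 (pr F φ)) := by
  obtain ⟨Λ, hΛ⟩ := h.exists_bd
  have := (h.bc hF.meas hF.bd hΛ).tendsto_CI.const_mul (π : ℂ)⁻¹
  rw [pr, neg_mul, ← mul_neg]
  refine this.congr' ?_
  filter_upwards [h.cs.isCompact.compl_mem_cocompact] with z hz
  rw [Tl, image_eq_zero_of_notMem_tsupport hz]; ring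

theorem norm_pi_inv : ‖(π : ℂ)⁻¹‖ = π⁻¹ := by
  rw [norm_inv, Complex.norm_real, Real.norm_of_nonneg Real.pi_pos.le]

theorem Nice.Tl_bound (hF : Nice S F a M) (h : Tst φ) {A Λ R : ℝ} {c : ℂ} (hR : 0 < R)
    (hA : ∀ w, ‖φ w‖ ≤ A) (hΛ : ∀ w, ‖dbar φ w‖ ≤ Λ) (hs : tsupport φ ⊆ closedBall c R) (z : ℂ) :
    ‖Tl F φ z‖ ≤ M * (A + 3 * Λ * R) := by
  have h1 := (h.bc hF.meas hF.bd hΛ).norm_CI_le_ball (c := c) hR (fun w hw => by
    rw [dbar_of_notMem fun hm => absurd hw (not_lt.2 (by simpa [dist_eq_norm] using hs hm)),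
      mul_zero]) z
  refine (norm_add_le _ _).trans ?_
  rw [norm_mul, norm_mul, norm_pi_inv, mul_add]
  refine add_le_add ?_ ?_
  · rw [mul_comm]
    exact mul_le_mul (hF.bd z) (hA z) (norm_nonneg _) ((norm_nonneg _).trans (hF.bd z))
  · rw [inv_mul_le_iff₀ Real.pi_pos]; linarith

theorem Nice.Tl_adm (hF : Nice S F a M) (h : Tst φ) {A Λ R : ℝ} {c : ℂ} (hR : 0 < R)
    (hA : ∀ w, ‖φ w‖ ≤ A) (hΛ : ∀ w, ‖dbar φ w‖ ≤ Λ) (hs : tsupport φ ⊆ closedBall c R) :
    Adm (S ∩ tsupport φ) (Tl F φ) (pr F φ) (M * (A + 3 * Λ * R)) :=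
  ⟨hF.Tl_diff h, fun z _ => hF.Tl_bound h hR hA hΛ hs z, hF.Tl_lim h⟩

theorem Nice.norm_pr_le (hF : Nice S F a M) (h : Tst φ) {A Λ R : ℝ} {c : ℂ} (hR : 0 < R)
    (hA : ∀ w, ‖φ w‖ ≤ A) (hΛ : ∀ w, ‖dbar φ w‖ ≤ Λ) (hs : tsupport φ ⊆ closedBall c R) :
    ‖pr F φ‖ ≤ M * (A + 3 * Λ * R) * cap (S ∩ tsupport φ) :=
  (hF.Tl_adm h hR hA hΛ hs).le_cap (hF.cpt.isBounded.subset inter_subset_left)
    ((norm_nonneg _).trans (hF.Tl_bound h hR hA hΛ hs 0))

theorem Tst.exists_adm (h : Tst φ) (hF : Nice S F a M) :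
    ∃ M', (∀ z, ‖Tl F φ z‖ ≤ M') ∧ Adm (S ∩ tsupport φ) (Tl F φ) (pr F φ) M' := by
  obtain ⟨Λ, hΛ⟩ := h.exists_bd
  obtain ⟨A, hA⟩ := h.c1.continuous.bounded_above_of_compact_support h.cs
  obtain ⟨R, hR, hs⟩ := h.cs.isCompact.isBounded.subset_closedBall_lt 0 0
  exact ⟨_, hF.Tl_bound h hR hA hΛ hs, hF.Tl_adm h hR hA hΛ hs⟩

theorem Nice.pr_eq_zero (hF : Nice S F a M) (h : Tst φ) (hs : S ∩ tsupport φ = ∅) :
    pr F φ = 0 := by
  obtain ⟨M', h0, h1⟩ := h.exists_adm hF
  have := h1.le_cap (hF.cpt.isBounded.subset inter_subset_left) ((norm_nonneg _).trans (h0 0))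
  rw [hs, cap_empty, mul_zero] at this
  exact norm_le_zero_iff.1 this

theorem Nice.norm_pr_le_int (hF : Nice S F a M) (φ : ℂ → ℂ) {B : ℂ → ℝ} (hB : Integrable B)
    (h : ∀ w, ‖dbar φ w‖ ≤ B w) : ‖pr F φ‖ ≤ M / π * ∫ w, B w := by
  unfold pr
  rw [norm_mul, norm_neg, norm_pi_inv]
  have := norm_integral_le_of_norm_le (f := fun w => F w * dbar φ w) (hB.const_mul M)
    (ae_of_all _ fun w => by
      rw [norm_mul]
      exact mul_le_mul (hF.bd w) (h w) (norm_nonneg _) ((norm_nonneg _).trans (hF.bd w)))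
  rw [integral_const_mul] at this
  refine (mul_le_mul_of_nonneg_left this (by positivity)).trans (le_of_eq (by ring))

theorem Nice.pr_sum (hF : Nice S F a M) {ι : Type*} (s : Finset ι) {φ : ι → ℂ → ℂ}
    (h : ∀ i ∈ s, Tst (φ i)) : pr F (fun w => ∑ i ∈ s, φ i w) = ∑ i ∈ s, pr F (φ i) := by
  unfold pr
  rw [← Finset.mul_sum, ← integral_finsetSum _ fun i hi => hF.int (h i hi)]
  simp only [dbar_sum s h, Finset.mul_sum]

theorem Nice.Tl_sum (hF : Nice S F a M) {ι : Type*} (s : Finset ι) {φ : ι → ℂ → ℂ}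
    (h : ∀ i ∈ s, Tst (φ i)) (z : ℂ) :
    Tl F (fun w => ∑ i ∈ s, φ i w) z = ∑ i ∈ s, Tl F (φ i) z := by
  unfold Tl CI
  rw [Finset.sum_add_distrib, ← Finset.mul_sum, ← Finset.sum_mul,
    ← integral_finsetSum _ fun i hi => hF.int_div (h i hi) z]
  simp only [dbar_sum s h, Finset.mul_sum, Finset.sum_div]

theorem Nice.pr_sub (hF : Nice S F a M) (h : Tst φ) (h' : Tst ψ) :
    pr F (fun w => φ w - ψ w) = pr F φ - pr F ψ := by
  unfold pr
  rw [← mul_sub, ← integral_sub (hF.int h) (hF.int h')]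
  simp only [dbar_sub (h.diff _) (h'.diff _), mul_sub]

theorem pr_mul_const (h : Tst φ) (c : ℂ) : pr F (fun w => φ w * c) = pr F φ * c := by
  unfold pr
  rw [mul_assoc, ← integral_mul_const]
  congr 2
  funext w
  rw [dbar_mul (h.diff w) (differentiableAt_const c), dbar_const]; ring

theorem Nice.Tl_one (hF : Nice S F a M) (h : Tst φ) {U : Set ℂ} (hU : IsOpen U) (hSU : S ⊆ U)
    (h1 : ∀ w ∈ U, φ w = 1) (z : ℂ) : Tl F φ z = F z := by
  obtain ⟨Λ, hΛ⟩ := h.exists_bd
  have hd : Differentiable ℂ fun z => Tl F φ z - F z := by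
    intro z₀
    by_cases hz : z₀ ∈ U
    · have := (((h.bc hF.meas hF.bd hΛ).differentiableOn_CI hU.isClosed_compl fun w hw => by
        rw [dbar_congr (ψ := fun _ => 1), dbar_const, mul_zero]
        filter_upwards [hU.mem_nhds (not_not.1 hw)] with u hu using h1 u hu).differentiableAt
          (by rw [compl_compl]; exact hU.mem_nhds hz)).const_mul (π : ℂ)⁻¹
      refine this.congr_of_eventuallyEq ?_
      filter_upwards [hU.mem_nhds hz] with u hu
      rw [Tl, h1 u hu]; ring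
    · have ho := hF.cpt.isClosed.isOpen_compl.mem_nhds (fun h => hz (hSU h) : z₀ ∈ Sᶜ)
      exact (((hF.Tl_diff h).mono (compl_subset_compl.2 inter_subset_left)).differentiableAt
        ho).sub (hF.adm.diff.differentiableAt ho)
  have := hd.apply_eq_of_tendsto_cocompact z
    ((tendsto_zero_of_mul (hF.Tl_lim h)).sub (tendsto_zero_of_mul hF.adm.lim))
  rw [sub_zero] at this
  exact sub_eq_zero.1 this

theorem Nice.pr_one (hF : Nice S F a M) (h : Tst φ) {U : Set ℂ} (hU : IsOpen U) (hSU : S ⊆ U)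
    (h1 : ∀ w ∈ U, φ w = 1) : pr F φ = a := by
  have := hF.Tl_lim h
  simp only [hF.Tl_one h hU hSU h1] at this
  exact tendsto_nhds_unique this hF.adm.lim

theorem volume_eq_zero_of_cap {K : Set ℂ} (hK : IsCompact K) (h0 : cap K = 0) : volume K = 0 := by
  obtain ⟨R, hR, hs⟩ := hK.isBounded.subset_closedBall_lt 0 0
  have hb : BC (indicator K fun _ => (1:ℂ)) 1 := by
    refine ⟨aestronglyMeasurable_const.indicator hK.measurableSet, fun w => ?_, R, fun w hw => ?_⟩
    · by_cases h : w ∈ K <;> simp [h]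
    · exact indicator_of_notMem (fun h => absurd hw (not_lt.2 (by simpa using hs h))) _
  have h1 : Adm K (CI (indicator K fun _ => (1:ℂ))) _ (3 * π * 1 * R) :=
    ⟨hb.differentiableOn_CI hK.isClosed fun w hw => indicator_of_notMem hw _,
      fun z _ => hb.norm_CI_le_ball (c := 0) hR (fun w hw =>
        indicator_of_notMem (fun h => absurd hw (not_lt.2 (by simpa using hs h))) _) z,
      hb.tendsto_CI⟩
  have h2 := h1.le_cap hK.isBounded (by positivity)
  rw [h0, mul_zero, norm_neg, integral_indicator hK.measurableSet, setIntegral_const] at h2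
  have h3 : (volume K).toReal ≤ 0 := by simpa [Measure.real] using h2
  exact ((ENNReal.toReal_eq_zero_iff _).1 (le_antisymm h3 ENNReal.toReal_nonneg)).resolve_right
    hK.measure_lt_top.ne

end

end Pool.Agent.Lib.MP_dfc9b7_an
end

-- part Pool.Agent.Lib.MP_dfc9b7_an.Bump
section

/-! Bump functions, partitions of unity, packing. -/

set_option autoImplicit false
open Filter Topology Set Metric MeasureTheory
open scoped Real

namespace Pool.Agent.Lib.MP_dfc9b7_an

noncomputable section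

/-- Reference bump. -/
def bump0 : ContDiffBump (0 : ℂ) := ⟨1, 2, one_pos, one_lt_two⟩

/-- Complex valued reference bump. -/
def bump1 (w : ℂ) : ℂ := (bump0 w : ℝ)

theorem bump1_c1 : ContDiff ℝ 1 bump1 := Complex.ofRealCLM.contDiff.comp bump0.contDiff

theorem bump1_cs : HasCompactSupport bump1 :=
  bump0.hasCompactSupport.comp_left (g := fun x : ℝ => (x : ℂ)) (by simp)

theorem exists_Cb : ∃ C : ℝ, 1 ≤ C ∧ ∀ w, ‖fderiv ℝ bump1 w‖ ≤ C := by
  obtain ⟨C, hC⟩ := (bump1_c1.continuous_fderiv one_ne_zero).bounded_above_of_compact_support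
    (bump1_cs.fderiv ℝ)
  exact ⟨max 1 C, le_max_left _ _, fun w => (hC w).trans (le_max_right _ _)⟩

/-- Gradient bound for the reference bump. -/
def Cb : ℝ := Classical.choose exists_Cb

theorem one_le_Cb : 1 ≤ Cb := (Classical.choose_spec exists_Cb).1

theorem Cb_pos : 0 < Cb := lt_of_lt_of_le one_pos one_le_Cb

/-- Bump equal to one on the disc of radius `r`, vanishing off the disc of radius `2r`. -/
def bmp (c : ℂ) (r : ℝ) (w : ℂ) : ℂ := bump1 (r⁻¹ • (w - c))

variable {c : ℂ} {r : ℝ}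

theorem bmp_c1 (c : ℂ) (r : ℝ) : ContDiff ℝ 1 (bmp c r) :=
  bump1_c1.comp ((contDiff_id.sub contDiff_const).const_smul _)

theorem norm_inv_smul (hr : 0 < r) (w : ℂ) : ‖r⁻¹ • (w - c)‖ = ‖w - c‖ / r := by
  rw [norm_smul, Real.norm_of_nonneg (by positivity), inv_mul_eq_div]

theorem bmp_one (hr : 0 < r) {w : ℂ} (h : ‖w - c‖ ≤ r) : bmp c r w = 1 := by
  unfold bmp bump1
  rw [bump0.one_of_mem_closedBall]; · simp
  rw [mem_closedBall_zero_iff, norm_inv_smul hr]
  exact (div_le_one hr).2 h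

theorem bmp_zero (hr : 0 < r) {w : ℂ} (h : 2 * r ≤ ‖w - c‖) : bmp c r w = 0 := by
  unfold bmp bump1
  rw [bump0.zero_of_le_dist]; · simp
  rw [dist_zero_right, norm_inv_smul hr, le_div_iff₀ hr]; exact h

theorem bmp_tsupport (hr : 0 < r) : tsupport (bmp c r) ⊆ closedBall c (2 * r) :=
  closure_minimal (fun w hw => by
    by_contra hc
    rw [mem_closedBall, dist_eq_norm, not_le] at hc
    exact hw (bmp_zero hr hc.le)) isClosed_closedBall

theorem bmp_tst (hr : 0 < r) : Tst (bmp c r) :=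
  ⟨bmp_c1 c r, (isCompact_closedBall c (2 * r)).of_isClosed_subset (isClosed_tsupport _)
    (bmp_tsupport hr)⟩

theorem norm_bmp_le (c : ℂ) (r : ℝ) (w : ℂ) : ‖bmp c r w‖ ≤ 1 := by
  unfold bmp bump1
  rw [Complex.norm_real, Real.norm_of_nonneg bump0.nonneg]; exact bump0.le_one

theorem norm_one_sub_bmp_le (c : ℂ) (r : ℝ) (w : ℂ) : ‖1 - bmp c r w‖ ≤ 1 := by
  unfold bmp bump1
  rw [← Complex.ofReal_one, ← Complex.ofReal_sub, Complex.norm_real,
    Real.norm_of_nonneg (sub_nonneg.2 bump0.le_one)]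
  linarith [bump0.nonneg' (r⁻¹ • (w - c))]

theorem norm_fderiv_bmp_le (hr : 0 < r) (w : ℂ) : ‖fderiv ℝ (bmp c r) w‖ ≤ Cb / r := by
  have h1 : HasFDerivAt (fun w : ℂ => r⁻¹ • (w - c)) (r⁻¹ • ContinuousLinearMap.id ℝ ℂ) w :=
    ((hasFDerivAt_id w).sub_const c).const_smul r⁻¹
  have h2 := ((bump1_c1.differentiable one_ne_zero) (r⁻¹ • (w - c))).hasFDerivAt.comp w h1
  have : fderiv ℝ (bmp c r) w = _ := h2.fderiv
  rw [this]
  refine (ContinuousLinearMap.opNorm_comp_le _ _).trans ?_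
  rw [norm_smul, ContinuousLinearMap.norm_id, mul_one, Real.norm_of_nonneg (by positivity),
    div_eq_mul_inv]
  exact mul_le_mul_of_nonneg_right ((Classical.choose_spec exists_Cb).2 _) (by positivity)

theorem bmp_lip (hr : 0 < r) (w w' : ℂ) : ‖bmp c r w - bmp c r w'‖ ≤ Cb / r * ‖w - w'‖ :=
  convex_univ.norm_image_sub_le_of_norm_fderiv_le
    (fun u _ => (bmp_c1 c r).differentiable one_ne_zero u) (fun u _ => norm_fderiv_bmp_le hr u)
    (mem_univ w') (mem_univ w)

theorem norm_dbar_bmp_le (hr : 0 < r) (w : ℂ) :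
    ‖dbar (bmp c r) w‖ ≤ indicator (closedBall c (2 * r)) (fun _ => Cb / r) w := by
  by_cases h : w ∈ closedBall c (2 * r)
  · rw [indicator_of_mem h]; exact (norm_dbar_le _ _).trans (norm_fderiv_bmp_le hr w)
  · rw [indicator_of_notMem h, dbar_of_notMem fun h' => h (bmp_tsupport hr h'), norm_zero]

theorem dbar_bmp_inner (hr : 0 < r) {w : ℂ} (h : ‖w - c‖ < r) : dbar (bmp c r) w = 0 := by
  rw [dbar_congr (ψ := fun _ => 1), dbar_const]
  filter_upwards [isOpen_ball.mem_nhds (show w ∈ ball c r by rwa [mem_ball, dist_eq_norm])]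
    with u hu
  exact bmp_one hr (by rw [mem_ball, dist_eq_norm] at hu; exact hu.le)

theorem ind_ball_integrable (c : ℂ) (R A : ℝ) :
    Integrable (indicator (closedBall c R) fun _ => A) :=
  (integrable_indicator_iff measurableSet_closedBall).2
    (integrableOn_const measure_closedBall_lt_top.ne)

theorem ind_ball_integral (c : ℂ) {R : ℝ} (hR : 0 ≤ R) (A : ℝ) :
    ∫ w, indicator (closedBall c R) (fun _ => A) w = A * (π * R ^ 2) := by
  rw [integral_indicator measurableSet_closedBall, setIntegral_const]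
  simp [Measure.real, Complex.volume_closedBall, hR]
  ring

theorem norm_dbar_prod_le {ι : Type*} (s : Finset ι) {g : ι → ℂ → ℂ}
    (h1 : ∀ i ∈ s, ContDiff ℝ 1 (g i)) (w : ℂ) (h2 : ∀ i ∈ s, ‖g i w‖ ≤ 1) :
    ‖dbar (fun u => ∏ i ∈ s, g i u) w‖ ≤ ∑ i ∈ s, ‖dbar (g i) w‖ := by
  classical
  induction s using Finset.induction_on with
  | empty => simp [dbar_const]
  | insert i s hi ih =>
    simp only [Finset.prod_insert hi, Finset.sum_insert hi]
    have a1 := h1 i (Finset.mem_insert_self _ _)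
    have a2 : ∀ j ∈ s, ContDiff ℝ 1 (g j) := fun j hj => h1 j (Finset.mem_insert_of_mem hj)
    have a3 : ∀ j ∈ s, ‖g j w‖ ≤ 1 := fun j hj => h2 j (Finset.mem_insert_of_mem hj)
    rw [dbar_mul (a1.differentiable one_ne_zero w)
      ((contDiff_prod a2).differentiable one_ne_zero w)]
    refine (norm_add_le _ _).trans ?_
    rw [norm_mul, norm_mul]
    have b1 : ‖∏ j ∈ s, g j w‖ ≤ 1 := by
      rw [norm_prod]; exact Finset.prod_le_one (fun _ _ => norm_nonneg _) a3
    have b2 := mul_le_mul (h2 i (Finset.mem_insert_self _ _)) (ih a2 a3) (norm_nonneg _) zero_le_one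
    have b3 := mul_le_mul_of_nonneg_right b1 (norm_nonneg (dbar (g i) w))
    linarith

theorem norm_dbar_one_sub {φ : ℂ → ℂ} (h : ContDiff ℝ 1 φ) (w : ℂ) :
    ‖dbar (fun u => 1 - φ u) w‖ = ‖dbar φ w‖ := by
  rw [dbar_sub (differentiableAt_const _) (h.differentiable one_ne_zero w), dbar_const, zero_sub,
    norm_neg]

/-- Partition of unity subordinate to discs. -/
theorem exists_pu {ι : Type*} (s : Finset ι) (c : ι → ℂ) (r : ι → ℝ) (hr : ∀ i ∈ s, 0 < r i) :
    ∃ φ : ι → ℂ → ℂ, (∀ i ∈ s, Tst (φ i)) ∧ (∀ i ∈ s, tsupport (φ i) ⊆ closedBall (c i) (2 * r i)) ∧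
      (∀ i w, ‖φ i w‖ ≤ 1) ∧
      (∀ i ∈ s, ∀ w, ‖dbar (φ i) w‖ ≤
        ∑ j ∈ s, indicator (closedBall (c j) (2 * r j)) (fun _ => Cb / r j) w) ∧
      (∀ w, ∑ i ∈ s, φ i w = 1 - ∏ i ∈ s, (1 - bmp (c i) (r i) w)) := by
  classical
  let _ : LinearOrder ι := linearOrderOfSTO WellOrderingRel
  have hc : ∀ i, ContDiff ℝ 1 fun w => ∏ j ∈ s with j < i, (1 - bmp (c j) (r j) w) := fun i =>
    contDiff_prod fun j _ => contDiff_const.sub (bmp_c1 _ _)
  have hn : ∀ i w, ‖∏ j ∈ s with j < i, (1 - bmp (c j) (r j) w)‖ ≤ 1 := fun i w => by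
    rw [norm_prod]
    exact Finset.prod_le_one (fun _ _ => norm_nonneg _) fun j _ => norm_one_sub_bmp_le _ _ _
  refine ⟨fun i w => bmp (c i) (r i) w * ∏ j ∈ s with j < i, (1 - bmp (c j) (r j) w),
    fun i hi => (bmp_tst (hr i hi)).mul_right (hc i),
    fun i hi => (tsupport_mul_subset_left).trans (bmp_tsupport (hr i hi)), fun i w => ?_,
    fun i hi w => ?_, fun w => by rw [Finset.prod_one_sub_ordered]; ring⟩
  · rw [norm_mul]; exact mul_le_one₀ (norm_bmp_le _ _ _) (norm_nonneg _) (hn i w)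
  · rw [dbar_mul ((bmp_c1 _ _).differentiable one_ne_zero w) ((hc i).differentiable one_ne_zero w)]
    refine (norm_add_le _ _).trans ?_
    rw [norm_mul, norm_mul]
    have b1 := norm_dbar_prod_le (s.filter (· < i)) (g := fun j w => 1 - bmp (c j) (r j) w)
      (fun j _ => contDiff_const.sub (bmp_c1 _ _)) w fun j _ => norm_one_sub_bmp_le _ _ _
    have b2 := mul_le_mul (norm_bmp_le (c i) (r i) w) b1 (norm_nonneg _) zero_le_one
    have b3 := mul_le_mul_of_nonneg_right (hn i w) (norm_nonneg (dbar (bmp (c i) (r i)) w))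
    have b4 : ∑ j ∈ insert i (s.filter (· < i)), ‖dbar (bmp (c j) (r j)) w‖ ≤
        ∑ j ∈ s, indicator (closedBall (c j) (2 * r j)) (fun _ => Cb / r j) w := by
      refine (Finset.sum_le_sum_of_subset_of_nonneg (fun j hj => ?_)
        fun _ _ _ => norm_nonneg _).trans
        (Finset.sum_le_sum fun j hj => norm_dbar_bmp_le (hr j hj) w)
      rcases Finset.mem_insert.1 hj with rfl | hj
      exacts [hi, (Finset.mem_filter.1 hj).1]
    rw [Finset.sum_insert (by simp)] at b4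
    simp only [norm_dbar_one_sub (bmp_c1 _ _)] at b2
    linarith

theorem prod_bmp_zero {ι : Type*} (s : Finset ι) (c : ι → ℂ) (r : ι → ℝ) {i : ι} (hi : i ∈ s)
    (hr : 0 < r i) {w : ℂ} (hw : ‖w - c i‖ ≤ r i) : ∏ i ∈ s, (1 - bmp (c i) (r i) w) = 0 :=
  Finset.prod_eq_zero hi (by rw [bmp_one hr hw, sub_self])

theorem packing {ι : Type*} (s : Finset ι) (z : ι → ℂ) (w : ℂ) {δ R : ℝ} (hδ : 0 < δ) (hR : 0 ≤ R)
    (hsep : ∀ i ∈ s, ∀ j ∈ s, i ≠ j → δ ≤ ‖z i - z j‖) (hin : ∀ i ∈ s, ‖z i - w‖ ≤ R) :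
    (s.card : ℝ) ≤ (2 * R / δ + 1) ^ 2 := by
  have h1 : volume (⋃ i ∈ s, ball (z i) (δ / 2)) = ∑ i ∈ s, volume (ball (z i) (δ / 2)) :=
    measure_biUnion_finset (fun i hi j hj hij => ball_disjoint_ball (by
      rw [dist_eq_norm]; linarith [hsep i hi j hj hij])) fun _ _ => measurableSet_ball
  have h2 : volume (⋃ i ∈ s, ball (z i) (δ / 2)) ≤ volume (ball w (R + δ / 2)) :=
    measure_mono (iUnion₂_subset fun i hi => ball_subset_ball' (by
      rw [dist_eq_norm]; linarith [hin i hi]))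
  rw [h1] at h2
  simp only [Complex.volume_ball, Finset.sum_const, nsmul_eq_mul] at h2
  have h3 := ENNReal.toReal_mono (by finiteness) h2
  simp only [ENNReal.toReal_mul, ENNReal.toReal_natCast, ENNReal.toReal_pow,
    ENNReal.toReal_ofReal (show 0 ≤ δ / 2 by positivity),
    ENNReal.toReal_ofReal (show 0 ≤ R + δ / 2 by positivity), ENNReal.coe_toReal,
    NNReal.coe_real_pi] at h3
  have e : (2 * R / δ + 1) ^ 2 = (R + δ / 2) ^ 2 / (δ / 2) ^ 2 := by field_simp
  rw [e, le_div_iff₀ (by positivity)]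
  nlinarith [Real.pi_pos]

end

end Pool.Agent.Lib.MP_dfc9b7_an
end
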