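import Pool.Agent.Lib.MP_dfc9b7_an.Mart

-- part Pool.Agent.Lib.MP_dfc9b7_an.Bil
section

/-! Bilinear forms restricted to sets of pairs: Schur test, far, near and block estimates. -/

set_option autoImplicit false
open Finset

namespace Pool.Agent.Lib.MP_dfc9b7_an

noncomputable section
variable {X : Type*} [Fintype X]

/-- The bilinear form restricted to the pairs in `χ`. -/
def bil (μ : X → ℝ) (k : X → X → ℂ) (χ : X → X → Prop) (u v : X → ℂ) : ℂ :=
  ∑ x, ∑ y, (ind (χ x) y : ℂ) * (k x y * u x * v y * (μ x : ℂ) * (μ y : ℂ))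

/-- The full bilinear form. -/
def blf (μ : X → ℝ) (k : X → X → ℂ) (u v : X → ℂ) : ℂ := bil μ k (fun _ _ => True) u v

/-- Kernel data with an underlying distance `d`. -/
structure KS (μ : X → ℝ) (d D : X → X → ℝ) (k : X → X → ℂ) : Prop where
  sp : Sp μ D
  anti : ∀ x y, k x y = - k y x
  size : ∀ x y, ‖k x y‖ ≤ 1 / D x y
  d_nn : ∀ x y, 0 ≤ d x y
  d_symm : ∀ x y, d x y = d y x
  d_le : ∀ x y, d x y ≤ D x y
  smooth : ∀ x x' y, 2 * d x x' ≤ D x y → ‖k x y - k x' y‖ ≤ 4 * d x x' / D x y ^ 2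
  D_le : ∀ x y, D x y ≤ d x y + D x x
  D_diag : ∀ x y, D x x ≤ D x y

variable {μ : X → ℝ} {d D : X → X → ℝ} {k : X → X → ℂ} {N : ℝ}

theorem KS.ker (h : KS μ d D k) : Ker D k :=
  ⟨h.anti, h.size, fun x x' y hx => (h.smooth x x' y (by linarith [h.d_le x x'])).trans
    (div_le_div_of_nonneg_right (by linarith [h.d_le x x']) (sq_nonneg _))⟩

theorem ind_congr {Y Z : Type*} {p : Y → Prop} {q : Z → Prop} {y : Y} {z : Z} (h : p y ↔ q z) :
    ind p y = ind q z := by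
  by_cases hp : p y
  · rw [ind_pos hp, ind_pos (h.1 hp)]
  · rw [ind_neg hp, ind_neg fun hq => hp (h.2 hq)]

theorem bil_congr {χ ψ : X → X → Prop} (h : ∀ x y, χ x y ↔ ψ x y) (u v : X → ℂ) :
    bil μ k χ u v = bil μ k ψ u v := by
  have : χ = ψ := funext fun x => funext fun y => propext (h x y)
  rw [this]

theorem bil_split (χ ψ : X → X → Prop) (u v : X → ℂ) : bil μ k χ u v =
    bil μ k (fun x y => χ x y ∧ ψ x y) u v + bil μ k (fun x y => χ x y ∧ ¬ ψ x y) u v := by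
  unfold bil
  rw [← sum_add_distrib]
  refine sum_congr rfl fun x _ => ?_
  rw [← sum_add_distrib]
  refine sum_congr rfl fun y _ => ?_
  by_cases h1 : χ x y <;> by_cases h2 : ψ x y <;> simp [ind, h1, h2]

theorem bil_cut (χ : X → X → Prop) (p q : X → Prop) (u v : X → ℂ) :
    bil μ k χ (cut p u) (cut q v) = bil μ k (fun x y => χ x y ∧ p x ∧ q y) u v := by
  unfold bil
  refine sum_congr rfl fun x _ => sum_congr rfl fun y _ => ?_
  by_cases h1 : χ x y <;> by_cases h2 : p x <;> by_cases h3 : q y <;> simp [ind, cut, h1, h2, h3]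

theorem bil_cut_left (χ : X → X → Prop) (p : X → Prop) (u v : X → ℂ) :
    bil μ k χ (cut p u) v = bil μ k (fun x y => χ x y ∧ p x) u v := by
  have := bil_cut (μ := μ) (k := k) χ p (fun _ => True) u v
  rw [cut_true] at this
  rw [this]; exact bil_congr (by simp) u v

theorem bil_cut_right (χ : X → X → Prop) (q : X → Prop) (u v : X → ℂ) :
    bil μ k χ u (cut q v) = bil μ k (fun x y => χ x y ∧ q y) u v := by
  have := bil_cut (μ := μ) (k := k) χ (fun _ => True) q u v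
  rw [cut_true] at this
  rw [this]; exact bil_congr (by simp) u v

theorem blf_eq (u v : X → ℂ) : blf μ k u v = ∑ x, u x * opT μ k v x * (μ x : ℂ) := by
  unfold blf bil opT
  refine sum_congr rfl fun x _ => ?_
  rw [mul_sum, sum_mul]
  exact sum_congr rfl fun y _ => by simp only [ind, if_true]; push_cast; ring

theorem blf_swap (hk : ∀ x y, k x y = - k y x) (u v : X → ℂ) : blf μ k u v = - blf μ k v u := by
  unfold blf bil
  rw [sum_comm, ← sum_neg_distrib]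
  refine sum_congr rfl fun x _ => ?_
  rw [← sum_neg_distrib]
  refine sum_congr rfl fun y _ => ?_
  rw [hk y x]; simp only [ind, if_true]; ring

theorem norm_sum_mul_le (hμ : ∀ x, 0 ≤ μ x) (u v : X → ℂ) {t : ℝ} (ht : 0 < t) :
    ‖∑ x, u x * v x * (μ x : ℂ)‖ ≤ (t * nsq μ u + nsq μ v / t) / 2 := by
  unfold nsq
  rw [mul_sum, sum_div, ← sum_add_distrib, sum_div]
  refine (norm_sum_le _ _).trans (sum_le_sum fun x _ => ?_)
  rw [norm_mul, norm_mul, Complex.norm_real, Real.norm_of_nonneg (hμ x)]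
  have h1 : ‖u x‖ * ‖v x‖ ≤ (t * ‖u x‖ ^ 2 + ‖v x‖ ^ 2 / t) / 2 := by
    rw [le_div_iff₀ two_pos, add_div' _ _ _ ht.ne', le_div_iff₀ ht]
    nlinarith [sq_nonneg (t * ‖u x‖ - ‖v x‖)]
  refine (mul_le_mul_of_nonneg_right h1 (hμ x)).trans (le_of_eq ?_)
  ring

theorem L2B.blf_le (hμ : ∀ x, 0 ≤ μ x) (h : L2B μ k N) (hN : 0 < N) (u v : X → ℂ) {t : ℝ}
    (ht : 0 < t) : ‖blf μ k u v‖ ≤ N / 2 * (t * nsq μ u + nsq μ v / t) := by
  rw [blf_eq]
  refine (norm_sum_mul_le hμ u _ (mul_pos hN ht)).trans ?_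
  have := div_le_div_of_nonneg_right (h v) (mul_pos hN ht).le
  have e : N ^ 2 * nsq μ v / (N * t) = N * (nsq μ v / t) := by field_simp
  rw [e] at this
  linarith

theorem L2B_of_blf (hμ : ∀ x, 0 ≤ μ x) (hN : 0 < N)
    (h : ∀ u v, ‖blf μ k u v‖ ≤ N / 2 * (nsq μ u + nsq μ v)) : L2B μ k N := by
  intro f
  have h1 := h (fun x => (N⁻¹ : ℝ) * (starRingEnd ℂ) (opT μ k f x)) f
  have e1 : blf μ k (fun x => (N⁻¹ : ℝ) * (starRingEnd ℂ) (opT μ k f x)) f =
      ((N⁻¹ * nsq μ (opT μ k f) : ℝ) : ℂ) := by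
    rw [blf_eq]; unfold nsq
    rw [mul_sum, Complex.ofReal_sum]
    refine sum_congr rfl fun x _ => ?_
    have := Complex.conj_mul' (opT μ k f x)
    push_cast
    rw [← this]; ring
  have e2 : nsq μ (fun x => (N⁻¹ : ℝ) * (starRingEnd ℂ) (opT μ k f x)) =
      N⁻¹ ^ 2 * nsq μ (opT μ k f) := by
    unfold nsq
    rw [mul_sum]
    refine sum_congr rfl fun x _ => ?_
    rw [norm_mul, Complex.norm_real, Complex.norm_conj, Real.norm_of_nonneg (by positivity)]; ring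
  have h0 := nsq_nonneg hμ (opT μ k f)
  rw [e1, e2, Complex.norm_real, Real.norm_of_nonneg (by positivity)] at h1
  have e3 : N / 2 * (N⁻¹ ^ 2 * nsq μ (opT μ k f) + nsq μ f) =
    N⁻¹ * nsq μ (opT μ k f) / 2 + N / 2 * nsq μ f := by field_simp
  rw [e3] at h1
  have h2 : N⁻¹ * nsq μ (opT μ k f) ≤ N * nsq μ f := by linarith
  rw [inv_mul_le_iff₀ hN] at h2
  linarith

theorem schur (hμ : ∀ x, 0 ≤ μ x) (S : X → X → ℝ) (hS : ∀ x y, 0 ≤ S x y) (A : ℝ)
    (h1 : ∀ x, ∑ y, S x y * μ y ≤ A) (h2 : ∀ y, ∑ x, S x y * μ x ≤ A) (u v : X → ℂ) :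
    ∑ x, ∑ y, S x y * (‖u x‖ * ‖v y‖ * μ x * μ y) ≤ A / 2 * (nsq μ u + nsq μ v) := by
  have a : ∑ x, ∑ y, S x y * (‖u x‖ * ‖v y‖ * μ x * μ y) ≤
      ∑ x, ∑ y, (μ x * ‖u x‖ ^ 2 * (S x y * μ y) + μ y * ‖v y‖ ^ 2 * (S x y * μ x)) / 2 := by
    refine sum_le_sum fun x _ => sum_le_sum fun y _ => ?_
    have := mul_nonneg (mul_nonneg (hS x y) (mul_nonneg (hμ x) (hμ y)))
      (sq_nonneg (‖u x‖ - ‖v y‖))
    nlinarith
  refine a.trans ?_
  simp only [← sum_div, sum_add_distrib]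
  rw [sum_comm (f := fun x y => μ y * ‖v y‖ ^ 2 * (S x y * μ x))]
  simp only [← mul_sum]
  have b1 : ∑ x, μ x * ‖u x‖ ^ 2 * ∑ y, S x y * μ y ≤ A * nsq μ u := by
    unfold nsq; rw [mul_sum]
    exact sum_le_sum fun x _ => by
      nlinarith [h1 x, mul_nonneg (hμ x) (sq_nonneg ‖u x‖)]
  have b2 : ∑ y, μ y * ‖v y‖ ^ 2 * ∑ x, S x y * μ x ≤ A * nsq μ v := by
    unfold nsq; rw [mul_sum]
    exact sum_le_sum fun x _ => by
      nlinarith [h2 x, mul_nonneg (hμ x) (sq_nonneg ‖v x‖)]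
  linarith

theorem tail_row (hS : Sp μ D) {s : ℝ} (hs : 0 < s) (c : ℝ) (hc : 0 ≤ c) (x : X) :
    ∑ y, ind (fun y => s < D x y) y * (c / D x y ^ 2) * μ y ≤ 4 * c / s := by
  have h1 := tail_bound μ (D x) hS.mu_nn 1 s hs fun t ht => by
    rw [one_mul]; exact hS.growth x t (by linarith)
  have e : ∑ y, ind (fun y => s < D x y) y * (c / D x y ^ 2) * μ y =
      c * bm (fun y => μ y / D x y ^ 2) (fun y => s < D x y) := by
    rw [← sum_mul_ind, mul_sum]; exact sum_congr rfl fun y _ => by ring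
  rw [e]
  refine (mul_le_mul_of_nonneg_left h1 hc).trans (le_of_eq ?_)
  ring

theorem far_pt (hK : KS μ d D k) (hμ : ∀ x, 0 < μ x) (Λ : Lat X) (i : ℕ) {δ s : ℝ}
    (hδ : ∀ x y, Λ.c i x y → d x y ≤ δ) (hs : 2 * δ ≤ s) {χ : X → X → Prop}
    (hχ : ∀ x x' y, Λ.c i x x' → χ x y → χ x' y) (hsep : ∀ x y, χ x y → s < D x y)
    {u : X → ℂ} (hu : ∀ z, cint μ (Λ.c i z) u = 0) (v : X → ℂ) :
    ‖bil μ k χ u v‖ ≤ ∑ x, ∑ y, ind (fun y => s < D x y) y * (4 * δ / D x y ^ 2) *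
      (‖u x‖ * ‖v y‖ * μ x * μ y) := by
  unfold bil
  rw [sum_comm, sum_comm (f := fun x y => ind (fun y => s < D x y) y * (4 * δ / D x y ^ 2) *
      (‖u x‖ * ‖v y‖ * μ x * μ y))]
  refine (norm_sum_le _ _).trans (sum_le_sum fun y _ => ?_)
  have := (Λ.cel_true i).norm_sum_le hμ
    (fun x => (ind (χ x) y : ℂ) * (k x y * u x * v y * (μ x : ℂ) * (μ y : ℂ)))
    (fun x => ind (fun y => s < D x y) y * (4 * δ / D x y ^ 2) *
      (‖u x‖ * ‖v y‖ * μ x * μ y)) ?_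
  · rwa [cut_true, bm_true] at this
  intro z _
  have hδ0 : 0 ≤ δ := (hK.d_nn z z).trans (hδ z z (Λ.refl i z))
  have hW : ∀ x, 0 ≤ ind (fun y => s < D x y) y * (4 * δ / D x y ^ 2) *
      (‖u x‖ * ‖v y‖ * μ x * μ y) := fun x => by
    have := ind_nonneg (fun y => s < D x y) y
    have := (hμ x).le
    have := (hμ y).le
    positivity
  by_cases hz : χ z y
  swap
  · rw [sum_eq_zero, norm_zero]
    · exact bm_nonneg hW _
    · intro x _
      by_cases hx : Λ.c i z x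
      · rw [cut_pos _ hx, ind_neg fun h => hz (hχ x z y (Λ.symm _ _ _ hx) h)]; simp
      · rw [cut_neg _ hx]
  have e : ∑ x, cut (Λ.c i z) (fun x => (ind (χ x) y : ℂ) *
      (k x y * u x * v y * (μ x : ℂ) * (μ y : ℂ))) x =
      ∑ x, ((k x y - k z y) * v y * μ y) * cut (Λ.c i z) u x * (μ x : ℂ) := by
    have h0 := hu z
    unfold cint at h0
    rw [← add_zero (∑ x, ((k x y - k z y) * v y * μ y) * cut (Λ.c i z) u x * (μ x : ℂ)),
      ← mul_zero (k z y * v y * μ y), ← h0, mul_sum, ← sum_add_distrib]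
    refine sum_congr rfl fun x _ => ?_
    by_cases hx : Λ.c i z x
    · rw [cut_pos _ hx, cut_pos _ hx, ind_pos (hχ z x y hx hz)]; push_cast; ring
    · rw [cut_neg _ hx, cut_neg _ hx]; simp
  rw [e]
  refine (norm_sum_cut_le (fun x => (hμ x).le) _ _ u
    (fun x => 4 * δ / D x y ^ 2 * ‖v y‖ * μ y) fun x hx => ?_).trans
      (bm_le_of_le fun x hx => le_of_eq ?_)
  · have h1 := hsep x y (hχ z x y hx hz)
    have h2 := hδ x z (Λ.symm _ _ _ hx)
    rw [norm_mul, norm_mul, Complex.norm_real, Real.norm_of_nonneg (hμ y).le]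
    refine mul_le_mul_of_nonneg_right (mul_le_mul_of_nonneg_right
      ((hK.smooth x z y (by linarith)).trans ?_) (norm_nonneg _)) (hμ y).le
    exact div_le_div_of_nonneg_right (by linarith) (sq_nonneg _)
  · rw [ind_pos (p := fun y => s < D x y) (hsep x y (hχ z x y hx hz))]; ring

theorem far_L2 (hK : KS μ d D k) (hμ : ∀ x, 0 < μ x) (Λ : Lat X) (i : ℕ) {δ s : ℝ} (hδ0 : 0 < δ)
    (hδ : ∀ x y, Λ.c i x y → d x y ≤ δ) (hs : 2 * δ ≤ s) {χ : X → X → Prop}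
    (hχ : ∀ x x' y, Λ.c i x x' → χ x y → χ x' y) (hsep : ∀ x y, χ x y → s < D x y)
    {u : X → ℂ} (hu : ∀ z, cint μ (Λ.c i z) u = 0) (v : X → ℂ) :
    ‖bil μ k χ u v‖ ≤ 8 * δ / s * (nsq μ u + nsq μ v) := by
  refine (far_pt hK hμ Λ i hδ hs hχ hsep hu v).trans ((schur hK.sp.mu_nn
    (fun x y => ind (fun y => s < D x y) y * (4 * δ / D x y ^ 2))
    (fun x y => mul_nonneg (ind_nonneg _ _) (by positivity)) (4 * (4 * δ) / s)
    (fun x => tail_row hK.sp (by linarith) _ (by positivity) x) (fun y => ?_) u v).trans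
      (le_of_eq (by ring)))
  refine le_trans (le_of_eq (sum_congr rfl fun x _ => ?_))
    (tail_row hK.sp (by linarith) (4 * δ) (by positivity) y)
  simp only [ind, hK.sp.D_symm x y]

theorem far_L1 (hK : KS μ d D k) (hμ : ∀ x, 0 < μ x) (Λ : Lat X) (i : ℕ) {δ s : ℝ} (hδ0 : 0 < δ)
    (hδ : ∀ x y, Λ.c i x y → d x y ≤ δ) (hs : 2 * δ ≤ s) {χ : X → X → Prop}
    (hχ : ∀ x x' y, Λ.c i x x' → χ x y → χ x' y) (hsep : ∀ x y, χ x y → s < D x y)
    {u : X → ℂ} (hu : ∀ z, cint μ (Λ.c i z) u = 0) {v : X → ℂ} (hv : ∀ y, ‖v y‖ ≤ 1) :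
    ‖bil μ k χ u v‖ ≤ 16 * δ / s * ∑ x, μ x * ‖u x‖ := by
  refine (far_pt hK hμ Λ i hδ hs hχ hsep hu v).trans ?_
  rw [mul_sum]
  refine sum_le_sum fun x _ => ?_
  have h1 := tail_row hK.sp (s := s) (by linarith) (4 * δ) (by positivity) x
  have h0 : 0 ≤ μ x * ‖u x‖ := mul_nonneg (hμ x).le (norm_nonneg _)
  refine le_trans ?_ ((mul_le_mul_of_nonneg_right h1 h0).trans (le_of_eq (by ring)))
  rw [sum_mul]
  refine sum_le_sum fun y _ => ?_
  have h2 : 0 ≤ ind (fun y => s < D x y) y * (4 * δ / D x y ^ 2) * μ y * (μ x * ‖u x‖) :=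
    mul_nonneg (mul_nonneg (mul_nonneg (ind_nonneg _ _) (by positivity)) (hμ y).le) h0
  nlinarith [hv y]

theorem near_row (hK : KS μ d D k) {r s : ℝ} (hr : 0 ≤ r) (hs : 0 < s) (x : X) :
    ∑ y, ind (fun y => s ≤ D x y ∧ d x y ≤ r) y * (1 / D x y) * μ y ≤ r / s + 1 := by
  have hp := hK.sp.D_pos x x
  have h1 := hK.sp.growth x (r + D x x) (by linarith)
  have h2 : ∑ y, ind (fun y => s ≤ D x y ∧ d x y ≤ r) y * (1 / D x y) * μ y ≤
      1 / max s (D x x) * bm μ (fun y => D x y ≤ r + D x x) := by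
    rw [← sum_mul_ind, mul_sum]
    refine sum_le_sum fun y _ => ?_
    by_cases hy : s ≤ D x y ∧ d x y ≤ r
    · rw [ind_pos (p := fun y => s ≤ D x y ∧ d x y ≤ r) hy,
        ind_pos (p := fun y => D x y ≤ r + D x x) (by linarith [hK.D_le x y, hy.2]), one_mul,
        mul_one]
      exact mul_le_mul_of_nonneg_right (one_div_le_one_div_of_le (by positivity)
        (max_le hy.1 (hK.D_diag x y))) (hK.sp.mu_nn y)
    · rw [ind_neg (p := fun y => s ≤ D x y ∧ d x y ≤ r) hy, zero_mul, zero_mul]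
      exact mul_nonneg (by positivity) (mul_nonneg (hK.sp.mu_nn y) (ind_nonneg _ _))
  refine h2.trans ((mul_le_mul_of_nonneg_left h1 (by positivity)).trans ?_)
  rw [mul_add]
  refine add_le_add ?_ ?_
  · rw [one_div, inv_mul_eq_div]
    exact div_le_div_of_nonneg_left hr hs (le_max_left _ _)
  · rw [one_div, inv_mul_eq_div]
    exact div_le_one_of_le₀ (le_max_right _ _) (by positivity)

theorem near_L2 (hK : KS μ d D k) {r s : ℝ} (hr : 0 ≤ r) (hs : 0 < s) {χ : X → X → Prop}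
    (hχ : ∀ x y, χ x y → s ≤ D x y ∧ d x y ≤ r) (u v : X → ℂ) :
    ‖bil μ k χ u v‖ ≤ (r / s + 1) / 2 * (nsq μ u + nsq μ v) := by
  refine le_trans ?_ (schur hK.sp.mu_nn
    (fun x y => ind (fun y => s ≤ D x y ∧ d x y ≤ r) y * (1 / D x y))
    (fun x y => mul_nonneg (ind_nonneg _ _) (one_div_pos.2 (hK.sp.D_pos x y)).le) (r / s + 1)
    (near_row hK hr hs) (fun y => ?_) u v)
  · unfold bil
    refine (norm_sum_le _ _).trans (sum_le_sum fun x _ => (norm_sum_le _ _).trans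
      (sum_le_sum fun y _ => ?_))
    have h0 : 0 ≤ ‖u x‖ * ‖v y‖ * μ x * μ y :=
      mul_nonneg (mul_nonneg (by positivity) (hK.sp.mu_nn x)) (hK.sp.mu_nn y)
    by_cases h : χ x y
    · rw [ind_pos h, ind_pos (p := fun y => s ≤ D x y ∧ d x y ≤ r) (hχ x y h)]
      simp only [Complex.ofReal_one, one_mul, norm_mul, Complex.norm_real,
        Real.norm_of_nonneg (hK.sp.mu_nn _)]
      have := mul_le_mul_of_nonneg_right (hK.size x y) h0
      linarith
    · rw [ind_neg h]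
      simp only [Complex.ofReal_zero, zero_mul, norm_zero]
      exact mul_nonneg (mul_nonneg (ind_nonneg _ _) (one_div_pos.2 (hK.sp.D_pos x y)).le) h0
  · refine le_trans (le_of_eq (sum_congr rfl fun x _ => ?_)) (near_row hK hr hs y)
    rw [ind_congr (p := fun y => s ≤ D x y ∧ d x y ≤ r) (q := fun x => s ≤ D y x ∧ d y x ≤ r)
      (y := y) (z := x) (by simp only [hK.sp.D_symm x y, hK.d_symm x y]), hK.sp.D_symm x y]

theorem block_le (hμ : ∀ x, 0 < μ x) (h : L2B μ k N) (hN : 0 < N) {U : X → Prop}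
    {S : X → X → Prop} (hc : Cel U S) (u v : X → ℂ) {t : ℝ} (ht : 0 < t) :
    ‖bil μ k (fun x y => U x ∧ S x y) u v‖ ≤ N / 2 * (t * nsq μ u + nsq μ v / t) := by
  have hμ' : ∀ x, 0 ≤ μ x := fun x => (hμ x).le
  have := hc.norm_sum_le hμ
    (fun x => ∑ y, (ind (S x) y : ℂ) * (k x y * u x * v y * (μ x : ℂ) * (μ y : ℂ)))
    (fun x => N / 2 * t * (μ x * ‖u x‖ ^ 2) + N / 2 / t * (μ x * ‖v x‖ ^ 2)) ?_
  · refine le_trans (le_of_eq (congrArg norm (sum_congr rfl fun x _ => ?_))) (this.trans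
      ((bm_le_sum (fun x => ?_) _).trans (le_of_eq ?_)))
    · by_cases hx : U x
      · rw [cut_pos _ hx]
        exact sum_congr rfl fun y _ => by
          rw [ind_congr (p := fun y => U x ∧ S x y) (q := S x) (z := y) (by simp [hx])]
      · rw [cut_neg _ hx]; simp [ind, hx]
    · have := hμ' x; positivity
    · rw [sum_add_distrib, ← mul_sum, ← mul_sum]; unfold nsq; ring
  intro z hz
  have h1 := h.blf_le hμ' hN (cut (S z) u) (cut (S z) v) ht
  rw [nsq_cut, nsq_cut] at h1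
  rw [bm_add, bm_mul, bm_mul]
  refine le_trans (le_of_eq (congrArg norm ?_)) (h1.trans (le_of_eq (by ring)))
  unfold blf
  rw [bil_cut]
  refine sum_congr rfl fun x _ => ?_
  by_cases hx : S z x
  · rw [cut_pos _ hx]
    refine sum_congr rfl fun y _ => ?_
    rw [ind_congr (q := fun y => True ∧ S z x ∧ S z y) (z := y)
      (by simp [hx, (hc.step z x hz hx).2 y])]
  · rw [cut_neg _ hx]; simp [ind, hx]

theorem bil_vanish (hk : ∀ x y, k x y = - k y x) {χ : X → X → Prop} (hχ : ∀ x y, χ x y → χ y x)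
    {u v : X → ℂ} (huv : ∀ x y, χ x y → u x * v y = u y * v x) : bil μ k χ u v = 0 := by
  have : bil μ k χ u v = - bil μ k χ u v := by
    unfold bil
    conv_lhs => rw [sum_comm]
    rw [← sum_neg_distrib]
    refine sum_congr rfl fun x _ => ?_
    rw [← sum_neg_distrib]
    refine sum_congr rfl fun y _ => ?_
    by_cases h : χ x y
    · rw [ind_pos h, ind_pos (hχ x y h), hk y x]
      have := huv x y h
      push_cast
      linear_combination (k x y * (μ x : ℂ) * (μ y : ℂ)) * this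
    · rw [ind_neg h, ind_neg fun h' => h (hχ y x h')]; simp
  linear_combination this / 2

end

end Pool.Agent.Lib.MP_dfc9b7_an
end

-- part Pool.Agent.Lib.MP_dfc9b7_an.Pair
section

/-! Interaction of two martingale differences from two lattices. -/

set_option autoImplicit false
open Finset

namespace Pool.Agent.Lib.MP_dfc9b7_an

noncomputable section
variable {X : Type*} [Fintype X]

/-- Lattice data: accretivity, diameters, and suppression near terminal cells. -/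
structure LD (μ : X → ℝ) (b : X → ℂ) (η : ℝ) (d D : X → X → ℝ) (Λ : Lat X) (G : X → Prop) :
    Prop where
  acc : Acc μ b η Λ G
  diam : ∀ j x y, Λ.c j x y → d x y ≤ 2 * 2 ^ j
  sep : ∀ x y, ∃ x', G x' ∧ d x x' ≤ D x y

/-- The ball of radius `s` at `x` stays in the cell. -/
def pad {Y : Type*} (Λ : Lat Y) (d : Y → Y → ℝ) (i : ℕ) (x : Y) (s : ℝ) : Prop :=
  ∀ y, d x y ≤ s → Λ.c i x y

/-- Padding size. -/
def sz (j l : ℕ) : ℝ := (3 / 2) ^ l * (4 / 3) ^ j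

/-- Good cell at one level. -/
def gd {Y : Type*} (Λ Λ' : Lat Y) (d : Y → Y → ℝ) (j l : ℕ) (x : Y) : Prop :=
  ∀ x', Λ.c (j + 1) x x' → pad Λ' d l x' (sz j l)

/-- Good cell from a level on. -/
def gf {Y : Type*} (Λ Λ' : Lat Y) (d : Y → Y → ℝ) (j l : ℕ) (x : Y) : Prop :=
  ∀ l', l ≤ l' → gd Λ Λ' d j l' x

theorem sz_add (j q : ℕ) : sz j (j + q) = (3 / 2) ^ q * 2 ^ j := by
  unfold sz
  rw [pow_add, mul_right_comm, ← mul_pow]; norm_num; ring

theorem sz_ge {j l : ℕ} (h : j + 6 ≤ l) : 8 * 2 ^ j ≤ sz j l := by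
  obtain ⟨q, rfl⟩ := Nat.exists_eq_add_of_le h
  rw [add_assoc, sz_add]
  refine mul_le_mul_of_nonneg_right ?_ (by positivity)
  have : (1:ℝ) ≤ (3 / 2) ^ q := one_le_pow₀ (by norm_num)
  rw [pow_add]; norm_num; linarith

variable {μ : X → ℝ} {b : X → ℂ} {η : ℝ} {d D : X → X → ℝ} {k : X → X → ℂ} {N : ℝ}
  {Λ Λ' : Lat X} {G G' : X → Prop}

omit [Fintype X] in
theorem gd_of_c {j l : ℕ} {x x' : X} (h : Λ.c (j + 1) x x') (hx : gd Λ Λ' d j l x) :
    gd Λ Λ' d j l x' := fun y hy => hx y (Λ.trans _ _ _ _ h hy)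

omit [Fintype X] in
theorem gf_of_c {j l : ℕ} {x x' : X} (h : Λ.c (j + 1) x x') (hx : gf Λ Λ' d j l x) :
    gf Λ Λ' d j l x' := fun l' hl => gd_of_c h (hx l' hl)

theorem LD.c_of_gd (h : LD μ b η d D Λ G) {j l : ℕ} (hl : j + 6 ≤ l) {x x' : X}
    (hc : Λ.c (j + 1) x x') (hx : gd Λ Λ' d j l x) : Λ'.c l x x' := by
  refine hx x (Λ.refl _ _) x' ((h.diam _ _ _ hc).trans (le_trans ?_ (sz_ge hl)))
  rw [pow_succ]; have : (0:ℝ) < 2 ^ j := by positivity
  linarith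

theorem LD.pad_sep (hK : KS μ d D k) (h : LD μ b η d D Λ G) {l : ℕ} {x y : X} {s : ℝ}
    (hp : pad Λ d l x s) (hxy : ¬ (Λ.c l x y ∧ tr Λ G l x)) : s < D x y := by
  by_contra hc
  push Not at hc
  obtain ⟨x', h1, h2⟩ := h.sep x y
  exact hxy ⟨hp y ((hK.d_le x y).trans hc), x', hp x' (h2.trans hc), h1⟩

theorem pair_far (hK : KS μ d D k) (h1 : LD μ b η d D Λ G) (h2 : LD μ b η d D Λ' G')
    (hB : L2B μ k N) (hN : 0 < N) (j q : ℕ) (hq : 6 ≤ q) (f g : X → ℂ) {t : ℝ} (ht : 0 < t) :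
    ‖blf μ k (Db μ b Λ G j f) (Db μ b Λ' G' (j + q) g) -
      ∑ x, cut (gf Λ Λ' d j (j + q)) (dc μ b Λ' G' (j + q) g) x * Db μ b Λ G j f x *
        opT μ k b x * (μ x : ℂ)‖ ≤
      32 * (2 / 3) ^ q * (2 * nsq μ (Db μ b Λ G j f) + nsq μ (Db μ b Λ' G' (j + q) g) +
        nsq μ (dc μ b Λ' G' (j + q) g)) +
      N / 2 * (t * nsq μ (Db μ b Λ' G' (j + q) g) +
        nsq μ (cut (fun x => ¬ gf Λ Λ' d j (j + q) x) (Db μ b Λ G j f)) / t) := by
  have hμ := h1.acc.mu_pos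
  have hμ' := hK.sp.mu_nn
  set l := j + q with hl
  set u := Db μ b Λ G j f with hu
  set v := Db μ b Λ' G' l g with hv
  set a := dc μ b Λ' G' l g with ha
  set P := gf Λ Λ' d j l with hP
  have hl6 : j + 6 ≤ l := by omega
  have hPc : ∀ x x', Λ.c (j + 1) x x' → P x → P x' ∧ Λ'.c l x x' := fun x x' hc hx =>
    ⟨gf_of_c hc hx, h1.c_of_gd hl6 hc (hx l le_rfl)⟩
  have hδ0 : (0:ℝ) < 2 * 2 ^ (j + 1) := by positivity
  have hs : 2 * (2 * 2 ^ (j + 1)) ≤ sz j l := by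
    have := sz_ge hl6; rw [pow_succ]; linarith
  have hrat : 8 * (2 * 2 ^ (j + 1)) / sz j l = 32 * (2 / 3) ^ q := by
    rw [hl, sz_add, pow_succ, div_pow, div_pow]; field_simp; ring
  have e1 : blf μ k u v = bil μ k (fun x y => P x ∧ (Λ'.c l x y ∧ tr Λ' G' l x)) u v +
      bil μ k (fun x y => P x ∧ ¬ (Λ'.c l x y ∧ tr Λ' G' l x)) u v +
      blf μ k (cut (fun x => ¬ P x) u) v := by
    unfold blf
    rw [bil_cut_left, bil_split (fun _ _ => True) (fun x _ => P x), ← bil_split (fun x _ => P x)]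
    congr 1
    exact bil_congr (by simp) u v
  set w : X → ℂ := cut P (fun x => a x * u x) with hw
  have e2 : ∑ x, cut P a x * u x * opT μ k b x * (μ x : ℂ) =
      bil μ k (fun x y => P x ∧ (Λ'.c l x y ∧ tr Λ' G' l x)) u v +
      bil μ k (fun x y => P x ∧ ¬ Λ'.c l x y) w b := by
    unfold bil opT
    rw [← sum_add_distrib]
    refine sum_congr rfl fun x _ => ?_
    rw [← sum_add_distrib, mul_sum, sum_mul]
    refine sum_congr rfl fun y _ => ?_
    by_cases hx : P x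
    swap
    · rw [cut_neg _ hx, ind_neg (p := fun y => P x ∧ (Λ'.c l x y ∧ tr Λ' G' l x)) (by simp [hx]),
        ind_neg (p := fun y => P x ∧ ¬ Λ'.c l x y) (by simp [hx])]; simp
    rw [cut_pos _ hx, hw, cut_pos _ hx]
    by_cases hc : Λ'.c l x y
    · rw [ind_neg (p := fun y => P x ∧ ¬ Λ'.c l x y) (by simp [hc])]
      by_cases ht : tr Λ' G' l x
      · rw [ind_pos (p := fun y => P x ∧ (Λ'.c l x y ∧ tr Λ' G' l x)) ⟨hx, hc, ht⟩, hv,
          Db_tr (tr_of_c hc ht), dc_of_c hc, ← ha]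
        push_cast; ring
      · have : a x = 0 := cut_neg _ ht
        rw [ind_neg (p := fun y => P x ∧ (Λ'.c l x y ∧ tr Λ' G' l x)) (by simp [ht]), this]; simp
    · rw [ind_neg (p := fun y => P x ∧ (Λ'.c l x y ∧ tr Λ' G' l x)) (by simp [hc]),
        ind_pos (p := fun y => P x ∧ ¬ Λ'.c l x y) ⟨hx, hc⟩]
      push_cast; ring
  have b1 := far_L2 hK hμ Λ (j + 1) hδ0 (h1.diam (j + 1)) hs
    (χ := fun x y => P x ∧ ¬ (Λ'.c l x y ∧ tr Λ' G' l x))
    (fun x x' y hc hx => by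
      obtain ⟨c1, c2⟩ := hPc x x' hc hx.1
      exact ⟨c1, fun h => hx.2 ⟨(Λ'.iff c2 y).1 h.1, (tr_iff c2).1 h.2⟩⟩)
    (fun x y hx => h2.pad_sep hK (hx.1 l le_rfl x (Λ.refl _ _)) hx.2)
    (h1.acc.cint_Db j f) v
  have hw0 : ∀ z, cint μ (Λ.c (j + 1) z) w = 0 := by
    intro z
    by_cases hz : P z
    · rw [cint_congr (g := fun x => a z * u x) fun y hy => by
        rw [hw, cut_pos _ (hPc z y hy hz).1, ha, dc_of_c (hPc z y hy hz).2], cint_const_mul, hu,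
        h1.acc.cint_Db, mul_zero]
    · rw [cint_congr (g := fun _ => 0) fun y hy => by
        rw [hw, cut_neg _ fun h => hz (hPc y z (Λ.symm _ _ _ hy) h).1], cint_const, zero_mul]
  have b2 := far_L1 hK hμ Λ (j + 1) hδ0 (h1.diam (j + 1)) hs
    (χ := fun x y => P x ∧ ¬ Λ'.c l x y)
    (fun x x' y hc hx => by
      obtain ⟨c1, c2⟩ := hPc x x' hc hx.1
      exact ⟨c1, fun h => hx.2 ((Λ'.iff c2 y).1 h)⟩)
    (fun x y hx => h2.pad_sep hK (hx.1 l le_rfl x (Λ.refl _ _)) fun h => hx.2 h.1)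
    hw0 h1.acc.b_le
  have b3 : ∑ x, μ x * ‖w x‖ ≤ (nsq μ u + nsq μ a) / 2 := by
    unfold nsq
    rw [← sum_add_distrib, sum_div]
    refine sum_le_sum fun x _ => ?_
    have c1 : ‖w x‖ ≤ ‖a x‖ * ‖u x‖ := (norm_cut_le _ _ _).trans (norm_mul_le _ _)
    nlinarith [hμ' x, mul_nonneg (hμ' x) (sq_nonneg (‖a x‖ - ‖u x‖)),
      mul_le_mul_of_nonneg_left c1 (hμ' x)]
  have b4 := hB.blf_le hμ' hN (cut (fun x => ¬ P x) u) v (t := t⁻¹) (by positivity)
  rw [hrat] at b1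
  have hrat2 : 16 * (2 * 2 ^ (j + 1)) / sz j l = 2 * (32 * (2 / 3) ^ q) := by
    rw [← hrat]; ring
  rw [hrat2] at b2
  have b5 := mul_le_mul_of_nonneg_left b3 (show 0 ≤ 2 * (32 * (2 / 3 : ℝ) ^ q) by positivity)
  rw [e1, e2]
  have e3 : ∀ A B C E : ℂ, A + B + C - (A + E) = B + C - E := fun A B C E => by ring
  rw [e3]
  have b6 := norm_sub_le (bil μ k (fun x y => P x ∧ ¬ (Λ'.c l x y ∧ tr Λ' G' l x)) u v +
      blf μ k (cut (fun x => ¬ P x) u) v) (bil μ k (fun x y => P x ∧ ¬ Λ'.c l x y) w b)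
  have b7 := norm_add_le (bil μ k (fun x y => P x ∧ ¬ (Λ'.c l x y ∧ tr Λ' G' l x)) u v)
      (blf μ k (cut (fun x => ¬ P x) u) v)
  have e4 : t⁻¹ * nsq μ (cut (fun x => ¬ P x) u) + nsq μ v / t⁻¹ =
      t * nsq μ v + nsq μ (cut (fun x => ¬ P x) u) / t := by field_simp; ring
  rw [e4] at b4
  linarith

theorem nsq_cut_mono (hμ : ∀ x, 0 ≤ μ x) {p q : X → Prop} (h : ∀ x, p x → q x) (u : X → ℂ) :
    nsq μ (cut p u) ≤ nsq μ (cut q u) := by
  rw [nsq_cut, nsq_cut]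
  exact bm_mono (fun x => mul_nonneg (hμ x) (sq_nonneg _)) h

theorem nsq_cut_le (hμ : ∀ x, 0 ≤ μ x) (p : X → Prop) (u : X → ℂ) : nsq μ (cut p u) ≤ nsq μ u := by
  have := nsq_cut_mono hμ (p := p) (q := fun _ => True) (fun _ _ => trivial) u
  rwa [cut_true] at this

theorem pair_near (hK : KS μ d D k) (h1 : LD μ b η d D Λ G) (h2 : LD μ b η d D Λ' G')
    (hB : L2B μ k N) (hN : 0 < N) (j l i : ℕ) (hi : j + 6 ≤ i) (hl : l ≤ i) (f g : X → ℂ)
    {s t : ℝ} (hs0 : 0 < s) (ht : 0 < t) :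
    ‖blf μ k (Db μ b Λ G j f) (Db μ b Λ' G' l g)‖ ≤
      (5 + 2 ^ i / s) * (nsq μ (Db μ b Λ G j f) + nsq μ (Db μ b Λ' G' l g)) +
      2 * N * (t * (nsq μ (Db μ b Λ G j f) + nsq μ (Db μ b Λ' G' l g)) +
        nsq μ (cut (fun x => ¬ gd Λ Λ' d j i x ∨ ¬ pad Λ' d l x s) (Db μ b Λ G j f)) / t +
        nsq μ (cut (fun y => ¬ pad Λ d j y s) (Db μ b Λ' G' l g)) / t) := by
  have hμ := h1.acc.mu_pos
  have hμ' := hK.sp.mu_nn
  set u := Db μ b Λ G j f with hu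
  set v := Db μ b Λ' G' l g with hv
  set P := gd Λ Λ' d j i with hP
  have hPc : ∀ x x', Λ.c (j + 1) x x' → P x → P x' ∧ Λ'.c i x x' := fun x x' hc hx =>
    ⟨gd_of_c hc hx, h1.c_of_gd hi hc hx⟩
  have hδ0 : (0:ℝ) < 2 * 2 ^ (j + 1) := by positivity
  have hs : 2 * (2 * 2 ^ (j + 1)) ≤ sz j i := by
    have := sz_ge hi; rw [pow_succ]; linarith
  set U : X → Prop := fun x => P x ∧ tr Λ G j x ∧ tr Λ' G' l x with hU
  set S : X → X → Prop := fun x y => Λ.c j x y ∧ Λ'.c l x y with hS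
  have hcel : Cel U S := ⟨fun z _ => ⟨Λ.refl _ _, Λ'.refl _ _⟩, fun z x hz h =>
    ⟨⟨(hPc z x (Λ.nest _ _ _ h.1) hz.1).1, tr_of_c h.1 hz.2.1, tr_of_c h.2 hz.2.2⟩,
      fun y => and_congr (Λ.iff h.1 y) (Λ'.iff h.2 y)⟩⟩
  set χ : X → X → Prop := fun x y => (P x ∧ Λ'.c i x y) ∧ ¬ (U x ∧ S x y) with hχ
  have hF : ∀ (u' v' : X → ℂ) (t' : ℝ), 0 < t' →
      ‖bil μ k χ u' v'‖ ≤ N * (t' * nsq μ u' + nsq μ v' / t') := by
    intro u' v' t' ht'
    have a1 := bil_split (μ := μ) (k := k) (fun x y => P x ∧ Λ'.c i x y)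
      (fun x y => U x ∧ S x y) u' v'
    have a2 : bil μ k (fun x y => P x ∧ Λ'.c i x y) u' v' =
        bil μ k (fun x y => True ∧ Λ'.c i x y) (cut P u') v' := by
      rw [bil_cut_left]; exact bil_congr (by simp [and_comm]) _ _
    have a3 : bil μ k (fun x y => (P x ∧ Λ'.c i x y) ∧ U x ∧ S x y) u' v' =
        bil μ k (fun x y => U x ∧ S x y) u' v' :=
      bil_congr (fun x y => ⟨fun h => h.2, fun h => ⟨⟨h.1.1, Λ'.mono hl h.2.2⟩, h⟩⟩) _ _
    have a4 := block_le hμ hB hN (Λ'.cel_true i) (cut P u') v' ht'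
    have a5 := block_le hμ hB hN hcel u' v' ht'
    have a6 := mul_le_mul_of_nonneg_left (nsq_cut_le hμ' P u') (mul_pos hN ht').le
    rw [a2, a3] at a1
    have a7 : bil μ k χ u' v' = bil μ k (fun x y => True ∧ Λ'.c i x y) (cut P u') v' -
        bil μ k (fun x y => U x ∧ S x y) u' v' := by rw [a1]; ring
    rw [a7]
    refine (norm_sub_le _ _).trans ?_
    linarith
  have e0 : bil μ k (fun x y => (P x ∧ Λ'.c i x y) ∧ U x ∧ S x y) u v = 0 := by
    refine bil_vanish hK.anti (fun x y h => ?_) fun x y h => ?_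
    · obtain ⟨c1, c2⟩ := hcel.step x y h.2.1 h.2.2
      exact ⟨⟨c1.1, Λ'.symm _ _ _ h.1.2⟩, c1, (c2 x).2 (hcel.refl x h.2.1)⟩
    · obtain ⟨c1, _⟩ := hcel.step x y h.2.1 h.2.2
      rw [hu, hv, Db_tr h.2.1.2.1, Db_tr c1.2.1, Db_tr h.2.1.2.2, Db_tr c1.2.2,
        dc_of_c h.2.2.1, dc_of_c h.2.2.2]
      ring
  have e1 : blf μ k u v = blf μ k (cut (fun x => ¬ P x) u) v +
      bil μ k (fun x y => P x ∧ ¬ Λ'.c i x y) u v +
      (bil μ k χ (cut (fun x => ¬ pad Λ' d l x s) u) v +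
        bil μ k χ (cut (fun x => pad Λ' d l x s) u) (cut (fun y => ¬ pad Λ d j y s) v) +
        bil μ k (fun x y => χ x y ∧ pad Λ' d l x s ∧ pad Λ d j y s) u v) := by
    have a1 : bil μ k χ u v = bil μ k χ (cut (fun x => ¬ pad Λ' d l x s) u) v +
        bil μ k χ (cut (fun x => pad Λ' d l x s) u) (cut (fun y => ¬ pad Λ d j y s) v) +
        bil μ k (fun x y => χ x y ∧ pad Λ' d l x s ∧ pad Λ d j y s) u v := by
      rw [bil_cut_left, bil_cut, bil_split χ (fun x _ => pad Λ' d l x s),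
        bil_split (fun x y => χ x y ∧ pad Λ' d l x s) (fun _ y => pad Λ d j y s)]
      simp only [and_assoc]; ring
    rw [← a1]
    unfold blf
    rw [bil_cut_left, bil_split (fun _ _ => True) (fun x _ => P x),
      bil_congr (χ := fun x _ => True ∧ P x) (ψ := fun x _ => P x) (by simp),
      bil_split (fun x _ => P x) (fun x y => Λ'.c i x y),
      bil_split (fun x y => P x ∧ Λ'.c i x y) (fun x y => U x ∧ S x y), e0]
    ring
  have b1 := hB.blf_le hμ' hN (cut (fun x => ¬ P x) u) v (t := t⁻¹) (by positivity)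
  have b2 := far_L2 hK hμ Λ (j + 1) hδ0 (h1.diam (j + 1)) hs
    (χ := fun x y => P x ∧ ¬ Λ'.c i x y)
    (fun x x' y hc hx => by
      obtain ⟨c1, c2⟩ := hPc x x' hc hx.1
      exact ⟨c1, fun h => hx.2 ((Λ'.iff c2 y).1 h)⟩)
    (fun x y hx => h2.pad_sep hK (hx.1 x (Λ.refl _ _)) fun h => hx.2 h.1)
    (h1.acc.cint_Db j f) v
  have b3 := hF (cut (fun x => ¬ pad Λ' d l x s) u) v t⁻¹ (by positivity)
  have b4 := hF (cut (fun x => pad Λ' d l x s) u) (cut (fun y => ¬ pad Λ d j y s) v) t ht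
  have b5 := near_L2 hK (r := 2 * 2 ^ i) (by positivity) hs0
    (χ := fun x y => χ x y ∧ pad Λ' d l x s ∧ pad Λ d j y s) (fun x y h => by
      refine ⟨?_, h2.diam _ _ _ h.1.1.2⟩
      by_cases c1 : Λ'.c l x y ∧ tr Λ' G' l x
      · rw [hK.sp.D_symm]
        refine (h1.pad_sep hK h.2.2 fun c2 => h.1.2 ?_).le
        exact ⟨⟨h.1.1.1, tr_of_c c2.1 c2.2, c1.2⟩, Λ.symm _ _ _ c2.1, c1.1⟩
      · exact (h2.pad_sep hK h.2.1 c1).le) u v
  set W := nsq μ (cut (fun x => ¬ P x ∨ ¬ pad Λ' d l x s) u) with hW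
  have c1 : nsq μ (cut (fun x => ¬ P x) u) ≤ W := nsq_cut_mono hμ' (fun x h => Or.inl h) u
  have c2 : nsq μ (cut (fun x => ¬ pad Λ' d l x s) u) ≤ W :=
    nsq_cut_mono hμ' (fun x h => Or.inr h) u
  have c3 := nsq_cut_le hμ' (fun x => pad Λ' d l x s) u
  have hu0 := nsq_nonneg hμ' u
  have hv0 := nsq_nonneg hμ' v
  have hW0 : 0 ≤ W := nsq_nonneg hμ' _
  have hV0 := nsq_nonneg hμ' (cut (fun y => ¬ pad Λ d j y s) v)
  have c4 : 8 * (2 * 2 ^ (j + 1)) / sz j i ≤ 4 := by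
    rw [div_le_iff₀ (by linarith)]; linarith
  have c5 := mul_le_mul_of_nonneg_right c4 (add_nonneg hu0 hv0)
  rw [div_inv_eq_mul, inv_mul_eq_div] at b1 b3
  have c6 := div_le_div_of_nonneg_right c1 ht.le
  have c7 := div_le_div_of_nonneg_right c2 ht.le
  have c8 := mul_le_mul_of_nonneg_left c3 ht.le
  have d1 := mul_le_mul_of_nonneg_left c6 hN.le
  have d2 := mul_le_mul_of_nonneg_left c7 hN.le
  have d3 := mul_le_mul_of_nonneg_left c8 hN.le
  have d4 := mul_nonneg hN.le (div_nonneg hW0 ht.le)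
  have d5 := mul_nonneg hN.le (div_nonneg hV0 ht.le)
  have d6 := mul_nonneg hN.le (mul_nonneg ht.le hu0)
  have d7 := mul_nonneg hN.le (mul_nonneg ht.le hv0)
  rw [e1]
  refine (norm_add₃_le).trans ?_
  have n1 := norm_add₃_le (a := bil μ k χ (cut (fun x => ¬ pad Λ' d l x s) u) v)
    (b := bil μ k χ (cut (fun x => pad Λ' d l x s) u) (cut (fun y => ¬ pad Λ d j y s) v))
    (c := bil μ k (fun x y => χ x y ∧ pad Λ' d l x s ∧ pad Λ d j y s) u v)
  have e5 : (2 * 2 ^ i / s + 1) / 2 = 2 ^ i / s + 1 / 2 := by ring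
  rw [e5] at b5
  nlinarith

end

end Pool.Agent.Lib.MP_dfc9b7_an
end

-- part Pool.Agent.Lib.MP_dfc9b7_an.Para
section

/-! The paraproduct estimate. -/

set_option autoImplicit false
open Finset

namespace Pool.Agent.Lib.MP_dfc9b7_an

noncomputable section
variable {X : Type*} [Fintype X]

open Classical in
theorem telescope (T : ℕ → Prop) (hT : ∀ l, T l → T (l + 1)) (s : ℕ → ℂ) (n : ℕ) :
    ((∀ l, l < n → ¬ T l) ∧ ∑ l ∈ range n, (if T l then s l - s (l + 1) else 0) = 0) ∨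
      ∃ l0, l0 < n ∧ T l0 ∧ T n ∧
        ∑ l ∈ range n, (if T l then s l - s (l + 1) else 0) = s l0 - s n := by
  induction n with
  | zero => left; simp
  | succ n ih =>
    rw [sum_range_succ]
    rcases ih with ⟨h1, h2⟩ | ⟨l0, h1, h2, h3, h4⟩
    · by_cases h : T n
      · right; exact ⟨n, by omega, h, hT n h, by rw [h2, if_pos h, zero_add]⟩
      · left
        refine ⟨fun l hl => ?_, by rw [h2, if_neg h, zero_add]⟩
        rcases Nat.lt_succ_iff_lt_or_eq.1 hl with h' | rfl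
        exacts [h1 l h', h]
    · right; exact ⟨l0, by omega, h2, hT n h3, by rw [h4, if_pos h3]; ring⟩

variable {μ : X → ℝ} {b : X → ℂ} {η : ℝ} {d D : X → X → ℝ}
  {Λ Λ' : Lat X} {G G' : X → Prop}

theorem para (h1 : LD μ b η d D Λ G) (h2 : LD μ b η d D Λ' G') {m : ℕ} (hm : 6 ≤ m) (L : ℕ)
    {h : X → ℂ} {β : ℝ} (hβ : ∀ x, ‖h x‖ ≤ β) (f g : X → ℂ) :
    ‖∑ j ∈ range L, ∑ l ∈ range L, if j + m ≤ l then
      ∑ x, cut (gf Λ Λ' d j l) (dc μ b Λ' G' l g) x * Db μ b Λ G j f x * h x * (μ x : ℂ)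
      else 0‖ ≤ 576 * (1 + β ^ 2) / η ^ 6 * (nsq μ f + nsq μ g) := by
  classical
  have hμ := h1.acc.mu_pos
  have hμ' : ∀ x, 0 ≤ μ x := fun x => (hμ x).le
  have hη := h1.acc.eta_pos
  set α : ℕ → X → ℂ := fun j x => ∑ l ∈ range L,
    if j + m ≤ l then cut (gf Λ Λ' d j l) (dc μ b Λ' G' l g) x else 0 with hα
  have e1 : ∀ j, (∑ l ∈ range L, if j + m ≤ l then
      ∑ x, cut (gf Λ Λ' d j l) (dc μ b Λ' G' l g) x * Db μ b Λ G j f x * h x * (μ x : ℂ)
      else 0) = ∑ x, α j x * Db μ b Λ G j f x * h x * (μ x : ℂ) := by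
    intro j
    simp only [hα, sum_mul]
    rw [sum_comm]
    refine sum_congr rfl fun l _ => ?_
    split_ifs
    · rfl
    · simp
  have hαc : ∀ j x y, Λ.c (j + 1) x y → α j y = α j x := by
    intro j x y hc
    refine sum_congr rfl fun l _ => ?_
    split_ifs with hl
    · by_cases hx : gf Λ Λ' d j l x
      · rw [cut_pos _ hx, cut_pos _ (gf_of_c hc hx),
          dc_of_c (h1.c_of_gd (by omega) hc (hx l le_rfl))]
      · rw [cut_neg _ hx, cut_neg _ fun h' => hx (gf_of_c (Λ.symm _ _ _ hc) h')]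
    · rfl
  have key : ∀ j x, ∃ l0, α j x = 0 ∨ (l0 ≤ L ∧ (∀ y, Λ.c (j + 1) x y → Λ'.c l0 x y) ∧
      ‖α j x‖ ≤ (rav μ Λ' l0 (fun y => ‖g y‖) x + rav μ Λ' L (fun y => ‖g y‖) x) / η) := by
    intro j x
    have := telescope (fun l => j + m ≤ l ∧ gf Λ Λ' d j l x ∧ tr Λ' G' l x)
      (fun l hl => ⟨by omega, fun l' hl' => hl.2.1 l' (by omega), tr_mono (Nat.le_succ l) hl.2.2⟩)
      (fun l => co μ b Λ' l g x) L
    have e : α j x = ∑ l ∈ range L, (if j + m ≤ l ∧ gf Λ Λ' d j l x ∧ tr Λ' G' l x then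
        co μ b Λ' l g x - co μ b Λ' (l + 1) g x else 0) := by
      refine sum_congr rfl fun l _ => ?_
      unfold dc cut
      grind
    rcases this with ⟨_, h0⟩ | ⟨l0, c1, c2, c3, c4⟩
    · exact ⟨0, Or.inl (by rw [e]; convert h0)⟩
    · refine ⟨l0, Or.inr ⟨c1.le, fun y hy => h1.c_of_gd (by omega) hy (c2.2.1 l0 le_rfl), ?_⟩⟩
      have : α j x = co μ b Λ' l0 g x - co μ b Λ' L g x := by rw [e]; convert c4
      rw [this, add_div]
      exact (norm_sub_le _ _).trans (add_le_add (h2.acc.norm_co_le c2.2.2 g)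
        (h2.acc.norm_co_le c3.2.2 g))
  choose lev hlev using key
  set w : ℕ → X → ℝ := fun j x => ind (fun x => α j x ≠ 0) x *
    (μ x * ‖Ds μ b Λ G j h x‖ ^ 2) with hw
  have hw0 : ∀ j x, 0 ≤ w j x := fun j x =>
    mul_nonneg (ind_nonneg _ _) (mul_nonneg (hμ' x) (sq_nonneg _))
  have hcarl : ∀ lv : ℕ → X → ℕ, (∀ j x, α j x ≠ 0 → lev j x ≤ lv j x) →
      ∑ j ∈ range L, ∑ x, w j x * rav μ Λ' (lv j x) (fun y => ‖g y‖) x ^ 2 ≤
        8 * (36 / η ^ 4 * β ^ 2) * nsq μ g := by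
    intro lv hlv
    refine carleson' hμ Λ' L lv w hw0 _ (by positivity) (fun i z => ?_) g
    have a1 := h1.acc.sum_Ds L (cut (Λ'.c i z) h)
    have a2 := nsq_cut_le_bm hμ' (Λ'.c i z) hβ
    rw [mul_assoc]
    refine le_trans (sum_le_sum fun j _ => ?_) (a1.trans
      (mul_le_mul_of_nonneg_left a2 (by positivity)))
    refine le_trans (bm_le_of_le fun x hx => ?_)
      (bm_le_sum (fun x => mul_nonneg (hμ' x) (sq_nonneg _)) _)
    by_cases h0 : α j x ≠ 0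
    · simp only [hw]
      rw [ind_pos (p := fun x => α j x ≠ 0) h0, one_mul, Ds_local]
      intro y hy
      have := ((hlev j x).resolve_left h0).2.1 y hy
      exact Λ'.trans _ _ _ _ hx.2 (Λ'.mono ((hlv j x h0).trans hx.1) this)
    · simp only [hw]
      rw [ind_neg (p := fun x => α j x ≠ 0) h0, zero_mul]
      exact mul_nonneg (hμ' x) (sq_nonneg _)
  have c1 := hcarl lev fun _ _ _ => le_rfl
  have c2 := hcarl (fun _ _ => L) fun j x h0 => ((hlev j x).resolve_left h0).1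
  have c3 := h1.acc.sum_Db L f
  have c4 : ∀ j, ‖∑ x, α j x * Db μ b Λ G j f x * h x * (μ x : ℂ)‖ ≤
      nsq μ (Db μ b Λ G j f) / 2 +
      1 / η ^ 2 * (∑ x, w j x * rav μ Λ' (lev j x) (fun y => ‖g y‖) x ^ 2 +
        ∑ x, w j x * rav μ Λ' L (fun y => ‖g y‖) x ^ 2) := by
    intro j
    rw [h1.acc.pair_Ds j f h (α j) (hαc j)]
    have a1 := norm_sum_mul_le hμ' (Db μ b Λ G j f) (fun x => α j x * Ds μ b Λ G j h x) one_pos
    have e : ∑ x, α j x * Db μ b Λ G j f x * Ds μ b Λ G j h x * (μ x : ℂ) =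
        ∑ x, Db μ b Λ G j f x * (α j x * Ds μ b Λ G j h x) * (μ x : ℂ) :=
      sum_congr rfl fun x _ => by ring
    rw [e]
    refine a1.trans ?_
    rw [one_mul, div_one, add_div]
    refine add_le_add le_rfl ?_
    unfold nsq
    rw [← sum_add_distrib, mul_sum, sum_div]
    refine sum_le_sum fun x _ => ?_
    by_cases h0 : α j x ≠ 0
    · simp only [hw]
      rw [ind_pos (p := fun x => α j x ≠ 0) h0, one_mul, norm_mul, mul_pow]
      have b1 := pow_le_pow_left₀ (norm_nonneg _) ((hlev j x).resolve_left h0).2.2 2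
      rw [div_pow] at b1
      have b2 := b1.trans (div_le_div_of_nonneg_right add_sq_le (by positivity))
      have b3 := mul_le_mul_of_nonneg_left b2
        (mul_nonneg (hμ' x) (sq_nonneg ‖Ds μ b Λ G j h x‖))
      refine le_trans (le_of_eq ?_) ((div_le_div_of_nonneg_right b3 two_pos.le).trans
        (le_of_eq ?_)) <;> ring
    · push Not at h0
      beta_reduce
      rw [h0, zero_mul, norm_zero, zero_pow two_ne_zero, mul_zero, zero_div]
      have := hw0 j x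
      positivity
  simp only [e1]
  refine (norm_sum_le _ _).trans ((sum_le_sum fun j _ => c4 j).trans ?_)
  rw [sum_add_distrib, ← sum_div, ← mul_sum, sum_add_distrib]
  have hf := nsq_nonneg hμ' f
  have hg := nsq_nonneg hμ' g
  have d1 : 1 / η ^ 2 * (∑ j ∈ range L, ∑ x, w j x * rav μ Λ' (lev j x) (fun y => ‖g y‖) x ^ 2 +
      ∑ j ∈ range L, ∑ x, w j x * rav μ Λ' L (fun y => ‖g y‖) x ^ 2) ≤
      576 * β ^ 2 / η ^ 6 * nsq μ g := by
    refine (mul_le_mul_of_nonneg_left (add_le_add c1 c2) (by positivity)).trans (le_of_eq ?_)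
    field_simp; ring
  have d2 : 36 / η ^ 4 ≤ 36 / η ^ 6 := div_le_div_of_nonneg_left (by norm_num) (by positivity)
    (pow_le_pow_of_le_one hη.le h1.acc.eta_le (by norm_num))
  have d3 := mul_le_mul_of_nonneg_right d2 hf
  have d4 : 0 ≤ β ^ 2 / η ^ 6 * nsq μ f := by positivity
  have d5 : 0 ≤ 1 / η ^ 6 * nsq μ f := by positivity
  have d6 : 0 ≤ 1 / η ^ 6 * nsq μ g := by positivity
  have e2 : 576 * (1 + β ^ 2) / η ^ 6 * (nsq μ f + nsq μ g) = 576 * (1 / η ^ 6 * nsq μ f) +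
    576 * (β ^ 2 / η ^ 6 * nsq μ f) + 576 * (1 / η ^ 6 * nsq μ g) +
    576 * β ^ 2 / η ^ 6 * nsq μ g := by ring
  have e3 : 36 / η ^ 6 * nsq μ f = 36 * (1 / η ^ 6 * nsq μ f) := by ring
  linarith

end

end Pool.Agent.Lib.MP_dfc9b7_an
end

-- part Pool.Agent.Lib.MP_dfc9b7_an.Det
section

/-! The deterministic estimate for a fixed pair of lattices. -/

set_option autoImplicit false
open Finset

namespace Pool.Agent.Lib.MP_dfc9b7_an

noncomputable section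
variable {X : Type*} [Fintype X]

/-- Geometric weight. -/
def rho (j l : ℕ) : ℝ := (9 / 10) ^ (Nat.dist j l)

theorem rho_pos (j l : ℕ) : 0 < rho j l := by unfold rho; positivity

theorem rho_comm (j l : ℕ) : rho j l = rho l j := by unfold rho; rw [Nat.dist_comm]

theorem rho_add (j q : ℕ) : rho j (j + q) = (9 / 10) ^ q := by
  unfold rho; rw [Nat.dist_eq_sub_of_le (Nat.le_add_right j q), Nat.add_sub_cancel_left]

theorem geom_le (n : ℕ) : ∑ i ∈ range n, (9 / 10 : ℝ) ^ i ≤ 10 := by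
  have : ∀ n, ∑ i ∈ range n, (9 / 10 : ℝ) ^ i = 10 - 10 * (9 / 10) ^ n := by
    intro n
    induction n with
    | zero => simp
    | succ n ih => rw [sum_range_succ, ih, pow_succ]; ring
  rw [this]; have : (0:ℝ) ≤ (9 / 10) ^ n := by positivity
  linarith

theorem sum_rho_le (j L : ℕ) : ∑ l ∈ range L, rho j l ≤ 20 := by
  have h1 : ∑ l ∈ range L, rho j l ≤ ∑ l ∈ range (j + L), rho j l :=
    sum_le_sum_of_subset_of_nonneg (range_subset_range.2 (by omega)) fun l _ _ => (rho_pos j l).le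
  rw [sum_range_add] at h1
  simp only [rho_add] at h1
  have h2 : ∑ l ∈ range j, rho j l ≤ ∑ l ∈ range j, (9 / 10 : ℝ) ^ l := by
    rw [← sum_range_reflect]
    refine sum_le_sum fun l hl => ?_
    have := mem_range.1 hl
    unfold rho
    refine pow_le_pow_of_le_one (by norm_num) (by norm_num) ?_
    rw [Nat.dist_eq_sub_of_le_right (by omega)]; omega
  linarith [geom_le j, geom_le L]

theorem sum_rho_left (L : ℕ) (a : ℕ → ℝ) (ha : ∀ j, 0 ≤ a j) :
    ∑ j ∈ range L, ∑ l ∈ range L, rho j l * a j ≤ 20 * ∑ j ∈ range L, a j := by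
  rw [mul_sum]
  refine sum_le_sum fun j _ => ?_
  rw [← sum_mul]
  exact mul_le_mul_of_nonneg_right (sum_rho_le j L) (ha j)

theorem sum_rho_right (L : ℕ) (a : ℕ → ℝ) (ha : ∀ j, 0 ≤ a j) :
    ∑ j ∈ range L, ∑ l ∈ range L, rho j l * a l ≤ 20 * ∑ j ∈ range L, a j := by
  rw [sum_comm]
  refine le_trans (le_of_eq ?_) (sum_rho_left L a ha)
  exact sum_congr rfl fun j _ => sum_congr rfl fun l _ => by rw [rho_comm]

/-- First bad set. -/
def B1 {Y : Type*} (Λ Λ' : Lat Y) (d : Y → Y → ℝ) (m : ℕ) (ε : ℝ) (j l : ℕ) (x : Y) : Prop :=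
  (j + m ≤ l ∧ ¬ gf Λ Λ' d j l x) ∨
    (¬ j + m ≤ l ∧ ¬ l + m ≤ j ∧ (¬ gd Λ Λ' d j (j + m) x ∨ ¬ pad Λ' d l x (ε * 2 ^ j)))

/-- Second bad set. -/
def B2 {Y : Type*} (Λ Λ' : Lat Y) (d : Y → Y → ℝ) (m : ℕ) (ε : ℝ) (j l : ℕ) (y : Y) : Prop :=
  (l + m ≤ j ∧ ¬ gf Λ' Λ d l j y) ∨ (¬ j + m ≤ l ∧ ¬ l + m ≤ j ∧ ¬ pad Λ d j y (ε * 2 ^ j))

/-- The constant for pairs. -/
def Kp (m : ℕ) (ε : ℝ) : ℝ := 64 + (5 + 2 ^ m / ε) * (10 / 9) ^ m

variable {μ : X → ℝ} {b : X → ℂ} {η : ℝ} {d D : X → X → ℝ} {k : X → X → ℂ} {N : ℝ}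
  {Λ Λ' : Lat X} {G G' : X → Prop}

theorem pair_all (hK : KS μ d D k) (h1 : LD μ b η d D Λ G) (h2 : LD μ b η d D Λ' G')
    (hB : L2B μ k N) (hN : 0 < N) {m : ℕ} (hm : 6 ≤ m) {ε : ℝ} (hε : 0 < ε) (j l : ℕ)
    (f g : X → ℂ) {t : ℝ} (ht : 0 < t) :
    ‖blf μ k (Db μ b Λ G j f) (Db μ b Λ' G' l g) -
      (if j + m ≤ l then ∑ x, cut (gf Λ Λ' d j l) (dc μ b Λ' G' l g) x * Db μ b Λ G j f x *
        opT μ k b x * (μ x : ℂ) else 0) +
      (if l + m ≤ j then ∑ x, cut (gf Λ' Λ d l j) (dc μ b Λ G j f) x * Db μ b Λ' G' l g x *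
        opT μ k b x * (μ x : ℂ) else 0)‖ ≤
      Kp m ε * (rho j l * (nsq μ (Db μ b Λ G j f) + nsq μ (dc μ b Λ G j f)) +
        rho j l * (nsq μ (Db μ b Λ' G' l g) + nsq μ (dc μ b Λ' G' l g))) +
      2 * N * (t * (nsq μ (Db μ b Λ G j f) + nsq μ (Db μ b Λ' G' l g)) +
        nsq μ (cut (B1 Λ Λ' d m ε j l) (Db μ b Λ G j f)) / t +
        nsq μ (cut (B2 Λ Λ' d m ε j l) (Db μ b Λ' G' l g)) / t) := by
  have hμ' := hK.sp.mu_nn
  have hu := nsq_nonneg hμ' (Db μ b Λ G j f)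
  have hv := nsq_nonneg hμ' (Db μ b Λ' G' l g)
  have ha := nsq_nonneg hμ' (dc μ b Λ G j f)
  have ha' := nsq_nonneg hμ' (dc μ b Λ' G' l g)
  have hW1 := div_nonneg (nsq_nonneg hμ' (cut (B1 Λ Λ' d m ε j l) (Db μ b Λ G j f))) ht.le
  have hW2 := div_nonneg (nsq_nonneg hμ' (cut (B2 Λ Λ' d m ε j l) (Db μ b Λ' G' l g))) ht.le
  have hK64 : 64 ≤ Kp m ε := by unfold Kp; have : 0 ≤ (5 + 2 ^ m / ε) * (10 / 9 : ℝ) ^ m := by
                                  positivity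
                                linarith
  have hρ := rho_pos j l
  have hq : ∀ q : ℕ, 64 * (2 / 3 : ℝ) ^ q ≤ Kp m ε * (9 / 10) ^ q := fun q =>
    mul_le_mul hK64 (pow_le_pow_left₀ (by norm_num) (by norm_num) q) (by positivity) (by linarith)
  have n1 := mul_nonneg hN.le (mul_nonneg ht.le hu)
  have n2 := mul_nonneg hN.le (mul_nonneg ht.le hv)
  have n3 := mul_nonneg hN.le hW1
  have n4 := mul_nonneg hN.le hW2
  by_cases c1 : j + m ≤ l
  · rw [if_pos c1, if_neg (by omega), add_zero]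
    obtain ⟨q, rfl⟩ := Nat.exists_eq_add_of_le (show j ≤ l by omega)
    refine (pair_far hK h1 h2 hB hN j q (by omega) f g ht).trans ?_
    have a1 := div_le_div_of_nonneg_right (nsq_cut_mono hμ'
      (p := fun x => ¬ gf Λ Λ' d j (j + q) x) (q := B1 Λ Λ' d m ε j (j + q))
      (fun x hx => Or.inl ⟨c1, hx⟩) (Db μ b Λ G j f)) ht.le
    have a2 := mul_le_mul_of_nonneg_left a1 hN.le
    rw [rho_add]
    have a3 := mul_le_mul_of_nonneg_right (hq q) (add_nonneg (add_nonneg hu ha) (add_nonneg hv ha'))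
    have a4 : (0:ℝ) ≤ (2 / 3) ^ q := by positivity
    nlinarith [mul_nonneg a4 ha, mul_nonneg a4 hv, mul_nonneg a4 ha']
  by_cases c2 : l + m ≤ j
  · rw [if_neg c1, if_pos c2, sub_zero, blf_swap hK.anti, ← norm_neg, neg_add, neg_neg,
      ← sub_eq_add_neg]
    obtain ⟨q, rfl⟩ := Nat.exists_eq_add_of_le (show l ≤ j by omega)
    refine (pair_far hK h2 h1 hB hN l q (by omega) g f ht).trans ?_
    have a1 := div_le_div_of_nonneg_right (nsq_cut_mono hμ'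
      (p := fun x => ¬ gf Λ' Λ d l (l + q) x) (q := B2 Λ Λ' d m ε (l + q) l)
      (fun x hx => Or.inl ⟨c2, hx⟩) (Db μ b Λ' G' l g)) ht.le
    have a2 := mul_le_mul_of_nonneg_left a1 hN.le
    rw [rho_comm, rho_add]
    have a3 := mul_le_mul_of_nonneg_right (hq q) (add_nonneg (add_nonneg hu ha) (add_nonneg hv ha'))
    have a4 : (0:ℝ) ≤ (2 / 3) ^ q := by positivity
    nlinarith [mul_nonneg a4 ha, mul_nonneg a4 hu, mul_nonneg a4 ha']
  rw [if_neg c1, if_neg c2, sub_zero, add_zero]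
  refine (pair_near hK h1 h2 hB hN j l (j + m) (by omega) (by omega) f g
    (s := ε * 2 ^ j) (by positivity) ht).trans ?_
  have a1 := div_le_div_of_nonneg_right (nsq_cut_mono hμ'
    (p := fun x => ¬ gd Λ Λ' d j (j + m) x ∨ ¬ pad Λ' d l x (ε * 2 ^ j)) (q := B1 Λ Λ' d m ε j l)
    (fun x hx => Or.inr ⟨c1, c2, hx⟩) (Db μ b Λ G j f)) ht.le
  have a2 := div_le_div_of_nonneg_right (nsq_cut_mono hμ'
    (p := fun y => ¬ pad Λ d j y (ε * 2 ^ j)) (q := B2 Λ Λ' d m ε j l)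
    (fun x hx => Or.inr ⟨c1, c2, hx⟩) (Db μ b Λ' G' l g)) ht.le
  have a3 := mul_le_mul_of_nonneg_left a1 hN.le
  have a4 := mul_le_mul_of_nonneg_left a2 hN.le
  have e : (2:ℝ) ^ (j + m) / (ε * 2 ^ j) = 2 ^ m / ε := by rw [pow_add]; field_simp
  have a5 : 5 + 2 ^ m / ε ≤ Kp m ε * rho j l := by
    have b1 : (9 / 10 : ℝ) ^ m ≤ rho j l := by
      unfold rho
      refine pow_le_pow_of_le_one (by norm_num) (by norm_num) ?_
      unfold Nat.dist; omega
    have b2 : (5 + 2 ^ m / ε) * (10 / 9 : ℝ) ^ m * (9 / 10) ^ m = 5 + 2 ^ m / ε := by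
      rw [mul_assoc, ← mul_pow]; norm_num
    rw [← b2]
    refine mul_le_mul ?_ b1 (by positivity) (by linarith)
    unfold Kp; linarith
  rw [e]
  have a6 := mul_le_mul_of_nonneg_right a5 (add_nonneg hu hv)
  have a7 := mul_nonneg (mul_nonneg (show 0 ≤ Kp m ε by linarith) hρ.le) (add_nonneg ha ha')
  nlinarith

theorem blf_sum_left (s : Finset ℕ) (u : ℕ → X → ℂ) (v : X → ℂ) :
    blf μ k (fun x => ∑ j ∈ s, u j x) v = ∑ j ∈ s, blf μ k (u j) v := by
  simp only [blf_eq, sum_mul]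
  rw [sum_comm]

theorem blf_sum (hk : ∀ x y, k x y = - k y x) (s s' : Finset ℕ) (u v : ℕ → X → ℂ) :
    blf μ k (fun x => ∑ j ∈ s, u j x) (fun y => ∑ l ∈ s', v l y) =
      ∑ j ∈ s, ∑ l ∈ s', blf μ k (u j) (v l) := by
  rw [blf_sum_left]
  refine sum_congr rfl fun j _ => ?_
  rw [blf_swap hk, blf_sum_left, ← sum_neg_distrib]
  exact sum_congr rfl fun l _ => (blf_swap hk _ _).symm

theorem blf_sub_left (u v w : X → ℂ) (a : ℂ) :
    blf μ k (fun x => u x - a * w x) v = blf μ k u v - a * blf μ k w v := by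
  simp only [blf_eq, mul_sum]
  rw [← sum_sub_distrib]
  exact sum_congr rfl fun x _ => by ring

theorem sq_sum_le (hμ : ∀ x, 0 ≤ μ x) (f : X → ℂ) :
    (∑ x, μ x * ‖f x‖) ^ 2 ≤ (∑ x, μ x) * nsq μ f := by
  have := sum_mul_sq_le_sq_mul_sq univ (fun x => √(μ x)) (fun x => √(μ x) * ‖f x‖)
  refine le_trans (le_of_eq ?_) (this.trans (le_of_eq ?_))
  · congr 1
    exact sum_congr rfl fun x _ => by rw [← mul_assoc, Real.mul_self_sqrt (hμ x)]
  · unfold nsq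
    congr 1
    · exact sum_congr rfl fun x _ => Real.sq_sqrt (hμ x)
    · exact sum_congr rfl fun x _ => by rw [mul_pow, Real.sq_sqrt (hμ x)]

theorem top_term (h1 : LD μ b η d D Λ G) {L : ℕ} (hL : ∀ x y, Λ.c L x y) {β : ℝ}
    (hβ : ∀ x, ‖opT μ k b x‖ ≤ β) (f g : X → ℂ) :
    ∃ a : ℂ, (∀ x, Eb μ b Λ G L f x = a * b x) ∧
      ‖a * blf μ k g b‖ ≤ β / η / 2 * (nsq μ f + nsq μ g) := by
  have hμ := h1.acc.mu_pos
  have hμ' : ∀ x, 0 ≤ μ x := fun x => (hμ x).le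
  have hη := h1.acc.eta_pos
  rcases isEmpty_or_nonempty X with hX | ⟨⟨x0⟩⟩
  · exact ⟨0, fun x => hX.elim x, by simp [nsq]⟩
  have htr : ∀ x, tr Λ G L x := fun x => by
    obtain ⟨x', h, _⟩ := h1.sep x x
    exact ⟨x', hL _ _, h⟩
  refine ⟨co μ b Λ L f x0, fun x => by unfold Eb; rw [if_pos (htr x), co_of_c (hL x0 x)], ?_⟩
  have hβ0 : 0 ≤ β := (norm_nonneg _).trans (hβ x0)
  have a1 := h1.acc.norm_co_le (htr x0) f
  unfold rav at a1
  rw [bm_of_forall _ (hL x0), bm_of_forall _ (hL x0)] at a1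
  have a2 : ‖blf μ k g b‖ ≤ β * ∑ x, μ x * ‖g x‖ := by
    rw [blf_eq, mul_sum]
    refine (norm_sum_le _ _).trans (sum_le_sum fun x _ => ?_)
    rw [norm_mul, norm_mul, Complex.norm_real, Real.norm_of_nonneg (hμ' x)]
    nlinarith [mul_le_mul_of_nonneg_left (hβ x) (mul_nonneg (hμ' x) (norm_nonneg (g x)))]
  have hM : 0 < ∑ x, μ x := sum_pos (fun x _ => hμ x) ⟨x0, mem_univ _⟩
  have b1 := sq_sum_le hμ' f
  have b2 := sq_sum_le hμ' g
  set F := ∑ x, μ x * ‖f x‖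
  set E := ∑ x, μ x * ‖g x‖
  set M := ∑ x, μ x
  have b3 : F / M * E ≤ (nsq μ f + nsq μ g) / 2 := by
    rw [div_mul_eq_mul_div, div_le_iff₀ hM]
    nlinarith [sq_nonneg (F - E)]
  rw [norm_mul]
  refine (mul_le_mul a1 a2 (norm_nonneg _) ((norm_nonneg _).trans a1)).trans ?_
  have := mul_le_mul_of_nonneg_left b3 (show 0 ≤ β / η by positivity)
  refine le_trans (le_of_eq ?_) (this.trans (le_of_eq ?_)) <;> ring

/-- The constant in the deterministic estimate. -/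
def Cdet (m : ℕ) (ε η β : ℝ) : ℝ := (1080 * Kp m ε + 1152 * (1 + β ^ 2) + β) / η ^ 6

theorem det (hK : KS μ d D k) (h1 : LD μ b η d D Λ G) (h2 : LD μ b η d D Λ' G')
    (hB : L2B μ k N) (hN : 0 < N) {m : ℕ} (hm : 6 ≤ m) {ε δ : ℝ} (hε : 0 < ε) (hδ : 0 < δ)
    {L : ℕ} (z1 : ∀ x y, Λ.c 0 x y → y = x) (z2 : ∀ x y, Λ'.c 0 x y → y = x)
    (t1 : ∀ x y, Λ.c L x y) (t2 : ∀ x y, Λ'.c L x y) {β : ℝ} (hβ0 : 0 ≤ β)
    (hβ : ∀ x, ‖opT μ k b x‖ ≤ β) (f g : X → ℂ) :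
    ‖blf μ k f g‖ ≤ Cdet m ε η β * (nsq μ f + nsq μ g) +
      2 * N * (720 * δ / η ^ 4 * (nsq μ f + nsq μ g) +
        ∑ j ∈ range L, ∑ l ∈ range L,
          nsq μ (cut (B1 Λ Λ' d m ε j l) (Db μ b Λ G j f)) / (δ * rho j l) +
        ∑ j ∈ range L, ∑ l ∈ range L,
          nsq μ (cut (B2 Λ Λ' d m ε j l) (Db μ b Λ' G' l g)) / (δ * rho j l)) := by
  have hμ' := hK.sp.mu_nn
  have hη := h1.acc.eta_pos
  obtain ⟨a, ha1, ha2⟩ := top_term h1 t1 hβ f g
  obtain ⟨a', ha1', ha2'⟩ := top_term h2 t2 hβ g f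
  have e1 : (fun x => ∑ j ∈ range L, Db μ b Λ G j f x) = fun x => f x - a * b x := by
    funext x; rw [← ha1, eq_sub_iff_add_eq, ← h1.acc.decomp z1]
  have e2 : (fun x => ∑ j ∈ range L, Db μ b Λ' G' j g x) = fun x => g x - a' * b x := by
    funext x; rw [← ha1', eq_sub_iff_add_eq, ← h2.acc.decomp z2]
  have e3 := blf_sum (μ := μ) hK.anti (range L) (range L) (fun j => Db μ b Λ G j f)
    (fun l => Db μ b Λ' G' l g)
  have hbb : blf μ k b b = 0 := by
    have := blf_swap (μ := μ) hK.anti b b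
    linear_combination this / 2
  rw [e1, e2, blf_sub_left, blf_swap hK.anti f, blf_swap hK.anti b, blf_sub_left, blf_sub_left,
    hbb, blf_swap hK.anti g f, blf_swap hK.anti b f] at e3
  have p1 := para h1 h2 hm L hβ f g
  have p2 := para h2 h1 hm L hβ g f
  rw [sum_comm] at p2
  have p3 := fun j l => pair_all hK h1 h2 hB hN hm hε j l f g (mul_pos hδ (rho_pos j l))
  have p4 := (norm_sum_le (range L) _).trans (sum_le_sum fun j _ =>
    (norm_sum_le (range L) _).trans (sum_le_sum fun l _ => p3 j l))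
  simp only [sum_add_distrib, sum_sub_distrib, ← mul_sum] at p4
  rw [← e3] at p4
  have s1 := sum_rho_left L (fun j => nsq μ (Db μ b Λ G j f) + nsq μ (dc μ b Λ G j f))
    fun j => add_nonneg (nsq_nonneg hμ' _) (nsq_nonneg hμ' _)
  have s2 := sum_rho_right L (fun l => nsq μ (Db μ b Λ' G' l g) + nsq μ (dc μ b Λ' G' l g))
    fun j => add_nonneg (nsq_nonneg hμ' _) (nsq_nonneg hμ' _)
  have s3 := sum_rho_left L (fun j => nsq μ (Db μ b Λ G j f)) fun j => nsq_nonneg hμ' _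
  have s4 := sum_rho_right L (fun l => nsq μ (Db μ b Λ' G' l g)) fun j => nsq_nonneg hμ' _
  have s5 : ∑ j ∈ range L, ∑ l ∈ range L, δ * rho j l *
      (nsq μ (Db μ b Λ G j f) + nsq μ (Db μ b Λ' G' l g)) =
      δ * (∑ j ∈ range L, ∑ l ∈ range L, rho j l * nsq μ (Db μ b Λ G j f) +
        ∑ j ∈ range L, ∑ l ∈ range L, rho j l * nsq μ (Db μ b Λ' G' l g)) := by
    rw [← sum_add_distrib, mul_sum]
    refine sum_congr rfl fun j _ => ?_
    rw [← sum_add_distrib, mul_sum]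
    exact sum_congr rfl fun l _ => by ring
  rw [s5] at p4
  rw [sum_add_distrib] at s1 s2
  have q1 := h1.acc.sum_Db L f
  have q2 := h1.acc.sum_dc L f
  have q3 := h2.acc.sum_Db L g
  have q4 := h2.acc.sum_dc L g
  have hf := nsq_nonneg hμ' f
  have hg := nsq_nonneg hμ' g
  have hK0 : 0 ≤ Kp m ε := by unfold Kp; positivity
  have r1 : Kp m ε * (∑ j ∈ range L, ∑ l ∈ range L,
      rho j l * (nsq μ (Db μ b Λ G j f) + nsq μ (dc μ b Λ G j f)) + ∑ j ∈ range L, ∑ l ∈ range L,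
      rho j l * (nsq μ (Db μ b Λ' G' l g) + nsq μ (dc μ b Λ' G' l g))) ≤
      1080 * Kp m ε / η ^ 6 * (nsq μ f + nsq μ g) := by
    have c1 : 1 / η ^ 4 ≤ 1 / η ^ 6 := one_div_le_one_div_of_le (by positivity)
      (pow_le_pow_of_le_one hη.le h1.acc.eta_le (by norm_num))
    have c2 := mul_le_mul_of_nonneg_right c1 (add_nonneg hf hg)
    have e : 1080 * Kp m ε / η ^ 6 * (nsq μ f + nsq μ g) =
      Kp m ε * (1080 * (1 / η ^ 6 * (nsq μ f + nsq μ g))) := by ring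
    rw [e]
    refine mul_le_mul_of_nonneg_left ?_ hK0
    have e' : 1 / η ^ 4 * (nsq μ f + nsq μ g) =
      (36 / η ^ 4 * nsq μ f + 18 / η ^ 4 * nsq μ f + 36 / η ^ 4 * nsq μ g +
        18 / η ^ 4 * nsq μ g) / 54 := by ring
    linarith
  have r2 : δ * (∑ j ∈ range L, ∑ l ∈ range L, rho j l * nsq μ (Db μ b Λ G j f) +
        ∑ j ∈ range L, ∑ l ∈ range L, rho j l * nsq μ (Db μ b Λ' G' l g)) ≤
      720 * δ / η ^ 4 * (nsq μ f + nsq μ g) := by
    have e : 720 * δ / η ^ 4 * (nsq μ f + nsq μ g) =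
      δ * (20 * (36 / η ^ 4 * nsq μ f) + 20 * (36 / η ^ 4 * nsq μ g)) := by ring
    rw [e]
    exact mul_le_mul_of_nonneg_left (by linarith) hδ.le
  have r3 := mul_le_mul_of_nonneg_left r2 hN.le
  have r4 : β / η * (nsq μ f + nsq μ g) ≤ β / η ^ 6 * (nsq μ f + nsq μ g) := by
    refine mul_le_mul_of_nonneg_right (div_le_div_of_nonneg_left hβ0 (by positivity) ?_)
      (add_nonneg hf hg)
    simpa using pow_le_pow_of_le_one hη.le h1.acc.eta_le (show 1 ≤ 6 by norm_num)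
  have e4 : Cdet m ε η β * (nsq μ f + nsq μ g) = 1080 * Kp m ε / η ^ 6 * (nsq μ f + nsq μ g) +
      576 * (1 + β ^ 2) / η ^ 6 * (nsq μ f + nsq μ g) +
      576 * (1 + β ^ 2) / η ^ 6 * (nsq μ g + nsq μ f) + β / η ^ 6 * (nsq μ f + nsq μ g) := by
    unfold Cdet; ring
  generalize blf μ k f g = A at *
  generalize blf μ k f b = B at *
  generalize blf μ k g b = C at *
  generalize (∑ j ∈ range L, ∑ l ∈ range L, if j + m ≤ l then
    ∑ x, cut (gf Λ Λ' d j l) (dc μ b Λ' G' l g) x * Db μ b Λ G j f x *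
        opT μ k b x * (μ x : ℂ) else 0) = P1 at *
  generalize (∑ j ∈ range L, ∑ l ∈ range L, if l + m ≤ j then
    ∑ x, cut (gf Λ' Λ d l j) (dc μ b Λ G j f) x * Db μ b Λ' G' l g x *
        opT μ k b x * (μ x : ℂ) else 0) = P2 at *
  have e5 : A = (-(-A - a' * -B) - a * -(C - a' * 0) - P1 + P2) + P1 + -P2 + (a' * B + -(a * C)) := by
    ring
  have n1 := norm_add_le ((-(-A - a' * -B) - a * -(C - a' * 0) - P1 + P2) + P1 + -P2)
    (a' * B + -(a * C))
  have n2 := norm_add₃_le (a := -(-A - a' * -B) - a * -(C - a' * 0) - P1 + P2) (b := P1) (c := -P2)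
  have n3 := norm_add_le (a' * B) (-(a * C))
  rw [← e5] at n1
  rw [norm_neg] at n2 n3
  linarith

end

end Pool.Agent.Lib.MP_dfc9b7_an
end
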