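import Pool.Agent.Lib.MP_dfc9b7_an.Det

-- part Pool.Agent.Lib.MP_dfc9b7_an.Avg
section

/-! Averaging the deterministic estimate over two independent random lattices. -/

set_option autoImplicit false
open Finset

namespace Pool.Agent.Lib.MP_dfc9b7_an

noncomputable section
variable {X : Type*} [Fintype X] {Ω : Type*} [Fintype Ω]

/-- A random lattice with small boundaries. -/
structure RL (π : Ω → ℝ) (Λ : Ω → Lat X) (d : X → X → ℝ) (L : ℕ) : Prop where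
  pi_nn : ∀ ω, 0 ≤ π ω
  pi_sum : ∑ ω, π ω = 1
  d_nn : ∀ x y, 0 ≤ d x y
  d_tri : ∀ x y z, d x z ≤ d x y + d y z
  diam : ∀ ω j x y, (Λ ω).c j x y → d x y ≤ 2 * 2 ^ j
  zero : ∀ ω x y, (Λ ω).c 0 x y → y = x
  top : ∀ ω x y, (Λ ω).c L x y
  small : ∀ i x s, 0 ≤ s → bm π (fun ω => ¬ pad (Λ ω) d i x s) ≤ 4 * s / 2 ^ i

variable {π : Ω → ℝ} {Λ : Ω → Lat X} {d : X → X → ℝ} {L : ℕ}

omit [Fintype X] in
theorem RL.gd_small (h : RL π Λ d L) (ω₀ : Ω) (j q : ℕ) (hq : 6 ≤ q) (x : X) :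
    bm π (fun ω => ¬ gd (Λ ω₀) (Λ ω) d j (j + q) x) ≤ 6 * (3 / 4) ^ q := by
  have h1 := sz_ge (show j + 6 ≤ j + q by omega)
  have hp : (0:ℝ) < 2 ^ j := by positivity
  have h2 := h.small (j + q) x (3 / 2 * sz j (j + q)) (by linarith)
  refine le_trans (bm_mono h.pi_nn
    (q := fun ω => ¬ pad (Λ ω) d (j + q) x (3 / 2 * sz j (j + q)))
    fun ω hω hp' => hω fun x' hx' y hy => ?_)
    (h2.trans (le_of_eq ?_))
  · have a1 := h.diam ω₀ _ _ _ hx'
    rw [pow_succ] at a1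
    have a2 := hp' x' (by linarith)
    have a3 := hp' y (by linarith [h.d_tri x x' y])
    exact (Λ ω).trans _ _ _ _ ((Λ ω).symm _ _ _ a2) a3
  · rw [sz_add, pow_add, div_pow, div_pow, show (4:ℝ) ^ q = 2 ^ q * 2 ^ q by
      rw [← mul_pow]; norm_num]
    field_simp; ring

omit [Fintype X] in
theorem RL.gf_small (h : RL π Λ d L) (ω₀ : Ω) (j q : ℕ) (hq : 6 ≤ q) (x : X) :
    bm π (fun ω => ¬ gf (Λ ω₀) (Λ ω) d j (j + q) x) ≤ 24 * (3 / 4) ^ q := by
  have h1 := bm_exists_le (range L) h.pi_nn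
    (fun i ω => ¬ gd (Λ ω₀) (Λ ω) d j (j + (q + i)) x)
  refine (bm_mono h.pi_nn fun ω hω => ?_).trans (h1.trans ?_)
  · by_contra hc
    push Not at hc
    refine hω fun l' hl' => ?_
    obtain ⟨i, rfl⟩ := Nat.exists_eq_add_of_le hl'
    by_cases hi : i < L
    · rw [add_assoc]; exact hc i (mem_range.2 hi)
    · exact fun x' _ y _ => (Λ ω).mono (by omega) (h.top ω x' y)
  · refine (sum_le_sum fun i _ => h.gd_small ω₀ j (q + i) (by omega) x).trans ?_
    have : ∀ n, ∑ i ∈ range n, 6 * (3 / 4 : ℝ) ^ (q + i) =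
        24 * (3 / 4) ^ q - 24 * (3 / 4) ^ (q + n) := by
      intro n
      induction n with
      | zero => simp
      | succ n ih => rw [sum_range_succ, ih, ← add_assoc, pow_succ]; ring
    rw [this]
    have : (0:ℝ) ≤ (3 / 4) ^ (q + L) := by positivity
    linarith

theorem par_far {m q : ℕ} (hq : m ≤ q) {δ : ℝ} (hδ : 24 * (25 / 27 : ℝ) ^ m ≤ δ ^ 2) :
    24 * (3 / 4 : ℝ) ^ q ≤ (δ * (9 / 10) ^ q) ^ 2 := by
  have h1 : (25 / 27 : ℝ) ^ q ≤ (25 / 27) ^ m :=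
    pow_le_pow_of_le_one (by norm_num) (by norm_num) hq
  have e : (3 / 4 : ℝ) ^ q = (25 / 27) ^ q * ((9 / 10) ^ q) ^ 2 := by
    rw [← pow_mul, mul_comm q 2, pow_mul, ← mul_pow]; norm_num
  rw [e, mul_pow, ← mul_assoc]
  exact mul_le_mul_of_nonneg_right (by linarith) (by positivity)

omit [Fintype X] in
theorem RL.B1_small (h : RL π Λ d L) {m : ℕ} (hm : 6 ≤ m) {ε δ : ℝ} (hε : 0 < ε) (hδ0 : 0 < δ)
    (hδ : 24 * (25 / 27 : ℝ) ^ m ≤ δ ^ 2) (hε2 : 8 * ε * 2 ^ m ≤ (δ * (9 / 10) ^ m) ^ 2)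
    (ω₀ : Ω) (j l : ℕ) (x : X) :
    bm π (fun ω => B1 (Λ ω₀) (Λ ω) d m ε j l x) ≤ (δ * rho j l) ^ 2 := by
  by_cases c1 : j + m ≤ l
  · obtain ⟨q, rfl⟩ := Nat.exists_eq_add_of_le (show j ≤ l by omega)
    rw [rho_add]
    refine (bm_mono h.pi_nn fun ω hω => ?_).trans ((h.gf_small ω₀ j q (by omega) x).trans
      (par_far (by omega) hδ))
    rcases hω with h' | h'
    exacts [h'.2, absurd c1 h'.1]
  by_cases c2 : l + m ≤ j
  · rw [bm_false]
    · positivity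
    · rintro ω (h' | h')
      exacts [c1 h'.1, h'.2.1 c2]
  have a1 := h.gd_small ω₀ j m hm x
  have a2 := h.small l x (ε * 2 ^ j) (by positivity)
  have a3 := par_far (le_refl m) hδ
  have a4 : 4 * (ε * 2 ^ j) / 2 ^ l ≤ 4 * ε * 2 ^ m := by
    rw [div_le_iff₀ (by positivity), mul_assoc (4 * ε), ← pow_add, ← mul_assoc]
    exact mul_le_mul_of_nonneg_left (pow_le_pow_right₀ (by norm_num) (by omega)) (by positivity)
  have a5 : (δ * (9 / 10) ^ m) ^ 2 ≤ (δ * rho j l) ^ 2 := by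
    refine pow_le_pow_left₀ (by positivity) (mul_le_mul_of_nonneg_left ?_ hδ0.le) 2
    unfold rho
    refine pow_le_pow_of_le_one (by norm_num) (by norm_num) ?_
    unfold Nat.dist; omega
  have a6 : (0:ℝ) ≤ (3 / 4) ^ m := by positivity
  refine (bm_le_add h.pi_nn (q := fun ω => ¬ gd (Λ ω₀) (Λ ω) d j (j + m) x)
    (r := fun ω => ¬ pad (Λ ω) d l x (ε * 2 ^ j)) fun ω hω => ?_).trans (by linarith)
  rcases hω with h' | h'
  exacts [absurd h'.1 c1, h'.2.2]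

omit [Fintype X] in
theorem RL.B2_small (h : RL π Λ d L) {m : ℕ} (hm : 6 ≤ m) {ε δ : ℝ} (hε : 0 < ε) (hδ0 : 0 < δ)
    (hδ : 24 * (25 / 27 : ℝ) ^ m ≤ δ ^ 2) (hε2 : 8 * ε * 2 ^ m ≤ (δ * (9 / 10) ^ m) ^ 2)
    (ω₀ : Ω) (j l : ℕ) (x : X) :
    bm π (fun ω => B2 (Λ ω) (Λ ω₀) d m ε j l x) ≤ (δ * rho j l) ^ 2 := by
  by_cases c2 : l + m ≤ j
  · obtain ⟨q, rfl⟩ := Nat.exists_eq_add_of_le (show l ≤ j by omega)
    rw [rho_comm, rho_add]
    refine (bm_mono h.pi_nn fun ω hω => ?_).trans ((h.gf_small ω₀ l q (by omega) x).trans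
      (par_far (by omega) hδ))
    rcases hω with h' | h'
    exacts [h'.2, absurd c2 h'.2.1]
  by_cases c1 : j + m ≤ l
  · rw [bm_false]
    · positivity
    · rintro ω (h' | h')
      exacts [c2 h'.1, h'.1 c1]
  have a2 := h.small j x (ε * 2 ^ j) (by positivity)
  have a4 : 4 * (ε * 2 ^ j) / 2 ^ j ≤ 4 * ε * 2 ^ m := by
    rw [← mul_assoc, mul_div_assoc, div_self (by positivity)]
    exact mul_le_mul_of_nonneg_left (one_le_pow₀ (by norm_num)) (by positivity)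
  have a5 : (δ * (9 / 10) ^ m) ^ 2 ≤ (δ * rho j l) ^ 2 := by
    refine pow_le_pow_left₀ (by positivity) (mul_le_mul_of_nonneg_left ?_ hδ0.le) 2
    unfold rho
    refine pow_le_pow_of_le_one (by norm_num) (by norm_num) ?_
    unfold Nat.dist; omega
  have a6 : (0:ℝ) ≤ ε * 2 ^ m := by positivity
  refine (bm_mono h.pi_nn (q := fun ω => ¬ pad (Λ ω) d j x (ε * 2 ^ j)) fun ω hω => ?_).trans
    (by linarith)
  rcases hω with h' | h'
  exacts [absurd h'.1 c2, h'.2.2]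

theorem avg_cut {μ : X → ℝ} (hμ : ∀ x, 0 ≤ μ x) (B : Ω → X → Prop) (u : X → ℂ) {t : ℝ}
    (ht : 0 < t) (hB : ∀ x, bm π (fun ω => B ω x) ≤ t ^ 2) :
    ∑ ω, π ω * (nsq μ (cut (B ω) u) / t) ≤ t * nsq μ u := by
  have e : ∑ ω, π ω * (nsq μ (cut (B ω) u) / t) =
      (∑ x, μ x * ‖u x‖ ^ 2 * bm π (fun ω => B ω x)) / t := by
    simp only [nsq_cut, ← sum_mul_ind, mul_sum, sum_div]
    rw [sum_comm]
    refine sum_congr rfl fun x _ => sum_congr rfl fun ω _ => ?_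
    rw [ind_congr (p := B ω) (q := fun ω => B ω x) (y := x) (z := ω) Iff.rfl]; ring
  rw [e, div_le_iff₀ ht]
  unfold nsq
  rw [mul_sum, sum_mul]
  refine sum_le_sum fun x _ => ?_
  nlinarith [mul_le_mul_of_nonneg_left (hB x) (mul_nonneg (hμ x) (sq_nonneg ‖u x‖))]

theorem avg_bound (h : RL π Λ d L) {μ : X → ℝ} {b : X → ℂ} {η : ℝ} {G : Ω → X → Prop}
    {D : Ω → Ω → X → X → ℝ} {k : Ω → Ω → X → X → ℂ} (hK : ∀ ω ω', KS μ d (D ω ω') (k ω ω'))
    (h1 : ∀ ω ω', LD μ b η d (D ω ω') (Λ ω) (G ω)) (h2 : ∀ ω ω', LD μ b η d (D ω ω') (Λ ω') (G ω'))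
    {N : ℝ} (hB : ∀ ω ω', L2B μ (k ω ω') N) (hN : 0 < N) {m : ℕ} (hm : 6 ≤ m) {ε δ : ℝ}
    (hε : 0 < ε) (hδ0 : 0 < δ) (hδ : 24 * (25 / 27 : ℝ) ^ m ≤ δ ^ 2)
    (hε2 : 8 * ε * 2 ^ m ≤ (δ * (9 / 10) ^ m) ^ 2) {β : ℝ} (hβ0 : 0 ≤ β)
    (hβ : ∀ ω ω' x, ‖opT μ (k ω ω') b x‖ ≤ β) (f g : X → ℂ) :
    ∑ ω, ∑ ω', π ω * π ω' * ‖blf μ (k ω ω') f g‖ ≤
      (Cdet m ε η β + 2880 * N * δ / η ^ 4) * (nsq μ f + nsq μ g) := by
  have hne : Nonempty Ω := by
    by_contra hc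
    have := h.pi_sum
    rw [not_nonempty_iff] at hc
    simp at this
  obtain ⟨ω1⟩ := hne
  have hμ := (hK ω1 ω1).sp.mu_nn
  have hη := (h1 ω1 ω1).acc.eta_pos
  set P := Cdet m ε η β * (nsq μ f + nsq μ g) +
    2 * N * (720 * δ / η ^ 4 * (nsq μ f + nsq μ g)) with hP
  set S1 : Ω → Ω → ℝ := fun ω ω' => ∑ j ∈ range L, ∑ l ∈ range L,
    nsq μ (cut (B1 (Λ ω) (Λ ω') d m ε j l) (Db μ b (Λ ω) (G ω) j f)) / (δ * rho j l) with hS1
  set S2 : Ω → Ω → ℝ := fun ω ω' => ∑ j ∈ range L, ∑ l ∈ range L,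
    nsq μ (cut (B2 (Λ ω) (Λ ω') d m ε j l) (Db μ b (Λ ω') (G ω') l g)) / (δ * rho j l) with hS2
  have a1 : ∀ ω ω', ‖blf μ (k ω ω') f g‖ ≤ P + 2 * N * S1 ω ω' + 2 * N * S2 ω ω' := fun ω ω' =>
    (det (hK ω ω') (h1 ω ω') (h2 ω ω') (hB ω ω') hN hm hε hδ0 (h.zero ω) (h.zero ω') (h.top ω)
      (h.top ω') hβ0 (hβ ω ω') f g).trans (le_of_eq (by simp only [hP, hS1, hS2]; ring))
  have a2 : ∀ ω, ∑ ω', π ω' * S1 ω ω' ≤ 720 * δ / η ^ 4 * nsq μ f := by
    intro ω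
    simp only [hS1, mul_sum]
    rw [sum_comm]
    have b1 := sum_rho_left L (fun j => nsq μ (Db μ b (Λ ω) (G ω) j f)) fun j => nsq_nonneg hμ _
    have b2 := (h1 ω ω).acc.sum_Db L f
    have b3 : δ * ∑ j ∈ range L, ∑ l ∈ range L, rho j l * nsq μ (Db μ b (Λ ω) (G ω) j f) ≤
        720 * δ / η ^ 4 * nsq μ f := by
      refine (mul_le_mul_of_nonneg_left (b1.trans (mul_le_mul_of_nonneg_left b2 (by norm_num)))
        hδ0.le).trans (le_of_eq (by ring))
    refine le_trans ?_ b3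
    rw [mul_sum]
    refine sum_le_sum fun j _ => ?_
    rw [sum_comm, mul_sum]
    refine sum_le_sum fun l _ => ?_
    rw [← mul_assoc]
    exact avg_cut hμ _ _ (mul_pos hδ0 (rho_pos j l)) fun x =>
      h.B1_small hm hε hδ0 hδ hε2 ω j l x
  have a3 : ∀ ω', ∑ ω, π ω * S2 ω ω' ≤ 720 * δ / η ^ 4 * nsq μ g := by
    intro ω
    simp only [hS2, mul_sum]
    rw [sum_comm]
    have b1 := sum_rho_right L (fun j => nsq μ (Db μ b (Λ ω) (G ω) j g)) fun j => nsq_nonneg hμ _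
    have b2 := (h1 ω ω).acc.sum_Db L g
    have b3 : δ * ∑ j ∈ range L, ∑ l ∈ range L, rho j l * nsq μ (Db μ b (Λ ω) (G ω) l g) ≤
        720 * δ / η ^ 4 * nsq μ g := by
      refine (mul_le_mul_of_nonneg_left (b1.trans (mul_le_mul_of_nonneg_left b2 (by norm_num)))
        hδ0.le).trans (le_of_eq (by ring))
    refine le_trans ?_ b3
    rw [mul_sum]
    refine sum_le_sum fun j _ => ?_
    rw [sum_comm, mul_sum]
    refine sum_le_sum fun l _ => ?_
    rw [← mul_assoc]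
    exact avg_cut hμ _ _ (mul_pos hδ0 (rho_pos j l)) fun x =>
      h.B2_small hm hε hδ0 hδ hε2 ω j l x
  have c1 : ∑ ω, ∑ ω', π ω * π ω' * P = P := by
    simp only [← sum_mul, ← mul_sum, h.pi_sum, mul_one, one_mul]
  have c2 : ∑ ω, ∑ ω', π ω * π ω' * S1 ω ω' ≤ 720 * δ / η ^ 4 * nsq μ f := by
    simp only [mul_assoc, ← mul_sum]
    refine (sum_le_sum fun ω _ => mul_le_mul_of_nonneg_left (a2 ω) (h.pi_nn ω)).trans ?_
    rw [← sum_mul, h.pi_sum, one_mul]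
  have c3 : ∑ ω, ∑ ω', π ω * π ω' * S2 ω ω' ≤ 720 * δ / η ^ 4 * nsq μ g := by
    rw [sum_comm]
    have := sum_le_sum fun ω (_ : ω ∈ univ) => mul_le_mul_of_nonneg_left (a3 ω) (h.pi_nn ω)
    rw [← sum_mul, h.pi_sum, one_mul] at this
    refine le_trans (le_of_eq (sum_congr rfl fun ω _ => ?_)) this
    rw [mul_sum]
    exact sum_congr rfl fun ω' _ => by ring
  have c4 : ∑ ω, ∑ ω', π ω * π ω' * ‖blf μ (k ω ω') f g‖ ≤ ∑ ω, ∑ ω', π ω * π ω' * P +
      2 * N * ∑ ω, ∑ ω', π ω * π ω' * S1 ω ω' + 2 * N * ∑ ω, ∑ ω', π ω * π ω' * S2 ω ω' := by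
    simp only [mul_sum, ← sum_add_distrib]
    refine sum_le_sum fun ω _ => sum_le_sum fun ω' _ => ?_
    refine (mul_le_mul_of_nonneg_left (a1 ω ω') (mul_nonneg (h.pi_nn ω) (h.pi_nn ω'))).trans
      (le_of_eq (by ring))
  rw [c1] at c4
  have d1 := mul_le_mul_of_nonneg_left c2 hN.le
  have d2 := mul_le_mul_of_nonneg_left c3 hN.le
  refine c4.trans ?_
  have e : (Cdet m ε η β + 2880 * N * δ / η ^ 4) * (nsq μ f + nsq μ g) = P +
    2 * (N * (720 * δ / η ^ 4 * nsq μ f)) + 2 * (N * (720 * δ / η ^ 4 * nsq μ g)) := by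
    rw [hP]; ring
  linarith

end

end Pool.Agent.Lib.MP_dfc9b7_an
end

-- part Pool.Agent.Lib.MP_dfc9b7_an.Supp
section

/-! Suppressed Cauchy kernels. -/

set_option autoImplicit false
open Finset

namespace Pool.Agent.Lib.MP_dfc9b7_an

noncomputable section
variable {X : Type*}

/-- Euclidean distance of positions. -/
def dz (z : X → ℂ) (x y : X) : ℝ := ‖z x - z y‖

/-- The Cauchy kernel. -/
def ck (z : X → ℂ) (x y : X) : ℂ := (z x - z y)⁻¹

/-- Lipschitz functions bounded below by one. -/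
structure LipF (z : X → ℂ) (Θ : X → ℝ) : Prop where
  one_le : ∀ x, 1 ≤ Θ x
  lip : ∀ x y, Θ y ≤ Θ x + dz z x y

/-- Suppressed distance. -/
def Dth (z : X → ℂ) (Θ : X → ℝ) (x y : X) : ℝ := max (dz z x y) (max (Θ x) (Θ y))

/-- Suppressed kernel. -/
def kth (z : X → ℂ) (Θ : X → ℝ) (x y : X) : ℂ :=
  (starRingEnd ℂ) (z x - z y) / ((Dth z Θ x y : ℝ) : ℂ) ^ 2

variable {z : X → ℂ} {Θ Θ₀ : X → ℝ}

theorem dz_nonneg (x y : X) : 0 ≤ dz z x y := norm_nonneg _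
theorem dz_symm (x y : X) : dz z x y = dz z y x := norm_sub_rev _ _
theorem dz_self (x : X) : dz z x x = 0 := by simp [dz]
theorem dz_tri (x y w : X) : dz z x w ≤ dz z x y + dz z y w := norm_sub_le_norm_sub_add_norm_sub _ _ _

theorem dz_le_Dth (x y : X) : dz z x y ≤ Dth z Θ x y := le_max_left _ _
theorem le_Dth_left (x y : X) : Θ x ≤ Dth z Θ x y := (le_max_left _ _).trans (le_max_right _ _)
theorem le_Dth_right (x y : X) : Θ y ≤ Dth z Θ x y := (le_max_right _ _).trans (le_max_right _ _)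
theorem Dth_symm (x y : X) : Dth z Θ x y = Dth z Θ y x := by
  unfold Dth; rw [dz_symm, max_comm (Θ x)]

theorem Dth_mono (h : ∀ x, Θ₀ x ≤ Θ x) (x y : X) : Dth z Θ₀ x y ≤ Dth z Θ x y :=
  max_le_max le_rfl (max_le_max (h x) (h y))

theorem LipF.D_pos (h : LipF z Θ) (x y : X) : 0 < Dth z Θ x y :=
  lt_of_lt_of_le (by linarith [h.one_le x]) (le_Dth_left x y)

theorem LipF.D_le (h : LipF z Θ) (x y : X) : Dth z Θ x y ≤ dz z x y + Θ x := by
  have := h.one_le x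
  have := h.lip x y
  have := dz_nonneg (z := z) x y
  exact max_le (by linarith) (max_le (by linarith) (by linarith))

theorem LipF.D_lip (h : LipF z Θ) (x x' y : X) : Dth z Θ x y ≤ Dth z Θ x' y + dz z x x' := by
  have h1 := dz_le_Dth (z := z) (Θ := Θ) x' y
  have h2 := le_Dth_left (z := z) (Θ := Θ) x' y
  have h3 := le_Dth_right (z := z) (Θ := Θ) x' y
  have h4 := h.lip x' x
  rw [dz_symm] at h4
  have := dz_nonneg (z := z) x x'
  exact max_le (by linarith [dz_tri (z := z) x x' y]) (max_le (by linarith) (by linarith))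

theorem Dth_self (h : LipF z Θ) (x : X) : Dth z Θ x x = Θ x := by
  unfold Dth; rw [dz_self, max_self, max_eq_right (by linarith [h.one_le x])]

theorem norm_kth (h : LipF z Θ) (x y : X) : ‖kth z Θ x y‖ = dz z x y / Dth z Θ x y ^ 2 := by
  unfold kth
  rw [norm_div, Complex.norm_conj, norm_pow, Complex.norm_real,
    Real.norm_of_nonneg (h.D_pos x y).le]; rfl

theorem kth_size (h : LipF z Θ) (x y : X) : ‖kth z Θ x y‖ ≤ 1 / Dth z Θ x y := by
  have := h.D_pos x y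
  rw [norm_kth h, div_le_div_iff₀ (by positivity) this]
  nlinarith [dz_le_Dth (z := z) (Θ := Θ) x y]

theorem kth_anti (x y : X) : kth z Θ x y = - kth z Θ y x := by
  unfold kth; rw [Dth_symm x y, ← neg_div, ← map_neg, neg_sub]

theorem kth_smooth (h : LipF z Θ) (x x' y : X) (hx : 2 * dz z x x' ≤ Dth z Θ x y) :
    ‖kth z Θ x y - kth z Θ x' y‖ ≤ 4 * dz z x x' / Dth z Θ x y ^ 2 := by
  have p1 := h.D_pos x y
  have p2 := h.D_pos x' y
  have l1 := h.D_lip x x' y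
  have l2 := h.D_lip x' x y
  rw [dz_symm] at l2
  have l3 := dz_le_Dth (z := z) (Θ := Θ) x' y
  have l0 := dz_nonneg (z := z) x x'
  set A := Dth z Θ x y
  set B := Dth z Θ x' y
  have e : kth z Θ x y - kth z Θ x' y = (starRingEnd ℂ) (z x - z x') / (A : ℂ) ^ 2 +
      (starRingEnd ℂ) (z x' - z y) * (((B - A) * (B + A) / (A ^ 2 * B ^ 2) : ℝ) : ℂ) := by
    have hA : (A : ℂ) ≠ 0 := by exact_mod_cast p1.ne'
    have hB : (B : ℂ) ≠ 0 := by exact_mod_cast p2.ne'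
    change (starRingEnd ℂ) (z x - z y) / (A : ℂ) ^ 2 -
      (starRingEnd ℂ) (z x' - z y) / (B : ℂ) ^ 2 = _
    simp only [map_sub]
    push_cast
    field_simp
    ring
  rw [e]
  refine (norm_add_le _ _).trans ?_
  rw [norm_div, norm_mul, Complex.norm_conj, Complex.norm_conj, norm_pow, Complex.norm_real,
    Complex.norm_real, Real.norm_of_nonneg p1.le, Real.norm_eq_abs, abs_div, abs_mul,
    abs_of_pos (show 0 < B + A by linarith), abs_of_pos (show 0 < A ^ 2 * B ^ 2 by positivity)]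
  have h1 : |B - A| ≤ dz z x x' := abs_le.2 ⟨by linarith, by linarith⟩
  have h2 : ‖z x' - z y‖ * (|B - A| * (B + A) / (A ^ 2 * B ^ 2)) ≤ 3 * dz z x x' / A ^ 2 := by
    have h3 : |B - A| * (B + A) ≤ dz z x x' * (3 * B) :=
      mul_le_mul h1 (by linarith) (by linarith) l0
    refine (mul_le_mul l3 (div_le_div_of_nonneg_right h3 (by positivity)) (by positivity)
      p2.le).trans (le_of_eq ?_)
    field_simp
  have e2 : 4 * dz z x x' / A ^ 2 = dz z x x' / A ^ 2 + 3 * dz z x x' / A ^ 2 := by ring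
  rw [e2]
  exact add_le_add le_rfl h2

theorem kth_sub_ck (h : LipF z Θ) (x y : X) (hd : 0 < dz z x y) :
    ‖kth z Θ x y - ck z x y‖ ≤ 2 * Θ x / dz z x y ^ 2 := by
  have p1 := h.D_pos x y
  have l1 := h.D_le x y
  have l2 := dz_le_Dth (z := z) (Θ := Θ) x y
  have hw : z x - z y ≠ 0 := norm_pos_iff.1 hd
  have hn : (z x - z y) * (starRingEnd ℂ) (z x - z y) = ((dz z x y : ℝ) : ℂ) ^ 2 :=
    Complex.mul_conj' _
  set A := Dth z Θ x y
  set d := dz z x y with hdd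
  have e : kth z Θ x y - ck z x y =
      -((z x - z y)⁻¹ * (((A - d) * (A + d) / A ^ 2 : ℝ) : ℂ)) := by
    have hA : (A : ℂ) ≠ 0 := by exact_mod_cast p1.ne'
    change (starRingEnd ℂ) (z x - z y) / (A : ℂ) ^ 2 - (z x - z y)⁻¹ = _
    push_cast
    field_simp
    linear_combination hn
  rw [e, norm_neg, norm_mul, norm_inv, Complex.norm_real, Real.norm_of_nonneg
    (div_nonneg (mul_nonneg (by linarith) (by linarith)) (by positivity))]
  change d⁻¹ * _ ≤ _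
  have h3 : (A - d) * (A + d) ≤ Θ x * (2 * A) :=
    mul_le_mul (by linarith) (by linarith) (by linarith) (by linarith [h.one_le x])
  refine (mul_le_mul_of_nonneg_left (div_le_div_of_nonneg_right h3 (by positivity))
    (by positivity)).trans ?_
  have e2 : d⁻¹ * (Θ x * (2 * A) / A ^ 2) = 2 * Θ x / (d * A) := by field_simp
  rw [e2]
  exact div_le_div_of_nonneg_left (by linarith [h.one_le x]) (by positivity) (by nlinarith)

theorem kth_eq_ck {x y : X} (hx : Θ x = 1) (hy : Θ y = 1) (hs : x ≠ y → 1 ≤ dz z x y) :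
    kth z Θ x y = ck z x y := by
  by_cases h : x = y
  · subst h; simp [kth, ck]
  have h1 := hs h
  have hw : z x - z y ≠ 0 := norm_pos_iff.1 (lt_of_lt_of_le one_pos h1)
  have hn : (z x - z y) * (starRingEnd ℂ) (z x - z y) = ((dz z x y : ℝ) : ℂ) ^ 2 :=
    Complex.mul_conj' _
  unfold kth ck Dth
  rw [hx, hy, max_self, max_eq_left h1, ← hn]
  have : (starRingEnd ℂ) (z x - z y) ≠ 0 := (map_ne_zero _).2 hw
  field_simp

variable [Fintype X] {μ : X → ℝ}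

theorem KS_th (h : LipF z Θ) (hμ : ∀ x, 0 ≤ μ x)
    (hg : ∀ x r, Θ x ≤ r → bm μ (fun y => dz z x y ≤ r) ≤ r) :
    KS μ (dz z) (Dth z Θ) (kth z Θ) where
  sp :=
    { mu_nn := hμ
      D_pos := h.D_pos
      D_symm := Dth_symm
      D_tri := fun x y w => by
        have := h.D_pos x y
        have := h.D_pos y w
        have := dz_tri (z := z) x y w
        have := dz_le_Dth (z := z) (Θ := Θ) x y
        have := dz_le_Dth (z := z) (Θ := Θ) y w
        have := le_Dth_left (z := z) (Θ := Θ) x y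
        have := le_Dth_right (z := z) (Θ := Θ) y w
        exact max_le (by linarith) (max_le (by linarith) (by linarith))
      growth := fun x r hr => by
        by_cases hx : Θ x ≤ r
        · exact (bm_mono hμ fun y hy => (dz_le_Dth x y).trans hy).trans (hg x r hx)
        · rw [bm_false _ fun y hy => hx ((le_Dth_left x y).trans hy)]; exact hr.le }
  anti := kth_anti
  size := kth_size h
  d_nn := dz_nonneg
  d_symm := dz_symm
  d_le := dz_le_Dth
  smooth := kth_smooth h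
  D_le := fun x y => by rw [Dth_self h]; exact h.D_le x y
  D_diag := fun x y => by rw [Dth_self h]; exact le_Dth_left x y

/-- Truncated Cauchy transform. -/
def ctr (μ : X → ℝ) (z : X → ℂ) (f : X → ℂ) (x : X) (t : ℝ) : ℂ :=
  opT μ (ck z) (cut (fun y => t < dz z x y) f) x

theorem cmp_ctr (h0 : LipF z Θ₀) (h : LipF z Θ) (hle : ∀ x, Θ₀ x ≤ Θ x) (hS : Sp μ (Dth z Θ₀))
    (f : X → ℂ) (x : X) (r : ℝ) :
    ‖opT μ (kth z Θ) (cut (fun y => r < Dth z Θ₀ x y) f) x - ctr μ z f x (max r (Θ x))‖ ≤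
      102 * mx μ (Dth z Θ₀) (fun y => ‖f y‖) x := by
  set R := max r (Θ x) with hR
  have hR1 : Θ x ≤ R := le_max_right _ _
  have hR0 : 0 < R := by linarith [h.one_le x]
  set m := mx μ (Dth z Θ₀) (fun y => ‖f y‖) x with hm
  have hw : ∀ y, 0 ≤ μ y * ‖f y‖ := fun y => mul_nonneg (hS.mu_nn y) (norm_nonneg _)
  have e : opT μ (kth z Θ) (cut (fun y => r < Dth z Θ₀ x y) f) x - ctr μ z f x R =
      ∑ y, kth z Θ x y * cut (fun y => r < Dth z Θ₀ x y ∧ dz z x y ≤ R) f y * (μ y : ℂ) +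
      ∑ y, (kth z Θ x y - ck z x y) * cut (fun y => R < dz z x y) f y * (μ y : ℂ) := by
    unfold ctr opT
    rw [← sum_sub_distrib, ← sum_add_distrib]
    refine sum_congr rfl fun y _ => ?_
    by_cases h1 : R < dz z x y
    · have h2 : r < Dth z Θ₀ x y :=
        lt_of_le_of_lt (le_max_left _ _) (h1.trans_le (dz_le_Dth x y))
      rw [cut_pos (p := fun y => R < dz z x y) _ h1, cut_pos (p := fun y => r < Dth z Θ₀ x y) _ h2,
        cut_neg (p := fun y => r < Dth z Θ₀ x y ∧ dz z x y ≤ R) _ fun h => by linarith [h.2]]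
      ring
    · rw [cut_neg (p := fun y => R < dz z x y) _ h1]
      by_cases h2 : r < Dth z Θ₀ x y
      · rw [cut_pos (p := fun y => r < Dth z Θ₀ x y) _ h2,
          cut_pos (p := fun y => r < Dth z Θ₀ x y ∧ dz z x y ≤ R) _ ⟨h2, not_lt.1 h1⟩]; ring
      · rw [cut_neg (p := fun y => r < Dth z Θ₀ x y) _ h2,
          cut_neg (p := fun y => r < Dth z Θ₀ x y ∧ dz z x y ≤ R) _ fun h => h2 h.1]; ring
  rw [e]
  have a1 := norm_sum_cut_le hS.mu_nn (kth z Θ x)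
    (fun y => r < Dth z Θ₀ x y ∧ dz z x y ≤ R) f (fun _ => 1 / R) fun y hy =>
      (kth_size h x y).trans (one_div_le_one_div_of_le hR0
        (max_le (hy.1.le.trans (Dth_mono hle x y)) (le_Dth_left x y)))
  rw [bm_mul] at a1
  have a2 : bm (fun y => μ y * ‖f y‖) (fun y => r < Dth z Θ₀ x y ∧ dz z x y ≤ R) ≤
      3 * m * (2 * R) :=
    (bm_mono hw fun y hy => by linarith [h0.D_le x y, hy.2, hle x]).trans
      (le_mx_rad hS (fun y => norm_nonneg (f y)) x (by linarith))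
  have a3 : 1 / R * (3 * m * (2 * R)) = 6 * m := by field_simp; ring
  have a4 := norm_sum_cut_le hS.mu_nn (fun y => kth z Θ x y - ck z x y)
    (fun y => R < dz z x y) f (fun y => 8 * R / Dth z Θ₀ x y ^ 2) fun y hy => by
      refine (kth_sub_ck h x y (by linarith)).trans ?_
      have b1 : Dth z Θ₀ x y ≤ 2 * dz z x y := by linarith [h0.D_le x y, hle x]
      have b2 := h0.D_pos x y
      have b3 := pow_le_pow_left₀ b2.le b1 2
      rw [div_le_div_iff₀ (by nlinarith) (by positivity)]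
      nlinarith [mul_le_mul hR1 b3 (by positivity) hR0.le]
  have a5 := tail_bound (fun y => μ y * ‖f y‖) (Dth z Θ₀ x) hw (3 * m) R hR0
    fun t ht => le_mx_rad hS (fun y => norm_nonneg (f y)) x (by linarith)
  have a6 : bm (fun y => 8 * R / Dth z Θ₀ x y ^ 2 * (μ y * ‖f y‖)) (fun y => R < dz z x y) ≤
      8 * R * bm (fun y => μ y * ‖f y‖ / Dth z Θ₀ x y ^ 2) (fun y => R < Dth z Θ₀ x y) := by
    rw [← bm_mul]
    refine (bm_mono (fun y => mul_nonneg (by positivity) (hw y))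
      fun y hy => hy.trans_le (dz_le_Dth x y)).trans (le_of_eq (bm_congr_w fun y _ => by ring))
  have a7 : 8 * R * (4 * (3 * m) / R) = 96 * m := by field_simp; ring
  have a8 := mul_le_mul_of_nonneg_left a5 (show 0 ≤ 8 * R by positivity)
  have a9 := mul_le_mul_of_nonneg_left a2 (show 0 ≤ 1 / R by positivity)
  refine (norm_add_le _ _).trans ?_
  linarith

theorem cmp_full (h0 : LipF z Θ₀) (h : LipF z Θ) (hle : ∀ x, Θ₀ x ≤ Θ x) (hS : Sp μ (Dth z Θ₀))
    (f : X → ℂ) (x : X) :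
    ‖opT μ (kth z Θ) f x - ctr μ z f x (Θ x)‖ ≤ 102 * mx μ (Dth z Θ₀) (fun y => ‖f y‖) x := by
  have := cmp_ctr h0 h hle hS f x 0
  rwa [cut_congr f (q := fun _ => True) fun y => by simp [h0.D_pos x y], cut_true,
    max_eq_right (by linarith [h.one_le x])] at this

theorem kb_bound (h : LipF z Θ) (hK : KS μ (dz z) (Dth z Θ) (kth z Θ)) {b : X → ℂ}
    (hb : ∀ y, ‖b y‖ ≤ 1) {x x' : X} (hx : dz z x x' ≤ Θ x) {α : ℝ}
    (hα : ∀ r, 1 ≤ r → ‖ctr μ z b x' r‖ ≤ α) : ‖opT μ (kth z Θ) b x‖ ≤ α + 117 := by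
  have hS := hK.sp
  set R := Θ x with hR
  have hR1 : 1 ≤ R := h.one_le x
  have hD : Dth z Θ x x' ≤ 2 * R := by linarith [h.D_le x x']
  have hbm : ∀ (y : X) (t : ℝ), 0 < t →
      bm (fun w => μ w * ‖b w‖) (fun w => Dth z Θ y w ≤ t) ≤ t := fun y t ht =>
    (bm_le_of_le fun w _ => by nlinarith [hS.mu_nn w, hb w]).trans (hS.growth y t ht)
  have hw : ∀ y, 0 ≤ μ y * ‖b y‖ := fun y => mul_nonneg (hS.mu_nn y) (norm_nonneg _)
  have a1 := norm_opT_ann hS hK.ker (fun y => ¬ 4 * R < Dth z Θ x y) b x (a := R) (by linarith)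
    fun y _ => le_Dth_left x y
  have a1' : bm (fun w => μ w * ‖b w‖) (fun y => ¬ 4 * R < Dth z Θ x y) / R ≤ 4 := by
    rw [div_le_iff₀ (by linarith)]
    exact (bm_mono hw fun y hy => not_lt.1 hy).trans (hbm x _ (by linarith))
  have a2 := norm_opT_far hS hK.ker b x x' (R := 4 * R) (m := 1) (by linarith) (by linarith)
    fun t ht => by rw [one_mul]; exact hbm x t (by linarith)
  have a2' : 16 * Dth z Θ x x' * 1 / (4 * R) ≤ 8 := by
    rw [div_le_iff₀ (by linarith)]; linarith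
  have a3 := norm_opT_ann hS hK.ker
    (fun y => 4 * R < Dth z Θ x y ∧ ¬ 6 * R < Dth z Θ x' y) b x' (a := 2 * R) (by linarith)
    fun y hy => by linarith [hS.D_tri x x' y, hy.1]
  have a3' : bm (fun w => μ w * ‖b w‖)
      (fun y => 4 * R < Dth z Θ x y ∧ ¬ 6 * R < Dth z Θ x' y) / (2 * R) ≤ 3 := by
    rw [div_le_iff₀ (by linarith)]
    refine (bm_mono hw fun y hy => not_lt.1 hy.2).trans ((hbm x' _ (by linarith)).trans ?_)
    linarith
  have a4 := cmp_ctr h h (fun _ => le_rfl) hS b x' (6 * R)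
  have a4' := mx_le_of_le hS x' zero_le_one hb
  have a5 := hα (max (6 * R) (Θ x')) (le_max_of_le_left (by linarith))
  have e1 := opT_cut_compl (μ := μ) (k := kth z Θ) (fun y => 4 * R < Dth z Θ x y) b x
  have e2 := opT_cut_split (μ := μ) (k := kth z Θ) (fun y => 4 * R < Dth z Θ x y)
    (fun y => 6 * R < Dth z Θ x' y) b x'
  rw [cut_congr b (p := fun y => 4 * R < Dth z Θ x y ∧ 6 * R < Dth z Θ x' y)
    (q := fun y => 6 * R < Dth z Θ x' y) fun y => ⟨fun h => h.2, fun h => ⟨by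
      have := hS.D_tri x' x y
      rw [hS.D_symm x' x] at this
      linarith, h⟩⟩] at e2
  have n1 := norm_add_le (opT μ (kth z Θ) (cut (fun y => 4 * R < Dth z Θ x y) b) x)
    (opT μ (kth z Θ) (cut (fun y => ¬ 4 * R < Dth z Θ x y) b) x)
  have n2 := norm_le_norm_add_norm_sub' (opT μ (kth z Θ) (cut (fun y => 4 * R < Dth z Θ x y) b) x)
    (opT μ (kth z Θ) (cut (fun y => 4 * R < Dth z Θ x y) b) x')
  have n3 := norm_add_le (opT μ (kth z Θ) (cut (fun y => 6 * R < Dth z Θ x' y) b) x')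
    (opT μ (kth z Θ) (cut (fun y => 4 * R < Dth z Θ x y ∧ ¬ 6 * R < Dth z Θ x' y) b) x')
  have n4 := norm_le_norm_add_norm_sub' (opT μ (kth z Θ) (cut (fun y => 6 * R < Dth z Θ x' y) b) x')
    (ctr μ z b x' (max (6 * R) (Θ x')))
  rw [← e1] at n1
  rw [← e2] at n3
  linarith

end

end Pool.Agent.Lib.MP_dfc9b7_an
end

-- part Pool.Agent.Lib.MP_dfc9b7_an.Tb
section

/-! The accretive function theorem for the Cauchy kernel on a finite set. -/

set_option autoImplicit false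
open Finset

namespace Pool.Agent.Lib.MP_dfc9b7_an

noncomputable section

theorem quantile {W : Type*} [Fintype W] {π : W → ℝ} (hπ : ∀ ω, 0 ≤ π ω) (h1 : ∑ ω, π ω = 1)
    {β : ℝ} (hβ0 : 0 < β) (hβ1 : β ≤ 1) (T : W → ℝ) :
    ∃ q, (∃ ω, q = T ω) ∧ β ≤ bm π (fun ω => T ω ≤ q) ∧
      ∀ t, β ≤ bm π (fun ω => T ω ≤ t) → q ≤ t := by
  classical
  have key : ∀ t, β ≤ bm π (fun ω => T ω ≤ t) →
      ∃ ω, T ω ≤ t ∧ β ≤ bm π (fun ω' => T ω' ≤ T ω) := by
    intro t ht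
    obtain ⟨ω0, h0, _⟩ := bm_pos_exists (hβ0.trans_le ht)
    obtain ⟨ω, hω, hmax⟩ := exists_max_image (univ.filter fun ω => T ω ≤ t) T
      ⟨ω0, by simpa using h0⟩
    exact ⟨ω, by simpa using hω, ht.trans (bm_mono hπ fun ω' h' => hmax ω' (by simpa using h'))⟩
  obtain ⟨ω1, _, h2⟩ := key (∑ ω, |T ω|) (by
    rw [bm_of_forall π fun ω => (le_abs_self _).trans
      (single_le_sum (f := fun ω => |T ω|) (fun _ _ => abs_nonneg _) (mem_univ ω)), h1]
    exact hβ1)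
  obtain ⟨ω, hω, hmin⟩ := exists_min_image (univ.filter fun ω => β ≤ bm π (fun ω' => T ω' ≤ T ω))
    T ⟨ω1, by simpa using h2⟩
  refine ⟨T ω, ⟨ω, rfl⟩, by simpa using hω, fun t ht => ?_⟩
  obtain ⟨ω2, h3, h4⟩ := key t ht
  exact (hmin ω2 (by simpa using h4)).trans h3

theorem cint_split {W : Type*} [Fintype W] (π : W → ℝ) (p q : W → Prop) (f : W → ℂ) :
    cint π p f = cint π (fun ω => p ω ∧ q ω) f + cint π (fun ω => p ω ∧ ¬ q ω) f := by
  unfold cint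
  rw [← sum_add_distrib]
  exact sum_congr rfl fun ω _ => by rw [cut_split p q]; ring

theorem cint_congr_set {W : Type*} [Fintype W] (π : W → ℝ) {p q : W → Prop} (h : ∀ ω, p ω ↔ q ω)
    (f : W → ℂ) : cint π p f = cint π q f := by
  unfold cint; rw [cut_congr f h]

theorem volterra {W : Type*} [Fintype W] {π : W → ℝ} (hπ : ∀ ω, 0 ≤ π ω) (h1 : ∑ ω, π ω = 1)
    (T : W → ℝ) (u : ℝ → ℂ) {r₀ S β : ℝ} (hS : 0 ≤ S) (hβ : 0 < β)
    (hF : β ≤ bm π (fun ω => T ω ≤ r₀))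
    (hI : ∀ r, r₀ ≤ r → ‖∑ ω, u (max r (T ω)) * (π ω : ℂ)‖ ≤ S) : ‖u r₀‖ ≤ 2 * S / β := by
  classical
  have hdec : ∀ r, ∑ ω, u (max r (T ω)) * (π ω : ℂ) =
      u r * bm π (fun ω => T ω ≤ r) + cint π (fun ω => r < T ω) (fun ω => u (T ω)) := by
    intro r
    rw [← cint_true, cint_split π _ (fun ω => T ω ≤ r), ← cint_const]
    congr 1
    · rw [cint_congr_set π (q := fun ω => T ω ≤ r) (by simp)]
      exact cint_congr fun ω hω => by rw [max_eq_left hω]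
    · rw [cint_congr_set π (q := fun ω => r < T ω) (by simp)]
      exact cint_congr fun ω hω => by rw [max_eq_right hω.le]
  have hF1 : ∀ r, bm π (fun ω => T ω ≤ r) ≤ 1 := fun r => h1 ▸ bm_le_sum hπ _
  have key : ∀ n r, r₀ ≤ r → (univ.filter fun ω => r < T ω).card ≤ n →
      ‖cint π (fun ω => r < T ω) (fun ω => u (T ω))‖ ≤ S * (1 - bm π (fun ω => T ω ≤ r)) := by
    intro n
    induction n with
    | zero =>
      intro r _ hc
      have h0 : ∀ ω, ¬ r < T ω := by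
        intro ω hω
        have : ω ∈ univ.filter fun ω => r < T ω := by simpa using hω
        rw [card_eq_zero.1 (Nat.le_zero.1 hc)] at this
        simp at this
      have : cint π (fun ω => r < T ω) (fun ω => u (T ω)) = 0 :=
        sum_eq_zero fun ω _ => by rw [cut_neg (p := fun ω => r < T ω) _ (h0 ω), zero_mul]
      rw [this, norm_zero]
      exact mul_nonneg hS (by linarith [hF1 r])
    | succ n ih =>
      intro r hr hc
      rcases (univ.filter fun ω => r < T ω).eq_empty_or_nonempty with he | hne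
      · exact ih r hr (by rw [he]; simp)
      obtain ⟨ω0, h0, hmin⟩ := exists_min_image _ T hne
      have h0' : r < T ω0 := by simpa using h0
      set t := T ω0 with ht
      have hmin' : ∀ ω, r < T ω → t ≤ T ω := fun ω hω => hmin ω (by simpa using hω)
      have hJ := ih t (by linarith) (by
        have : (univ.filter fun ω => t < T ω) ⊂ univ.filter fun ω => r < T ω := by
          refine ⟨fun ω hω => by
            simp only [mem_filter, mem_univ, true_and] at hω ⊢; linarith, fun hs => ?_⟩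
          exact lt_irrefl t (mem_filter.1 (hs h0)).2
        have := card_lt_card this
        omega)
      have hIt := hI t (by linarith)
      rw [hdec] at hIt
      set p := bm π (fun ω => r < T ω ∧ T ω ≤ t) with hp
      have hp0 : 0 ≤ p := bm_nonneg hπ _
      have e1 : bm π (fun ω => T ω ≤ t) = bm π (fun ω => T ω ≤ r) + p := by
        rw [bm_split π _ (fun ω => T ω ≤ r)]
        congr 1
        · exact bm_congr π fun ω => ⟨fun h => h.2, fun h => ⟨by linarith, h⟩⟩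
        · exact bm_congr π fun ω => by simp [and_comm]
      have e2 : cint π (fun ω => r < T ω) (fun ω => u (T ω)) =
          u t * p + cint π (fun ω => t < T ω) (fun ω => u (T ω)) := by
        rw [cint_split π _ (fun ω => T ω ≤ t), hp, ← cint_const]
        congr 1
        · exact cint_congr fun ω hω => by rw [le_antisymm hω.2 (hmin' ω hω.1)]
        · exact cint_congr_set π (fun ω => ⟨fun h => not_le.1 h.2,
            fun h => ⟨by linarith, not_le.2 h⟩⟩) _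
      have hFr : β ≤ bm π (fun ω => T ω ≤ r) := hF.trans (bm_mono hπ fun ω h => by linarith)
      rw [e2]
      rw [e1] at hJ hIt
      set F := bm π (fun ω => T ω ≤ r)
      set J := cint π (fun ω => t < T ω) (fun ω => u (T ω))
      have e3 : ((F + p : ℝ) : ℂ) * (u t * p + J) =
          p * (u t * ((F + p : ℝ) : ℂ) + J) + F * J := by push_cast; ring
      have h5 := congrArg norm e3
      rw [norm_mul, Complex.norm_real, Real.norm_of_nonneg (by linarith)] at h5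
      have h6 := norm_add_le ((p : ℂ) * (u t * ((F + p : ℝ) : ℂ) + J)) (F * J)
      rw [norm_mul, norm_mul, Complex.norm_real, Complex.norm_real, Real.norm_of_nonneg hp0,
        Real.norm_of_nonneg (show 0 ≤ F by linarith), ← h5] at h6
      have h7 := mul_le_mul_of_nonneg_left hIt hp0
      have h8 := mul_le_mul_of_nonneg_left hJ (show 0 ≤ F by linarith)
      refine le_of_mul_le_mul_left (a := F + p) ?_ (by linarith)
      nlinarith
  have h2 := key _ r₀ le_rfl le_rfl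
  have h3 := hI r₀ le_rfl
  rw [hdec] at h3
  have h4 := norm_le_norm_add_norm_sub' (u r₀ * bm π (fun ω => T ω ≤ r₀))
    (u r₀ * bm π (fun ω => T ω ≤ r₀) + cint π (fun ω => r₀ < T ω) (fun ω => u (T ω)))
  rw [sub_add_cancel_left, norm_neg, norm_mul, Complex.norm_real,
    Real.norm_of_nonneg (bm_nonneg hπ _)] at h4
  rw [le_div_iff₀ hβ]
  nlinarith [mul_le_mul_of_nonneg_left hF (norm_nonneg (u r₀)),
    mul_nonneg hS (bm_nonneg hπ (fun ω => T ω ≤ r₀))]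

variable {X : Type*} [Fintype X] {z : X → ℂ} {μ : X → ℝ}

theorem nsq_le_of_two {D : X → X → ℝ} (hS : Sp μ D) (f g : X → ℂ) (H : X → ℝ) {a c A : ℝ}
    (hH : ∑ x, μ x * H x ^ 2 ≤ A ^ 2 * nsq μ f)
    (h : ∀ x, ‖g x‖ ≤ a * H x + c * mx μ D (fun y => ‖f y‖) x) :
    nsq μ g ≤ (2 * a ^ 2 * A ^ 2 + 16 * c ^ 2) * nsq μ f := by
  have h1 := mx_L2 hS (fun y => norm_nonneg (f y))
  have h2 : nsq μ g ≤ 2 * a ^ 2 * ∑ x, μ x * H x ^ 2 +
      2 * c ^ 2 * ∑ x, μ x * mx μ D (fun y => ‖f y‖) x ^ 2 := by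
    unfold nsq
    rw [mul_sum, mul_sum, ← sum_add_distrib]
    refine sum_le_sum fun x _ => ?_
    have := mul_le_mul_of_nonneg_left
      ((pow_le_pow_left₀ (norm_nonneg _) (h x) 2).trans add_sq_le) (hS.mu_nn x)
    linarith
  have h3 := mul_le_mul_of_nonneg_left hH (show 0 ≤ 2 * a ^ 2 by positivity)
  have h4 := mul_le_mul_of_nonneg_left h1 (show 0 ≤ 2 * c ^ 2 by positivity)
  unfold nsq at *
  linarith

theorem L2B_up {Θ₀ Θ : X → ℝ} (h0 : LipF z Θ₀) (h : LipF z Θ) (hle : ∀ x, Θ₀ x ≤ Θ x)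
    (hK : KS μ (dz z) (Dth z Θ₀) (kth z Θ₀)) {N : ℝ} (hN : 0 ≤ N) (hB : L2B μ (kth z Θ₀) N) :
    L2B μ (kth z Θ) (6000000 * (N + 1)) := by
  intro f
  obtain ⟨H, _, hH1, hH2⟩ := cotlar hK.sp hK.ker hN hB f
  refine (nsq_le_of_two hK.sp f _ H (a := 1) (c := 204) hH2 fun x => ?_).trans
    (mul_le_mul_of_nonneg_right (by nlinarith) (nsq_nonneg hK.sp.mu_nn f))
  have a1 := cmp_full h0 h hle hK.sp f x
  have a2 := cmp_ctr h0 h0 (fun _ => le_rfl) hK.sp f x (Θ x)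
  rw [max_eq_left (hle x), norm_sub_rev] at a2
  have a3 := hH1 x (Θ x) (by linarith [h.one_le x])
  have n1 := norm_le_norm_add_norm_sub' (opT μ (kth z Θ) f x) (ctr μ z f x (Θ x))
  have n2 := norm_le_norm_add_norm_sub' (ctr μ z f x (Θ x))
    (opT μ (kth z Θ₀) (cut (fun y => Θ x < Dth z Θ₀ x y) f) x)
  linarith

theorem L2B_down {W : Type*} [Fintype W] {π : W → ℝ} (hπ : ∀ ω, 0 ≤ π ω) (h1 : ∑ ω, π ω = 1)
    {Θ₀ : X → ℝ} {Θ : W → X → ℝ} (h0 : LipF z Θ₀) (h : ∀ ω, LipF z (Θ ω))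
    (hle : ∀ ω x, Θ₀ x ≤ Θ ω x) (hS : Sp μ (Dth z Θ₀)) {β : ℝ} (hβ0 : 0 < β) (hβ1 : β ≤ 1)
    (hF : ∀ x, β ≤ bm π (fun ω => Θ ω x ≤ Θ₀ x)) {M : ℝ} (hM : 0 < M)
    (hB : ∀ f g, ∑ ω, π ω * ‖blf μ (kth z (Θ ω)) f g‖ ≤ M / 2 * (nsq μ f + nsq μ g)) :
    L2B μ (kth z Θ₀) (12000000 * (M + 1) / β) := by
  set k : X → X → ℂ := fun x y => ∑ ω, kth z (Θ ω) x y * (π ω : ℂ) with hk
  have hop : ∀ f x, opT μ k f x = ∑ ω, opT μ (kth z (Θ ω)) f x * (π ω : ℂ) := by
    intro f x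
    simp only [opT, hk, sum_mul]
    rw [sum_comm]
    exact sum_congr rfl fun ω _ => sum_congr rfl fun y _ => by ring
  have hav : ∀ (c : W → ℂ) (B : ℝ), (∀ ω, ‖c ω‖ ≤ B) → ‖∑ ω, c ω * (π ω : ℂ)‖ ≤ B := by
    intro c B hc
    refine (norm_sum_le _ _).trans ((sum_le_sum fun ω _ => ?_).trans
      (le_of_eq (by rw [← mul_sum, h1, mul_one] : ∑ ω, B * π ω = B)))
    rw [norm_mul, Complex.norm_real, Real.norm_of_nonneg (hπ ω)]
    exact mul_le_mul_of_nonneg_right (hc ω) (hπ ω)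
  have hK : Ker (Dth z Θ₀) k := by
    refine ⟨fun x y => ?_, fun x y => hav _ _ fun ω => ?_, fun x x' y hx => ?_⟩
    · simp only [hk]
      rw [← sum_neg_distrib]
      exact sum_congr rfl fun ω _ => by rw [kth_anti]; ring
    · exact (kth_size (h ω) x y).trans
        (one_div_le_one_div_of_le (h0.D_pos x y) (Dth_mono (hle ω) x y))
    · simp only [hk]
      rw [← sum_sub_distrib]
      simp only [← sub_mul]
      refine hav _ _ fun ω => ?_
      have a1 := dz_le_Dth (z := z) (Θ := Θ₀) x x'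
      have a2 := Dth_mono (z := z) (hle ω) x y
      have a3 := h0.D_pos x y
      have a4 := h0.D_pos x x'
      refine (kth_smooth (h ω) x x' y (by linarith)).trans ?_
      exact div_le_div₀ (by linarith) (by linarith) (by positivity)
        (pow_le_pow_left₀ a3.le a2 2)
  have hL : L2B μ k M := by
    refine L2B_of_blf hS.mu_nn hM fun f g => le_trans ?_ (hB f g)
    have : blf μ k f g = ∑ ω, blf μ (kth z (Θ ω)) f g * (π ω : ℂ) := by
      simp only [blf_eq, hop, mul_sum, sum_mul]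
      rw [sum_comm]
      exact sum_congr rfl fun ω _ => sum_congr rfl fun y _ => by ring
    rw [this]
    refine (norm_sum_le _ _).trans (sum_le_sum fun ω _ => le_of_eq ?_)
    rw [norm_mul, Complex.norm_real, Real.norm_of_nonneg (hπ ω), mul_comm]
  intro f
  obtain ⟨H, hH0, hH1, hH2⟩ := cotlar hS hK hM.le hL f
  refine (nsq_le_of_two hS f _ H (a := 2 / β) (c := 306 / β) hH2 fun x => ?_).trans
    (mul_le_mul_of_nonneg_right ?_ (nsq_nonneg hS.mu_nn f))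
  · have hm := mx_nonneg hS (fun y => norm_nonneg (f y)) x
    have a1 := volterra hπ h1 (fun ω => Θ ω x) (ctr μ z f x) (r₀ := Θ₀ x)
      (S := H x + 102 * mx μ (Dth z Θ₀) (fun y => ‖f y‖) x) (by linarith [hH0 x]) hβ0 (hF x)
      fun r hr => by
        have b1 := hH1 x r (by linarith [h0.one_le x])
        rw [hop] at b1
        have b2 := hav _ _ fun ω => cmp_ctr h0 (h ω) (hle ω) hS f x r
        simp only [sub_mul] at b2
        rw [sum_sub_distrib, norm_sub_rev] at b2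
        have n1 := norm_le_norm_add_norm_sub' (∑ ω, ctr μ z f x (max r (Θ ω x)) * (π ω : ℂ))
          (∑ ω, opT μ (kth z (Θ ω)) (cut (fun y => r < Dth z Θ₀ x y) f) x * (π ω : ℂ))
        linarith
    have a2 := cmp_full h0 h0 (fun _ => le_rfl) hS f x
    have n1 := norm_le_norm_add_norm_sub' (opT μ (kth z Θ₀) f x) (ctr μ z f x (Θ₀ x))
    have a3 : 102 * mx μ (Dth z Θ₀) (fun y => ‖f y‖) x ≤
        102 / β * mx μ (Dth z Θ₀) (fun y => ‖f y‖) x :=
      mul_le_mul_of_nonneg_right (by rw [le_div_iff₀ hβ0]; linarith) hm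
    have e : 2 / β * H x + 306 / β * mx μ (Dth z Θ₀) (fun y => ‖f y‖) x =
      2 * (H x + 102 * mx μ (Dth z Θ₀) (fun y => ‖f y‖) x) / β +
        102 / β * mx μ (Dth z Θ₀) (fun y => ‖f y‖) x := by ring
    linarith
  · have e : 2 * (2 / β) ^ 2 * (4000000 * (M + 1)) ^ 2 + 16 * (306 / β) ^ 2 =
      (8 * (4000000 * (M + 1)) ^ 2 + 16 * 306 ^ 2) / β ^ 2 := by ring
    rw [e, div_pow]
    exact div_le_div_of_nonneg_right (by nlinarith) (by positivity)

theorem L2B_init {k : X → X → ℂ} (hμ : ∀ x, 0 ≤ μ x) (hk : ∀ x y, ‖k x y‖ ≤ 1) :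
    L2B μ k (∑ x, μ x) := by
  intro f
  have h1 := sq_sum_le hμ f
  have h2 : ∀ x, ‖opT μ k f x‖ ≤ ∑ y, μ y * ‖f y‖ := fun x =>
    (norm_sum_le _ _).trans (sum_le_sum fun y _ => by
      rw [norm_mul, norm_mul, Complex.norm_real, Real.norm_of_nonneg (hμ y)]
      nlinarith [mul_le_mul_of_nonneg_right (hk x y) (mul_nonneg (hμ y) (norm_nonneg (f y)))])
  have h3 : nsq μ (opT μ k f) ≤ ∑ x, μ x * ((∑ x, μ x) * nsq μ f) :=
    sum_le_sum fun x _ => mul_le_mul_of_nonneg_left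
      ((pow_le_pow_left₀ (norm_nonneg _) (h2 x) 2).trans h1) (hμ x)
  rw [← sum_mul] at h3
  linarith

theorem bootstrap {P : ℝ → Prop} {A N₁ : ℝ} (hA : 0 ≤ A) (hN : 0 ≤ N₁) (h1 : P N₁)
    (hmono : ∀ N M, 0 ≤ N → N ≤ M → P N → P M) (hstep : ∀ N, 0 ≤ N → P N → P (A + N / 2)) :
    P (2 * A + 1) := by
  have key : ∀ n : ℕ, P (2 * A + N₁ / 2 ^ n) := by
    intro n
    induction n with
    | zero => exact hmono _ _ hN (by simp; linarith) h1
    | succ n ih =>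
      have := hstep _ (by positivity) ih
      convert this using 1
      rw [pow_succ]; ring
  obtain ⟨n, hn⟩ := pow_unbounded_of_one_lt N₁ (one_lt_two (α := ℝ))
  refine hmono _ _ (by positivity) ?_ (key n)
  have := (div_le_one (by positivity)).2 hn.le
  linarith

omit [Fintype X] in
theorem exists_distfun [Finite X] (z : X → ℂ) {G : X → Prop} (hG : ∃ x, G x) :
    ∃ φ : X → ℝ, (∀ x, ∃ x', G x' ∧ φ x = dz z x x') ∧ ∀ x x', G x' → φ x ≤ dz z x x' := by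
  have : ∀ x, ∃ x', G x' ∧ ∀ y, G y → dz z x x' ≤ dz z x y := fun x =>
    Set.exists_min_image {y | G y} (dz z x) (Set.toFinite _) hG
  choose p h1 h2 using this
  exact ⟨fun x => dz z x (p x), fun x => ⟨p x, h1 x, rfl⟩, fun x x' h => h2 x x' h⟩

theorem exists_params {δ : ℝ} (hδ : 0 < δ) : ∃ m : ℕ, ∃ ε : ℝ, 6 ≤ m ∧ 0 < ε ∧
    24 * (25 / 27 : ℝ) ^ m ≤ δ ^ 2 ∧ 8 * ε * 2 ^ m ≤ (δ * (9 / 10) ^ m) ^ 2 := by
  obtain ⟨n, hn⟩ := exists_pow_lt_of_lt_one (show 0 < δ ^ 2 / 24 by positivity)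
    (show (25 / 27 : ℝ) < 1 by norm_num)
  refine ⟨n + 6, (δ * (9 / 10) ^ (n + 6)) ^ 2 / (8 * 2 ^ (n + 6)), by omega, by positivity, ?_,
    le_of_eq (by field_simp)⟩
  have : (25 / 27 : ℝ) ^ (n + 6) ≤ (25 / 27) ^ n :=
    pow_le_pow_of_le_one (by norm_num) (by norm_num) (by omega)
  linarith

theorem tb_abs {η κ α : ℝ} (hη : 0 < η) (hη1 : η ≤ 1) (hκ : 0 < κ) (hκ1 : κ ≤ 1) (hα : 0 ≤ α) :
    ∃ C : ℝ, 0 < C ∧ ∀ (X : Type) [Fintype X] (Ω : Type) [Fintype Ω] (z : X → ℂ) (μ : X → ℝ)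
      (b : X → ℂ) (X₀ : X → Prop) (π : Ω → ℝ) (Λ : Ω → Lat X) (L : ℕ) (G : Ω → X → Prop),
      (∀ x y, x ≠ y → 1 ≤ dz z x y) → (∀ x, 0 < μ x) → (∀ x, ‖b x‖ ≤ 1) →
      (∀ x, X₀ x → ∀ r, 1 ≤ r → bm μ (fun y => dz z x y ≤ r) ≤ r / 2) →
      (∀ x, X₀ x → ∀ r, 1 ≤ r → ‖ctr μ z b x r‖ ≤ α) → RL π Λ (dz z) L →
      (∀ ω x, G ω x → X₀ x) →
      (∀ ω x, G ω x → ∀ j, η * bm μ ((Λ ω).c j x) ≤ ‖cint μ ((Λ ω).c j x) b‖) →
      (∀ ω, κ * ∑ x, μ x ≤ bm μ (G ω)) →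
      ∃ F : X → Prop, (∀ x, F x → X₀ x) ∧ κ / 2 * ∑ x, μ x ≤ bm μ F ∧
        bm (fun x => μ x * ‖opT μ (ck z) (cut F fun _ => 1) x‖ ^ 2) F ≤ C * ∑ x, μ x := by
  set β₀ := κ ^ 2 / 4 with hβ₀
  have hβ0 : 0 < β₀ := by positivity
  have hβ1 : β₀ ≤ 1 := by nlinarith
  set δ := η ^ 4 * β₀ / (2 * 12000000 * 2 * 2880 * 6000000) with hδ
  have hδ0 : 0 < δ := by positivity
  obtain ⟨m, ε, hm, hε, hp1, hp2⟩ := exists_params hδ0
  have hC0 : 0 < Cdet m ε η (α + 117) := by unfold Cdet Kp; positivity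
  set A := 12000000 * (2 * Cdet m ε η (α + 117) + 1) / β₀ + 1 / 2 with hA
  have hA0 : 0 < A := by positivity
  refine ⟨(2 * A + 1) ^ 2, by positivity, ?_⟩
  intro X _ Ω _ z μ b X₀ π Λ L G hsep hμ hb hgr htr hR hG0 hacc hG
  have hμ' : ∀ x, 0 ≤ μ x := fun x => (hμ x).le
  rcases isEmpty_or_nonempty X with hX | ⟨⟨x0⟩⟩
  · exact ⟨fun _ => False, fun x => hX.elim x, by simp [bm], by simp [bm]⟩
  have hM : 0 < ∑ x, μ x := sum_pos (fun x _ => hμ x) ⟨x0, mem_univ _⟩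
  have hGne : ∀ ω, ∃ x, G ω x := fun ω => by
    obtain ⟨x, hx, _⟩ := bm_pos_exists ((mul_pos hκ hM).trans_le (hG ω))
    exact ⟨x, hx⟩
  choose φ hφ1 hφ2 using fun ω => exists_distfun z (hGne ω)
  have hφl : ∀ ω x y, φ ω y ≤ φ ω x + dz z x y := fun ω x y => by
    obtain ⟨x', h1, h2⟩ := hφ1 ω x
    have := dz_tri (z := z) y x x'
    rw [dz_symm y x] at this
    linarith [hφ2 ω y x' h1]
  set π₂ : Ω × Ω → ℝ := fun ω => π ω.1 * π ω.2 with hπ₂
  have hπ0 : ∀ ω, 0 ≤ π₂ ω := fun ω => mul_nonneg (hR.pi_nn _) (hR.pi_nn _)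
  have hπ1 : ∑ ω, π₂ ω = 1 := by
    rw [Fintype.sum_prod_type]; simp only [hπ₂, ← mul_sum, hR.pi_sum, mul_one]
  set Φ : Ω × Ω → X → ℝ := fun ω x => max (φ ω.1 x) (φ ω.2 x) with hΦ
  have hΦl : ∀ ω x y, Φ ω y ≤ Φ ω x + dz z x y := fun ω x y =>
    max_le (by linarith [hφl ω.1 x y, le_max_left (φ ω.1 x) (φ ω.2 x)])
      (by linarith [hφl ω.2 x y, le_max_right (φ ω.1 x) (φ ω.2 x)])
  choose q hq1 hq2 hq3 using fun x => quantile hπ0 hπ1 hβ0 hβ1 (fun ω => Φ ω x)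
  set Θ₀ : X → ℝ := fun x => max 1 (q x) with hΘ₀
  have h0 : LipF z Θ₀ := ⟨fun x => le_max_left _ _, fun x y => by
    have := hq3 y (q x + dz z x y) ((hq2 x).trans (bm_mono hπ0 fun ω h => by
      linarith [hΦl ω x y]))
    exact max_le (by linarith [le_max_left 1 (q x), dz_nonneg (z := z) x y])
      (by linarith [le_max_right 1 (q x)])⟩
  set Θ : Ω × Ω → X → ℝ := fun ω x => max (Φ ω x) (Θ₀ x) with hΘ
  have hΘl : ∀ ω, LipF z (Θ ω) := fun ω => ⟨fun x => (h0.one_le x).trans (le_max_right _ _),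
    fun x y => max_le (by linarith [hΦl ω x y, le_max_left (Φ ω x) (Θ₀ x)])
      (by linarith [h0.lip x y, le_max_right (Φ ω x) (Θ₀ x)])⟩
  have hle : ∀ ω x, Θ₀ x ≤ Θ ω x := fun ω x => le_max_right _ _
  have hgrow : ∀ Θ' : X → ℝ, (∀ x, Θ₀ x ≤ Θ' x) →
      ∀ x r, Θ' x ≤ r → bm μ (fun y => dz z x y ≤ r) ≤ r := by
    intro Θ' h' x r hr
    obtain ⟨ω, hω⟩ := hq1 x
    obtain ⟨x', h1, h2⟩ := hφ1 ω.1 x
    have a1 : dz z x x' ≤ r := by
      linarith [le_max_left (φ ω.1 x) (φ ω.2 x), le_max_right 1 (q x), h' x]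
    have a2 := hgr x' (hG0 _ _ h1) (2 * r) (by linarith [h0.one_le x, h' x])
    refine (bm_mono hμ' fun y hy => ?_).trans (a2.trans (by linarith))
    have := dz_tri (z := z) x' x y
    rw [dz_symm x' x] at this
    linarith
  have hK0 := KS_th h0 hμ' (hgrow Θ₀ fun _ => le_rfl)
  have hK : ∀ ω, KS μ (dz z) (Dth z (Θ ω)) (kth z (Θ ω)) := fun ω =>
    KS_th (hΘl ω) hμ' (hgrow _ (hle ω))
  have hnear1 : ∀ (ω : Ω × Ω) x, ∃ x', G ω.1 x' ∧ dz z x x' ≤ Θ ω x := fun ω x => by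
    obtain ⟨x', h1, h2⟩ := hφ1 ω.1 x
    exact ⟨x', h1, h2 ▸ (le_max_left _ _).trans (le_max_left _ _)⟩
  have hnear2 : ∀ (ω : Ω × Ω) x, ∃ x', G ω.2 x' ∧ dz z x x' ≤ Θ ω x := fun ω x => by
    obtain ⟨x', h1, h2⟩ := hφ1 ω.2 x
    exact ⟨x', h1, h2 ▸ (le_max_right _ _).trans (le_max_left _ _)⟩
  have hAcc : ∀ ω, Acc μ b η (Λ ω) (G ω) := fun ω => ⟨hμ, hb, hη, hη1, hacc ω⟩
  have hL : L2B μ (kth z Θ₀) (2 * A + 1) := by
    refine bootstrap (P := L2B μ (kth z Θ₀)) hA0.le hM.le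
      (L2B_init hμ' fun x y => (kth_size h0 x y).trans ?_)
      (fun N M hN hNM h => h.mono hμ' hN hNM) fun N hN hB => ?_
    · rw [div_le_one (h0.D_pos x y)]; exact (h0.one_le x).trans (le_Dth_left x y)
    have b1 := fun f g => avg_bound hR (D := fun ω ω' => Dth z (Θ (ω, ω')))
      (k := fun ω ω' => kth z (Θ (ω, ω'))) (fun ω ω' => hK (ω, ω'))
      (fun ω ω' => ⟨hAcc ω, hR.diam ω, fun x y => by
        obtain ⟨x', h1, h2⟩ := hnear1 (ω, ω') x
        exact ⟨x', h1, h2.trans (le_Dth_left x y)⟩⟩)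
      (fun ω ω' => ⟨hAcc ω', hR.diam ω', fun x y => by
        obtain ⟨x', h1, h2⟩ := hnear2 (ω, ω') x
        exact ⟨x', h1, h2.trans (le_Dth_left x y)⟩⟩)
      (fun ω ω' => L2B_up h0 (hΘl _) (hle _) hK0 hN hB) (by positivity) hm hε hδ0 hp1 hp2
      (β := α + 117) (by positivity) (fun ω ω' x => by
        obtain ⟨x', h1, h2⟩ := hnear1 (ω, ω') x
        exact kb_bound (hΘl _) (hK _) hb h2 (htr x' (hG0 _ _ h1))) f g
    have b2 := L2B_down hπ0 hπ1 h0 hΘl hle hK0.sp hβ0 hβ1 (fun x => (hq2 x).trans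
      (bm_mono hπ0 fun ω h => max_le (h.trans (le_max_right _ _)) le_rfl))
      (M := 2 * (Cdet m ε η (α + 117) + 2880 * (6000000 * (N + 1)) * δ / η ^ 4)) (by positivity)
      fun f g => by
        rw [Fintype.sum_prod_type]
        exact (b1 f g).trans (le_of_eq (by ring))
    convert b2 using 1
    rw [hA, hδ]; field_simp; ring
  set p : X → ℝ := fun x => bm π (fun ω => G ω x) with hp
  have hp1' : ∀ x, p x ≤ 1 := fun x => hR.pi_sum ▸ bm_le_sum hR.pi_nn _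
  have hp0 : ∀ x, 0 ≤ p x := fun x => bm_nonneg hR.pi_nn _
  have hF1 : ∀ x, κ / 2 ≤ p x → Θ₀ x = 1 := by
    intro x hx
    refine max_eq_left ((hq3 x 0 ?_).trans zero_le_one)
    have e : bm π₂ (fun ω => G ω.1 x ∧ G ω.2 x) = p x * p x := by
      simp only [hp, ← sum_mul_ind]
      rw [Fintype.sum_prod_type, sum_mul_sum]
      refine sum_congr rfl fun ω _ => sum_congr rfl fun ω' _ => ?_
      by_cases h1 : G ω x <;> by_cases h2 : G ω' x <;> simp [ind, hπ₂, h1, h2]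
    refine le_trans (by rw [e]; nlinarith) (bm_mono hπ0 (p := fun ω => G ω.1 x ∧ G ω.2 x)
      fun ω h => max_le ?_ ?_)
    · exact (hφ2 _ x x h.1).trans (dz_self x).le
    · exact (hφ2 _ x x h.2).trans (dz_self x).le
  refine ⟨fun x => κ / 2 ≤ p x, fun x hx => ?_, ?_, ?_⟩
  · obtain ⟨ω, hω, _⟩ := bm_pos_exists (lt_of_lt_of_le (by positivity) hx : 0 < p x)
    exact hG0 ω x hω
  · have a1 : κ * ∑ x, μ x ≤ ∑ x, μ x * p x := by
      have : ∑ x, μ x * p x = ∑ ω, π ω * bm μ (G ω) := by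
        simp only [hp, ← sum_mul_ind, mul_sum]
        rw [sum_comm]
        refine sum_congr rfl fun ω _ => sum_congr rfl fun x _ => ?_
        rw [ind_congr (p := G ω) (q := fun ω => G ω x) (y := x) (z := ω) Iff.rfl]; ring
      rw [this, ← one_mul (κ * _), ← hR.pi_sum, sum_mul]
      exact sum_le_sum fun ω _ => mul_le_mul_of_nonneg_left (hG ω) (hR.pi_nn ω)
    have a2 : ∑ x, μ x * p x ≤ bm μ (fun x => κ / 2 ≤ p x) + κ / 2 * ∑ x, μ x := by
      rw [← sum_mul_ind, mul_sum, ← sum_add_distrib]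
      refine sum_le_sum fun x _ => ?_
      by_cases hx : κ / 2 ≤ p x
      · rw [ind_pos (p := fun x => κ / 2 ≤ p x) hx]; nlinarith [hμ x, hp1' x]
      · rw [ind_neg (p := fun x => κ / 2 ≤ p x) hx]; nlinarith [hμ x, not_le.1 hx]
    linarith
  · have a1 := hL (cut (fun x => κ / 2 ≤ p x) fun _ => 1)
    have a2 := nsq_cut_le_bm hμ' (fun x => κ / 2 ≤ p x) (f := fun _ => (1:ℂ)) (β := 1) (by simp)
    have a3 := bm_le_sum hμ' (fun x => κ / 2 ≤ p x)
    refine le_trans ?_ (a1.trans (mul_le_mul_of_nonneg_left (by linarith) (by positivity)))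
    refine le_trans (le_of_eq (bm_congr_w fun x hx => ?_))
      (bm_le_sum (fun x => mul_nonneg (hμ' x) (sq_nonneg _)) _)
    congr 3
    refine sum_congr rfl fun y _ => ?_
    by_cases hy : κ / 2 ≤ p y
    · rw [kth_eq_ck (hF1 x hx) (hF1 y hy) (hsep x y)]
    · rw [cut_neg (p := fun x => κ / 2 ≤ p x) _ hy]; simp

end

end Pool.Agent.Lib.MP_dfc9b7_an
end

-- part Pool.Agent.Lib.MP_dfc9b7_an.Grid
section

/-! Shifted dyadic lattices on the integer grid. -/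

set_option autoImplicit false
open Finset

namespace Pool.Agent.Lib.MP_dfc9b7_an

noncomputable section

/-- Grid point as a complex number. -/
def gp (p : ℤ × ℤ) : ℂ := (p.1 : ℂ) + (p.2 : ℂ) * Complex.I

@[simp] theorem gp_re (p : ℤ × ℤ) : (gp p).re = p.1 := by simp [gp]
@[simp] theorem gp_im (p : ℤ × ℤ) : (gp p).im = p.2 := by simp [gp]

theorem abs_fst_le (p q : ℤ × ℤ) : |((p.1 - q.1 : ℤ) : ℝ)| ≤ ‖gp p - gp q‖ := by
  simpa using Complex.abs_re_le_norm (gp p - gp q)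

theorem abs_snd_le (p q : ℤ × ℤ) : |((p.2 - q.2 : ℤ) : ℝ)| ≤ ‖gp p - gp q‖ := by
  simpa using Complex.abs_im_le_norm (gp p - gp q)

theorem norm_gp_le (p q : ℤ × ℤ) :
    ‖gp p - gp q‖ ≤ |((p.1 - q.1 : ℤ) : ℝ)| + |((p.2 - q.2 : ℤ) : ℝ)| := by
  simpa using Complex.norm_le_abs_re_add_abs_im (gp p - gp q)

theorem gp_sep {p q : ℤ × ℤ} (h : p ≠ q) : 1 ≤ ‖gp p - gp q‖ := by
  by_cases h1 : p.1 = q.1
  · have h2 : p.2 - q.2 ≠ 0 := fun h2 => h (Prod.ext h1 (by omega))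
    refine le_trans ?_ (abs_snd_le p q)
    exact_mod_cast Int.one_le_abs h2
  · refine le_trans ?_ (abs_fst_le p q)
    exact_mod_cast Int.one_le_abs (sub_ne_zero.2 h1)

theorem div_pow_succ (a : ℤ) (j : ℕ) : a / 2 ^ (j + 1) = a / 2 ^ j / 2 := by
  rw [pow_succ, Int.ediv_ediv_of_nonneg (by positivity)]

theorem abs_sub_lt_of_div_eq {a b n : ℤ} (hn : 0 < n) (h : a / n = b / n) : |a - b| < n := by
  have h1 := Int.emod_add_mul_ediv a n
  have h2 := Int.emod_add_mul_ediv b n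
  have h3 := Int.emod_nonneg a hn.ne'
  have h4 := Int.emod_nonneg b hn.ne'
  have h5 := Int.emod_lt_of_pos a hn
  have h6 := Int.emod_lt_of_pos b hn
  rw [h] at h1
  rw [abs_lt]; constructor <;> linarith

/-- Shifted dyadic lattice. -/
def gl {X : Type*} (pos : X → ℤ × ℤ) (s : ℤ × ℤ) : Lat X where
  c j x y := ((pos x).1 + s.1) / 2 ^ j = ((pos y).1 + s.1) / 2 ^ j ∧
    ((pos x).2 + s.2) / 2 ^ j = ((pos y).2 + s.2) / 2 ^ j
  refl _ _ := ⟨rfl, rfl⟩
  symm _ _ _ h := ⟨h.1.symm, h.2.symm⟩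
  trans _ _ _ _ h h' := ⟨h.1.trans h'.1, h.2.trans h'.2⟩
  nest j _ _ h := ⟨by rw [div_pow_succ, div_pow_succ, h.1], by rw [div_pow_succ, div_pow_succ, h.2]⟩

theorem gl_diam {X : Type*} (pos : X → ℤ × ℤ) (s : ℤ × ℤ) (j : ℕ) (x y : X)
    (h : (gl pos s).c j x y) : dz (fun x => gp (pos x)) x y ≤ 2 * 2 ^ j := by
  have h1 := abs_sub_lt_of_div_eq (by positivity) h.1
  have h2 := abs_sub_lt_of_div_eq (by positivity) h.2
  rw [add_sub_add_right_eq_sub] at h1 h2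
  have h3 : |(((pos x).1 - (pos y).1 : ℤ) : ℝ)| ≤ 2 ^ j := by exact_mod_cast h1.le
  have h4 : |(((pos x).2 - (pos y).2 : ℤ) : ℝ)| ≤ 2 ^ j := by exact_mod_cast h2.le
  have := norm_gp_le (pos x) (pos y)
  unfold dz; linarith

theorem bm_const {W : Type*} [Fintype W] (c : ℝ) (p : W → Prop) [DecidablePred p] :
    bm (fun _ => c) p = c * (univ.filter p).card := by
  rw [bm_eq_sum_ite, ← sum_filter, sum_const, nsmul_eq_mul, mul_comm]

theorem shift_count (i l : ℕ) (a : ℤ) {s : ℝ} (hs : 0 ≤ s) :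
    bm (fun _ : Fin (2 ^ (i + l)) => (1 / 2 ^ (i + l) : ℝ))
      (fun ω => ∃ t : ℤ, |(t : ℝ)| ≤ s ∧ (a + ω) / 2 ^ i ≠ (a + t + ω) / 2 ^ i) ≤ 2 * s / 2 ^ i := by
  classical
  rw [bm_const]
  set n := ⌊s⌋₊ with hn
  have hp : (0:ℤ) < 2 ^ i := by positivity
  have h1 : (univ.filter fun ω : Fin (2 ^ (i + l)) =>
      ∃ t : ℤ, |(t : ℝ)| ≤ s ∧ (a + ω) / 2 ^ i ≠ (a + t + ω) / 2 ^ i).card ≤
      (range (2 ^ l) ×ˢ (Ico (0:ℤ) n ∪ Ico (2 ^ i - n : ℤ) (2 ^ i))).card := by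
    refine card_le_card_of_injOn (fun ω => ((ω : ℕ) / 2 ^ i, (a + ω) % 2 ^ i)) ?_ ?_
    · intro ω hω
      obtain ⟨t, ht1, ht2⟩ := (mem_filter.1 hω).2
      have ht3 : |t| ≤ n := by
        have : ((|t|.toNat : ℕ) : ℝ) ≤ s := by
          have e : ((|t|.toNat : ℕ) : ℤ) = |t| := Int.toNat_of_nonneg (abs_nonneg t)
          have : ((|t|.toNat : ℕ) : ℝ) = ((|t| : ℤ) : ℝ) := by exact_mod_cast e
          rw [this]; simpa using ht1
        have := Nat.le_floor this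
        omega
      simp only [coe_product, Set.mem_prod, mem_coe, mem_range, mem_union, mem_Ico]
      refine ⟨Nat.div_lt_of_lt_mul (by rw [← pow_add]; exact ω.2), ?_⟩
      have h3 := Int.emod_nonneg (a + ω) hp.ne'
      have h5 := Int.emod_lt_of_pos (a + ω) hp
      by_contra hc
      push Not at hc
      apply ht2
      have h6 := Int.emod_add_mul_ediv (a + ω) (2 ^ i)
      rw [abs_le] at ht3
      symm
      refine ((Int.ediv_emod_unique (r := (a + ω) % 2 ^ i + t) hp).2 ⟨by linarith, ?_, ?_⟩).1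
      · have := hc.1 h3; omega
      · by_contra h7
        have := hc.2 (by omega); omega
    · intro ω _ ω' _ h
      simp only [Prod.mk.injEq] at h
      have h2 : ((ω : ℕ) : ℤ) % 2 ^ i = ((ω' : ℕ) : ℤ) % 2 ^ i :=
        Int.ModEq.add_left_cancel' a h.2
      have h3 : (ω : ℕ) % 2 ^ i = (ω' : ℕ) % 2 ^ i := by exact_mod_cast h2
      apply Fin.ext
      rw [← Nat.div_add_mod ω (2 ^ i), ← Nat.div_add_mod ω' (2 ^ i), h.1, h3]
  have h2 : (range (2 ^ l) ×ˢ (Ico (0:ℤ) n ∪ Ico (2 ^ i - n : ℤ) (2 ^ i))).card ≤ 2 ^ l * (2 * n) := by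
    rw [card_product, card_range]
    refine Nat.mul_le_mul_left _ ((card_union_le _ _).trans ?_)
    simp; omega
  have h3 : ((univ.filter fun ω : Fin (2 ^ (i + l)) =>
      ∃ t : ℤ, |(t : ℝ)| ≤ s ∧ (a + ω) / 2 ^ i ≠ (a + t + ω) / 2 ^ i).card : ℝ) ≤
      2 ^ l * (2 * s) := by
    have : ((2 ^ l * (2 * n) : ℕ) : ℝ) ≤ 2 ^ l * (2 * s) := by
      push_cast
      exact mul_le_mul_of_nonneg_left (by linarith [Nat.floor_le hs]) (by positivity)
    exact le_trans (by exact_mod_cast h1.trans h2) this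
  refine (mul_le_mul_of_nonneg_left h3 (by positivity)).trans (le_of_eq ?_)
  rw [pow_add]; field_simp

theorem bm_fst {W : Type*} [Fintype W] {c : ℝ} (hc : c * Fintype.card W = 1) (p : W → Prop) :
    bm (fun _ : W × W => c * c) (fun ω => p ω.1) = bm (fun _ => c) p := by
  simp only [← sum_mul_ind]
  rw [Fintype.sum_prod_type]
  refine sum_congr rfl fun x _ => ?_
  rw [sum_congr rfl fun y _ => by
    rw [ind_congr (p := fun ω : W × W => p ω.1) (q := p) (y := (x, y)) (z := x) Iff.rfl],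
    sum_const, card_univ, nsmul_eq_mul]
  linear_combination (c * ind p x) * hc

theorem bm_snd {W : Type*} [Fintype W] {c : ℝ} (hc : c * Fintype.card W = 1) (p : W → Prop) :
    bm (fun _ : W × W => c * c) (fun ω => p ω.2) = bm (fun _ => c) p := by
  simp only [← sum_mul_ind]
  rw [Fintype.sum_prod_type_right]
  refine sum_congr rfl fun x _ => ?_
  rw [sum_congr rfl fun y _ => by
    rw [ind_congr (p := fun ω : W × W => p ω.2) (q := p) (y := (y, x)) (z := x) Iff.rfl],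
    sum_const, card_univ, nsmul_eq_mul]
  linear_combination (c * ind p x) * hc

theorem gl_RL {X : Type*} (pos : X → ℤ × ℤ) (hpos : Function.Injective pos) (o : ℤ) (M : ℕ)
    (ho : ∀ x, 0 ≤ (pos x).1 + o ∧ (pos x).1 + o < 2 ^ M ∧ 0 ≤ (pos x).2 + o ∧
      (pos x).2 + o < 2 ^ M) :
    RL (fun _ : Fin (2 ^ M) × Fin (2 ^ M) => (1 / 2 ^ M * (1 / 2 ^ M) : ℝ))
      (fun ω => gl pos (o + ω.1, o + ω.2)) (dz fun x => gp (pos x)) (M + 1) := by
  have hc : (1 / 2 ^ M : ℝ) * Fintype.card (Fin (2 ^ M)) = 1 := by simp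
  have htop : ∀ (ω : Fin (2 ^ M) × Fin (2 ^ M)) x y,
      (gl pos (o + ω.1, o + ω.2)).c (M + 1) x y := by
    intro ω x y
    have key : ∀ (a : ℤ) (w : Fin (2 ^ M)), 0 ≤ a + o → a + o < 2 ^ M →
        (a + (o + w)) / 2 ^ (M + 1) = 0 := fun a w h1 h2 => by
      have : ((w : ℕ) : ℤ) < 2 ^ M := by exact_mod_cast w.2
      exact Int.ediv_eq_zero_of_lt (by omega) (by rw [pow_succ]; omega)
    exact ⟨by rw [key _ _ (ho x).1 (ho x).2.1, key _ _ (ho y).1 (ho y).2.1],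
      by rw [key _ _ (ho x).2.2.1 (ho x).2.2.2, key _ _ (ho y).2.2.1 (ho y).2.2.2]⟩
  refine ⟨fun _ => by positivity, by simp; field_simp, dz_nonneg, dz_tri,
    fun ω => gl_diam pos _, fun ω x y h => ?_, htop, fun i x s hs => ?_⟩
  · have h1 := h.1
    have h2 := h.2
    simp only [pow_zero, Int.ediv_one] at h1 h2
    exact hpos (Prod.ext (by omega) (by omega))
  by_cases hi : M + 1 ≤ i
  · rw [bm_false]
    · positivity
    · exact fun ω h => h fun y _ => (gl pos _).mono hi (htop ω x y)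
  obtain ⟨l, rfl⟩ := Nat.exists_eq_add_of_le (show i ≤ M by omega)
  have h1 := shift_count i l ((pos x).1 + o) hs
  have h2 := shift_count i l ((pos x).2 + o) hs
  rw [← bm_fst hc] at h1
  rw [← bm_snd hc] at h2
  refine (bm_le_add (fun _ => by positivity) fun ω hω => ?_).trans
    ((add_le_add h1 h2).trans (le_of_eq (by ring)))
  by_contra hc
  push Not at hc
  refine hω fun y hy => ⟨?_, ?_⟩
  · have := hc.1 ((pos y).1 - (pos x).1) ((abs_fst_le _ _).trans (by rwa [dz_symm] at hy))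
    convert this using 2 <;> ring
  · have := hc.2 ((pos y).2 - (pos x).2) ((abs_snd_le _ _).trans (by rwa [dz_symm] at hy))
    convert this using 2 <;> ring

theorem tb_grid {η κ α : ℝ} (hη : 0 < η) (hη1 : η ≤ 1) (hκ : 0 < κ) (hκ1 : κ ≤ 1) (hα : 0 ≤ α) :
    ∃ C : ℝ, 0 < C ∧ ∀ (X : Type) [Fintype X] (pos : X → ℤ × ℤ) (μ : X → ℝ)
      (b : X → ℂ) (X₀ : X → Prop), Function.Injective pos → (∀ x, 0 < μ x) → (∀ x, ‖b x‖ ≤ 1) →
      (∀ x, X₀ x → ∀ r, 1 ≤ r → bm μ (fun y => dz (fun x => gp (pos x)) x y ≤ r) ≤ r / 2) →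
      (∀ x, X₀ x → ∀ r, 1 ≤ r → ‖ctr μ (fun x => gp (pos x)) b x r‖ ≤ α) →
      (∀ s L, κ * ∑ x, μ x ≤ bm μ (fun x => X₀ x ∧ ∀ j, j ≤ L →
        η * bm μ ((gl pos s).c j x) ≤ ‖cint μ ((gl pos s).c j x) b‖)) →
      ∃ F : X → Prop, (∀ x, F x → X₀ x) ∧ κ / 2 * ∑ x, μ x ≤ bm μ F ∧
        bm (fun x => μ x * ‖opT μ (ck fun x => gp (pos x)) (cut F fun _ => 1) x‖ ^ 2) F ≤
          C * ∑ x, μ x := by
  obtain ⟨C, hC, h⟩ := tb_abs hη hη1 hκ hκ1 hα
  refine ⟨C, hC, fun X _ pos μ b X₀ hpos hμ hb hgr htr hG => ?_⟩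
  set o : ℤ := ∑ x, (|(pos x).1| + |(pos x).2|) with ho
  have h1 : ∀ x, |(pos x).1| + |(pos x).2| ≤ o := fun x =>
    single_le_sum (f := fun x => |(pos x).1| + |(pos x).2|) (fun _ _ => by positivity) (mem_univ x)
  obtain ⟨M, hM⟩ := pow_unbounded_of_one_lt (2 * o) (one_lt_two (α := ℤ))
  have hR := gl_RL pos hpos o M fun x => by
    have := h1 x
    have := abs_nonneg (pos x).1
    have := abs_nonneg (pos x).2
    have := le_abs_self (pos x).1
    have := le_abs_self (pos x).2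
    have := neg_abs_le (pos x).1
    have := neg_abs_le (pos x).2
    omega
  refine h X (Fin (2 ^ M) × Fin (2 ^ M)) (fun x => gp (pos x)) μ b X₀
    (fun _ => (1 / 2 ^ M * (1 / 2 ^ M) : ℝ)) (fun ω => gl pos (o + ω.1, o + ω.2)) (M + 1) (fun ω x => X₀ x ∧ ∀ j, j ≤ M + 1 →
      η * bm μ ((gl pos (o + ω.1, o + ω.2)).c j x) ≤
        ‖cint μ ((gl pos (o + ω.1, o + ω.2)).c j x) b‖)
    (fun x y hxy => gp_sep fun h => hxy (hpos h)) hμ hb hgr htr hR (fun _ _ h => h.1)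
    (fun ω x hx j => ?_) fun ω => hG (o + ω.1, o + ω.2) (M + 1)
  by_cases hj : j ≤ M + 1
  · exact hx.2 j hj
  · have e : (gl pos (o + ω.1, o + ω.2)).c j x = (gl pos (o + ω.1, o + ω.2)).c (M + 1) x :=
      funext fun y => propext ⟨fun _ => hR.top ω x y,
        fun h => (gl pos _).mono (by omega) h⟩
    rw [e]; exact hx.2 _ le_rfl

end

end Pool.Agent.Lib.MP_dfc9b7_an
end
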