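import Pool.Agent.Lib.MP_dfc9b7_an.Grid
import Pool.Agent.Lib.MP_dfc9b7_an.Bump

-- part Pool.Agent.Lib.MP_dfc9b7_an.Curv
section

/-! Menger curvature and the symmetrisation identity. -/

set_option autoImplicit false
open Finset

namespace Pool.Agent.Lib.MP_dfc9b7_an

noncomputable section

/-- Twice the signed area. -/
def ar (a b c : ℂ) : ℝ := ((a - b) * (starRingEnd ℂ) (a - c)).im

/-- Square of the Menger curvature. -/
def cq (a b c : ℂ) : ℝ := 4 * ar a b c ^ 2 / (‖a - b‖ ^ 2 * ‖a - c‖ ^ 2 * ‖b - c‖ ^ 2)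

/-- One term of the symmetrisation. -/
def pm (a b c : ℂ) : ℝ := ((a - b)⁻¹ * (starRingEnd ℂ) (a - c)⁻¹).re

theorem cq_nonneg (a b c : ℂ) : 0 ≤ cq a b c := by unfold cq; positivity

theorem ar_swap23 (a b c : ℂ) : ar a c b = - ar a b c := by
  simp [ar]; ring

theorem ar_swap12 (a b c : ℂ) : ar b a c = - ar a b c := by
  simp [ar]; ring

theorem cq_swap23 (a b c : ℂ) : cq a c b = cq a b c := by
  unfold cq; rw [ar_swap23, norm_sub_rev c b]; ring

theorem cq_swap12 (a b c : ℂ) : cq b a c = cq a b c := by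
  unfold cq; rw [ar_swap12, norm_sub_rev b a]; ring

theorem cq_self12 (a c : ℂ) : cq a a c = 0 := by simp [cq]

theorem abs_ar_le (a b c : ℂ) : |ar a b c| ≤ ‖a - b‖ * ‖a - c‖ := by
  have := Complex.abs_im_le_norm ((a - b) * (starRingEnd ℂ) (a - c))
  rwa [norm_mul, Complex.norm_conj] at this

theorem cq_le23 (a b c : ℂ) : cq a b c ≤ 4 / ‖b - c‖ ^ 2 := by
  unfold cq
  have h := pow_le_pow_left₀ (abs_nonneg _) (abs_ar_le a b c) 2
  rw [sq_abs, mul_pow] at h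
  rcases (show 0 ≤ ‖a - b‖ ^ 2 * ‖a - c‖ ^ 2 by positivity).lt_or_eq with hp | h0
  · rw [← div_div]
    refine div_le_div_of_nonneg_right ?_ (by positivity)
    rw [div_le_iff₀ hp]; linarith
  · rw [← h0]; simp; positivity

theorem cq_le12 (a b c : ℂ) : cq a b c ≤ 4 / ‖a - b‖ ^ 2 := by
  rw [← cq_swap23, ← cq_swap12]; exact cq_le23 c a b

theorem cq_le13 (a b c : ℂ) : cq a b c ≤ 4 / ‖a - c‖ ^ 2 := by
  rw [← cq_swap23]; exact cq_le12 a c b

theorem abs_ar_sub_le (a a' b c : ℂ) : |ar a b c - ar a' b c| ≤ ‖a - a'‖ * ‖b - c‖ := by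
  have h := Complex.abs_im_le_norm ((a - a') * (starRingEnd ℂ) (b - c))
  rw [norm_mul, Complex.norm_conj] at h
  have e : ar a b c - ar a' b c = ((a - a') * (starRingEnd ℂ) (b - c)).im := by
    simp [ar]; ring
  rwa [e]

theorem cq_lip (a a' b c : ℂ) (hb : 2 * ‖a - a'‖ < ‖a - b‖) (hc : 2 * ‖a - a'‖ < ‖a - c‖) :
    cq a b c ≤ 32 * cq a' b c + 8 * ‖a - a'‖ ^ 2 / (‖a - b‖ ^ 2 * ‖a - c‖ ^ 2) := by
  have h0 := norm_nonneg (a - a')
  have b1 := norm_sub_le_norm_sub_add_norm_sub a a' b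
  have b2 := norm_sub_le_norm_sub_add_norm_sub a' a b
  have c1 := norm_sub_le_norm_sub_add_norm_sub a a' c
  have c2 := norm_sub_le_norm_sub_add_norm_sub a' a c
  rw [norm_sub_rev a' a] at b2 c2
  have pb : 0 < ‖a - b‖ := by linarith
  have pc : 0 < ‖a - c‖ := by linarith
  have pb' : 0 < ‖a' - b‖ := by linarith
  have pc' : 0 < ‖a' - c‖ := by linarith
  rcases (norm_nonneg (b - c)).lt_or_eq with pd | h0'
  swap
  · have := cq_nonneg a' b c
    unfold cq at this ⊢; rw [← h0'] at this ⊢; simp; positivity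
  have h1 := pow_le_pow_left₀ (abs_nonneg _) (abs_ar_sub_le a a' b c) 2
  rw [sq_abs, mul_pow] at h1
  have h2 : ar a b c ^ 2 ≤ 2 * ar a' b c ^ 2 + 2 * (‖a - a'‖ ^ 2 * ‖b - c‖ ^ 2) := by
    nlinarith [sq_nonneg (ar a b c - 2 * ar a' b c)]
  have h3 : ‖a' - b‖ ^ 2 * ‖a' - c‖ ^ 2 ≤ 16 * (‖a - b‖ ^ 2 * ‖a - c‖ ^ 2) := by
    have e1 : ‖a' - b‖ ^ 2 ≤ 4 * ‖a - b‖ ^ 2 := by nlinarith
    have e2 : ‖a' - c‖ ^ 2 ≤ 4 * ‖a - c‖ ^ 2 := by nlinarith
    nlinarith [mul_le_mul e1 e2 (by positivity) (by positivity)]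
  have h4 : 8 * ar a' b c ^ 2 / (‖a - b‖ ^ 2 * ‖a - c‖ ^ 2 * ‖b - c‖ ^ 2) ≤ 32 * cq a' b c := by
    unfold cq
    rw [← mul_div_assoc, div_le_div_iff₀ (by positivity) (by positivity)]
    nlinarith [mul_le_mul_of_nonneg_left h3 (show 0 ≤ ar a' b c ^ 2 * ‖b - c‖ ^ 2 by positivity)]
  have h5 : cq a b c ≤ 8 * ar a' b c ^ 2 / (‖a - b‖ ^ 2 * ‖a - c‖ ^ 2 * ‖b - c‖ ^ 2) +
      8 * ‖a - a'‖ ^ 2 / (‖a - b‖ ^ 2 * ‖a - c‖ ^ 2) := by
    unfold cq
    have e : 8 * ‖a - a'‖ ^ 2 / (‖a - b‖ ^ 2 * ‖a - c‖ ^ 2) =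
      8 * (‖a - a'‖ ^ 2 * ‖b - c‖ ^ 2) / (‖a - b‖ ^ 2 * ‖a - c‖ ^ 2 * ‖b - c‖ ^ 2) := by
      field_simp
    rw [e, ← add_div]
    exact div_le_div_of_nonneg_right (by linarith) (by positivity)
  linarith

theorem pm_eq (a b c : ℂ) :
    pm a b c = ((a - b) * (starRingEnd ℂ) (a - c)).re / (‖a - b‖ ^ 2 * ‖a - c‖ ^ 2) := by
  unfold pm
  rw [Complex.inv_def, Complex.inv_def, Complex.normSq_eq_norm_sq, Complex.normSq_eq_norm_sq]
  simp only [map_mul, Complex.conj_conj, Complex.conj_ofReal, Complex.mul_re, Complex.mul_im,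
    Complex.conj_re, Complex.conj_im, Complex.ofReal_re, Complex.ofReal_im]
  ring

theorem mv_distinct {a b c : ℂ} (h1 : a ≠ b) (h2 : a ≠ c) (h3 : b ≠ c) :
    2 * (pm a b c + pm b a c + pm c a b) = cq a b c := by
  have p1 : ‖a - b‖ ≠ 0 := by simpa [sub_eq_zero] using h1
  have p2 : ‖a - c‖ ≠ 0 := by simpa [sub_eq_zero] using h2
  have p3 : ‖b - c‖ ≠ 0 := by simpa [sub_eq_zero] using h3
  rw [pm_eq, pm_eq, pm_eq, cq, norm_sub_rev b a, norm_sub_rev c a, norm_sub_rev c b]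
  field_simp
  simp only [Complex.sq_norm, Complex.normSq_apply, ar, Complex.mul_re, Complex.mul_im,
    Complex.conj_re, Complex.conj_im, Complex.sub_re, Complex.sub_im]
  ring

theorem pm_self (a b : ℂ) : pm a b b = 1 / ‖a - b‖ ^ 2 := by
  unfold pm
  rw [Complex.mul_conj', norm_inv, ← Complex.ofReal_pow, Complex.ofReal_re]; simp

theorem pm_zero2 (a c : ℂ) : pm a a c = 0 := by simp [pm]
theorem pm_zero3 (a b : ℂ) : pm a b a = 0 := by simp [pm]

open Classical in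
theorem mv_le (a b c : ℂ) : cq a b c ≤ 2 * (pm a b c + pm b a c + pm c a b) ∧
    2 * (pm a b c + pm b a c + pm c a b) ≤ cq a b c + 2 * ((if b = c then 1 / ‖a - b‖ ^ 2 else 0) +
      (if a = c then 1 / ‖b - a‖ ^ 2 else 0) + (if a = b then 1 / ‖c - a‖ ^ 2 else 0)) := by
  by_cases h1 : a = b
  · subst h1
    rw [cq_self12, pm_zero2, pm_self, if_pos rfl]
    constructor
    · positivity
    · split_ifs <;> simp
  by_cases h2 : a = c
  · subst h2
    rw [cq_swap23, cq_self12, pm_zero3, pm_zero2, pm_self, if_pos rfl, if_neg h1,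
      if_neg (Ne.symm h1)]
    constructor
    · positivity
    · simp
  by_cases h3 : b = c
  · subst h3
    rw [cq_swap12, cq_swap23, cq_self12, pm_zero3, pm_self, if_pos rfl, if_neg h1]
    constructor
    · positivity
    · simp
  rw [mv_distinct h1 h2 h3, if_neg h1, if_neg h2, if_neg h3]; simp

variable {Y : Type*}

/-- Trilinear curvature form. -/
def t3 (s : Finset Y) (z : Y → ℂ) (α β γ : Y → ℝ) : ℝ :=
  ∑ x ∈ s, ∑ y ∈ s, ∑ w ∈ s, cq (z x) (z y) (z w) * (α x * β y * γ w)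

/-- Pointwise curvature potential. -/
def cp (s : Finset Y) (z : Y → ℂ) (σ : Y → ℝ) (a : ℂ) : ℝ :=
  ∑ y ∈ s, ∑ w ∈ s, cq a (z y) (z w) * (σ y * σ w)

/-- Cauchy transform of a finite real measure. -/
def ct (s : Finset Y) (z : Y → ℂ) (σ : Y → ℝ) (a : ℂ) : ℂ := ∑ y ∈ s, (a - z y)⁻¹ * (σ y : ℂ)

/-- Mass of a closed disc. -/
def bl (s : Finset Y) (z : Y → ℂ) (σ : Y → ℝ) (a : ℂ) (r : ℝ) : ℝ :=
  ∑ y ∈ s, σ y * ind (fun y => ‖a - z y‖ ≤ r) y

variable {s : Finset Y} {z : Y → ℂ}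

theorem t3_eq_cp (α σ : Y → ℝ) : t3 s z α σ σ = ∑ x ∈ s, α x * cp s z σ (z x) := by
  unfold t3 cp
  refine sum_congr rfl fun x _ => ?_
  rw [mul_sum]
  refine sum_congr rfl fun y _ => ?_
  rw [mul_sum]
  exact sum_congr rfl fun w _ => by ring

theorem t3_swap12 (α β γ : Y → ℝ) : t3 s z β α γ = t3 s z α β γ := by
  unfold t3
  rw [sum_comm]
  exact sum_congr rfl fun x _ => sum_congr rfl fun y _ => sum_congr rfl fun w _ => by
    rw [cq_swap12]; ring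

theorem t3_swap23 (α β γ : Y → ℝ) : t3 s z α γ β = t3 s z α β γ := by
  unfold t3
  refine sum_congr rfl fun x _ => ?_
  rw [sum_comm]
  exact sum_congr rfl fun y _ => sum_congr rfl fun w _ => by rw [cq_swap23]; ring

theorem t3_add (α α' β γ : Y → ℝ) (c : ℝ) :
    t3 s z (fun x => α x + c * α' x) β γ = t3 s z α β γ + c * t3 s z α' β γ := by
  unfold t3
  simp only [mul_sum, ← sum_add_distrib]
  exact sum_congr rfl fun x _ => sum_congr rfl fun y _ => sum_congr rfl fun w _ => by ring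

theorem t3_smul (σ : Y → ℝ) (c : ℝ) : t3 s z (fun x => c * σ x) (fun x => c * σ x)
    (fun x => c * σ x) = c ^ 3 * t3 s z σ σ σ := by
  unfold t3
  simp only [mul_sum]
  exact sum_congr rfl fun x _ => sum_congr rfl fun y _ => sum_congr rfl fun w _ => by ring

theorem cp_mono {σ τ : Y → ℝ} (h0 : ∀ x ∈ s, 0 ≤ σ x) (h : ∀ x ∈ s, σ x ≤ τ x) (a : ℂ) :
    cp s z σ a ≤ cp s z τ a :=
  sum_le_sum fun y hy => sum_le_sum fun w hw => mul_le_mul_of_nonneg_left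
    (mul_le_mul (h y hy) (h w hw) (h0 w hw) ((h0 y hy).trans (h y hy))) (cq_nonneg _ _ _)

theorem cp_nonneg {σ : Y → ℝ} (h0 : ∀ x ∈ s, 0 ≤ σ x) (a : ℂ) : 0 ≤ cp s z σ a :=
  sum_nonneg fun y hy => sum_nonneg fun w hw =>
    mul_nonneg (cq_nonneg _ _ _) (mul_nonneg (h0 y hy) (h0 w hw))

theorem sum_pm (α β γ : Y → ℝ) :
    ∑ x ∈ s, ∑ y ∈ s, ∑ w ∈ s, pm (z x) (z y) (z w) * (α x * β y * γ w) =
      ∑ x ∈ s, α x * (ct s z β (z x) * (starRingEnd ℂ) (ct s z γ (z x))).re := by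
  refine sum_congr rfl fun x _ => ?_
  unfold ct
  rw [map_sum, sum_mul_sum, Complex.re_sum, mul_sum]
  refine sum_congr rfl fun y _ => ?_
  rw [Complex.re_sum, mul_sum]
  refine sum_congr rfl fun w _ => ?_
  have e : (z x - z y)⁻¹ * (β y : ℂ) * (starRingEnd ℂ) ((z x - z w)⁻¹ * (γ w : ℂ)) =
      ((β y * γ w : ℝ) : ℂ) * ((z x - z y)⁻¹ * (starRingEnd ℂ) (z x - z w)⁻¹) := by
    rw [map_mul, Complex.conj_ofReal]; push_cast; ring
  rw [e, Complex.re_ofReal_mul, pm]; ring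

theorem sum_sym (F : Y → Y → Y → ℝ) :
    ∑ x ∈ s, ∑ y ∈ s, ∑ w ∈ s, F y x w = ∑ x ∈ s, ∑ y ∈ s, ∑ w ∈ s, F x y w ∧
    ∑ x ∈ s, ∑ y ∈ s, ∑ w ∈ s, F w x y = ∑ x ∈ s, ∑ y ∈ s, ∑ w ∈ s, F x y w := by
  refine ⟨sum_comm, ?_⟩
  rw [sum_congr rfl fun x _ => sum_comm, sum_comm]

theorem t3_le_ct {α σ : Y → ℝ} (hα : ∀ x ∈ s, 0 ≤ α x) (hσ : ∀ x ∈ s, 0 ≤ σ x) :
    t3 s z α σ σ ≤ 2 * ∑ x ∈ s, α x * ‖ct s z σ (z x)‖ ^ 2 +
      4 * ∑ x ∈ s, σ x * (‖ct s z α (z x)‖ * ‖ct s z σ (z x)‖) := by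
  have h1 : t3 s z α σ σ ≤
      2 * (∑ x ∈ s, ∑ y ∈ s, ∑ w ∈ s, pm (z x) (z y) (z w) * (α x * σ y * σ w) +
        ∑ x ∈ s, ∑ y ∈ s, ∑ w ∈ s, pm (z y) (z x) (z w) * (σ y * α x * σ w) +
        ∑ x ∈ s, ∑ y ∈ s, ∑ w ∈ s, pm (z w) (z x) (z y) * (σ w * α x * σ y)) := by
    unfold t3
    simp only [mul_sum, ← sum_add_distrib]
    refine sum_le_sum fun x hx => sum_le_sum fun y hy => sum_le_sum fun w hw => ?_
    have := mul_le_mul_of_nonneg_right (mv_le (z x) (z y) (z w)).1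
      (mul_nonneg (mul_nonneg (hα x hx) (hσ y hy)) (hσ w hw))
    linarith
  have h2 := sum_sym (s := s) fun x y w => pm (z x) (z y) (z w) * (σ x * α y * σ w)
  rw [h2.1, h2.2, sum_pm, sum_pm] at h1
  have h3 : ∑ x ∈ s, α x * (ct s z σ (z x) * (starRingEnd ℂ) (ct s z σ (z x))).re =
      ∑ x ∈ s, α x * ‖ct s z σ (z x)‖ ^ 2 := sum_congr rfl fun x _ => by
    rw [Complex.mul_conj', ← Complex.ofReal_pow, Complex.ofReal_re]
  have h4 : ∑ x ∈ s, σ x * (ct s z α (z x) * (starRingEnd ℂ) (ct s z σ (z x))).re ≤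
      ∑ x ∈ s, σ x * (‖ct s z α (z x)‖ * ‖ct s z σ (z x)‖) := sum_le_sum fun x hx => by
    refine mul_le_mul_of_nonneg_left ((Complex.re_le_norm _).trans ?_) (hσ x hx)
    rw [norm_mul, Complex.norm_conj]
  linarith

theorem ct_le_t3 {σ : Y → ℝ} (hσ : ∀ x ∈ s, 0 ≤ σ x) (hz : ∀ x ∈ s, ∀ y ∈ s, z x = z y → x = y) :
    6 * ∑ x ∈ s, σ x * ‖ct s z σ (z x)‖ ^ 2 ≤ t3 s z σ σ σ +
      6 * ∑ y ∈ s, σ y ^ 2 * ∑ x ∈ s, σ x / ‖z y - z x‖ ^ 2 := by
  classical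
  set F : Y → Y → Y → ℝ := fun x y w =>
    (if z y = z w then 1 / ‖z x - z y‖ ^ 2 else 0) * (σ x * σ y * σ w) with hF
  have h1 : 2 * (∑ x ∈ s, ∑ y ∈ s, ∑ w ∈ s, pm (z x) (z y) (z w) * (σ x * σ y * σ w) +
        ∑ x ∈ s, ∑ y ∈ s, ∑ w ∈ s, pm (z y) (z x) (z w) * (σ y * σ x * σ w) +
        ∑ x ∈ s, ∑ y ∈ s, ∑ w ∈ s, pm (z w) (z x) (z y) * (σ w * σ x * σ y)) ≤
      t3 s z σ σ σ + 2 * (∑ x ∈ s, ∑ y ∈ s, ∑ w ∈ s, F x y w +
        ∑ x ∈ s, ∑ y ∈ s, ∑ w ∈ s, F y x w + ∑ x ∈ s, ∑ y ∈ s, ∑ w ∈ s, F w x y) := by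
    unfold t3
    simp only [mul_sum, ← sum_add_distrib]
    refine sum_le_sum fun x hx => sum_le_sum fun y hy => sum_le_sum fun w hw => ?_
    have := mul_le_mul_of_nonneg_right (mv_le (z x) (z y) (z w)).2
      (mul_nonneg (mul_nonneg (hσ x hx) (hσ y hy)) (hσ w hw))
    simp only [hF]
    linarith
  have h2 := sum_sym (s := s) fun x y w => pm (z x) (z y) (z w) * (σ x * σ y * σ w)
  have h3 := sum_sym (s := s) F
  rw [h2.1, h2.2, sum_pm, h3.1, h3.2] at h1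
  have h4 : ∑ x ∈ s, σ x * (ct s z σ (z x) * (starRingEnd ℂ) (ct s z σ (z x))).re =
      ∑ x ∈ s, σ x * ‖ct s z σ (z x)‖ ^ 2 := sum_congr rfl fun x _ => by
    rw [Complex.mul_conj', ← Complex.ofReal_pow, Complex.ofReal_re]
  have h5 : ∑ x ∈ s, ∑ y ∈ s, ∑ w ∈ s, F x y w =
      ∑ y ∈ s, σ y ^ 2 * ∑ x ∈ s, σ x / ‖z y - z x‖ ^ 2 := by
    rw [sum_comm]
    refine sum_congr rfl fun y hy => ?_
    rw [mul_sum]
    refine sum_congr rfl fun x _ => ?_
    rw [sum_eq_single_of_mem y hy]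
    · simp only [hF, if_true]; rw [norm_sub_rev]; ring
    · intro w hw hne
      simp only [hF]
      rw [if_neg fun h => hne (hz y hy w hw h).symm, zero_mul]
  linarith

end

end Pool.Agent.Lib.MP_dfc9b7_an
end

-- part Pool.Agent.Lib.MP_dfc9b7_an.Gam
section

/-! A discrete curvature capacity. -/

set_option autoImplicit false
open Finset

namespace Pool.Agent.Lib.MP_dfc9b7_an

noncomputable section

section gen
variable {Y : Type*}

theorem bm_coe (s : Finset Y) (w : Y → ℝ) (p : Y → Prop) :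
    bm (fun x : s => w x) (fun x => p x) = ∑ x ∈ s, w x * ind p x := by
  rw [← sum_mul_ind, ← sum_coe_sort s]
  exact sum_congr rfl fun x _ => by
    rw [ind_congr (p := fun x : s => p x) (q := p) (y := x) (z := x.1) Iff.rfl]

theorem bl_eq (s : Finset Y) (z : Y → ℂ) (σ : Y → ℝ) (a : ℂ) (r : ℝ) :
    bl s z σ a r = bm (fun x : s => σ x) (fun x => ‖a - z x‖ ≤ r) :=
  (bm_coe s σ fun y => ‖a - z y‖ ≤ r).symm

variable {s : Finset Y} {z : Y → ℂ} {σ : Y → ℝ}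

theorem tail_fin (h0 : ∀ x ∈ s, 0 ≤ σ x) (a : ℂ) {c r : ℝ} (hr : 0 < r)
    (h : ∀ t, r ≤ t → bl s z σ a t ≤ c * t) :
    ∑ y ∈ s, σ y / ‖a - z y‖ ^ 2 * ind (fun y => r < ‖a - z y‖) y ≤ 4 * c / r := by
  rw [← bm_coe s (fun y => σ y / ‖a - z y‖ ^ 2)]
  exact tail_bound (fun x : s => σ x) (fun x => ‖a - z x‖) (fun x => h0 x x.2) c r hr
    fun t ht => by rw [← bl_eq]; exact h t ht

theorem bl_mono (h0 : ∀ x ∈ s, 0 ≤ σ x) {a a' : ℂ} {r r' : ℝ} (h : ‖a' - a‖ + r ≤ r') :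
    bl s z σ a r ≤ bl s z σ a' r' := by
  rw [bl_eq, bl_eq]
  exact bm_mono (fun x : s => h0 x x.2) fun x hx => by
    linarith [norm_sub_le_norm_sub_add_norm_sub a' a (z x)]

theorem bl_nonneg (h0 : ∀ x ∈ s, 0 ≤ σ x) (a : ℂ) (r : ℝ) : 0 ≤ bl s z σ a r :=
  sum_nonneg fun x hx => mul_nonneg (h0 x hx) (ind_nonneg _ _)

theorem bl_le_of_le {τ : Y → ℝ} (h : ∀ x ∈ s, σ x ≤ τ x) (a : ℂ) (r : ℝ) :
    bl s z σ a r ≤ bl s z τ a r :=
  sum_le_sum fun x hx => mul_le_mul_of_nonneg_right (h x hx) (ind_nonneg _ _)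

theorem bl_le_sum (h0 : ∀ x ∈ s, 0 ≤ σ x) (a : ℂ) (r : ℝ) : bl s z σ a r ≤ ∑ x ∈ s, σ x :=
  sum_le_sum fun x hx => by nlinarith [h0 x hx, (ind_U01 (fun y => ‖a - z y‖ ≤ r) x).2]

/-- Nonnegative weights with linear growth. -/
def Gr (s : Finset Y) (z : Y → ℂ) (σ : Y → ℝ) : Prop :=
  (∀ x ∈ s, 0 ≤ σ x) ∧ ∀ a r, 1 ≤ r → bl s z σ a r ≤ r

theorem Gr.of_le (h : Gr s z σ) {τ : Y → ℝ} (h0 : ∀ x ∈ s, 0 ≤ τ x) (h1 : ∀ x ∈ s, τ x ≤ σ x) :
    Gr s z τ := ⟨h0, fun a r hr => (bl_le_of_le h1 a r).trans (h.2 a r hr)⟩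

theorem Gr.le_one (h : Gr s z σ) {x : Y} (hx : x ∈ s) : σ x ≤ 1 := by
  refine le_trans ?_ (h.2 (z x) 1 le_rfl)
  refine le_trans (le_of_eq ?_) (single_le_sum (f := fun y => σ y * ind (fun y => ‖z x - z y‖ ≤ 1) y)
    (fun y hy => mul_nonneg (h.1 y hy) (ind_nonneg _ _)) hx)
  rw [ind_pos (p := fun y => ‖z x - z y‖ ≤ 1) (by simp), mul_one]

theorem t3_mono {τ : Y → ℝ} (h0 : ∀ x ∈ s, 0 ≤ τ x) (h1 : ∀ x ∈ s, τ x ≤ σ x) :
    t3 s z τ τ τ ≤ t3 s z σ σ σ := by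
  rw [t3_eq_cp, t3_eq_cp]
  exact sum_le_sum fun x hx => mul_le_mul (h1 x hx) (cp_mono h0 h1 _) (cp_nonneg h0 _)
    ((h0 x hx).trans (h1 x hx))

theorem t3_nonneg (h0 : ∀ x ∈ s, 0 ≤ σ x) : 0 ≤ t3 s z σ σ σ := by
  rw [t3_eq_cp]; exact sum_nonneg fun x hx => mul_nonneg (h0 x hx) (cp_nonneg h0 _)

section subset
variable {s' : Finset Y} (hs : s ⊆ s') (h0 : ∀ x ∈ s', x ∉ s → σ x = 0)
include hs h0

theorem sum_sub : ∑ x ∈ s', σ x = ∑ x ∈ s, σ x := (sum_subset hs h0).symm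

theorem bl_sub (a : ℂ) (r : ℝ) : bl s' z σ a r = bl s z σ a r :=
  (sum_subset hs fun x h1 h2 => by rw [h0 x h1 h2, zero_mul]).symm

theorem ct_sub (a : ℂ) : ct s' z σ a = ct s z σ a :=
  (sum_subset hs fun x h1 h2 => by rw [h0 x h1 h2]; simp).symm

theorem cp_sub (a : ℂ) : cp s' z σ a = cp s z σ a := by
  unfold cp
  rw [← sum_subset hs fun x h1 h2 => by rw [h0 x h1 h2]; simp]
  exact sum_congr rfl fun y _ => (sum_subset hs fun x h1 h2 => by rw [h0 x h1 h2]; simp).symm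

theorem t3_sub : t3 s' z σ σ σ = t3 s z σ σ σ := by
  rw [t3_eq_cp, t3_eq_cp, ← sum_subset hs fun x h1 h2 => by rw [h0 x h1 h2]; simp]
  exact sum_congr rfl fun y _ => by rw [cp_sub hs h0]

theorem Gr_sub : Gr s' z σ ↔ Gr s z σ := by
  unfold Gr
  simp only [bl_sub hs h0]
  refine and_congr_left fun _ => ⟨fun h x hx => h x (hs hx), fun h x hx => ?_⟩
  by_cases h1 : x ∈ s
  exacts [h x h1, (h0 x hx h1).ge]

end subset

theorem bl_congr {τ : Y → ℝ} (h : ∀ x ∈ s, σ x = τ x) (a : ℂ) (r : ℝ) :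
    bl s z σ a r = bl s z τ a r := sum_congr rfl fun x hx => by rw [h x hx]

theorem cp_congr {τ : Y → ℝ} (h : ∀ x ∈ s, σ x = τ x) (a : ℂ) : cp s z σ a = cp s z τ a :=
  sum_congr rfl fun x hx => sum_congr rfl fun y hy => by rw [h x hx, h y hy]

theorem t3_congr {τ : Y → ℝ} (h : ∀ x ∈ s, σ x = τ x) : t3 s z σ σ σ = t3 s z τ τ τ := by
  rw [t3_eq_cp, t3_eq_cp]; exact sum_congr rfl fun x hx => by rw [h x hx, cp_congr h]

theorem Gr.congr {τ : Y → ℝ} (hg : Gr s z σ) (h : ∀ x ∈ s, σ x = τ x) : Gr s z τ :=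
  hg.of_le (fun x hx => h x hx ▸ hg.1 x hx) fun x hx => (h x hx).ge

theorem exists_ext (s : Finset Y) (z : Y → ℂ) : ∃ σ : Y → ℝ, Gr s z σ ∧ (∀ x, x ∉ s → σ x = 0) ∧
    ∀ τ, Gr s z τ → ∑ x ∈ s, τ x - t3 s z τ τ τ ≤ ∑ x ∈ s, σ x - t3 s z σ σ σ := by
  classical
  set K : Set (Y → ℝ) := {σ | Gr s z σ ∧ ∀ x, x ∉ s → σ x = 0} with hK
  have hc : IsClosed K := by
    have e : K = (⋂ x ∈ s, {σ : Y → ℝ | 0 ≤ σ x}) ∩
        (⋂ a, ⋂ r, ⋂ (_ : 1 ≤ r), {σ : Y → ℝ | bl s z σ a r ≤ r}) ∩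
        ⋂ x, ⋂ (_ : x ∉ s), {σ : Y → ℝ | σ x = 0} := by
      ext σ; simp [hK, Gr]
    rw [e]
    refine ((isClosed_biInter fun x _ => isClosed_le continuous_const (continuous_apply x)).inter
      (isClosed_iInter fun a => isClosed_iInter fun r => isClosed_iInter fun _ =>
        isClosed_le ?_ continuous_const)).inter (isClosed_iInter fun x => isClosed_iInter fun _ =>
        isClosed_eq (continuous_apply x) continuous_const)
    unfold bl; fun_prop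
  have hcomp : IsCompact K := (isCompact_univ_pi fun _ : Y => isCompact_Icc (a := (0:ℝ))
    (b := 1)).of_isClosed_subset hc fun σ hσ x _ => by
      by_cases hx : x ∈ s
      · exact ⟨hσ.1.1 x hx, hσ.1.le_one hx⟩
      · rw [hσ.2 x hx]; exact ⟨le_rfl, zero_le_one⟩
  have h0 : (fun _ => 0) ∈ K := ⟨⟨fun _ _ => le_rfl, fun a r hr => by simp [bl]; linarith⟩,
    fun _ _ => rfl⟩
  obtain ⟨σ, hσ, hmax⟩ := hcomp.exists_isMaxOn ⟨_, h0⟩
    (f := fun τ => ∑ x ∈ s, τ x - t3 s z τ τ τ) (by unfold t3; fun_prop)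
  refine ⟨σ, hσ.1, hσ.2, fun τ hτ => ?_⟩
  have e : ∀ x ∈ s, τ x = (fun x => if x ∈ s then τ x else 0) x := fun x hx => by simp [hx]
  have := hmax (a := fun x => if x ∈ s then τ x else 0) ⟨hτ.congr e, fun x hx => by simp [hx]⟩
  rw [t3_congr e, sum_congr rfl e]
  exact this

/-- The extremal weight. -/
def ext (s : Finset Y) (z : Y → ℂ) : Y → ℝ := Classical.choose (exists_ext s z)

/-- Curvature capacity. -/
def Gam (s : Finset Y) (z : Y → ℂ) : ℝ :=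
  ∑ x ∈ s, ext s z x - t3 s z (ext s z) (ext s z) (ext s z)

theorem ext_gr (s : Finset Y) (z : Y → ℂ) : Gr s z (ext s z) :=
  (Classical.choose_spec (exists_ext s z)).1

theorem ext_zero (s : Finset Y) (z : Y → ℂ) {x : Y} (hx : x ∉ s) : ext s z x = 0 :=
  (Classical.choose_spec (exists_ext s z)).2.1 x hx

theorem Gr.le_Gam (h : Gr s z σ) : ∑ x ∈ s, σ x - t3 s z σ σ σ ≤ Gam s z :=
  (Classical.choose_spec (exists_ext s z)).2.2 σ h

theorem Gr.smul_le_Gam (h : Gr s z σ) {t : ℝ} (h0 : 0 ≤ t) (h1 : t ≤ 1) :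
    t * ∑ x ∈ s, σ x - t ^ 3 * t3 s z σ σ σ ≤ Gam s z := by
  have := (h.of_le (τ := fun x => t * σ x) (fun x hx => mul_nonneg h0 (h.1 x hx))
    fun x hx => by nlinarith [h.1 x hx]).le_Gam
  rwa [t3_smul, ← mul_sum] at this

theorem Gam_nonneg (s : Finset Y) (z : Y → ℂ) : 0 ≤ Gam s z := by
  simpa using (ext_gr s z).smul_le_Gam le_rfl zero_le_one

theorem Gam_le_mass (s : Finset Y) (z : Y → ℂ) : Gam s z ≤ ∑ x ∈ s, ext s z x := by
  unfold Gam; linarith [t3_nonneg (z := z) (ext_gr s z).1]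

theorem ext_t3_le (s : Finset Y) (z : Y → ℂ) :
    7 * t3 s z (ext s z) (ext s z) (ext s z) ≤ 4 * ∑ x ∈ s, ext s z x := by
  have := (ext_gr s z).smul_le_Gam (t := 1 / 2) (by norm_num) (by norm_num)
  unfold Gam at this; linarith

theorem mass_le_Gam (s : Finset Y) (z : Y → ℂ) : ∑ x ∈ s, ext s z x ≤ 3 * Gam s z := by
  have := ext_t3_le s z
  have := Gam_nonneg s z
  unfold Gam at *; linarith

theorem Gr.le_Gam_sub {s' : Finset Y} (h : Gr s' z σ) (h0 : ∀ x ∈ s', x ∉ s → σ x = 0) {t : ℝ}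
    (ht0 : 0 ≤ t) (ht1 : t ≤ 1) : t * ∑ x ∈ s', σ x - t ^ 3 * t3 s' z σ σ σ ≤ Gam s z := by
  classical
  set τ : Y → ℝ := fun x => if x ∈ s' then σ x else 0 with hτ
  have e : ∀ x ∈ s', σ x = τ x := fun x hx => by simp [hτ, hx]
  have a1 : ∀ x ∈ s ∪ s', x ∉ s' → τ x = 0 := fun x _ hx => by simp [hτ, hx]
  have a2 : ∀ x ∈ s ∪ s', x ∉ s → τ x = 0 := fun x _ hx => by
    simp only [hτ]; split_ifs with h'; exacts [h0 x h' hx, rfl]
  have g : Gr s z τ := (Gr_sub subset_union_left a2).1 ((Gr_sub subset_union_right a1).2 (h.congr e))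
  rw [sum_congr rfl e, t3_congr e, ← sum_sub subset_union_right a1,
    ← t3_sub subset_union_right a1, sum_sub subset_union_left a2, t3_sub subset_union_left a2]
  exact g.smul_le_Gam ht0 ht1

theorem Gam_mono {s' : Finset Y} (hs : s ⊆ s') : Gam s z ≤ Gam s' z := by
  have := (ext_gr s z).le_Gam_sub (s := s') (fun x hx h => absurd (hs hx) h) zero_le_one le_rfl
  simpa [Gam] using this

theorem Gam_union [DecidableEq Y] (s s' : Finset Y) (z : Y → ℂ) :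
    Gam (s ∪ s') z ≤ 6 * (Gam s z + Gam s' z) := by
  have g := ext_gr (s ∪ s') z
  have h1 := ext_t3_le (s ∪ s') z
  have h2 := Gam_le_mass (s ∪ s') z
  set σ := ext (s ∪ s') z
  have key : ∀ A : Finset Y, 1 / 2 * ∑ x ∈ s ∪ s', σ x * ind (· ∈ A) x -
      (1 / 2) ^ 3 * t3 (s ∪ s') z σ σ σ ≤ Gam A z := by
    intro A
    have b0 : ∀ x ∈ s ∪ s', 0 ≤ σ x * ind (· ∈ A) x := fun x hx =>
      mul_nonneg (g.1 x hx) (ind_nonneg _ _)
    have b1 : ∀ x ∈ s ∪ s', σ x * ind (· ∈ A) x ≤ σ x := fun x hx => by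
      nlinarith [g.1 x hx, (ind_U01 (· ∈ A) x).2]
    have := (g.of_le b0 b1).le_Gam_sub (s := A) (fun x _ hx => by
      rw [ind_neg (p := (· ∈ A)) hx, mul_zero]) (t := 1 / 2) (by norm_num) (by norm_num)
    linarith [t3_mono (z := z) b0 b1]
  have h3 : ∑ x ∈ s ∪ s', σ x ≤ ∑ x ∈ s ∪ s', σ x * ind (· ∈ s) x +
      ∑ x ∈ s ∪ s', σ x * ind (· ∈ s') x := by
    rw [← sum_add_distrib]
    refine sum_le_sum fun x hx => ?_
    have := ind_nonneg (· ∈ s) x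
    have := ind_nonneg (· ∈ s') x
    rcases mem_union.1 hx with h | h
    · rw [ind_pos (p := (· ∈ s)) h]; nlinarith [g.1 x hx]
    · rw [ind_pos (p := (· ∈ s')) h]; nlinarith [g.1 x hx]
  linarith [key s, key s', Gam_nonneg s z, Gam_nonneg s' z]

theorem ext_pot (s : Finset Y) (z : Y → ℂ) {p : Y} (hp : p ∈ s) :
    (∃ r, 1 ≤ r ∧ r / 4 ≤ bl s z (ext s z) (z p) r) ∨ 1 / 3 ≤ cp s z (ext s z) (z p) := by
  classical
  by_contra hc
  push Not at hc
  have g := ext_gr s z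
  set σ := ext s z with hσ
  set e : Y → ℝ := fun x => if x = p then 1 else 0 with he
  have hsum : ∀ F : Y → ℝ, ∑ x ∈ s, e x * F x = F p := fun F => by
    rw [sum_eq_single_of_mem p hp fun x _ hx => by simp [he, hx]]; simp [he]
  have g2 : Gr s z (fun x => σ x + 1 / 2 * e x) := by
    refine ⟨fun x hx => add_nonneg (g.1 x hx) (by simp only [he]; split_ifs <;> norm_num),
      fun a r hr => ?_⟩
    have e1 : bl s z (fun x => σ x + 1 / 2 * e x) a r =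
        bl s z σ a r + 1 / 2 * ind (fun y => ‖a - z y‖ ≤ r) p := by
      unfold bl
      rw [← hsum (ind fun y => ‖a - z y‖ ≤ r), mul_sum, ← sum_add_distrib]
      exact sum_congr rfl fun x _ => by ring
    rw [e1]
    by_cases h : ‖a - z p‖ ≤ r
    · rw [ind_pos (p := fun y => ‖a - z y‖ ≤ r) h]
      have := bl_mono (z := z) g.1 (a := a) (a' := z p) (r := r) (r' := 2 * r)
        (by rw [norm_sub_rev]; linarith)
      linarith [hc.1 (2 * r) (by linarith)]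
    · rw [ind_neg (p := fun y => ‖a - z y‖ ≤ r) h]; linarith [g.2 a r hr]
  have h1 := g2.le_Gam
  have z1 : ∀ γ : Y → ℝ, t3 s z e e γ = 0 := fun γ => by
    unfold t3
    refine sum_eq_zero fun x _ => sum_eq_zero fun y _ => sum_eq_zero fun w _ => ?_
    by_cases hx : x = p
    · by_cases hy : y = p
      · rw [hx, hy, cq_self12, zero_mul]
      · simp [he, hy]
    · simp [he, hx]
  have z2 : t3 s z e σ σ = cp s z σ (z p) := by rw [t3_eq_cp, hsum fun x => cp s z σ (z x)]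
  have z3 : t3 s z (fun x => σ x + 1 / 2 * e x) (fun x => σ x + 1 / 2 * e x)
      (fun x => σ x + 1 / 2 * e x) = t3 s z σ σ σ + 3 / 2 * cp s z σ (z p) := by
    set τ : Y → ℝ := fun x => σ x + 1 / 2 * e x with hτ
    have f1 : ∀ β γ, t3 s z τ β γ = t3 s z σ β γ + 1 / 2 * t3 s z e β γ := fun β γ => t3_add _ _ _ _ _
    have f2 : t3 s z e τ τ = cp s z σ (z p) := by
      rw [← t3_swap12, f1, z1, ← t3_swap23, ← t3_swap12, f1, ← t3_swap23 e σ e, z1,
        ← t3_swap23, ← t3_swap12, z2]; ring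
    have f3 : t3 s z σ τ τ = t3 s z σ σ σ + cp s z σ (z p) := by
      rw [← t3_swap12, f1, ← t3_swap23, ← t3_swap12, f1, z2, ← t3_swap23 e, ← t3_swap12 e, f1,
        z1, t3_swap12 e σ σ, z2]; ring
    rw [f1, f2, f3]; ring
  have z4 : ∑ x ∈ s, (σ x + 1 / 2 * e x) = ∑ x ∈ s, σ x + 1 / 2 := by
    have := hsum fun _ => 1
    simp only [mul_one] at this
    rw [sum_add_distrib, ← mul_sum, this, mul_one]
  rw [z3, z4] at h1
  unfold Gam at h1
  linarith [hc.2]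

end gen

end

end Pool.Agent.Lib.MP_dfc9b7_an
end

-- part Pool.Agent.Lib.MP_dfc9b7_an.Pot
section

/-! Potentials: weak type estimate for the curvature capacity and localisation. -/

set_option autoImplicit false
open Finset

namespace Pool.Agent.Lib.MP_dfc9b7_an

noncomputable section

section gen
variable {Y : Type*} {s : Finset Y} {z : Y → ℂ} {σ : Y → ℝ}

theorem diag_le (hsep : ∀ x y, x ≠ y → 1 ≤ ‖z x - z y‖) (h : Gr s z σ) (y : Y) :
    ∑ x ∈ s, σ x / ‖z y - z x‖ ^ 2 ≤ 16 := by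
  have := tail_fin h.1 (z y) (c := 2) (r := 1 / 2) (by norm_num) fun t ht =>
    (bl_mono h.1 (r' := 2 * t) (by simp; linarith)).trans (h.2 (z y) (2 * t) (by linarith))
  refine le_trans (sum_le_sum fun x hx => ?_) (this.trans (by norm_num))
  by_cases hxy : y = x
  · subst hxy; simp
  · rw [ind_pos (p := fun x => 1 / 2 < ‖z y - z x‖) (by linarith [hsep y x hxy]), mul_one]

theorem ct_sq_le (hsep : ∀ x y, x ≠ y → 1 ≤ ‖z x - z y‖) (h : Gr s z σ) :
    ∑ x ∈ s, σ x * ‖ct s z σ (z x)‖ ^ 2 ≤ t3 s z σ σ σ / 6 + 16 * ∑ x ∈ s, σ x := by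
  have h1 := ct_le_t3 (z := z) h.1 fun x _ y _ hxy => by
    by_contra hne
    have := hsep x y hne
    rw [hxy, sub_self, norm_zero] at this; linarith
  have h2 : ∑ y ∈ s, σ y ^ 2 * ∑ x ∈ s, σ x / ‖z y - z x‖ ^ 2 ≤ 16 * ∑ x ∈ s, σ x := by
    rw [mul_sum]
    refine sum_le_sum fun y hy => ?_
    have a1 := diag_le hsep h y
    have a2 := h.1 y hy
    have a3 := h.le_one hy
    nlinarith [mul_le_mul_of_nonneg_left a1 (sq_nonneg (σ y))]
  linarith

theorem t3_le_cts (h : ∀ x ∈ s, 0 ≤ σ x) :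
    t3 s z σ σ σ ≤ 6 * ∑ x ∈ s, σ x * ‖ct s z σ (z x)‖ ^ 2 := by
  have := t3_le_ct (z := z) h h
  simp only [← sq] at this
  linarith

theorem sum_coe (s : Finset Y) (f : Y → ℝ) : ∑ x : s, f x = ∑ x ∈ s, f x := sum_coe_sort s f

theorem bl_coe (a : ℂ) (r : ℝ) :
    bl univ (fun x : s => z x) (fun x => σ x) a r = bl s z σ a r := by
  rw [bl_eq s]; exact sum_mul_ind _ _

theorem ct_coe (a : ℂ) : ct univ (fun x : s => z x) (fun x => σ x) a = ct s z σ a :=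
  sum_coe_sort s fun y => (a - z y)⁻¹ * (σ y : ℂ)

theorem cp_coe (a : ℂ) : cp univ (fun x : s => z x) (fun x => σ x) a = cp s z σ a := by
  unfold cp
  rw [← sum_coe_sort s]
  exact sum_congr rfl fun y _ => sum_coe_sort s fun w => cq a (z y) (z w) * (σ y * σ w)

theorem t3_coe : t3 univ (fun x : s => z x) (fun x => σ x) (fun x => σ x) (fun x => σ x) =
    t3 s z σ σ σ := by
  rw [t3_eq_cp, t3_eq_cp, ← sum_coe_sort s]
  exact sum_congr rfl fun y _ => by rw [cp_coe]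

theorem Gr_coe : Gr univ (fun x : s => z x) (fun x => σ x) ↔ Gr s z σ := by
  unfold Gr; simp only [bl_coe]; simp

theorem exists_good (s : Finset Y) (z : Y → ℂ) : ∃ τ : Y → ℝ, Gr s z τ ∧ (∀ x, x ∉ s → τ x = 0) ∧
    (∀ x, τ x ≠ 0 → cp s z τ (z x) ≤ 2) ∧ Gam s z ≤ 2 * ∑ x ∈ s, τ x := by
  have g := ext_gr s z
  have h1 := ext_t3_le s z
  have h2 := Gam_le_mass s z
  set σ := ext s z with hσ
  set P : Y → Prop := fun x => cp s z σ (z x) ≤ 2 with hP
  have b0 : ∀ x ∈ s, 0 ≤ σ x * ind P x := fun x hx => mul_nonneg (g.1 x hx) (ind_nonneg _ _)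
  have b1 : ∀ x ∈ s, σ x * ind P x ≤ σ x := fun x hx => by nlinarith [g.1 x hx, (ind_U01 P x).2]
  refine ⟨fun x => σ x * ind P x, g.of_le b0 b1, fun x hx => by
    simp only [hσ, ext_zero s z hx, zero_mul], fun x hx => ?_, ?_⟩
  · refine (cp_mono b0 b1 _).trans ?_
    by_contra hc
    exact hx (by simp only [ind_neg (p := P) hc, mul_zero])
  · have : 2 * ∑ x ∈ s, σ x ≤ 2 * ∑ x ∈ s, σ x * ind P x + t3 s z σ σ σ := by
      rw [t3_eq_cp, mul_sum, mul_sum, ← sum_add_distrib]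
      refine sum_le_sum fun x hx => ?_
      by_cases hc : P x
      · rw [ind_pos hc]; nlinarith [g.1 x hx, cp_nonneg (z := z) g.1 (z x)]
      · rw [ind_neg hc]; nlinarith [g.1 x hx, not_le.1 hc]
    linarith [sum_nonneg b0]

theorem localize (h0 : ∀ x ∈ s, 0 ≤ σ x) {a a' : ℂ} {K l lam : ℝ} (hK : 1 ≤ K) (hl : 1 ≤ l)
    (ha : ‖a - a'‖ ≤ K * l) (hlam0 : 0 ≤ lam) (hlam : 400 * K ^ 2 * lam ≤ 1)
    (h1 : ∀ r, 1 ≤ r → bl s z σ a' r ≤ lam * r) (h2 : cp s z σ a' ≤ lam ^ 2)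
    (h3 : (∃ r, 1 ≤ r ∧ r / 4 ≤ bl s z σ a r) ∨ 1 / 3 ≤ cp s z σ a) (B : Y → Prop)
    (hB : ∀ y ∈ s, ‖a - z y‖ < l → B y) :
    (∃ r, 1 ≤ r ∧ r / 4 ≤ bl s z (fun y => σ y * ind B y) a r) ∨
      1 / 4 ≤ cp s z (fun y => σ y * ind B y) a := by
  have hg : ∀ r, l ≤ r → bl s z σ a r ≤ 2 * K * lam * r := fun r hr => by
    refine (bl_mono h0 (a' := a') (r' := 2 * K * r) ?_).trans
      ((h1 _ (by nlinarith)).trans (le_of_eq (by ring)))
    rw [norm_sub_rev]; nlinarith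
  have hK2 : K ≤ K ^ 2 := by nlinarith
  have hKl : 400 * K * lam ≤ 1 := by nlinarith
  rcases h3 with ⟨r, hr1, hr2⟩ | h3
  · left
    refine ⟨r, hr1, hr2.trans (le_of_eq (sum_congr rfl fun y hy => ?_))⟩
    have hrl : r < l := by
      by_contra hc
      have := hg r (not_lt.1 hc)
      nlinarith
    beta_reduce
    by_cases hy' : ‖a - z y‖ ≤ r
    · rw [ind_pos (hB y hy (by linarith)), mul_one]
    · rw [ind_neg (p := fun y => ‖a - z y‖ ≤ r) hy', mul_zero, mul_zero]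
  right
  set T := ∑ y ∈ s, σ y / ‖a - z y‖ ^ 2 * ind (fun y => l / 2 < ‖a - z y‖) y with hT
  have hT1 : T ≤ 32 * K * lam / l := by
    refine (tail_fin h0 a (c := 4 * K * lam) (r := l / 2) (by linarith) fun t ht => ?_).trans
      (le_of_eq (by field_simp; ring))
    refine (bl_mono h0 (a' := a) (r' := 2 * t) (by simp; linarith)).trans
      ((hg _ (by linarith)).trans (le_of_eq (by ring)))
  have hT0 : 0 ≤ T := sum_nonneg fun y hy =>
    mul_nonneg (div_nonneg (h0 y hy) (sq_nonneg _)) (ind_nonneg _ _)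
  have hN := hg (2 * K * l) (by nlinarith)
  set f : Y → ℝ := fun y => σ y / ‖a - z y‖ ^ 2 * ind (fun y => l / 2 < ‖a - z y‖) y with hf
  set n : Y → ℝ := fun y => σ y * ind (fun y => ‖a - z y‖ ≤ 2 * K * l) y with hn
  have key : cp s z σ a ≤ cp s z (fun y => σ y * ind B y) a +
      4 * (bl s z σ a (2 * K * l) * T) + 4 * (T * bl s z σ a (2 * K * l)) + 32 * cp s z σ a' +
      8 * (K * l) ^ 2 * (T * T) := by
    unfold cp bl
    rw [hT, sum_mul_sum, sum_mul_sum, sum_mul_sum]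
    simp only [mul_sum, ← sum_add_distrib]
    refine sum_le_sum fun y hy => sum_le_sum fun w hw => ?_
    have y0 := h0 y hy
    have w0 := h0 w hw
    have yw := mul_nonneg y0 w0
    have t1 : 0 ≤ cq a (z y) (z w) * (σ y * ind B y * (σ w * ind B w)) :=
      mul_nonneg (cq_nonneg _ _ _) (mul_nonneg (mul_nonneg y0 (ind_nonneg _ _))
        (mul_nonneg w0 (ind_nonneg _ _)))
    have fy : 0 ≤ f y := mul_nonneg (div_nonneg y0 (sq_nonneg _)) (ind_nonneg _ _)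
    have fw : 0 ≤ f w := mul_nonneg (div_nonneg w0 (sq_nonneg _)) (ind_nonneg _ _)
    have ny : 0 ≤ n y := mul_nonneg y0 (ind_nonneg _ _)
    have nw : 0 ≤ n w := mul_nonneg w0 (ind_nonneg _ _)
    have t2 := mul_nonneg ny fw
    have t3 := mul_nonneg fy nw
    have t4 := mul_nonneg (cq_nonneg a' (z y) (z w)) yw
    have t5 : 0 ≤ 8 * (K * l) ^ 2 * (f y * f w) := by positivity
    change _ ≤ _ + 4 * (n y * f w) + 4 * (f y * n w) + _ + 8 * (K * l) ^ 2 * (f y * f w)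
    by_cases c0 : ‖a - z y‖ < l ∧ ‖a - z w‖ < l
    · rw [ind_pos (hB y hy c0.1), ind_pos (hB w hw c0.2), mul_one, mul_one]; linarith
    by_cases c1 : l ≤ ‖a - z w‖ ∧ ‖a - z y‖ ≤ 2 * K * l
    · have e : 4 * (n y * f w) = 4 / ‖a - z w‖ ^ 2 * (σ y * σ w) := by
        simp only [hn, hf]
        rw [ind_pos (p := fun y => ‖a - z y‖ ≤ 2 * K * l) c1.2,
          ind_pos (p := fun y => l / 2 < ‖a - z y‖) (by linarith [c1.1])]; ring
      have := mul_le_mul_of_nonneg_right (cq_le13 a (z y) (z w)) yw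
      linarith
    by_cases c2 : l ≤ ‖a - z y‖ ∧ ‖a - z w‖ ≤ 2 * K * l
    · have e : 4 * (f y * n w) = 4 / ‖a - z y‖ ^ 2 * (σ y * σ w) := by
        simp only [hn, hf]
        rw [ind_pos (p := fun y => ‖a - z y‖ ≤ 2 * K * l) c2.2,
          ind_pos (p := fun y => l / 2 < ‖a - z y‖) (by linarith [c2.1])]; ring
      have := mul_le_mul_of_nonneg_right (cq_le12 a (z y) (z w)) yw
      linarith
    have hKl2 : l ≤ K * l := by nlinarith
    have d : 2 * K * l < ‖a - z y‖ ∧ 2 * K * l < ‖a - z w‖ := by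
      push Not at c0 c1 c2
      by_cases e1 : l ≤ ‖a - z w‖
      · exact ⟨c1 e1, c2 (by linarith [c1 e1])⟩
      · have e2 : l ≤ ‖a - z y‖ := by
          by_contra e2; exact e1 (c0 (not_le.1 e2))
        exact absurd (by linarith [c2 e2]) e1
    have e : 8 * (K * l) ^ 2 * (f y * f w) =
        8 * (K * l) ^ 2 / (‖a - z y‖ ^ 2 * ‖a - z w‖ ^ 2) * (σ y * σ w) := by
      simp only [hf]
      rw [ind_pos (p := fun y => l / 2 < ‖a - z y‖) (y := y) (by linarith [d.1]),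
        ind_pos (p := fun y => l / 2 < ‖a - z y‖) (y := w) (by linarith [d.2])]; ring
    have g1 := cq_lip a a' (z y) (z w) (by linarith [d.1]) (by linarith [d.2])
    have g2 : 8 * ‖a - a'‖ ^ 2 / (‖a - z y‖ ^ 2 * ‖a - z w‖ ^ 2) ≤
        8 * (K * l) ^ 2 / (‖a - z y‖ ^ 2 * ‖a - z w‖ ^ 2) :=
      div_le_div_of_nonneg_right (by linarith [pow_le_pow_left₀ (norm_nonneg _) ha 2])
        (by positivity)
    have g3 := mul_le_mul_of_nonneg_right (g1.trans (add_le_add le_rfl g2)) yw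
    linarith
  have m1 : bl s z σ a (2 * K * l) * T ≤ 128 * K ^ 3 * lam ^ 2 := by
    refine (mul_le_mul hN hT1 hT0 (by positivity)).trans (le_of_eq ?_)
    field_simp; ring
  have m2 : (K * l) ^ 2 * (T * T) ≤ 1024 * K ^ 4 * lam ^ 2 := by
    refine (mul_le_mul_of_nonneg_left (mul_le_mul hT1 hT1 hT0 (by positivity))
      (by positivity)).trans (le_of_eq ?_)
    field_simp; ring
  have m3 : K ^ 3 * lam ^ 2 ≤ K ^ 4 * lam ^ 2 :=
    mul_le_mul_of_nonneg_right (pow_le_pow_right₀ hK (by norm_num)) (sq_nonneg _)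
  have m4 : lam ^ 2 ≤ K ^ 4 * lam ^ 2 := le_mul_of_one_le_left (sq_nonneg _) (one_le_pow₀ hK)
  have m5 : K ^ 4 * lam ^ 2 ≤ 1 / 160000 := by
    have := pow_le_pow_left₀ (by positivity) hlam 2
    nlinarith
  nlinarith

end gen

section typ
variable {X : Type*} [Fintype X] {z : X → ℂ} {τ : X → ℝ}

omit [Fintype X] in
theorem lipF_one (z : X → ℂ) : LipF z (fun _ => 1) :=
  ⟨fun _ => le_rfl, fun x y => by linarith [dz_nonneg (z := z) x y]⟩

theorem Gr.sp_ker (hsep : ∀ x y, x ≠ y → 1 ≤ ‖z x - z y‖) (h : Gr univ z τ) :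
    Sp τ (Dth z fun _ => 1) ∧ Ker (Dth z fun _ => 1) (ck z) := by
  have := KS_th (lipF_one z) (fun x => h.1 x (mem_univ x)) fun x r hr => by
    have := h.2 (z x) r hr
    unfold bl at this
    rwa [sum_mul_ind] at this
  have e : kth z (fun _ => 1) = ck z := funext fun x => funext fun y =>
    kth_eq_ck rfl rfl (hsep x y)
  exact ⟨this.sp, e ▸ this.ker⟩

theorem opT_eq_ct (φ : X → ℝ) (x : X) :
    opT τ (ck z) (fun y => (φ y : ℂ)) x = ct univ z (fun y => τ y * φ y) (z x) :=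
  sum_congr rfl fun y _ => by unfold ck; push_cast; ring

theorem Gr.rt (hsep : ∀ x y, x ≠ y → 1 ≤ ‖z x - z y‖) (h : Gr univ z τ)
    (hc : ∀ x, τ x ≠ 0 → cp univ z τ (z x) ≤ 2) : RT τ (ck z) 5 := by
  intro φ hφ
  have b0 : ∀ x ∈ univ, 0 ≤ τ x * φ x := fun x hx => mul_nonneg (h.1 x hx) (hφ x).1
  have b1 : ∀ x ∈ univ, τ x * φ x ≤ τ x := fun x hx => by nlinarith [h.1 x hx, (hφ x).2]
  have h1 := ct_sq_le hsep (h.of_le b0 b1)
  have h2 : t3 univ z (fun x => τ x * φ x) (fun x => τ x * φ x) (fun x => τ x * φ x) ≤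
      2 * ∑ x, τ x * φ x := by
    rw [t3_eq_cp, mul_sum]
    refine sum_le_sum fun x hx => ?_
    by_cases h0 : τ x = 0
    · simp [h0]
    · nlinarith [(cp_mono (z := z) b0 b1 (z x)).trans (hc x h0), b0 x hx]
  simp only [opT_eq_ct]
  linarith [sum_nonneg b0]

theorem Gr.dual (hsep : ∀ x y, x ≠ y → 1 ≤ ‖z x - z y‖) (h : Gr univ z τ)
    (hc : ∀ x, τ x ≠ 0 → cp univ z τ (z x) ≤ 2) (S : X → Prop) :
    ∃ a : X → ℝ, (∀ x, 0 ≤ a x ∧ a x ≤ τ x) ∧ (∀ x, ¬ S x → a x = 0) ∧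
      bm τ S / 2 ≤ ∑ x, a x ∧ ∀ y, ‖ct univ z a (z y)‖ ≤ 151206 := by
  obtain ⟨h1, h2⟩ := h.sp_ker hsep
  obtain ⟨φ, a1, a2, a3, a4⟩ := davie_oksendal h1 h2 (by norm_num) (h.rt hsep hc) S
  refine ⟨fun x => τ x * φ x, fun x => ⟨mul_nonneg (h1.mu_nn x) (a1 x).1, by
    nlinarith [h1.mu_nn x, (a1 x).2]⟩, fun x hx => by simp [a2 x hx], a3, fun y => ?_⟩
  rw [← opT_eq_ct]; exact (a4 y).trans (by norm_num)

theorem pot_weak (hsep : ∀ x y, x ≠ y → 1 ≤ ‖z x - z y‖) (h : Gr univ z τ)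
    (hc : ∀ x, τ x ≠ 0 → cp univ z τ (z x) ≤ 2) {σ : X → ℝ} (hσ : Gr univ z σ) {lam : ℝ}
    (h0 : 0 < lam) (h1 : lam ≤ 1) (hU : ∀ x, τ x ≠ 0 →
      (∃ r, 1 ≤ r ∧ lam * r ≤ bl univ z σ (z x) r) ∨ lam ^ 2 ≤ cp univ z σ (z x)) :
    ∑ x, τ x ≤ 22000000 / lam ^ 2 * (∑ x, σ x + t3 univ z σ σ σ) := by
  classical
  have hτ : ∀ x, 0 ≤ τ x := fun x => h.1 x (mem_univ x)
  have hσ0 : ∀ x, 0 ≤ σ x := fun x => hσ.1 x (mem_univ x)
  set m := ∑ x, σ x with hm
  have hm0 : 0 ≤ m := sum_nonneg fun x _ => hσ0 x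
  have ht0 := t3_nonneg (z := z) hσ.1
  set A1 : X → Prop := fun x => ∃ r, 1 ≤ r ∧ lam * r ≤ bl univ z σ (z x) r with hA1
  set A2 : X → Prop := fun x => lam / 2 < ‖ct univ z σ (z x)‖ with hA2
  set A3 : X → Prop := fun x => lam ^ 2 ≤ cp univ z σ (z x) ∧ ¬ A2 x with hA3
  have a1 : lam * bm τ A1 ≤ 3 * m := by
    have : ∀ x, ∃ r, A1 x → 1 ≤ r ∧ lam * r ≤ bl univ z σ (z x) r := fun x => by
      by_cases hx : A1 x
      · obtain ⟨r, hr⟩ := hx; exact ⟨r, fun _ => hr⟩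
      · exact ⟨0, fun h => absurd h hx⟩
    choose r hr using this
    obtain ⟨u, hu, hd, hcov⟩ := vitali_fin (dz z) dz_symm dz_tri A1 r
      (fun x hx => by linarith [(hr x hx).1])
      (fun x hx => ⟨x, by rw [dz_self]; linarith [(hr x hx).1]⟩)
    have b1 : bm τ A1 ≤ ∑ b ∈ u, bm τ (fun y => dz z b y ≤ 3 * r b) :=
      (bm_mono hτ fun x hx => by
        obtain ⟨b, hb, h1, _⟩ := hcov x hx; exact ⟨b, hb, h1⟩).trans
        (bm_exists_le u hτ fun b y => dz z b y ≤ 3 * r b)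
    have b2 := sum_bm_le_of_disj u hσ0 (fun b y => dz z b y ≤ r b) hd
    refine (mul_le_mul_of_nonneg_left b1 h0.le).trans ?_
    refine le_trans ?_ (mul_le_mul_of_nonneg_left b2 (by norm_num))
    rw [mul_sum, mul_sum]
    refine sum_le_sum fun b hb => ?_
    have c1 := h.2 (z b) (3 * r b) (by linarith [(hr b (hu b hb)).1])
    have c2 := (hr b (hu b hb)).2
    unfold bl at c1 c2
    rw [sum_mul_ind] at c1 c2
    have := mul_le_mul_of_nonneg_left c1 h0.le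
    unfold dz
    linarith
  have a2 : lam * bm τ A2 ≤ 151200 * m := by
    obtain ⟨g1, g2⟩ := h.sp_ker hsep
    have := weak11 g1 g2 (by norm_num) (h.rt hsep hc) (fun y => (σ y : ℂ)) (t := lam / 25200)
      (by positivity)
    have e1 : ∑ y, ‖(σ y : ℂ)‖ = m := sum_congr rfl fun y _ => by
      rw [Complex.norm_real, Real.norm_of_nonneg (hσ0 y)]
    rw [e1, show 2100 * (5 + 1) * (lam / 25200) = lam / 2 by ring] at this
    refine (mul_le_mul_of_nonneg_left this h0.le).trans (le_of_eq ?_)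
    field_simp; ring
  have a3 : lam ^ 2 * bm τ A3 ≤ 21773664 * (m + t3 univ z σ σ σ) := by
    obtain ⟨a, b1, b2, b3, b4⟩ := h.dual hsep hc A3
    have c1 := t3_le_ct (z := z) (s := univ) (fun x _ => (b1 x).1) hσ.1
    have c2 : lam ^ 2 * ∑ x, a x ≤ t3 univ z a σ σ := by
      rw [t3_eq_cp, mul_sum]
      refine sum_le_sum fun x _ => ?_
      by_cases hx : A3 x
      · nlinarith [(b1 x).1, hx.1]
      · rw [b2 x hx]; simp
    have c3 : ∑ x, a x * ‖ct univ z σ (z x)‖ ^ 2 ≤ lam ^ 2 / 4 * ∑ x, a x := by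
      rw [mul_sum]
      refine sum_le_sum fun x _ => ?_
      by_cases hx : A3 x
      · have := pow_le_pow_left₀ (norm_nonneg _) (not_lt.1 hx.2) 2
        nlinarith [(b1 x).1]
      · rw [b2 x hx]; simp
    have c4 : ∑ x, σ x * (‖ct univ z a (z x)‖ * ‖ct univ z σ (z x)‖) ≤
        75603 * (m + ∑ x, σ x * ‖ct univ z σ (z x)‖ ^ 2) := by
      rw [hm, ← sum_add_distrib, mul_sum]
      refine sum_le_sum fun x _ => ?_
      have := mul_le_mul_of_nonneg_right (b4 x) (norm_nonneg (ct univ z σ (z x)))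
      nlinarith [hσ0 x, mul_nonneg (hσ0 x) (sq_nonneg (‖ct univ z σ (z x)‖ - 1))]
    have c5 := ct_sq_le hsep hσ
    nlinarith [mul_le_mul_of_nonneg_left b3 (sq_nonneg lam)]
  have a4 : ∑ x, τ x ≤ bm τ A1 + (bm τ A2 + bm τ A3) := by
    rw [← bm_true]
    refine (bm_mono' hτ (q := fun x => A1 x ∨ (A2 x ∨ A3 x)) fun x _ hx => ?_).trans
      ((bm_or_le hτ _ _).trans (add_le_add le_rfl (bm_or_le hτ _ _)))
    rcases hU x hx with h' | h'
    · exact Or.inl h'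
    · by_cases h2 : A2 x
      exacts [Or.inr (Or.inl h2), Or.inr (Or.inr ⟨h', h2⟩)]
  rw [div_mul_eq_mul_div, le_div_iff₀ (by positivity)]
  have d1 := mul_le_mul_of_nonneg_left a1 h0.le
  have d2 := mul_le_mul_of_nonneg_left a2 h0.le
  have d3 := mul_le_mul_of_nonneg_right h1 hm0
  nlinarith [mul_le_mul_of_nonneg_right a4 (sq_nonneg lam)]

end typ

theorem Gam_le_pot {Y : Type*} {z : Y → ℂ} (hsep : ∀ x y, x ≠ y → 1 ≤ ‖z x - z y‖)
    (A s : Finset Y) {σ : Y → ℝ} (hσ : Gr s z σ) {lam : ℝ} (h0 : 0 < lam) (h1 : lam ≤ 1)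
    (hU : ∀ x ∈ A, (∃ r, 1 ≤ r ∧ lam * r ≤ bl s z σ (z x) r) ∨ lam ^ 2 ≤ cp s z σ (z x)) :
    Gam A z ≤ 44000000 / lam ^ 2 * (∑ x ∈ s, σ x + t3 s z σ σ σ) := by
  classical
  obtain ⟨τ, g1, g2, g3, g4⟩ := exists_good A z
  set σ' : Y → ℝ := fun x => if x ∈ s then σ x else 0 with hσ'
  have e : ∀ x ∈ s, σ x = σ' x := fun x hx => by simp [hσ', hx]
  have a1 : ∀ x ∈ A ∪ s, x ∉ s → σ' x = 0 := fun x _ hx => by simp [hσ', hx]
  have a2 : ∀ x ∈ A ∪ s, x ∉ A → τ x = 0 := fun x _ hx => g2 x hx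
  have := pot_weak (X := (A ∪ s : Finset Y)) (z := fun x => z x) (τ := fun x => τ x)
    (fun x y h => hsep x y fun h' => h (Subtype.ext h'))
    (Gr_coe.2 ((Gr_sub subset_union_left a2).2 g1))
    (fun x hx => by rw [cp_coe, cp_sub subset_union_left a2]; exact g3 x hx)
    (σ := fun x => σ' x) (Gr_coe.2 ((Gr_sub subset_union_right a1).2 (hσ.congr e))) h0 h1
    fun x hx => by
      simp only [bl_coe, cp_coe, bl_sub subset_union_right a1, cp_sub subset_union_right a1,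
        ← bl_congr e, ← cp_congr e]
      exact hU x (by by_contra hc; exact hx (g2 x hc))
  rw [t3_coe, sum_coe, sum_coe, t3_sub subset_union_right a1, sum_sub subset_union_right a1,
    sum_sub subset_union_left a2, ← t3_congr e, ← sum_congr rfl e] at this
  refine g4.trans ((mul_le_mul_of_nonneg_left this (by norm_num)).trans (le_of_eq (by ring)))

end

end Pool.Agent.Lib.MP_dfc9b7_an
end

-- part Pool.Agent.Lib.MP_dfc9b7_an.GridCap
section

/-! Unions of discs centred at grid points; the easy inequality; Whitney discs. -/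

set_option autoImplicit false
open Finset Filter Topology

namespace Pool.Agent.Lib.MP_dfc9b7_an

noncomputable section

/-- Union of unit discs. -/
def EP (P : Finset (ℤ × ℤ)) : Set ℂ := ⋃ p ∈ P, Metric.closedBall (gp p) 1

theorem mem_EP {P : Finset (ℤ × ℤ)} {w : ℂ} : w ∈ EP P ↔ ∃ p ∈ P, ‖w - gp p‖ ≤ 1 := by
  simp [EP, dist_eq_norm]

theorem EP_compact (P : Finset (ℤ × ℤ)) : IsCompact (EP P) :=
  P.isCompact_biUnion fun _ _ => isCompact_closedBall _ _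

/-- Nearest grid point. -/
def rq (w : ℂ) : ℤ × ℤ := (round w.re, round w.im)

theorem norm_sub_rq (w : ℂ) : ‖w - gp (rq w)‖ < 1 := by
  have h1 := abs_sub_round w.re
  have h2 := abs_sub_round w.im
  refine lt_of_pow_lt_pow_left₀ 2 zero_le_one ?_
  rw [Complex.sq_norm, Complex.normSq_apply]
  simp only [Complex.sub_re, Complex.sub_im, gp_re, gp_im, rq]
  have a1 := abs_le.1 h1
  have a2 := abs_le.1 h2
  nlinarith

theorem exists_nb (P : Finset (ℤ × ℤ)) (R : ℝ) : ∃ S : Finset (ℤ × ℤ), P ⊆ S ∧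
    ∀ p ∈ P, ∀ q, ‖gp q - gp p‖ ≤ R → q ∈ S := by
  refine ⟨P ∪ P.biUnion fun p => Icc (p.1 - ⌈R⌉) (p.1 + ⌈R⌉) ×ˢ Icc (p.2 - ⌈R⌉) (p.2 + ⌈R⌉),
    subset_union_left, fun p hp q h => mem_union_right _ (mem_biUnion.2 ⟨p, hp, ?_⟩)⟩
  have h1 : |q.1 - p.1| ≤ ⌈R⌉ := by
    exact_mod_cast ((abs_fst_le q p).trans h).trans (Int.le_ceil R)
  have h2 : |q.2 - p.2| ≤ ⌈R⌉ := by
    exact_mod_cast ((abs_snd_le q p).trans h).trans (Int.le_ceil R)
  rw [abs_le] at h1 h2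
  simp only [mem_product, mem_Icc]; omega

theorem gp_sep' : ∀ x y : ℤ × ℤ, x ≠ y → 1 ≤ ‖gp x - gp y‖ := fun _ _ h => gp_sep h

theorem Gam_le_cap (P : Finset (ℤ × ℤ)) : Gam P gp ≤ 605000 * cap (EP P) := by
  obtain ⟨τ, g1, g2, g3, g4⟩ := exists_good P gp
  set m := ∑ x ∈ P, τ x with hm
  have hm0 : 0 ≤ m := sum_nonneg g1.1
  obtain ⟨S, hS1, hS2⟩ := exists_nb P (m + 2)
  have a2 : ∀ x ∈ S, x ∉ P → τ x = 0 := fun x _ hx => g2 x hx
  have hsep : ∀ x y : S, x ≠ y → 1 ≤ ‖gp x - gp y‖ := fun x y h =>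
    gp_sep fun h' => h (Subtype.ext h')
  have G := Gr_coe.2 ((Gr_sub hS1 a2).2 g1)
  obtain ⟨a, b1, _, b3, b4⟩ := G.dual hsep
    (fun x hx => by rw [cp_coe, cp_sub hS1 a2]; exact g3 x hx) (fun _ => True)
  rw [bm_true, sum_coe, sum_sub hS1 a2] at b3
  have Ga : Gr univ (fun x : S => gp x) a := G.of_le (fun x _ => (b1 x).1) fun x _ => (b1 x).2
  have hP : ∀ x : S, a x ≠ 0 → x.1 ∈ P := fun x hx => by
    by_contra hc
    exact hx (le_antisymm (by simpa [g2 x hc] using (b1 x).2) (b1 x).1)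
  have hfar : ∀ w ∈ (EP P)ᶜ, ∀ x : S, a x ≠ 0 → 1 < ‖w - gp x‖ := fun w hw x hx => by
    by_contra hc
    exact hw (mem_EP.2 ⟨x, hP x hx, not_lt.1 hc⟩)
  have hadm : Adm (EP P) (ct univ (fun x : S => gp x) a) ((∑ x, a x : ℝ) : ℂ) 151238 := by
    refine ⟨?_, fun w hw => ?_, ?_⟩
    · refine DifferentiableOn.fun_sum fun x _ => ?_
      by_cases hx : a x = 0
      · simp [hx]
      · refine DifferentiableOn.mul_const ((differentiableOn_id.sub_const _).inv fun w hw h => ?_) _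
        have := hfar w hw x hx
        rw [show w - gp x = 0 from h, norm_zero] at this; linarith
    · have hq := (norm_sub_rq w).le
      by_cases hqS : rq w ∈ S
      · have c1 := b4 ⟨rq w, hqS⟩
        have c2 := diag_le hsep Ga ⟨rq w, hqS⟩
        have c3 : ‖ct univ (fun x : S => gp x) a w - ct univ (fun x : S => gp x) a (gp (rq w))‖ ≤
            2 * ∑ x : S, a x / ‖gp (rq w) - gp x‖ ^ 2 := by
          unfold ct
          rw [← sum_sub_distrib, mul_sum]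
          refine (norm_sum_le _ _).trans (sum_le_sum fun x _ => ?_)
          by_cases hx : a x = 0
          · simp [hx]
          have d1 := hfar w hw x hx
          have d2 : rq w ≠ x := fun h => hw (mem_EP.2 ⟨x, hP x hx, h ▸ hq⟩)
          have d3 := gp_sep d2
          have d4 := norm_sub_le_norm_sub_add_norm_sub (gp (rq w)) w (gp x)
          rw [norm_sub_rev (gp (rq w)) w] at d4
          have n1 : w - gp x ≠ 0 := norm_pos_iff.1 (by linarith)
          have n2 : gp (rq w) - gp x ≠ 0 := norm_pos_iff.1 (by linarith)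
          have e : (w - gp x)⁻¹ * (a x : ℂ) - (gp (rq w) - gp x)⁻¹ * (a x : ℂ) =
              -(w - gp (rq w)) / ((w - gp x) * (gp (rq w) - gp x)) * (a x : ℂ) := by
            field_simp; ring
          rw [e, norm_mul, norm_div, norm_neg, norm_mul, Complex.norm_real,
            Real.norm_of_nonneg (b1 x).1, ← mul_div_assoc, div_mul_eq_mul_div,
            div_le_div_iff₀ (by positivity) (by positivity)]
          have p1 := mul_nonneg (b1 x).1 (norm_nonneg (gp (rq w) - gp x))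
          have p2 : ‖w - gp (rq w)‖ * ‖gp (rq w) - gp x‖ ≤ 2 * ‖w - gp x‖ := by
            nlinarith [norm_nonneg (w - gp (rq w))]
          nlinarith [mul_le_mul_of_nonneg_left p2 p1]
        have n1 := norm_le_norm_add_norm_sub' (ct univ (fun x : S => gp x) a w)
          (ct univ (fun x : S => gp x) a (gp (rq w)))
        linarith
      · have c0 : ∑ x : S, a x ≤ m := by
          rw [hm, ← sum_sub hS1 a2, ← sum_coe S τ]; exact sum_le_sum fun x _ => (b1 x).2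
        have c1 : ‖ct univ (fun x : S => gp x) a w‖ ≤ ∑ x : S, a x / (m + 1) := by
          refine (norm_sum_le _ _).trans (sum_le_sum fun x _ => ?_)
          by_cases hx : a x = 0
          · simp [hx]
          have d1 : m + 2 < ‖gp (rq w) - gp x‖ := by
            by_contra hc; exact hqS (hS2 x (hP x hx) _ (not_lt.1 hc))
          have d4 := norm_sub_le_norm_sub_add_norm_sub (gp (rq w)) w (gp x)
          rw [norm_sub_rev (gp (rq w)) w] at d4
          rw [norm_mul, norm_inv, Complex.norm_real, Real.norm_of_nonneg (b1 x).1, inv_mul_eq_div]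
          exact div_le_div_of_nonneg_left (b1 x).1 (by linarith) (by linarith)
        rw [← sum_div] at c1
        have : (∑ x : S, a x) / (m + 1) ≤ 1 := div_le_one_of_le₀ (by linarith) (by linarith)
        linarith
    · unfold ct
      simp only [mul_sum]
      rw [Complex.ofReal_sum]
      refine tendsto_finsetSum _ fun x _ => ?_
      have := (((tendsto_inv_sub (gp x)).const_mul (gp x)).const_add 1).mul_const (a x : ℂ)
      simp only [mul_zero, add_zero, one_mul] at this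
      refine this.congr' ?_
      filter_upwards [eventually_norm_sub_gt (gp x) 0] with w hw
      have := norm_pos_iff.1 hw
      field_simp; ring
  have := hadm.le_cap (EP_compact P).isBounded (by norm_num)
  rw [Complex.norm_real, Real.norm_of_nonneg (sum_nonneg fun x _ => (b1 x).1)] at this
  linarith [cap_nonneg (EP P)]

theorem one_le_cap_EP {P : Finset (ℤ × ℤ)} {p : ℤ × ℤ} (hp : p ∈ P) : 1 ≤ cap (EP P) := by
  have h : Adm (EP P) (fun w => (w - gp p)⁻¹) 1 1 := by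
    have hf : ∀ w ∈ (EP P)ᶜ, 1 < ‖w - gp p‖ := fun w hw => by
      by_contra hc; exact hw (mem_EP.2 ⟨p, hp, not_lt.1 hc⟩)
    refine ⟨(differentiableOn_id.sub_const _).inv fun w hw h => ?_, fun w hw => ?_, ?_⟩
    · have := hf w hw
      rw [show w - gp p = 0 from h, norm_zero] at this; linarith
    · rw [norm_inv]; exact inv_le_one_of_one_le₀ (hf w hw).le
    · have := ((tendsto_inv_sub (gp p)).const_mul (gp p)).const_add 1
      simp only [mul_zero, add_zero] at this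
      refine this.congr' ?_
      filter_upwards [eventually_norm_sub_gt (gp p) 0] with w hw
      have := norm_pos_iff.1 hw
      field_simp; ring
  simpa using h.le_cap_one (EP_compact P).isBounded

theorem seg_le_Gam (p : ℤ × ℤ) (n : ℕ) :
    (n : ℝ) / 3 ≤ Gam ((range n).image fun t : ℕ => (p.1 + t, p.2)) gp := by
  classical
  set s := (range n).image fun t : ℕ => (p.1 + t, p.2) with hs
  have hcard : s.card = n := by
    rw [hs, card_image_of_injective _ fun t t' h => by simpa using h, card_range]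
  have h2 : ∀ x ∈ s, x.2 = p.2 := fun x hx => by
    obtain ⟨t, _, rfl⟩ := mem_image.1 hx; rfl
  have g : Gr s gp fun _ => 1 / 3 := by
    refine ⟨fun _ _ => by norm_num, fun a r hr => ?_⟩
    have e : bl s gp (fun _ => 1 / 3) a r = 1 / 3 * (s.filter fun y => ‖a - gp y‖ ≤ r).card := by
      unfold bl ind
      rw [card_filter, Nat.cast_sum, mul_sum]
      exact sum_congr rfl fun y _ => by split_ifs <;> simp
    have h3 : (s.filter fun y => ‖a - gp y‖ ≤ r).card ≤ (Icc ⌈a.re - r⌉ ⌊a.re + r⌋).card := by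
      refine card_le_card_of_injOn (fun y => y.1) (fun y hy => ?_) fun y hy y' hy' h => ?_
      · have h4 := (Complex.abs_re_le_norm (a - gp y)).trans (mem_filter.1 hy).2
        rw [Complex.sub_re, gp_re, abs_le] at h4
        simp only [coe_Icc, Set.mem_Icc, Int.ceil_le, Int.le_floor]
        constructor <;> linarith
      · exact Prod.ext h (by rw [h2 y (mem_filter.1 hy).1, h2 y' (mem_filter.1 hy').1])
    have h5 : ((Icc ⌈a.re - r⌉ ⌊a.re + r⌋).card : ℝ) ≤ 2 * r + 1 := by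
      rw [Int.card_Icc]
      have : (((⌊a.re + r⌋ + 1 - ⌈a.re - r⌉).toNat : ℤ) : ℝ) ≤ 2 * r + 1 := by
        rw [Int.toNat_eq_max]; push_cast
        exact max_le (by linarith [Int.floor_le (a.re + r), Int.le_ceil (a.re - r)]) (by linarith)
      exact_mod_cast this
    have h6 : ((s.filter fun y => ‖a - gp y‖ ≤ r).card : ℝ) ≤ 2 * r + 1 :=
      le_trans (by exact_mod_cast h3) h5
    rw [e]; linarith
  have h0 : t3 s gp (fun _ => 1 / 3) (fun _ => 1 / 3) (fun _ => 1 / 3) = 0 := by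
    refine sum_eq_zero fun x hx => sum_eq_zero fun y hy => sum_eq_zero fun w hw => ?_
    have : ar (gp x) (gp y) (gp w) = 0 := by simp [ar, h2 x hx, h2 y hy, h2 w hw]
    simp [cq, this]
  have := g.le_Gam
  rw [h0, sum_const, hcard, nsmul_eq_mul] at this
  linarith

theorem tb_gam {η κ α : ℝ} (hη : 0 < η) (hη1 : η ≤ 1) (hκ : 0 < κ) (hκ1 : κ ≤ 1) (hα : 0 ≤ α) :
    ∃ c : ℝ, 0 < c ∧ ∀ (X : Finset (ℤ × ℤ)) (μ : ℤ × ℤ → ℝ) (ν : ℤ × ℤ → ℂ) (X₀ : ℤ × ℤ → Prop),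
      (∀ x ∈ X, 0 < μ x) → (∀ x ∈ X, ‖ν x‖ ≤ μ x) →
      (∀ x ∈ X, X₀ x → ∀ r, 1 ≤ r → bl X gp μ (gp x) r ≤ r / 2) →
      (∀ x ∈ X, X₀ x → ∀ r, 1 ≤ r →
        ‖∑ y ∈ X, cut (fun y => r < ‖gp x - gp y‖) ν y * (gp x - gp y)⁻¹‖ ≤ α) →
      (∀ s L, κ * ∑ x ∈ X, μ x ≤ ∑ x ∈ X, μ x * ind (fun x => X₀ x ∧ ∀ j, j ≤ L →
        η * ∑ y ∈ X, μ y * ind ((gl id s).c j x) y ≤ ‖∑ y ∈ X, cut ((gl id s).c j x) ν y‖) x) →
      c * ∑ x ∈ X, μ x ≤ Gam X gp := by
  obtain ⟨C, hC, h⟩ := tb_grid hη hη1 hκ hκ1 hα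
  set t := κ / (24 * (C + 1)) with ht
  have ht0 : 0 < t := by positivity
  have ht1 : t ≤ 1 := div_le_one_of_le₀ (by linarith) (by positivity)
  refine ⟨t * κ / 4, by positivity, fun X μ ν X₀ hμ hν hgr htr hG => ?_⟩
  have hcut : ∀ (p : ℤ × ℤ → Prop) (y : X), cut (fun y : X => p y)
      (fun x : X => ν x / (μ x : ℂ)) y * (μ y : ℂ) = cut p ν y := fun p y => by
    have : (μ y : ℂ) ≠ 0 := by exact_mod_cast (hμ y y.2).ne'
    by_cases hy : p y
    · rw [cut_pos (p := fun y : X => p y) _ hy, cut_pos _ hy, div_mul_cancel₀ _ this]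
    · rw [cut_neg (p := fun y : X => p y) _ hy, cut_neg _ hy, zero_mul]
  obtain ⟨F, f1, f2, f3⟩ := h X Subtype.val (fun x => μ x) (fun x => ν x / (μ x : ℂ))
    (fun x => X₀ x) Subtype.val_injective (fun x => hμ x x.2)
    (fun x => by
      rw [norm_div, Complex.norm_real, Real.norm_of_nonneg (hμ x x.2).le]
      exact div_le_one_of_le₀ (hν x x.2) (hμ x x.2).le)
    (fun x hx r hr => by have := hgr x x.2 hx r hr; rwa [bl_eq] at this)
    (fun x hx r hr => by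
      refine le_trans (le_of_eq (congrArg norm ?_)) (htr x x.2 hx r hr)
      rw [← sum_coe_sort X]
      refine sum_congr rfl fun y _ => ?_
      rw [← hcut]; unfold ck dz; ring)
    (fun s L => by
      rw [sum_coe]
      refine (hG s L).trans (le_of_eq ?_)
      rw [← bm_coe]
      refine bm_congr _ fun x => and_congr_right fun _ => forall₂_congr fun j _ => ?_
      rw [← bm_coe, ← sum_coe_sort X]
      exact iff_of_eq (congrArg₂ _ rfl (congrArg norm (sum_congr rfl fun y _ =>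
        (hcut _ y).symm))))
  rw [sum_coe] at f2 f3
  set τ : ℤ × ℤ → ℝ := fun p => μ p * ind (fun p => ∃ h : p ∈ X, F ⟨p, h⟩) p with hτ
  have hτ' : ∀ x : X, τ x = μ x * ind F x := fun x => by
    simp only [hτ]
    rw [ind_congr (p := fun p => ∃ h : p ∈ X, F ⟨p, h⟩) (q := F) (y := x.1) (z := x)
      ⟨fun ⟨_, h⟩ => h, fun h => ⟨x.2, h⟩⟩]
  have hτ0 : ∀ x ∈ X, 0 ≤ τ x := fun x hx => mul_nonneg (hμ x hx).le (ind_nonneg _ _)
  have hτ1 : ∀ x ∈ X, τ x ≤ μ x := fun x hx => by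
    simp only [hτ]; nlinarith [hμ x hx, (ind_U01 (fun p => ∃ h : p ∈ X, F ⟨p, h⟩) x).2]
  have g : Gr X gp τ := by
    refine ⟨hτ0, fun a r hr => ?_⟩
    by_cases hne : ∃ x : X, F x ∧ ‖a - gp x‖ ≤ r
    · obtain ⟨x, h1, h2⟩ := hne
      refine (bl_le_of_le hτ1 a r).trans ((bl_mono (fun x hx => (hμ x hx).le) (a' := gp x)
        (r' := 2 * r) (by rw [norm_sub_rev]; linarith)).trans ?_)
      linarith [hgr x x.2 (f1 x h1) (2 * r) (by linarith)]
    · refine le_trans (le_of_eq (sum_eq_zero fun x hx => ?_)) (by linarith)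
      by_cases h1 : F ⟨x, hx⟩
      · rw [ind_neg (p := fun y => ‖a - gp y‖ ≤ r) fun h2 => hne ⟨⟨x, hx⟩, h1, h2⟩, mul_zero]
      · rw [hτ' ⟨x, hx⟩, ind_neg h1, mul_zero, zero_mul]
  have m1 : ∑ x ∈ X, τ x = bm (fun x : X => μ x) F := by
    rw [← sum_coe, ← sum_mul_ind]; exact sum_congr rfl fun x _ => hτ' x
  have m2 : t3 X gp τ τ τ ≤ 6 * (C * ∑ x ∈ X, μ x) := by
    refine (t3_le_cts hτ0).trans (mul_le_mul_of_nonneg_left (le_trans (le_of_eq ?_) f3)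
      (by norm_num))
    rw [← sum_coe, ← sum_mul_ind_mul]
    refine sum_congr rfl fun x _ => ?_
    rw [hτ', ← ct_coe]
    congr 3
    refine sum_congr rfl fun y _ => ?_
    beta_reduce
    rw [hτ', cut_eq_ind]; unfold ck; push_cast; ring
  have m3 := g.smul_le_Gam ht0.le ht1
  have hM : 0 ≤ ∑ x ∈ X, μ x := sum_nonneg fun x hx => (hμ x hx).le
  have m4 : t ^ 2 * (6 * C) ≤ κ / 4 := by
    have : t * (6 * C) ≤ κ / 4 := by
      rw [ht, div_mul_eq_mul_div, div_le_div_iff₀ (by positivity) (by norm_num)]; nlinarith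
    nlinarith [mul_pos ht0 hC]
  rw [m1] at m3
  have m5 := mul_le_mul_of_nonneg_left m2 (show 0 ≤ t ^ 3 by positivity)
  have m6 := mul_le_mul_of_nonneg_left f2 ht0.le
  have m7 := mul_le_mul_of_nonneg_right m4 (mul_nonneg ht0.le hM)
  nlinarith

end

end Pool.Agent.Lib.MP_dfc9b7_an
end
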