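import Mathlib

/-! Positive functionals on bounded functions. -/

set_option autoImplicit false
open Set Filter Topology

namespace Pool.Agent.Lib.MP_dfc9b7_an

noncomputable section

/-- Bounded functions. -/
def Bd {X R : Type*} [Norm R] (u : X → R) : Prop := ∃ M, ∀ x, ‖u x‖ ≤ M

section bd
variable {X R : Type*} [SeminormedRing R] {u v : X → R}

theorem bd_const (c : R) : Bd fun _ : X => c := ⟨‖c‖, fun _ => le_rfl⟩

theorem Bd.add (h : Bd u) (h' : Bd v) : Bd fun x => u x + v x :=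
  let ⟨M, hM⟩ := h; let ⟨N, hN⟩ := h'
  ⟨M + N, fun x => (norm_add_le _ _).trans (add_le_add (hM x) (hN x))⟩

theorem Bd.sub (h : Bd u) (h' : Bd v) : Bd fun x => u x - v x :=
  let ⟨M, hM⟩ := h; let ⟨N, hN⟩ := h'
  ⟨M + N, fun x => (norm_sub_le _ _).trans (add_le_add (hM x) (hN x))⟩

theorem Bd.mul (h : Bd u) (h' : Bd v) : Bd fun x => u x * v x :=
  let ⟨M, hM⟩ := h; let ⟨N, hN⟩ := h'
  ⟨M * N, fun x => (norm_mul_le _ _).trans
    (mul_le_mul (hM x) (hN x) (norm_nonneg _) ((norm_nonneg _).trans (hM x)))⟩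

theorem Bd.cmul (h : Bd u) (c : R) : Bd fun x => c * u x := (bd_const c).mul h

theorem Bd.sq (h : Bd u) : Bd fun x => ‖u x‖ ^ 2 :=
  let ⟨M, hM⟩ := h
  ⟨M ^ 2, fun x => by
    rw [norm_pow, norm_norm]; exact pow_le_pow_left₀ (norm_nonneg _) (hM x) 2⟩

theorem Bd.re_conj {u v : X → ℂ} (h : Bd u) (h' : Bd v) :
    Bd fun x => (u x * (starRingEnd ℂ) (v x)).re :=
  let ⟨M, hM⟩ := h.mul h'
  ⟨M, fun x => (Complex.abs_re_le_norm _).trans (by
    have := hM x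
    rwa [norm_mul, Complex.norm_conj, ← norm_mul])⟩

end bd

/-- Positive functionals living on a filter. -/
def PF {X : Type*} (l : Filter X) (ρ : (X → ℝ) →ₗ[ℝ] ℝ) : Prop :=
  ∀ u : X → ℝ, Bd u → (∀ᶠ x in l, 0 ≤ u x) → 0 ≤ ρ u

variable {X : Type*} {l : Filter X} {ρ : (X → ℝ) →ₗ[ℝ] ℝ} {u v : X → ℝ}

theorem lin_add (ρ : (X → ℝ) →ₗ[ℝ] ℝ) (u v : X → ℝ) : ρ (fun x => u x + v x) = ρ u + ρ v :=
  map_add ρ u v

theorem lin_sub (ρ : (X → ℝ) →ₗ[ℝ] ℝ) (u v : X → ℝ) : ρ (fun x => u x - v x) = ρ u - ρ v :=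
  map_sub ρ u v

theorem lin_mul (ρ : (X → ℝ) →ₗ[ℝ] ℝ) (c : ℝ) (u : X → ℝ) : ρ (fun x => c * u x) = c * ρ u :=
  map_smul ρ c u

theorem lin_const (ρ : (X → ℝ) →ₗ[ℝ] ℝ) (c : ℝ) : ρ (fun _ => c) = c * ρ (fun _ => 1) := by
  rw [← lin_mul, mul_one]

theorem PF.mono (h : PF l ρ) (hu : Bd u) (hv : Bd v) (e : ∀ᶠ x in l, u x ≤ v x) : ρ u ≤ ρ v := by
  have := h _ (hv.sub hu) (e.mono fun x hx => sub_nonneg.2 hx)
  rwa [lin_sub, sub_nonneg] at this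

theorem PF.one_nonneg (h : PF l ρ) : 0 ≤ ρ fun _ => 1 :=
  h _ (bd_const 1) (Eventually.of_forall fun _ => zero_le_one)

theorem PF.norm_le (h : PF l ρ) {M : ℝ} (hu : ∀ x, ‖u x‖ ≤ M) : ‖ρ u‖ ≤ M * ρ fun _ => 1 := by
  have h1 := h.mono ⟨M, hu⟩ (bd_const M) (Eventually.of_forall fun x => (abs_le.1 (hu x)).2)
  have h2 := h.mono (bd_const (-M)) ⟨M, hu⟩ (Eventually.of_forall fun x => (abs_le.1 (hu x)).1)
  rw [lin_const] at h1 h2
  exact abs_le.2 ⟨by linarith, h1⟩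

theorem exists_state (l : Filter X) [l.NeBot] (C : Set (X → ℝ)) (m : ℝ) (hne : C.Nonempty)
    (hbd : ∀ u ∈ C, Bd u) (hcv : ∀ u ∈ C, ∀ v ∈ C, ∀ s t : ℝ, 0 ≤ s → 0 ≤ t → s + t = 1 →
      ∃ w ∈ C, ∀ x, w x ≤ s * u x + t * v x)
    (hm : ∀ u ∈ C, ∀ m' < m, ¬ ∀ᶠ x in l, u x ≤ m') :
    ∃ ρ : (X → ℝ) →ₗ[ℝ] ℝ, PF l ρ ∧ ρ (fun _ => 1) = 1 ∧ ∀ u ∈ C, m ≤ ρ u := by
  let _ : TopologicalSpace X := ⊥
  have : DiscreteTopology X := ⟨rfl⟩
  let ι : BoundedContinuousFunction X ℝ →ₗ[ℝ] X → ℝ :=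
    ⟨⟨fun f x => f x, fun _ _ => rfl⟩, fun _ _ => rfl⟩
  obtain ⟨g, hg⟩ := ι.exists_leftInverse_of_injective
    (LinearMap.ker_eq_bot.2 fun f f' h => by ext x; exact congrFun h x)
  have hg' : ∀ u, Bd u → ∀ x, g u x = u x := fun u ⟨M, hM⟩ x => by
    have := LinearMap.congr_fun hg (BoundedContinuousFunction.ofNormedAddCommGroupDiscrete u M hM)
    exact congrArg (fun f : BoundedContinuousFunction X ℝ => f x) this
  obtain ⟨f, c, h1, h2⟩ := geometric_hahn_banach_open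
    (s := {a : BoundedContinuousFunction X ℝ | ∃ m' < m, ∀ᶠ x in l, a x ≤ m'})
    (t := {b : BoundedContinuousFunction X ℝ | ∃ u ∈ C, ∀ x, u x ≤ b x})
    (fun a ⟨m1, a1, a2⟩ b ⟨m2, b1, b2⟩ s t hs ht hst => ⟨max m1 m2, max_lt a1 b1, by
      filter_upwards [a2, b2] with x h1 h2
      have e : (s • a + t • b) x = s * a x + t * b x := rfl
      have e2 : max m1 m2 = s * max m1 m2 + t * max m1 m2 := by rw [← add_mul, hst, one_mul]
      rw [e, e2]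
      exact add_le_add (mul_le_mul_of_nonneg_left (h1.trans (le_max_left _ _)) hs)
        (mul_le_mul_of_nonneg_left (h2.trans (le_max_right _ _)) ht)⟩)
    (Metric.isOpen_iff.2 fun a ⟨m1, a1, a2⟩ => ⟨(m - m1) / 2, by linarith, fun b hb =>
      ⟨(m + m1) / 2, by linarith, by
        filter_upwards [a2] with x h1
        have h2 := (BoundedContinuousFunction.dist_coe_le_dist x).trans (Metric.mem_ball.1 hb).le
        rw [Real.dist_eq, abs_le] at h2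
        linarith [h2.2]⟩⟩)
    (fun a ⟨u, a1, a2⟩ b ⟨v, b1, b2⟩ s t hs ht hst => by
      obtain ⟨w, w1, w2⟩ := hcv u a1 v b1 s t hs ht hst
      exact ⟨w, w1, fun x => (w2 x).trans (add_le_add (mul_le_mul_of_nonneg_left (a2 x) hs)
        (mul_le_mul_of_nonneg_left (b2 x) ht))⟩)
    (disjoint_left.2 fun a ⟨m1, a1, a2⟩ ⟨u, b1, b2⟩ =>
      hm u b1 m1 a1 (a2.mono fun x hx => (b2 x).trans hx))
  set σ : (X → ℝ) →ₗ[ℝ] ℝ := f.toLinearMap ∘ₗ g with hσ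
  have k1 : ∀ u, Bd u → (∃ m' < m, ∀ᶠ x in l, u x ≤ m') → σ u < c := fun u hu ⟨m1, a1, a2⟩ =>
    h1 (g u) ⟨m1, a1, a2.mono fun x hx => by rwa [hg' u hu]⟩
  have k2 : ∀ u ∈ C, c ≤ σ u := fun u hu => h2 (g u) ⟨u, hu, fun x => (hg' u (hbd u hu) x).ge⟩
  have k3 : PF l σ := fun u hu h0 => by
    by_contra hc
    push Not at hc
    set t := (c - σ fun _ => m - 1) / (-σ u) with ht
    have b1 := k1 _ (bd_const (m - 1)) ⟨m - 1, by linarith, Eventually.of_forall fun _ => le_rfl⟩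
    have t0 : 0 ≤ t := div_nonneg (by linarith) (by linarith)
    have b2 := k1 (fun x => (m - 1) - t * u x) ((bd_const _).sub (hu.cmul t))
      ⟨m - 1, by linarith, h0.mono fun x hx => by nlinarith⟩
    rw [lin_sub, lin_mul] at b2
    have b3 : t * (-σ u) = c - σ fun _ => m - 1 := div_mul_cancel₀ _ (by linarith)
    linarith
  have k4 : ∀ m' < m, m' * σ (fun _ => 1) < c := fun m' hm' => by
    rw [← lin_const]; exact k1 _ (bd_const _) ⟨m', hm', Eventually.of_forall fun _ => le_rfl⟩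
  have k5 : 0 < σ fun _ => 1 := by
    refine lt_of_le_of_ne k3.one_nonneg fun h0 => ?_
    obtain ⟨u, hu⟩ := hne
    obtain ⟨M, hM⟩ := hbd u hu
    have b1 := k3.norm_le hM
    have b2 := k4 (m - 1) (by linarith)
    rw [← h0, mul_zero] at b1 b2
    linarith [k2 u hu, le_abs_self (σ u), Real.norm_eq_abs (σ u)]
  refine ⟨(σ fun _ => 1)⁻¹ • σ, fun u hu h0 => mul_nonneg (inv_nonneg.2 k5.le) (k3 u hu h0),
    inv_mul_cancel₀ k5.ne', fun u hu => ?_⟩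
  show m ≤ (σ fun _ => 1)⁻¹ * σ u
  rw [← div_eq_inv_mul]
  refine le_of_forall_lt_imp_le_of_dense fun m' hm' => ?_
  rw [le_div_iff₀ k5]; linarith [k4 m' hm', k2 u hu]

theorem exists_lim : ∃ Λ : (ℕ → ℝ) →ₗ[ℝ] ℝ, PF atTop Λ ∧ Λ (fun _ => 1) = 1 := by
  obtain ⟨Λ, h1, h2, _⟩ := exists_state (atTop : Filter ℕ) {fun _ => 0} 0 (singleton_nonempty _)
    (fun u hu => hu ▸ bd_const 0) (fun u hu v hv s t _ _ _ => ⟨_, rfl, fun x => by
      rw [mem_singleton_iff.1 hu, mem_singleton_iff.1 hv]; simp⟩) fun u hu m hm h => by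
    obtain ⟨x, hx⟩ := h.exists
    rw [mem_singleton_iff.1 hu] at hx; linarith
  exact ⟨Λ, h1, h2⟩

/-- Generalized limit of a sequence of functionals. -/
def glim (Λ : (ℕ → ℝ) →ₗ[ℝ] ℝ) (τ : (X → ℝ) →ₗ[ℝ] ℝ) : (ℕ × X → ℝ) →ₗ[ℝ] ℝ where
  toFun u := Λ fun n => τ fun x => u (n, x)
  map_add' u v := by simp only [Pi.add_apply, lin_add]
  map_smul' c u := by simp only [Pi.smul_apply, smul_eq_mul, lin_mul, RingHom.id_apply]

theorem PF.glim {Λ : (ℕ → ℝ) →ₗ[ℝ] ℝ} (hΛ : PF atTop Λ) (h : PF l ρ) :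
    PF (atTop.curry l) (glim Λ ρ) := fun _ ⟨M, hM⟩ h0 =>
  hΛ _ ⟨_, fun n => h.norm_le fun x => hM (n, x)⟩
    ((eventually_curry_iff.1 h0).mono fun n hn => h _ ⟨M, fun x => hM (n, x)⟩ hn)

theorem exists_tau (h : PF ⊤ ρ) (V : ℕ → Set X) (hV : Antitone V) :
    ∃ τ : (X → ℝ) →ₗ[ℝ] ℝ, PF (⨅ j, 𝓟 (V j)) τ ∧ PF ⊤ (ρ - τ) ∧
      ∀ ε > 0, ∃ j, (ρ - τ) ((V j).indicator fun _ => 1) ≤ ε := by
  obtain ⟨Λ, h1, h2⟩ := exists_lim
  let τ : (X → ℝ) →ₗ[ℝ] ℝ := glim Λ ρ ∘ₗ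
    ⟨⟨fun u p => (V p.1).indicator u p.2, fun u v => by
      ext p; by_cases hp : p.2 ∈ V p.1 <;> simp [hp]⟩,
      fun c u => by ext p; by_cases hp : p.2 ∈ V p.1 <;> simp [hp]⟩
  have e : ∀ u, τ u = Λ fun n => ρ ((V n).indicator u) := fun u => rfl
  have b : ∀ (u : X → ℝ) M, (∀ x, ‖u x‖ ≤ M) → ∀ S : Set X, ∀ x, ‖S.indicator u x‖ ≤ M :=
    fun u M hM S x => (norm_indicator_le_norm_self _ _).trans (hM x)
  refine ⟨τ, fun u ⟨M, hM⟩ h0 => ?_, fun u ⟨M, hM⟩ h0 => ?_, fun ε hε => ?_⟩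
  · obtain ⟨j, hj⟩ := (mem_iInf_of_directed (f := fun j => 𝓟 (V j)) (fun i j => ⟨max i j,
      principal_mono.2 (hV (le_max_left _ _)), principal_mono.2 (hV (le_max_right _ _))⟩) _).1 h0
    refine h1 _ ⟨_, fun n => h.norm_le (b u M hM _)⟩ ?_
    filter_upwards [eventually_ge_atTop j] with n hn
    exact h _ ⟨M, b u M hM _⟩ (Eventually.of_forall fun x =>
      indicator_nonneg (fun y hy => hj (hV hn hy)) x)
  · have := h1.mono ⟨_, fun n => h.norm_le (b u M hM (V n))⟩ (bd_const (ρ u))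
      (Eventually.of_forall fun n => h.mono ⟨M, b u M hM _⟩ ⟨M, hM⟩ (Eventually.of_forall fun x =>
        indicator_le_self' (fun y _ => eventually_top.1 h0 y) x))
    rw [lin_const, h2, mul_one] at this
    exact sub_nonneg.2 this
  · by_contra hc
    push Not at hc
    have o : ∀ x : X, ‖(fun _ => (1 : ℝ)) x‖ ≤ 1 := fun _ => by simp
    have a1 : ∀ j, τ ((V j).indicator fun _ => 1) = τ fun _ => 1 := fun j => by
      have ev : ∀ᶠ n in atTop, ρ ((V n).indicator ((V j).indicator fun _ => 1)) =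
          ρ ((V n).indicator fun _ => 1) := by
        filter_upwards [eventually_ge_atTop j] with n hn
        rw [indicator_indicator, inter_eq_left.2 (hV hn)]
      have b1 : Bd fun n => ρ ((V n).indicator ((V j).indicator fun _ => 1)) :=
        ⟨_, fun n => h.norm_le (b _ 1 (b _ 1 o _) _)⟩
      have b2 : Bd fun n => ρ ((V n).indicator fun _ => 1) := ⟨_, fun n => h.norm_le (b _ 1 o _)⟩
      exact le_antisymm (h1.mono b1 b2 (ev.mono fun _ h => h.le))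
        (h1.mono b2 b1 (ev.mono fun _ h => h.ge))
    have := h1.mono (bd_const (ε + τ fun _ => 1)) ⟨_, fun n => h.norm_le (b _ 1 o (V n))⟩
      (Eventually.of_forall fun n => by
        have := hc n
        rw [LinearMap.sub_apply, a1] at this; linarith)
    rw [lin_const, h2, ← e] at this
    linarith

theorem norm_sq_sub_mul (a b : ℂ) (s : ℝ) : ‖a - s * b‖ ^ 2 =
    ‖a‖ ^ 2 - 2 * s * (a * (starRingEnd ℂ) b).re + s ^ 2 * ‖b‖ ^ 2 := by
  simp only [Complex.sq_norm, Complex.normSq_apply, Complex.sub_re, Complex.sub_im, Complex.mul_re,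
    Complex.mul_im, Complex.ofReal_re, Complex.ofReal_im, Complex.conj_re, Complex.conj_im]
  ring

theorem PF.cauchy (h : PF l ρ) (S : ℕ → Set (X → ℂ)) (hS : Antitone S) (hne : ∀ j, (S j).Nonempty)
    {C : ℝ} (hb : ∀ j, ∀ g ∈ S j, ∀ x, ‖g x‖ ≤ C)
    (hm : ∀ j, ∀ g ∈ S j, ∀ g' ∈ S j, (fun x => (g x + g' x) / 2) ∈ S j) :
    ∃ g : ℕ → X → ℂ, (∀ j, g j ∈ S j) ∧
      ∀ ε > 0, ∀ᶠ i in atTop, ∀ j ≥ i, ρ (fun x => ‖g j x - g i x‖ ^ 2) ≤ ε := by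
  set q : (X → ℂ) → ℝ := fun g => ρ fun x => ‖g x‖ ^ 2 with hq
  have hbd : ∀ j, ∀ g ∈ S j, Bd g := fun j g hg => ⟨C, hb j g hg⟩
  have q0 : ∀ j, BddBelow (q '' S j) := fun j => ⟨0, fun _ ⟨g, hg, e⟩ => e ▸
    h _ (hbd j g hg).sq (Eventually.of_forall fun _ => by positivity)⟩
  set μ := fun j => sInf (q '' S j) with hμ
  have m1 : ∀ j, ∀ g ∈ S j, μ j ≤ q g := fun j g hg => csInf_le (q0 j) ⟨g, hg, rfl⟩
  have m2 : Monotone μ := fun i j hij =>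
    csInf_le_csInf (q0 i) ((hne j).image _) (image_mono (hS hij))
  have m3 : BddAbove (range μ) := ⟨C ^ 2 * ρ fun _ => 1, fun _ ⟨j, e⟩ => by
    obtain ⟨g, hg⟩ := hne j
    rw [← e, ← lin_const]
    exact (m1 j g hg).trans (h.mono (hbd j g hg).sq (bd_const _) (Eventually.of_forall fun x =>
      pow_le_pow_left₀ (norm_nonneg _) (hb j g hg x) 2))⟩
  have m4 : ∀ j : ℕ, ∃ g ∈ S j, q g ≤ μ j + 1 / (j + 1) := fun j => by
    obtain ⟨_, ⟨g, hg, rfl⟩, h1⟩ := exists_lt_of_csInf_lt ((hne j).image q)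
      (show μ j < μ j + 1 / (j + 1) from lt_add_of_pos_right _ (by positivity))
    exact ⟨g, hg, h1.le⟩
  choose g g1 g2 using m4
  refine ⟨g, g1, fun ε hε => ?_⟩
  filter_upwards [(tendsto_atTop_ciSup m2 m3).eventually (le_mem_nhds
    (show (⨆ j, μ j) - ε / 4 < ⨆ j, μ j by linarith)),
    (tendsto_one_div_add_atTop_nhds_zero_nat (𝕜 := ℝ)).eventually
      (ge_mem_nhds (show 0 < ε / 8 by linarith))] with i h1 h2 j hj
  have a1 := m1 i _ (hm i _ (g1 i) _ (hS hj (g1 j)))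
  have a2 : ρ (fun x => ‖g j x - g i x‖ ^ 2) =
      2 * q (g i) + 2 * q (g j) - 4 * q fun x => (g i x + g j x) / 2 := by
    simp only [hq]
    rw [← lin_mul, ← lin_mul, ← lin_mul, ← lin_add, ← lin_sub]
    congr 1; ext x
    have := parallelogram_law_with_norm ℝ (g j x) (g i x)
    rw [norm_div, add_comm (g i x), Complex.norm_ofNat]; nlinarith
  have a3 := le_ciSup m3 j
  have a4 : (1 : ℝ) / (j + 1) ≤ 1 / (i + 1) :=
    one_div_le_one_div_of_le (by positivity) (by exact_mod_cast Nat.succ_le_succ hj)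
  linarith [g2 i, g2 j]

theorem PF.near_orth (h : PF l ρ) (I : Set (X → ℂ)) (h0 : (fun _ => 0) ∈ I)
    (hadd : ∀ D ∈ I, ∀ D' ∈ I, ∀ s : ℝ, (fun x => D x + s * D' x) ∈ I) (hb : ∀ D ∈ I, Bd D)
    {ε : ℝ} (hε : 0 < ε) : ∃ D ∈ I, ρ (fun x => ‖1 - D x‖ ^ 2) ≤ ρ (fun _ => 1) + ε ^ 2 ∧
      ∀ D' ∈ I, 2 * ρ (fun x => ((1 - D x) * (starRingEnd ℂ) (D' x)).re) ≤
        ε * (1 + ρ fun x => ‖D' x‖ ^ 2) := by
  set q : (X → ℂ) → ℝ := fun D => ρ fun x => ‖1 - D x‖ ^ 2 with hq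
  have q0 : BddBelow (q '' I) := ⟨0, fun _ ⟨g, hg, e⟩ => e ▸
    h _ ((bd_const 1).sub (hb g hg)).sq (Eventually.of_forall fun _ => by positivity)⟩
  obtain ⟨_, ⟨D, hD, rfl⟩, h1⟩ := exists_lt_of_csInf_lt (Nonempty.image q ⟨_, h0⟩)
    (show sInf (q '' I) < sInf (q '' I) + ε ^ 2 from lt_add_of_pos_right _ (by positivity))
  refine ⟨D, hD, ?_, fun D' hD' => ?_⟩
  · have := csInf_le q0 ⟨_, h0, rfl⟩
    simp only [hq, sub_zero, norm_one, one_pow] at this h1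
    linarith
  · have a1 := csInf_le q0 ⟨_, hadd D hD D' hD' ε, rfl⟩
    have a2 : q (fun x => D x + ε * D' x) = q D -
        2 * ε * ρ (fun x => ((1 - D x) * (starRingEnd ℂ) (D' x)).re) +
        ε ^ 2 * ρ fun x => ‖D' x‖ ^ 2 := by
      simp only [hq]
      rw [← lin_mul, ← lin_mul, ← lin_sub, ← lin_add]
      congr 1; ext x
      rw [← norm_sq_sub_mul, sub_add_eq_sub_sub]
    refine le_of_mul_le_mul_left ?_ hε
    nlinarith

theorem le_add_pow_div {t b : ℝ} (ht : 0 ≤ t) (hb : 0 < b) (n : ℕ) : t ≤ b + t ^ (n + 1) / b ^ n := by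
  by_cases h : t ≤ b
  · exact h.trans (le_add_of_nonneg_right (by positivity))
  · have := pow_le_pow_left₀ hb.le (not_le.1 h).le n
    have h2 : t ≤ t ^ (n + 1) / b ^ n := by
      rw [le_div_iff₀ (by positivity), pow_succ]; nlinarith
    linarith

theorem PF.core_est (h : PF l ρ) (h1 : ρ (fun _ => 1) ≤ 1) (I : Set (X → ℂ))
    (h0 : (fun _ => 0) ∈ I) (hadd : ∀ D ∈ I, ∀ D' ∈ I, ∀ s : ℝ, (fun x => D x + s * D' x) ∈ I)
    (hb : ∀ D ∈ I, Bd D) {G : X → ℂ} {C : ℝ} (hG : ∀ x, ‖G x‖ ≤ C)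
    (hN : ∀ N : ℕ, ∃ H : X → ℂ, (∀ x, ‖H x‖ ≤ C) ∧ ∀ D ∈ I, ∀ ε > 0, ∃ e : X → ℂ, ∃ D' ∈ I,
      (∀ x, ‖e x‖ ≤ C ^ (N + 2) + C) ∧ ρ (fun x => ‖G x ^ (N + 2) - H x - e x‖ ^ 2) ≤ ε ∧
      ∀ᶠ x in l, ‖D' x - (starRingEnd ℂ) (e x) * ((G x ^ (N + 2) - H x) * (1 - D x))‖ ≤ ε)
    {θ : ℝ} (hθ : 0 < θ) : ∃ D ∈ I, ρ (fun x => ‖G x * (1 - D x)‖ ^ 2) ≤ ρ (fun _ => 1) + θ := by
  set b := 1 + θ / 4 with hb'
  have hb1 : 1 < b := by linarith
  obtain ⟨N, hN1⟩ := pow_unbounded_of_one_lt ((4 * C ^ 2 + 2) / (θ / 4)) hb1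
  have hN2 : (4 * C ^ 2 + 2) / b ^ (N + 1) ≤ θ / 4 := by
    rw [div_lt_iff₀ (by linarith)] at hN1
    rw [div_le_iff₀ (by positivity), pow_succ b]
    nlinarith [mul_pos (pow_pos (show 0 < b by linarith) N) hθ]
  obtain ⟨H, hH, hI⟩ := hN N
  set B := C ^ (N + 2) + C with hB
  set ε := min (min 1 (θ / 4)) (1 / (2 * (3 + 4 * B ^ 4))) with hε
  have e0 : 0 < ε := by positivity
  have e1 : ε ≤ 1 := (min_le_left _ _).trans (min_le_left _ _)
  have e2 : ε ≤ θ / 4 := (min_le_left _ _).trans (min_le_right _ _)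
  have e3 : ε * (3 + 4 * B ^ 4) ≤ 1 / 2 := by
    have := min_le_right (min 1 (θ / 4)) (1 / (2 * (3 + 4 * B ^ 4)))
    rw [← hε, le_div_iff₀ (by positivity)] at this; linarith
  obtain ⟨D, hD, o1, o2⟩ := h.near_orth I h0 hadd hb e0
  refine ⟨D, hD, ?_⟩
  have bu : Bd fun x => 1 - D x := (bd_const 1).sub (hb D hD)
  obtain ⟨M, hM⟩ := id bu
  have bP : ∀ x, ‖G x ^ (N + 2) - H x‖ ≤ B := fun x => (norm_sub_le _ _).trans (add_le_add (by
    rw [norm_pow]; exact pow_le_pow_left₀ (norm_nonneg _) (hG x) _) (hH x))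
  have bP' : Bd fun x => G x ^ (N + 2) - H x := ⟨B, bP⟩
  set δ := min 1 (1 / (2 * (2 * |M| + M ^ 2 + 1))) with hδ
  have d0 : 0 < δ := by positivity
  have d1 : δ ≤ 1 := min_le_left _ _
  have d2 : δ * (2 * |M| + M ^ 2 + 1) ≤ 1 / 2 := by
    have := min_le_right 1 (1 / (2 * (2 * |M| + M ^ 2 + 1)))
    rw [← hδ, le_div_iff₀ (by positivity)] at this; linarith
  obtain ⟨e, D', hD', f1, f2, f3⟩ := hI D hD δ d0
  have r0 := h.one_nonneg
  have u2 : ρ (fun x => ‖1 - D x‖ ^ 2) ≤ 2 := by nlinarith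
  have a1 : ρ (fun x => ‖D' x‖ ^ 2) ≤ 2 + 4 * B ^ 4 := by
    have := h.mono (hb D' hD').sq ((bu.sq.cmul (2 * B ^ 4)).add (bd_const 2)) (f3.mono fun x hx => by
      have p1 := norm_le_norm_add_norm_sub' (D' x)
        ((starRingEnd ℂ) (e x) * ((G x ^ (N + 2) - H x) * (1 - D x)))
      rw [norm_mul, norm_mul, Complex.norm_conj] at p1
      have p2 := mul_le_mul (f1 x) (mul_le_mul_of_nonneg_right (bP x) (norm_nonneg (1 - D x)))
        (by positivity) ((norm_nonneg _).trans (bP x))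
      have p3 : ‖D' x‖ ≤ B ^ 2 * ‖1 - D x‖ + 1 := by nlinarith
      nlinarith [pow_le_pow_left₀ (norm_nonneg _) p3 2, sq_nonneg (B ^ 2 * ‖1 - D x‖ - 1)])
    rw [lin_add, lin_mul, lin_const ρ 2] at this
    nlinarith [mul_le_mul_of_nonneg_left u2 (show 0 ≤ 2 * B ^ 4 by positivity)]
  have a2 : ρ (fun x => ‖(G x ^ (N + 2) - H x) * (1 - D x)‖ ^ 2) ≤ 1 := by
    have := h.mono (bP'.mul bu).sq ((((bu.re_conj (hb D' hD')).cmul 2).add
      (bd_const (2 * |M| * δ))).add ((bP'.sub ⟨B, f1⟩).sq.cmul (M ^ 2))) (f3.mono fun x hx => by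
      set P := G x ^ (N + 2) - H x with hP
      set u := 1 - D x with hu
      have p1 : (u * (starRingEnd ℂ) (D' x)).re = ‖u‖ ^ 2 * (P * (starRingEnd ℂ) (e x)).re +
          (u * (starRingEnd ℂ) (D' x - (starRingEnd ℂ) (e x) * (P * u))).re := by
        simp only [Complex.sq_norm, Complex.normSq_apply, Complex.sub_re, Complex.sub_im,
          Complex.mul_re, Complex.mul_im, Complex.conj_re, Complex.conj_im, map_sub, map_mul,
          Complex.conj_conj]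
        ring
      have p2 := (Complex.abs_re_le_norm (u * (starRingEnd ℂ)
        (D' x - (starRingEnd ℂ) (e x) * (P * u)))).trans (show _ ≤ |M| * δ by
          rw [norm_mul, Complex.norm_conj]
          exact mul_le_mul ((hM x).trans (le_abs_self M)) hx (norm_nonneg _) (abs_nonneg _))
      have p3 := norm_sq_sub_mul P (e x) 1
      rw [Complex.ofReal_one, one_mul] at p3
      have p4 : ‖u‖ ^ 2 ≤ M ^ 2 := pow_le_pow_left₀ (norm_nonneg _) (hM x) 2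
      rw [norm_mul, mul_pow, p1]
      nlinarith [(abs_le.1 p2).1, mul_le_mul_of_nonneg_right p4 (sq_nonneg ‖P - e x‖),
        mul_nonneg (sq_nonneg ‖u‖) (sq_nonneg ‖e x‖)])
    rw [lin_add, lin_add, lin_const ρ (2 * |M| * δ), lin_mul, lin_mul] at this
    have p5 := o2 D' hD'
    nlinarith [mul_le_mul_of_nonneg_left a1 e0.le, mul_le_mul_of_nonneg_left f2 (sq_nonneg M),
      mul_le_mul_of_nonneg_left h1 (show 0 ≤ 2 * |M| * δ by positivity)]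
  have bG : Bd G := ⟨C, hG⟩
  have := h.mono (bG.mul bu).sq ((bu.sq.cmul (b + 2 * C ^ 2 / b ^ (N + 1))).add
    ((bP'.mul bu).sq.cmul (2 / b ^ (N + 1)))) (Eventually.of_forall fun x => by
      have p1 := le_add_pow_div (sq_nonneg ‖G x‖) (show 0 < b by linarith) (N + 1)
      have p2 := norm_le_norm_add_norm_sub' (G x ^ (N + 2)) (H x)
      have p3 : (‖G x‖ ^ 2) ^ (N + 1 + 1) ≤ 2 * C ^ 2 + 2 * ‖G x ^ (N + 2) - H x‖ ^ 2 := by
        rw [← pow_mul, mul_comm, pow_mul, ← norm_pow]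
        have := pow_le_pow_left₀ (norm_nonneg _) (p2.trans (add_le_add_left (hH x) _)) 2
        nlinarith [sq_nonneg (C - ‖G x ^ (N + 2) - H x‖)]
      have p4 := mul_le_mul_of_nonneg_right (p1.trans (add_le_add_right
        (div_le_div_of_nonneg_right p3 (by positivity)) b)) (sq_nonneg ‖1 - D x‖)
      rw [norm_mul, norm_mul, mul_pow, mul_pow]
      exact p4.trans (le_of_eq (by ring)))
  rw [lin_add, lin_mul, lin_mul] at this
  have c1 : 0 ≤ 2 * C ^ 2 / b ^ (N + 1) := by positivity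
  have c2 : 0 ≤ 2 / b ^ (N + 1) := by positivity
  have c3 : (4 * C ^ 2 + 2) / b ^ (N + 1) = 2 * C ^ 2 / b ^ (N + 1) * 2 + 2 / b ^ (N + 1) * 1 := by
    ring
  nlinarith [mul_le_mul_of_nonneg_left u2 c1, mul_le_mul_of_nonneg_left a2 c2,
    mul_le_mul_of_nonneg_left u2 hθ.le]

end

end Pool.Agent.Lib.MP_dfc9b7_an
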