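import Pool.Agent.Lib.MP_dfc9b7_an.Trunc
import Pool.Agent.Lib.MP_dfc9b7_an.State

-- part Pool.Agent.Lib.MP_dfc9b7_an.Tolsa
section

/-! Comparability of analytic capacity and the curvature capacity on grid sets. -/

set_option autoImplicit false
open Finset Metric Filter Topology

namespace Pool.Agent.Lib.MP_dfc9b7_an

noncomputable section

theorem ediv_eq_iff {N a u : ℤ} (hN : 0 < N) : u = a / N ↔ u * N ≤ a ∧ a < u * N + N := by
  have h1 := Int.le_ediv_iff_mul_le (a := u) (b := a) hN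
  have h2 := Int.ediv_lt_iff_lt_mul (a := a) (b := u + 1) hN
  rw [add_mul, one_mul] at h2
  rw [← h1, ← h2]; omega

theorem cell_iff (s : ℤ × ℤ) (j : ℕ) (x : ℤ × ℤ) :
    ∃ c, ∀ y, (gl id s).c j x y ↔ y ∈ sqr c (2 ^ j) := by
  refine ⟨((x.1 + s.1) / 2 ^ j * 2 ^ j - s.1, (x.2 + s.2) / 2 ^ j * 2 ^ j - s.2), fun y => ?_⟩
  have hN : (0 : ℤ) < 2 ^ j := by positivity
  show (x.1 + s.1) / 2 ^ j = (y.1 + s.1) / 2 ^ j ∧ (x.2 + s.2) / 2 ^ j = (y.2 + s.2) / 2 ^ j ↔ _
  rw [ediv_eq_iff hN, ediv_eq_iff hN, mem_sqr]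
  push_cast
  omega

theorem tb_case {C₁ : ℝ} (hC₁ : 1 ≤ C₁) : ∃ c : ℝ, 0 < c ∧ ∀ (Z : Finset (ℤ × ℤ)) (l : ℤ × ℤ → ℝ)
    (E : Set ℂ) (φ : ℤ × ℤ → ℂ → ℂ) (F : ℂ → ℂ) (a : ℂ) (g : ℤ × ℤ → ℝ), PU Z l E φ →
    Nice E F a 1 → (∀ k ∈ Z, 0 < g k ∧ cap (E ∩ closedBall (gp k) (10 * l k)) ≤ g k) →
    ∑ k ∈ Z, g k ≤ C₁ * ‖a‖ → c * ‖a‖ ≤ Gam (XX Z l) gp := by
  have hC := one_le_Cb
  set cb := 21001 * Cb with hcb
  have hcb1 : 1 ≤ cb := by linarith
  set B := 5 * 10 ^ 9 * Cb + 3100000 * Cb ^ 2 with hB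
  have hB1 : 2 ≤ B := by nlinarith
  obtain ⟨c, hc, h⟩ := tb_gam2 (η := 1 / (2 * cb * C₁)) (CR := 10 ^ 11 * Cb) (B := B)
    (by positivity) (div_le_one_of_le₀ (by nlinarith) (by positivity)) (by positivity)
    (by positivity)
  refine ⟨c, hc, fun Z l E φ F a g hpu hF hg hsum => ?_⟩
  have hν : ∀ k ∈ Z, ‖pr F (φ k)‖ ≤ cb * g k := fun k hk =>
    (hpu.pr_le hF hk).trans (mul_le_mul_of_nonneg_left (hg k hk).2 (by positivity))
  have hμν := norm_spr_le (l := l) hν
  have hμ : ∀ y ∈ XX Z l, 0 < sprR Z l (fun k => cb * g k) y := fun y hy =>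
    sprR_pos hpu.wh (fun k hk => mul_pos (by linarith) (hg k hk).1) hy
  have e1 : ∑ y ∈ XX Z l, spr Z l (fun k => pr F (φ k)) y = a := by
    have := sum_spr (Z := Z) (l := l) (fun k => pr F (φ k)) fun _ => 1
    simp only [mul_one] at this
    obtain ⟨U, u1, u2, u3⟩ := hpu.one
    rw [this, sum_congr rfl fun k hk => by
      rw [av_const k (floor_bds (hpu.wh.one k hk)).1, mul_one], ← hF.pr_sum Z hpu.tst,
      hF.pr_one (tst_sum Z hpu.tst) u1 u2 u3]
  have e2 := sum_sprR hpu.wh fun k => cb * g k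
  rw [← mul_sum] at e2
  have hg0 : 0 ≤ ∑ k ∈ Z, g k := sum_nonneg fun k hk => (hg k hk).1.le
  have key := h (XX Z l) (sprR Z l fun k => cb * g k) (spr Z l fun k => pr F (φ k))
    (fun x => ∑ k ∈ Z, cap (E ∩ closedBall (gp k) (10 * l k)) * l k /
        ‖gp x - gp k‖ ^ 2 * ind (fun k => 20 * l k < ‖gp x - gp k‖) k) hμ (fun y _ => hμν y)
    (by
      rw [e1, e2]
      have : 2 * (1 / (2 * cb * C₁)) * (cb * ∑ k ∈ Z, g k) = (∑ k ∈ Z, g k) / C₁ := by field_simp
      rw [this, div_le_iff₀ (by linarith)]; linarith)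
    (fun s j x => by
      obtain ⟨c, hc⟩ := cell_iff s j x
      have := hpu.cell hF c (n := 2 ^ j) Nat.one_le_two_pow
      rw [← sum_spr] at this
      push_cast at this
      refine le_trans (le_of_eq (congrArg norm (sum_congr rfl fun y _ => ?_))) this
      rw [cut_eq_ind, ind_congr (q := fun y => y ∈ sqr c (2 ^ j)) (z := y) (hc y), mul_comm])
    (fun x => sum_nonneg fun k hk => mul_nonneg (div_nonneg (mul_nonneg (cap_nonneg _)
      (hpu.wh.pos hk).le) (by positivity)) (ind_nonneg _ _))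
    (fun τ c hc hτ hgr => by
      simp only [mul_sum]
      rw [sum_comm, ← mul_sum, e2]
      have a1 : ∀ k ∈ Z, ∑ x ∈ XX Z l, τ x * (cap (E ∩ closedBall (gp k) (10 * l k)) * l k /
          ‖gp x - gp k‖ ^ 2 * ind (fun k => 20 * l k < ‖gp x - gp k‖) k) ≤ c * g k := by
        intro k hk
        have k1 := hpu.wh.one k hk
        have b1 := tail_fin (z := gp) hτ (gp k) (c := c) (r := 20 * l k) (by linarith)
          fun t ht => hgr _ t (by linarith)
        have b2 := mul_le_mul (mul_le_mul_of_nonneg_right (hg k hk).2 (by linarith : 0 ≤ l k)) b1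
          (sum_nonneg fun y hy => mul_nonneg (div_nonneg (hτ y hy) (by positivity))
            (ind_nonneg _ _)) (mul_nonneg (hg k hk).1.le (by linarith))
        have e : g k * l k * (4 * c / (20 * l k)) = c * g k / 5 := by field_simp; ring
        rw [e, mul_sum] at b2
        refine le_trans (le_of_eq (sum_congr rfl fun y _ => ?_))
          (b2.trans (by nlinarith [(hg k hk).1]))
        rw [ind_congr (p := fun k => 20 * l k < ‖gp y - gp k‖) (y := k) (z := y)
          (q := fun y => 20 * l k < ‖gp k - gp y‖) (by rw [norm_sub_rev]), norm_sub_rev (gp y)]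
        ring
      refine (sum_le_sum a1).trans ?_
      rw [← mul_sum]
      have : 1 ≤ B * cb := by nlinarith
      nlinarith [mul_nonneg hc hg0])
    (fun x hx c hc hgr r hr => by
      have a1 := hpu.trunc hF (r := r) (by linarith) x
      rw [← sum_spr] at a1
      have a2 : ‖∑ y ∈ XX Z l, cut (fun y => r < ‖gp x - gp y‖) (spr Z l fun k => pr F (φ k)) y *
          (gp x - gp y)⁻¹ - ∑ y ∈ XX Z l, spr Z l (fun k => pr F (φ k)) y *
            kap (gp x) r (gp y)‖ ≤ 2 * c := by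
        rw [← sum_sub_distrib]
        have b1 := hgr (2 * r) (by linarith)
        refine (norm_sum_le _ _).trans ((sum_le_sum (g := fun y => sprR Z l (fun k => cb * g k) y *
          ind (fun y => ‖gp x - gp y‖ ≤ 2 * r) y / r) fun y hy => ?_).trans ?_)
        · have p0 : 0 ≤ sprR Z l (fun k => cb * g k) y *
              ind (fun y => ‖gp x - gp y‖ ≤ 2 * r) y / r :=
            div_nonneg (mul_nonneg (hμ y hy).le (ind_nonneg _ _)) (by linarith)
          by_cases h1 : r < ‖gp x - gp y‖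
          · rw [cut_pos (p := fun y => r < ‖gp x - gp y‖) _ h1, kap]
            by_cases h2 : ‖gp x - gp y‖ ≤ 2 * r
            · rw [ind_pos (p := fun y => ‖gp x - gp y‖ ≤ 2 * r) h2, mul_one, ← mul_sub,
                ← one_sub_mul, sub_sub_cancel, norm_mul, norm_mul, norm_inv, div_eq_mul_inv]
              exact mul_le_mul (hμν y) ((mul_le_of_le_one_left (by positivity)
                (norm_bmp_le _ _ _)).trans (inv_anti₀ (by linarith) h1.le)) (by positivity)
                (hμ y hy).le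
            · rw [bmp_zero (by linarith) (by rw [norm_sub_rev]; linarith), sub_zero, one_mul,
                sub_self, norm_zero]
              exact p0
          · rw [cut_neg (p := fun y => r < ‖gp x - gp y‖) _ h1, kap,
              bmp_one (by linarith) (by rw [norm_sub_rev]; linarith)]
            simpa using p0
        · rw [← sum_div, div_le_iff₀ (by linarith)]
          exact b1.trans (le_of_eq (by ring))
      refine (norm_le_norm_add_norm_sub' _ _).trans ((add_le_add a1 a2).trans ?_)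
      have s0 : 0 ≤ ∑ k ∈ Z, cap (E ∩ closedBall (gp k) (10 * l k)) * l k /
          ‖gp x - gp k‖ ^ 2 * ind (fun k => 20 * l k < ‖gp x - gp k‖) k :=
        sum_nonneg fun k hk => mul_nonneg (div_nonneg (mul_nonneg (cap_nonneg _)
          (hpu.wh.pos hk).le) (by positivity)) (ind_nonneg _ _)
      have s1 : 3100000 * Cb ^ 2 ≤ B := by linarith
      have s2 : 5 * 10 ^ 9 * Cb ≤ B := by nlinarith
      nlinarith [mul_le_mul_of_nonneg_right s1 s0, mul_le_mul_of_nonneg_right hB1 hc])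
  refine le_trans (mul_le_mul_of_nonneg_left ?_ hc.le) key
  rw [← e1]
  exact (norm_sum_le _ _).trans (sum_le_sum fun y _ => hμν y)

theorem cap_le_Gam : ∃ A : ℝ, 0 < A ∧ ∀ P : Finset (ℤ × ℤ), cap (EP P) ≤ A * Gam P gp := by
  classical
  obtain ⟨C, hC, hW⟩ := whitney
  obtain ⟨c, hc, hT⟩ := tb_case (C₁ := 2 * (C + 1)) (by linarith)
  set A := 2 * C / c + 72 * C with hA
  have hA1 : 0 ≤ 2 * C / c := by positivity
  refine ⟨A, by positivity, fun P => ?_⟩
  induction P using Finset.strongInduction with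
  | H P ih =>
  obtain ⟨Z, l, hwh, hZ, hcov, hX, hsum⟩ := hW P
  have hG := Gam_nonneg P gp
  set Pk := fun k => P.filter fun p => ‖gp p - gp k‖ ≤ 11 * l k with hPk
  by_cases h1 : ∑ k ∈ Z, cap (EP (Pk k)) ≤ (C + 1) * cap (EP P)
  · by_cases h0 : cap (EP P) ≤ 0
    · exact h0.trans (by positivity)
    obtain ⟨f, a, hf, a1, a0⟩ := exists_adm_lt (S := EP P) (t := cap (EP P) / 2) (by linarith)
    obtain ⟨φ, hφ⟩ := hwh.exists_pu (E := EP P) fun w hw => by
      obtain ⟨p, hp, h⟩ := mem_EP.1 hw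
      obtain ⟨k, hk, h'⟩ := hcov p hp
      exact ⟨k, hk, by linarith [norm_sub_le_norm_sub_add_norm_sub w (gp p) (gp k), hwh.one k hk]⟩
    have na : ‖(a : ℂ)‖ = a := by rw [Complex.norm_real, Real.norm_of_nonneg a0]
    have b1 := hT Z l _ φ _ a (fun k => cap (EP (Pk k))) hφ (hf.nice (EP_compact P))
      (fun k hk => ⟨lt_of_lt_of_le one_pos (one_le_cap_EP (p := k) (mem_filter.2 ⟨hZ hk, by
        rw [sub_self, norm_zero]; linarith [hwh.pos hk]⟩)),
        cap_mono (fun w hw => by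
          obtain ⟨p, hp, h⟩ := mem_EP.1 hw.1
          have h2 := mem_closedBall_iff_norm.1 hw.2
          have h3 := norm_sub_le_norm_sub_add_norm_sub (gp p) w (gp k)
          rw [norm_sub_rev (gp p) w] at h3
          exact mem_EP.2 ⟨p, mem_filter.2 ⟨hp, by linarith [hwh.one k hk]⟩, h⟩)
          (EP_compact _).isBounded⟩) (by rw [na]; nlinarith)
    have b2 := hX (XX Z l) fun x hx => by
      obtain ⟨k, hk, h⟩ := mem_biUnion.1 hx
      exact ⟨k, hk, by linarith [norm_sqr h, (floor_bds (hwh.one k hk)).2.1]⟩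
    rw [na] at b1
    have b3 : cap (EP P) ≤ 2 * C / c * Gam P gp := by
      rw [div_mul_eq_mul_div, le_div_iff₀ hc]; nlinarith
    nlinarith [mul_nonneg hC.le hG]
  by_cases h2 : ∃ k ∈ Z, Pk k = P
  · obtain ⟨k, hk, e⟩ := h2
    have k1 := hwh.one k hk
    have b1 : cap (EP P) ≤ 12 * l k := cap_le_radius (c := gp k) (by linarith) fun w hw => by
      rw [← e] at hw
      obtain ⟨p, hp, h⟩ := mem_EP.1 hw
      rw [mem_closedBall_iff_norm]
      linarith [norm_sub_le_norm_sub_add_norm_sub w (gp p) (gp k), (mem_filter.1 hp).2]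
    have b2 := (seg_le_Gam k ⌊l k⌋₊).trans (hX _ fun x hx => by
      obtain ⟨t, ht, rfl⟩ := mem_image.1 hx
      have := mem_range.1 ht
      refine ⟨k, hk, (norm_sqr (n := ⌊l k⌋₊) (mem_sqr.2 ?_)).trans
        (by linarith [(floor_bds k1).2.1])⟩
      simp only; omega)
    nlinarith [(floor_bds k1).2.2, mul_nonneg hA1 hG]
  · push Not at h1 h2
    have b1 : ∑ k ∈ Z, cap (EP (Pk k)) ≤ A * ∑ k ∈ Z, Gam (Pk k) gp := by
      rw [mul_sum]
      exact sum_le_sum fun k hk => ih _ (ssubset_of_ne_of_subset (h2 k hk) (filter_subset _ _))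
    have hA0 : 0 ≤ A := by positivity
    have b2 := mul_le_mul_of_nonneg_left hsum hA0
    refine le_of_mul_le_mul_left ?_ (show 0 < C + 1 by linarith)
    nlinarith [mul_nonneg hA0 hG]

theorem cap_EP_union : ∃ C : ℝ, 0 < C ∧ ∀ P Q : Finset (ℤ × ℤ),
    cap (EP P ∪ EP Q) ≤ C * (cap (EP P) + cap (EP Q)) := by
  obtain ⟨A, hA, h⟩ := cap_le_Gam
  refine ⟨A * (6 * 605000), by positivity, fun P Q => ?_⟩
  have e : EP P ∪ EP Q = EP (P ∪ Q) := by
    ext w; simp only [Set.mem_union, mem_EP, mem_union, or_and_right, exists_or]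
  rw [e]
  refine (h _).trans ?_
  rw [mul_assoc]
  exact mul_le_mul_of_nonneg_left ((Gam_union P Q gp).trans
    (by linarith [Gam_le_cap P, Gam_le_cap Q])) hA.le

end

end Pool.Agent.Lib.MP_dfc9b7_an
end

-- part Pool.Agent.Lib.MP_dfc9b7_an.Semi
section

/-! Outer regularity, semiadditivity, and comparability with the inner capacity. -/

set_option autoImplicit false
open Set Metric Filter Topology

namespace Pool.Agent.Lib.MP_dfc9b7_an

noncomputable section

theorem diffOn_of_lim {ι : Type*} {l : Filter ι} [l.NeBot] {F : ι → ℂ → ℂ} {f : ℂ → ℂ}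
    {V : Set ℂ} (hV : IsOpen V) {M : ℝ} (h1 : ∀ z ∈ V, Tendsto (fun n => F n z) l (𝓝 (f z)))
    (h2 : ∀ᶠ n in l, DifferentiableOn ℂ (F n) V ∧ ∀ z ∈ V, ‖F n z‖ ≤ M) :
    DifferentiableOn ℂ f V := by
  refine TendstoLocallyUniformlyOn.differentiableOn (φ := l) (F := F) ?_ (h2.mono fun _ h => h.1) hV
  refine Metric.tendstoLocallyUniformlyOn_iff.2 fun ε hε x hx => ?_
  obtain ⟨d, hd, hb⟩ := Metric.isOpen_iff.1 hV x hx
  set A := |2 * M / d| + 1 with hA
  have hA0 : 0 < A := by positivity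
  have a1 : ∀ᶠ n in l, ∀ y ∈ V, ‖F n y - F n x‖ ≤ A * ‖y - x‖ := by
    filter_upwards [h2] with n hn y hy
    have := dslope_bound hd hb (hn.1.mono hb) hn.2 hy
    rw [← sub_smul_dslope (F n) x y, norm_smul, mul_comm]
    exact mul_le_mul_of_nonneg_right (by linarith [le_abs_self (2 * M / d)]) (norm_nonneg _)
  have a2 : ∀ y ∈ V, ‖f y - f x‖ ≤ A * ‖y - x‖ := fun y hy =>
    le_of_tendsto ((h1 y hy).sub (h1 x hx)).norm (a1.mono fun n hn => hn y hy)
  refine ⟨V ∩ ball x (ε / (3 * A)), inter_mem_nhdsWithin _ (ball_mem_nhds _ (by positivity)), ?_⟩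
  filter_upwards [a1, Metric.tendsto_nhds.1 (h1 x hx) (ε / 3) (by positivity)] with n h3 h4 y hy
  have b1 : A * ‖y - x‖ < ε / 3 := by
    have := mem_ball_iff_norm.1 hy.2
    rw [lt_div_iff₀ (by positivity)] at this; linarith
  rw [dist_eq_norm] at h4 ⊢
  have e : f y - F n y = (f y - f x) - (F n x - f x) - (F n y - F n x) := by ring
  rw [e]
  linarith [norm_sub_le ((f y - f x) - (F n x - f x)) (F n y - F n x),
    norm_sub_le (f y - f x) (F n x - f x), a2 y hy.1, h3 y hy.1]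

theorem exists_ulim (u : ℕ → ℂ) {R : ℝ} (h : ∀ n, ‖u n‖ ≤ R) :
    ∃ a, Tendsto u (hyperfilter ℕ) (𝓝 a) := by
  obtain ⟨a, _, ha⟩ := (isCompact_closedBall (0 : ℂ) R).ultrafilter_le_nhds
    ((hyperfilter ℕ).map u) (by
      rw [le_principal_iff]
      exact mem_map.2 (Eventually.of_forall fun n => by simpa using h n))
  exact ⟨a, ha⟩

theorem cap_outer {S : Set ℂ} (hS : IsCompact S) {ε : ℝ} (hε : 0 < ε) :
    ∃ δ, 0 < δ ∧ cap (cthickening δ S) ≤ cap S + ε := by
  by_contra hc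
  push Not at hc
  have h1 : ∀ n : ℕ, ∃ f, ∃ a : ℝ, Nice (cthickening (1 / (n + 1)) S) f a 1 ∧ cap S + ε < a :=
    fun n => by
      obtain ⟨f, a, h1, h2, _⟩ := exists_adm_lt (hc (1 / (n + 1)) (by positivity))
      exact ⟨_, a, h1.nice hS.cthickening, h2⟩
  choose f a hf ha using h1
  obtain ⟨R, hR, hs⟩ := (hS.isBounded.cthickening (δ := 1)).subset_closedBall_lt 0 0
  have hs' : ∀ n : ℕ, cthickening (1 / (n + 1)) S ⊆ closedBall 0 R := fun n =>
    (cthickening_mono (div_le_one_of_le₀ (by linarith [Nat.cast_nonneg (α := ℝ) n])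
      (by positivity)) S).trans hs
  choose g hg using fun z => exists_ulim (fun n => f n z) fun n => (hf n).bd z
  obtain ⟨A, hA⟩ := exists_ulim (fun n => (a n : ℂ)) fun n => (hf n).adm.norm_le_radius hR (hs' n)
  have h2 : Adm S g A 1 := by
    refine ⟨fun z hz => ?_, fun z _ => le_of_tendsto' (hg z).norm fun n => (hf n).bd z, ?_⟩
    · obtain ⟨d, hd, hz'⟩ : ∃ d, 0 < d ∧ z ∉ cthickening d S := by
        by_contra h
        push Not at h
        refine hz ?_
        rw [← hS.isClosed.closure_eq, closure_eq_iInter_cthickening]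
        exact mem_iInter₂.2 h
      refine ((diffOn_of_lim isClosed_cthickening.isOpen_compl (M := 1) (fun z _ => hg z)
        ?_).differentiableAt (isClosed_cthickening.isOpen_compl.mem_nhds hz')).differentiableWithinAt
      filter_upwards [Nat.hyperfilter_le_atTop
        ((tendsto_one_div_add_atTop_nhds_zero_nat (𝕜 := ℝ)).eventually (ge_mem_nhds hd))] with n hn
      exact ⟨(hf n).adm.diff.mono (compl_subset_compl.2 (cthickening_mono hn S)),
        fun z _ => (hf n).bd z⟩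
    · have b1 : ∀ z, R < ‖z - 0‖ → ‖(z - 0) * (z * g z - A)‖ ≤ 2 * 1 * R ^ 2 := fun z hz => by
        refine le_of_tendsto' ((((hg z).const_mul z).sub hA).const_mul (z - 0)).norm fun n => ?_
        obtain ⟨_, _, _, h⟩ := ext_coef2 (c := 0) hR ((hf n).adm.diff.mono (ext_subset (hs' n) le_rfl))
          (fun z _ => (hf n).bd z) (hf n).adm.lim
        simpa using h z hz
      simpa using (tendsto_of_norm_le_div b1).add_const A
  have h3 := h2.le_cap_one hS.isBounded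
  have h4 : cap S + ε ≤ ‖A‖ := ge_of_tendsto' hA.norm fun n => by
    rw [Complex.norm_real]; exact (ha n).le.trans (le_abs_self _)
  linarith

theorem cap_le_scale {S : Set ℂ} (hS : Bornology.IsBounded S) {t : ℂ} (ht : t ≠ 0) :
    cap S ≤ ‖t‖ * cap ((fun w => t * w) ⁻¹' S) := by
  have h0 := norm_pos_iff.2 ht
  refine cap_le (mul_nonneg h0.le (cap_nonneg _)) fun f a hf => ?_
  have h1 : Adm ((fun w => t * w) ⁻¹' S) (fun w => f (t * w)) (a / t) 1 := by
    refine ⟨hf.diff.comp (differentiableOn_id.const_mul t) fun w hw => hw,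
      fun w hw => hf.bd _ hw, ?_⟩
    have h2 : Tendsto (fun w => t * w) (cocompact ℂ) (cocompact ℂ) :=
      (Homeomorph.mulLeft₀ t ht).toCocompactMap.cocompact_tendsto'
    refine ((hf.lim.comp h2).div_const t).congr fun w => ?_
    simp only [Function.comp]; field_simp
  obtain ⟨R, hR⟩ := hS.subset_closedBall 0
  have h3 := h1.le_cap_one ((isBounded_closedBall (x := (0 : ℂ)) (r := R / ‖t‖)).subset
    fun w hw => by
      have := hR hw
      rw [mem_closedBall_zero_iff, norm_mul] at this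
      rw [mem_closedBall_zero_iff, le_div_iff₀ h0]; linarith)
  rwa [norm_div, div_le_iff₀ h0, mul_comm] at h3

theorem exists_EP {S : Set ℂ} (hS : Bornology.IsBounded S) :
    ∃ P, S ⊆ EP P ∧ EP P ⊆ cthickening 2 S := by
  classical
  obtain ⟨R, hR⟩ := hS.subset_closedBall (gp 0)
  obtain ⟨Q, _, hQ⟩ := exists_nb {0} (R + 1)
  refine ⟨Q.filter fun p => ∃ w ∈ S, ‖w - gp p‖ ≤ 1, fun w hw => mem_EP.2 ⟨rq w,
    Finset.mem_filter.2 ⟨hQ 0 (by simp) _ ?_, w, hw, (norm_sub_rq w).le⟩, (norm_sub_rq w).le⟩,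
    fun u hu => ?_⟩
  · have h1 := mem_closedBall_iff_norm.1 (hR hw)
    have h2 := norm_sub_le_norm_sub_add_norm_sub (gp (rq w)) w (gp 0)
    rw [norm_sub_rev (gp (rq w)) w] at h2
    linarith [norm_sub_rq w]
  · obtain ⟨p, hp, h1⟩ := mem_EP.1 hu
    obtain ⟨w, hw, h2⟩ := (Finset.mem_filter.1 hp).2
    refine mem_cthickening_of_dist_le u w 2 S hw ?_
    have h3 := norm_sub_le_norm_sub_add_norm_sub u (gp p) w
    rw [norm_sub_rev (gp p) w] at h3
    rw [dist_eq_norm]; linarith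

theorem cap_union : ∃ C : ℝ, 0 < C ∧ ∀ A B : Set ℂ, IsCompact A → IsCompact B →
    cap (A ∪ B) ≤ C * (cap A + cap B) := by
  obtain ⟨C, hC, h⟩ := cap_EP_union
  refine ⟨C, hC, fun A B hA hB => le_of_forall_pos_le_add fun ε hε => ?_⟩
  obtain ⟨d1, p1, q1⟩ := cap_outer hA (ε := ε / (2 * C)) (by positivity)
  obtain ⟨d2, p2, q2⟩ := cap_outer hB (ε := ε / (2 * C)) (by positivity)
  set t := min d1 d2 / 3 with ht
  have ht0 : 0 < t := by positivity
  have htc : (t : ℂ) ≠ 0 := by exact_mod_cast ht0.ne'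
  have nt : ‖(t : ℂ)‖ = t := by rw [Complex.norm_real, Real.norm_of_nonneg ht0.le]
  have key : ∀ S : Set ℂ, IsCompact S → ∃ P, (fun w : ℂ => (t : ℂ) * w) ⁻¹' S ⊆ EP P ∧
      t * cap (EP P) ≤ cap (cthickening (3 * t) S) := fun S hS => by
    have hc : IsCompact ((fun w => (t : ℂ) * w) ⁻¹' S) :=
      (Homeomorph.mulLeft₀ (t : ℂ) htc).isCompact_preimage.2 hS
    obtain ⟨P, h1, h2⟩ := exists_EP hc.isBounded
    refine ⟨P, h1, ?_⟩
    have h3 := cap_le_scale (EP_compact P).isBounded (inv_ne_zero htc)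
    rw [norm_inv, nt, le_inv_mul_iff₀ ht0] at h3
    refine h3.trans (cap_mono (fun w hw => ?_) hS.isBounded.cthickening)
    obtain ⟨u, hu, h4⟩ := mem_thickening_iff.1 (cthickening_subset_thickening' (δ₂ := 3)
      (by norm_num) (by norm_num) _ (h2 hw))
    refine mem_cthickening_of_dist_le w (t * u) _ S hu ?_
    rw [dist_eq_norm] at h4 ⊢
    have e : w - t * u = t * ((t : ℂ)⁻¹ * w - u) := by field_simp
    rw [e, norm_mul, nt]; nlinarith
  obtain ⟨P, a1, a2⟩ := key A hA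
  obtain ⟨Q, b1, b2⟩ := key B hB
  have c1 := cap_le_scale (hA.union hB).isBounded htc
  rw [nt, preimage_union] at c1
  have c2 := (cap_mono (union_subset_union a1 b1) ((EP_compact P).union
    (EP_compact Q)).isBounded).trans (h P Q)
  have c3 := a2.trans ((cap_mono (cthickening_mono (show 3 * t ≤ d1 by
    linarith [min_le_left d1 d2]) A) hA.isBounded.cthickening).trans q1)
  have c4 := b2.trans ((cap_mono (cthickening_mono (show 3 * t ≤ d2 by
    linarith [min_le_right d1 d2]) B) hB.isBounded.cthickening).trans q2)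
  have c5 := mul_le_mul_of_nonneg_left c2 ht0.le
  have c6 := mul_le_mul_of_nonneg_left (add_le_add c3 c4) hC.le
  have e : C * (cap A + ε / (2 * C) + (cap B + ε / (2 * C))) = C * (cap A + cap B) + ε := by
    field_simp; ring
  nlinarith

/-- Inner capacity. -/
def gs (S : Set ℂ) : ℝ := sSup {t : ℝ | ∃ L : Set ℂ, IsCompact L ∧ L ⊆ S ∧ t = cap L}

theorem gs_nonneg (S : Set ℂ) : 0 ≤ gs S :=
  Real.sSup_nonneg fun _ ⟨_, _, _, h⟩ => h ▸ cap_nonneg _

theorem gs_le {S : Set ℂ} {c : ℝ} (hc : 0 ≤ c) (h : ∀ L, IsCompact L → L ⊆ S → cap L ≤ c) :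
    gs S ≤ c := Real.sSup_le (fun _ ⟨L, h1, h2, h3⟩ => h3 ▸ h L h1 h2) hc

theorem le_gs {S L : Set ℂ} (hS : Bornology.IsBounded S) (h1 : IsCompact L) (h2 : L ⊆ S) :
    cap L ≤ gs S :=
  le_csSup ⟨cap S, fun _ ⟨_, _, h2, h3⟩ => h3 ▸ cap_mono h2 hS⟩ ⟨L, h1, h2, rfl⟩

theorem gs_le_cap {S : Set ℂ} (hS : Bornology.IsBounded S) : gs S ≤ cap S :=
  gs_le (cap_nonneg _) fun _ _ h => cap_mono h hS

theorem gs_mono {S T : Set ℂ} (h : S ⊆ T) (hT : Bornology.IsBounded T) : gs S ≤ gs T :=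
  gs_le (gs_nonneg _) fun _ h1 h2 => le_gs hT h1 (h2.trans h)

theorem cap_le_gs : ∃ C : ℝ, 1 ≤ C ∧ ∀ K E : Set ℂ, IsCompact K → cap K = 0 → IsCompact E →
    cap E ≤ C * gs (E \ K) := by
  obtain ⟨C, hC, h⟩ := cap_union
  refine ⟨C + 1, by linarith, fun K E hK h0 hE => le_of_forall_pos_le_add fun ε hε => ?_⟩
  obtain ⟨d, p, q⟩ := cap_outer hK (ε := ε / C) (by positivity)
  have h1 : IsCompact (E \ thickening d K) := hE.diff isOpen_thickening
  have h2 := (cap_mono (S := E) (fun w hw => by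
    by_cases h : w ∈ thickening d K
    · exact Or.inr (thickening_subset_cthickening _ _ h)
    · exact Or.inl ⟨hw, h⟩) (h1.union hK.cthickening).isBounded).trans (h _ _ h1 hK.cthickening)
  have h3 := le_gs (hE.isBounded.subset sdiff_subset) h1
    (sdiff_subset_sdiff_right (self_subset_thickening p K))
  have h4 := mul_le_mul_of_nonneg_left (add_le_add h3 q) hC.le
  have e : C * (gs (E \ K) + (cap K + ε / C)) = C * gs (E \ K) + ε := by
    rw [h0]; field_simp; ring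
  nlinarith [gs_nonneg (E \ K)]

end

end Pool.Agent.Lib.MP_dfc9b7_an
end

-- part Pool.Agent.Lib.MP_dfc9b7_an.Vit
section

/-! Localization on a grid and matching of two coefficients. -/

set_option autoImplicit false
open Set Metric Filter Topology

namespace Pool.Agent.Lib.MP_dfc9b7_an

noncomputable section

theorem grid_sum_le (J : Finset (ℤ × ℤ)) {β ρ c : ℝ} (hβ : 0 < β) (hρ : 0 ≤ ρ) (hc : 0 ≤ c) (w : ℂ)
    (f : ℤ × ℤ → ℝ) (h1 : ∀ j ∈ J, f j ≤ c) (h2 : ∀ j ∈ J, ρ * β < ‖w - β * gp j‖ → f j ≤ 0) :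
    ∑ j ∈ J, f j ≤ (2 * ρ + 1) ^ 2 * c := by
  classical
  have a1 := packing (J.filter fun j => ‖w - β * gp j‖ ≤ ρ * β) (fun j => β * gp j) w (δ := β)
    (R := ρ * β) hβ (by positivity) (fun i _ j _ hij => by
      rw [← mul_sub, norm_mul, Complex.norm_real, Real.norm_of_nonneg hβ.le]
      nlinarith [gp_sep hij]) fun i hi => by rw [norm_sub_rev]; exact (Finset.mem_filter.1 hi).2
  have e : 2 * (ρ * β) / β = 2 * ρ := by field_simp
  rw [e] at a1
  rw [← Finset.sum_filter_add_sum_filter_not J fun j => ‖w - β * gp j‖ ≤ ρ * β]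
  have a2 := Finset.sum_le_card_nsmul (J.filter fun j => ‖w - β * gp j‖ ≤ ρ * β) f c
    fun k hk => h1 k (Finset.mem_filter.1 hk).1
  have a3 : ∑ k ∈ J.filter fun j => ¬ ‖w - β * gp j‖ ≤ ρ * β, f k ≤ 0 :=
    Finset.sum_nonpos fun k hk => h2 k (Finset.mem_filter.1 hk).1
      (not_le.1 (Finset.mem_filter.1 hk).2)
  rw [nsmul_eq_mul] at a2
  nlinarith

theorem decomp {E : Set ℂ} {F : ℂ → ℂ} {a : ℂ} (hF : Nice E F a 1) {β : ℝ} (hβ : 0 < β) :
    ∃ (J : Finset (ℤ × ℤ)) (f : ℤ × ℤ → ℂ → ℂ) (α : ℤ × ℤ → ℂ),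
      (∀ j ∈ J, Adm (E ∩ closedBall (β * gp j) (2 * β)) (f j) (α j) (151 * Cb)) ∧
      (∀ j ∈ J, ∀ z, ‖f j z‖ ≤ 151 * Cb) ∧ (∀ z, ∑ j ∈ J, f j z = F z) ∧ ∑ j ∈ J, α j = a := by
  obtain ⟨R, hR⟩ := hF.cpt.isBounded.subset_closedBall 0
  obtain ⟨J, _, hJ⟩ := exists_nb {0} (R / β + 1)
  obtain ⟨φ, p1, p2, p3, p4, p5⟩ := exists_pu J (fun j => β * gp j) (fun _ => β) fun _ _ => hβ
  have hC := one_le_Cb
  have hβ' : (β : ℂ) ≠ 0 := by exact_mod_cast hβ.ne'
  have nβ : ‖(β : ℂ)‖ = β := by rw [Complex.norm_real, Real.norm_of_nonneg hβ.le]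
  have hd : ∀ j ∈ J, ∀ w, ‖dbar (φ j) w‖ ≤ 25 * Cb / β := fun j hj w => by
    refine (p4 j hj w).trans ((grid_sum_le J hβ zero_le_two (c := Cb / β) (by positivity) w _
      (fun i _ => indicator_le_self' (fun _ _ => by positivity) w) fun i _ h => ?_).trans
      (le_of_eq (by ring)))
    rw [indicator_of_notMem (by rw [mem_closedBall_iff_norm]; linarith)]
  have e : 1 * (1 + 3 * (25 * Cb / β) * (2 * β)) ≤ 151 * Cb := by
    have : 3 * (25 * Cb / β) * (2 * β) = 150 * Cb := by field_simp; ring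
    rw [this]; linarith
  have u1 : IsOpen (⋃ j ∈ J, ball (β * gp j) β) := isOpen_biUnion fun _ _ => isOpen_ball
  have u2 : E ⊆ ⋃ j ∈ J, ball (β * gp j) β := fun w hw => by
    have h1 := norm_sub_rq (w / β)
    have h2 : ‖w / β‖ ≤ R / β := by
      rw [norm_div, nβ]; exact div_le_div_of_nonneg_right (by simpa using hR hw) hβ.le
    refine mem_biUnion (Finset.mem_coe.2 (hJ 0 (by simp) (rq (w / β)) ?_)) ?_
    · have h3 := norm_sub_le (w / β) (w / β - gp (rq (w / β)))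
      rw [sub_sub_cancel] at h3
      have : gp 0 = 0 := by simp [gp]
      rw [this, sub_zero]; linarith
    · have e : w - β * gp (rq (w / β)) = β * (w / β - gp (rq (w / β))) := by field_simp
      rw [mem_ball_iff_norm, e, norm_mul, nβ]; nlinarith
  have u3 : ∀ w ∈ ⋃ j ∈ J, ball (β * gp j) β, ∑ j ∈ J, φ j w = 1 := fun w hw => by
    obtain ⟨k, hk, h1⟩ := mem_iUnion₂.1 hw
    rw [p5, prod_bmp_zero J (fun j => β * gp j) (fun _ => β) hk hβ (mem_ball_iff_norm.1 h1).le,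
      sub_zero]
  refine ⟨J, fun j => Tl F (φ j), fun j => pr F (φ j), fun j hj => ?_, fun j hj z => ?_,
    fun z => ?_, ?_⟩
  · exact ((hF.Tl_adm (p1 j hj) (by linarith) (p3 j) (hd j hj) (p2 j hj)).mono
      (inter_subset_inter_right _ (p2 j hj))).mono_bd e
  · exact (hF.Tl_bound (p1 j hj) (by linarith) (p3 j) (hd j hj) (p2 j hj) z).trans e
  · rw [← hF.Tl_sum J p1, hF.Tl_one (tst_sum J p1) u1 u2 u3]
  · rw [← hF.pr_sum J p1, hF.pr_one (tst_sum J p1) u1 u2 u3]

theorem adm_sum {ι : Type*} (J : Finset ι) {L : ι → Set ℂ} {t : ι → ℂ → ℂ} {α : ι → ℂ}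
    {M : ι → ℝ} (h : ∀ j ∈ J, Adm (L j) (t j) (α j) (M j)) {T : Set ℂ} (hT : ∀ j ∈ J, L j ⊆ T)
    {B : ℝ} (hb : ∀ z ∈ Tᶜ, ‖∑ j ∈ J, t j z‖ ≤ B) :
    Adm T (fun z => ∑ j ∈ J, t j z) (∑ j ∈ J, α j) B :=
  ⟨DifferentiableOn.fun_sum fun j hj => ((h j hj).mono (hT j hj)).diff, hb, by
    simp only [Finset.mul_sum]
    exact tendsto_finsetSum _ fun j hj => (h j hj).lim⟩

theorem lim2_sum {ι : Type*} (J : Finset ι) {t : ι → ℂ → ℂ} {α b : ι → ℂ}
    (h : ∀ j ∈ J, Lim2 (t j) (α j) (b j)) :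
    Lim2 (fun z => ∑ j ∈ J, t j z) (∑ j ∈ J, α j) (∑ j ∈ J, b j) :=
  (tendsto_finsetSum J h).congr fun z => by
    simp only [Finset.mul_sum, ← Finset.sum_sub_distrib]

theorem Lim2.congr {f g : ℂ → ℂ} {a b : ℂ} (h : Lim2 f a b) {S : Set ℂ} (hS : IsCompact S)
    (e : ∀ z ∈ Sᶜ, g z = f z) : Lim2 g a b :=
  Tendsto.congr' (by filter_upwards [hS.compl_mem_cocompact] with z hz; rw [e z hz]) h

theorem adm_grid (J : Finset (ℤ × ℤ)) {β M : ℝ} (hβ : 0 < β) (hM : 0 ≤ M) {L : ℤ × ℤ → Set ℂ}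
    {t : ℤ × ℤ → ℂ → ℂ} {α : ℤ × ℤ → ℂ} (h : ∀ j ∈ J, Adm (L j) (t j) (α j) M)
    (h1 : ∀ j ∈ J, IsCompact (L j)) (h2 : ∀ j ∈ J, L j ⊆ closedBall (β * gp j) (2 * β)) :
    Adm (⋃ j ∈ J, L j) (fun z => ∑ j ∈ J, t j z) (∑ j ∈ J, α j)
      (M * (4761 + (∑ j ∈ J, cap (L j)) / (16 * β))) := by
  have hT : ∀ j ∈ J, L j ⊆ ⋃ j ∈ J, L j := fun j hj => subset_biUnion_of_mem (u := L) hj
  refine adm_sum J h hT fun z hz => ?_
  have a1 : ∀ j ∈ J, ‖t j z‖ ≤ M * ind (fun j => ‖z - β * gp j‖ ≤ 34 * β) j +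
      M * (cap (L j) / (16 * β)) := fun j hj => by
    have c0 := cap_nonneg (L j)
    by_cases hj' : ‖z - β * gp j‖ ≤ 34 * β
    · rw [ind_pos (p := fun j => ‖z - β * gp j‖ ≤ 34 * β) hj', mul_one]
      exact ((h j hj).bd z fun h => hz (hT j hj h)).trans (le_add_of_nonneg_right (by positivity))
    · rw [ind_neg (p := fun j => ‖z - β * gp j‖ ≤ 34 * β) hj', mul_zero, zero_add]
      refine ((h j hj).norm_le_cap (h1 j hj) (d := 32 * β) (by linarith) fun w hw hw' => ?_).trans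
        (le_of_eq (by field_simp; ring))
      have b1 := mem_closedBall_iff_norm.1 (h2 j hj hw')
      have b2 := mem_ball_iff_norm'.1 hw
      linarith [norm_sub_le_norm_sub_add_norm_sub z w (β * gp j)]
  refine (norm_sum_le _ _).trans ((Finset.sum_le_sum a1).trans ?_)
  rw [Finset.sum_add_distrib, ← Finset.mul_sum, ← Finset.mul_sum, ← Finset.sum_div, ← mul_add]
  refine mul_le_mul_of_nonneg_left (add_le_add_left ((grid_sum_le J hβ (ρ := 34) (by norm_num)
    zero_le_one z _ (fun _ _ => (ind_U01 _ _).2) fun j _ h => (ind_neg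
      (p := fun j => ‖z - β * gp j‖ ≤ 34 * β) (not_le.2 h)).le).trans (by norm_num)) _) hM

theorem exists_adm_gs {S : Set ℂ} (h : 0 < gs S) :
    ∃ L f, ∃ a : ℝ, IsCompact L ∧ L ⊆ S ∧ Adm L f a 1 ∧ gs S / 2 < a := by
  obtain ⟨_, ⟨L, h1, h2, rfl⟩, h3⟩ := exists_lt_of_lt_csSup (s := {t : ℝ | ∃ L : Set ℂ,
    IsCompact L ∧ L ⊆ S ∧ t = cap L}) ⟨_, ∅, isCompact_empty, empty_subset _, rfl⟩ (half_lt_self h)
  obtain ⟨f, a, h4, h5, _⟩ := exists_adm_lt h3
  exact ⟨L, f, a, h1, h2, h4, h5⟩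

theorem pick {S : Set ℂ} {a : ℂ} {M : ℝ} (hM : 0 ≤ M) (h : ‖a‖ ≤ M * gs S) :
    ∃ L t, IsCompact L ∧ L ⊆ S ∧ Adm L t a (2 * M) := by
  rcases (gs_nonneg S).eq_or_lt with h0 | h0
  · rw [← h0, mul_zero, norm_le_zero_iff] at h
    subst h
    exact ⟨∅, fun _ => 0, isCompact_empty, empty_subset _, (adm_zero _).mono_bd (by linarith)⟩
  obtain ⟨L, f, a0, h1, h2, h3, h4⟩ := exists_adm_gs h0
  have h5 : 0 < a0 := by linarith
  have h6 := h3.const_mul (a / a0)
  rw [div_mul_cancel₀ _ (by exact_mod_cast h5.ne')] at h6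
  refine ⟨L, _, h1, h2, h6.mono_bd ?_⟩
  rw [mul_one, norm_div, Complex.norm_real, Real.norm_of_nonneg h5.le, div_le_iff₀ h5]
  nlinarith

theorem local_approx : ∃ C : ℝ, 1 ≤ C ∧ ∀ (K E : Set ℂ) (h : ℂ → ℂ) (a b : ℂ), IsCompact K →
    cap K = 0 → IsCompact E → Adm E h a 1 → Lim2 h a b →
    ∃ L g, IsCompact L ∧ L ⊆ E \ K ∧ Adm L g a C ∧ Lim2 g a b := by
  obtain ⟨C, hC, hcap⟩ := cap_le_gs
  have hCb := one_le_Cb
  set M := 151 * Cb * C with hM
  have hM1 : 1 ≤ M := by nlinarith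
  refine ⟨2 * C + 2 * (2000000 * M), by linarith, fun K E h a b hK hK0 hE hh hb => ?_⟩
  have hS : Bornology.IsBounded (E \ K) := hE.isBounded.subset sdiff_subset
  have ha := (hh.le_cap_one hE.isBounded).trans (hcap K E hK hK0 hE)
  rcases (gs_nonneg (E \ K)).eq_or_lt with h0 | h0
  · have c0 := hcap K E hK hK0 hE
    rw [← h0, mul_zero] at ha c0
    obtain rfl := norm_le_zero_iff.1 ha
    refine ⟨∅, fun _ => 0, isCompact_empty, empty_subset _, (adm_zero _).mono_bd (by linarith),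
      hb.congr hE fun z hz => ?_⟩
    obtain ⟨d, hd, hd'⟩ := Metric.isOpen_iff.1 hE.isClosed.isOpen_compl z hz
    have := hh.norm_le_cap hE hd hd'
    rw [le_antisymm c0 (cap_nonneg E), mul_zero, zero_div, norm_le_zero_iff] at this
    exact this.symm
  set γ := gs (E \ K) with hγ
  obtain ⟨L0, f0, a0, l1, l2, l3, l4⟩ := exists_adm_gs h0
  have a00 : 0 < a0 := by linarith
  have a0c : (a0 : ℂ) ≠ 0 := by exact_mod_cast a00.ne'
  have na0 : ‖(a0 : ℂ)‖ = a0 := by rw [Complex.norm_real, Real.norm_of_nonneg a00.le]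
  obtain ⟨R, hR, hER⟩ := hE.isBounded.subset_closedBall_lt 0 0
  obtain ⟨b0, hb0, _⟩ := l3.coef2 l1 hR (l2.trans (sdiff_subset.trans hER))
  set NS := {t : ℝ | ∃ L g b, IsCompact L ∧ L ⊆ E \ K ∧ Adm L g 0 1 ∧ Lim2 g 0 b ∧ t = ‖b‖} with hNS
  have hbdd : BddAbove NS := ⟨16 * 1 * R * R, fun _ ⟨L, g, b, p1, p2, p3, p4, p5⟩ => by
    obtain ⟨b', q1, q2⟩ := p3.coef2 p1 hR (p2.trans (sdiff_subset.trans hER))
    rw [p5, tendsto_nhds_unique p4 q1]
    rw [mul_zero, sub_zero] at q2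
    exact q2.trans (mul_le_mul_of_nonneg_left
      (cap_le_radius hR (p2.trans (sdiff_subset.trans hER))) (by positivity))⟩
  set N := sSup NS with hN
  have hN1 : ∀ L g b (B : ℝ), IsCompact L → L ⊆ E \ K → 0 < B → Adm L g 0 B → Lim2 g 0 b →
      ‖b‖ ≤ B * N := fun L g b B p1 p2 p3 p4 p5 => by
    have nB : ‖((B⁻¹ : ℝ) : ℂ)‖ = B⁻¹ := by
      rw [Complex.norm_real, Real.norm_of_nonneg (by positivity)]
    have q1 := p4.const_mul ((B⁻¹ : ℝ) : ℂ)
    have q2 := p5.const_mul ((B⁻¹ : ℝ) : ℂ)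
    rw [mul_zero] at q1 q2
    rw [nB, inv_mul_cancel₀ p3.ne'] at q1
    have := le_csSup hbdd ⟨L, _, _, p1, p2, q1, q2, rfl⟩
    rwa [norm_mul, nB, inv_mul_le_iff₀ p3] at this
  have hN2 : γ ^ 2 / 4 ≤ N := by
    have q1 : Adm L0 (fun z => f0 z * f0 z) 0 1 := ⟨l3.diff.mul l3.diff, fun z hz => by
      rw [norm_mul]; exact mul_le_one₀ (l3.bd z hz) (norm_nonneg _) (l3.bd z hz), by
      simpa [mul_assoc] using l3.lim.mul (tendsto_zero_of_mul l3.lim)⟩
    have q2 : Lim2 (fun z => f0 z * f0 z) 0 (a0 * a0) :=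
      (l3.lim.mul l3.lim).congr fun z => by ring
    have := hN1 _ _ _ 1 l1 l2 one_pos q1 q2
    rw [norm_mul, na0] at this
    nlinarith
  have hN0 : 0 < N := lt_of_lt_of_le (by positivity) hN2
  have hlam : ∀ L g a' b' (B : ℝ), IsCompact L → L ⊆ E \ K → 0 < B → Adm L g a' B →
      Lim2 g a' b' → ‖b' - a' / a0 * b0‖ ≤ 3 * B * N := fun L g a' b' B p1 p2 p3 p4 p5 => by
    have q1 := (p4.mono subset_union_left).sub ((l3.const_mul (a' / a0)).mono subset_union_right)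
    have q2 := p5.sub (hb0.const_mul (a' / a0))
    rw [div_mul_cancel₀ _ a0c, sub_self] at q1 q2
    refine hN1 _ _ _ _ (p1.union l1) (union_subset p2 l2) (by linarith) (q1.mono_bd ?_) q2
    have q3 := (p4.le_cap p1.isBounded p3.le).trans
      (mul_le_mul_of_nonneg_left (le_gs hS p1 p2) p3.le)
    have : ‖a' / a0‖ ≤ 2 * B := by rw [norm_div, na0, div_le_iff₀ a00]; nlinarith
    linarith
  set β := N / γ with hβ
  have hβ0 : 0 < β := by positivity
  have hβγ : γ ≤ 4 * β := by rw [hβ, ← mul_div_assoc, le_div_iff₀ h0]; nlinarith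
  have hβN : β * γ = N := div_mul_cancel₀ _ h0.ne'
  obtain ⟨J, f, α, d1, _, d3, d4⟩ := decomp (hh.nice hE) hβ0
  set Ej := fun j : ℤ × ℤ => E ∩ closedBall (β * gp j) (2 * β) with hEj
  have e1 : ∀ j, IsCompact (Ej j) := fun j => hE.inter_right isClosed_closedBall
  have e2 : ∀ j, Ej j \ K ⊆ E \ K := fun j => sdiff_subset_sdiff_left inter_subset_left
  have e3 : ∀ j, Ej j \ K ⊆ closedBall (β * gp j) (2 * β) := fun j =>
    sdiff_subset.trans inter_subset_right
  have e4 : ∀ j, Bornology.IsBounded (Ej j \ K) := fun j => hS.subset (e2 j)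
  set G := ∑ j ∈ J, gs (Ej j \ K) with hG
  have hG0 : 0 ≤ G := Finset.sum_nonneg fun _ _ => gs_nonneg _
  have main : ∀ (α : ℤ × ℤ → ℂ) (B : ℝ), 0 ≤ B → (∀ j ∈ J, ‖α j‖ ≤ B * gs (Ej j \ K)) →
      ∃ (L : ℤ × ℤ → Set ℂ) (t : ℤ × ℤ → ℂ → ℂ), (∀ j ∈ J, IsCompact (L j) ∧ L j ⊆ Ej j \ K ∧
        Adm (L j) (t j) (α j) (2 * B)) ∧ IsCompact (⋃ j ∈ J, L j) ∧ (⋃ j ∈ J, L j) ⊆ E \ K ∧
        Adm (⋃ j ∈ J, L j) (fun z => ∑ j ∈ J, t j z) (∑ j ∈ J, α j)
          (2 * B * (4761 + G / (16 * β))) := fun α B hB hα => by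
    choose! L t p1 p2 p3 using fun j hj => pick hB (hα j hj)
    refine ⟨L, t, fun j hj => ⟨p1 j hj, p2 j hj, p3 j hj⟩, J.isCompact_biUnion p1,
      iUnion₂_subset fun j hj => (p2 j hj).trans (e2 j),
      (adm_grid J hβ0 (by linarith) p3 p1 fun j hj => (p2 j hj).trans (e3 j)).mono_bd ?_⟩
    exact mul_le_mul_of_nonneg_left (add_le_add_right (div_le_div_of_nonneg_right
      (Finset.sum_le_sum fun j hj => le_gs (e4 j) (p1 j hj) (p2 j hj)) (by linarith)) _)
      (by linarith)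
  have hGγ : G ≤ 19044 * γ := by
    obtain ⟨L, t, _, p2, p3, p4⟩ := main (fun j => gs (Ej j \ K)) 1 zero_le_one fun j _ => by
      rw [Complex.norm_real, Real.norm_of_nonneg (gs_nonneg _), one_mul]
    have q1 := (p4.le_cap p2.isBounded (by positivity)).trans
      (mul_le_mul_of_nonneg_left (le_gs hS p2 p3) (by positivity))
    rw [← Complex.ofReal_sum, Complex.norm_real, Real.norm_of_nonneg hG0] at q1
    have q2 : G / (16 * β) * γ ≤ G / 4 := by
      rw [div_mul_eq_mul_div, div_le_div_iff₀ (by linarith) (by norm_num)]; nlinarith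
    nlinarith
  have f1 : ∀ j, cap (Ej j) ≤ C * gs (Ej j \ K) := fun j => hcap K _ hK hK0 (e1 j)
  obtain ⟨L, t, p1, p2, p3, p4⟩ := main α M (by linarith) fun j hj =>
    ((d1 j hj).le_cap (e1 j).isBounded (by linarith)).trans (by
      rw [hM, mul_assoc (151 * Cb)]; exact mul_le_mul_of_nonneg_left (f1 j) (by linarith))
  choose! bj r1 r2 using fun j hj => (d1 j hj).coef2 (e1 j) (by linarith) inter_subset_right
  choose! bt s1 s2 using fun j hj => (p1 j hj).2.2.coef2 (p1 j hj).1 (by linarith)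
    ((p1 j hj).2.1.trans (e3 j))
  have g1 : b = ∑ j ∈ J, bj j := by
    have := (lim2_sum J r1).congr hE (g := h) fun z hz => by rw [d3, indicator_of_mem hz]
    rw [d4] at this
    exact tendsto_nhds_unique hb this
  have g2 := hlam _ _ _ _ (2 * M * 9522) p2 p3 (by linarith) (p4.mono_bd
    (mul_le_mul_of_nonneg_left (by
      have : G / (16 * β) ≤ 4761 := by rw [div_le_iff₀ (by linarith)]; linarith
      linarith) (by linarith))) (lim2_sum J s1)
  rw [d4] at g2
  have g3 : ‖∑ j ∈ J, bj j - ∑ j ∈ J, bt j‖ ≤ 96 * M * β * G := by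
    rw [← Finset.sum_sub_distrib, hG, Finset.mul_sum]
    refine (norm_sum_le _ _).trans (Finset.sum_le_sum fun j hj => ?_)
    have q1 := norm_sub_le (bj j - β * gp j * α j) (bt j - β * gp j * α j)
    rw [sub_sub_sub_cancel_right] at q1
    have q2 := mul_le_mul_of_nonneg_left (f1 j) (show 0 ≤ 16 * (151 * Cb) * (2 * β) by positivity)
    have q3 := mul_le_mul_of_nonneg_left (le_gs (e4 j) (p1 j hj).1 (p1 j hj).2.1)
      (show 0 ≤ 16 * (2 * M) * (2 * β) by positivity)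
    have q4 := r2 j hj
    have q5 := s2 j hj
    rw [hM] at q3 q5 ⊢
    linarith
  have g4 : ‖b - a / a0 * b0‖ ≤ 2000000 * M * N := by
    have q1 := norm_add_le (∑ j ∈ J, bj j - ∑ j ∈ J, bt j) (∑ j ∈ J, bt j - a / a0 * b0)
    rw [sub_add_sub_cancel, ← g1] at q1
    rw [← g1] at g3
    have q2 := mul_le_mul_of_nonneg_left hGγ (show 0 ≤ 96 * M * β by positivity)
    have q3 : 96 * M * β * (19044 * γ) = 1828224 * M * N := by rw [← hβN]; ring
    nlinarith [mul_pos (show 0 < M by linarith) hN0]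
  obtain ⟨_, ⟨L1, g, b1, m1, m2, m3, m4, rfl⟩, m5⟩ := exists_lt_of_lt_csSup (s := NS)
    ⟨0, ∅, fun _ => 0, 0, isCompact_empty, empty_subset _, (adm_zero _).mono_bd zero_le_one,
      by simp [Lim2], by simp⟩ (half_lt_self hN0)
  have nb : 0 < ‖b1‖ := by linarith
  have q1 := ((l3.const_mul (a / a0)).mono subset_union_left).add
    ((m3.const_mul ((b - a / a0 * b0) / b1)).mono subset_union_right)
  have q2 := (hb0.const_mul (a / a0)).add (m4.const_mul ((b - a / a0 * b0) / b1))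
  rw [div_mul_cancel₀ _ a0c, mul_zero, add_zero] at q1 q2
  rw [div_mul_cancel₀ _ (norm_pos_iff.1 nb), add_sub_cancel] at q2
  refine ⟨_, _, l1.union m1, union_subset l2 m2, q1.mono_bd (add_le_add ?_ ?_), q2⟩
  · rw [mul_one, norm_div, na0, div_le_iff₀ a00]; nlinarith
  · rw [mul_one, norm_div, div_le_iff₀ nb]
    nlinarith [mul_le_mul_of_nonneg_left m5.le (show 0 ≤ 2000000 * M by linarith)]

end

end Pool.Agent.Lib.MP_dfc9b7_an
end

-- part Pool.Agent.Lib.MP_dfc9b7_an.AP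
section

/-! Bounded approximation by functions analytic across a set of zero capacity. -/

set_option autoImplicit false
open Set Metric Filter Topology

namespace Pool.Agent.Lib.MP_dfc9b7_an

noncomputable section

theorem grid_cube (s : Finset (ℤ × ℤ)) (x : ℤ × ℤ) {r : ℝ} (hr : 1 ≤ r) :
    ∑ y ∈ s, ‖gp y - gp x‖⁻¹ / ‖gp x - gp y‖ ^ 2 * ind (fun y => r < ‖gp x - gp y‖) y ≤
      4 * 18 / r := by
  classical
  refine tail_fin (z := gp) (σ := fun y => ‖gp y - gp x‖⁻¹) (fun _ _ => by positivity) (gp x)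
    (by linarith) fun t ht => ?_
  have h0 : 0 ≤ t := by linarith
  have h1 := sqr_inv_sum (x.1 - ⌊t⌋₊, x.2 - ⌊t⌋₊) x (2 * ⌊t⌋₊ + 1)
  have h2 := Nat.floor_le h0
  refine le_trans ?_ (h1.trans (by push_cast; linarith))
  unfold bl
  rw [← Finset.sum_filter_of_ne (p := fun y => y ∈ sqr (x.1 - ⌊t⌋₊, x.2 - ⌊t⌋₊) (2 * ⌊t⌋₊ + 1))]
  · refine (Finset.sum_le_sum fun y _ => mul_le_of_le_one_right (by positivity)
      (ind_U01 _ _).2).trans (Finset.sum_le_sum_of_subset_of_nonneg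
        (fun y hy => (Finset.mem_filter.1 hy).2) fun _ _ _ => by positivity)
  · intro y _ hy
    have h3 : ‖gp x - gp y‖ ≤ t := by
      by_contra h
      exact hy (by rw [ind_neg (p := fun y => ‖gp x - gp y‖ ≤ t) h, mul_zero])
    have e : ((⌊t⌋₊ : ℕ) : ℤ) = ⌊t⌋ := Int.natCast_floor_eq_floor h0
    have a1 : |x.1 - y.1| ≤ ⌊t⌋ := Int.le_floor.2 (by exact_mod_cast (abs_fst_le x y).trans h3)
    have a2 : |x.2 - y.2| ≤ ⌊t⌋ := Int.le_floor.2 (by exact_mod_cast (abs_snd_le x y).trans h3)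
    rw [abs_le, ← e] at a1 a2
    rw [mem_sqr]; push_cast; omega

theorem approx : ∃ C : ℝ, 1 ≤ C ∧ ∀ (K E : Set ℂ) (f : ℂ → ℂ) (a : ℂ), IsCompact K →
    cap K = 0 → IsCompact E → Adm E f a 1 → ∀ δ ε : ℝ, 0 < δ → 0 < ε →
    ∃ L g, IsCompact L ∧ L ⊆ E \ K ∧ Adm L g a C ∧
      ∀ z, z ∉ E → z ∉ cthickening δ K → ‖g z - f z‖ ≤ ε := by
  obtain ⟨C, hC, hloc⟩ := local_approx
  have hCb := one_le_Cb
  set M := 151 * Cb with hM
  have hM0 : 0 < M := by linarith
  set B := M + M * C with hB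
  have hB0 : 0 < B := by positivity
  refine ⟨1 + 49 * B + 648 * B, by linarith, fun K E f a hK hK0 hE hf δ ε hδ hε => ?_⟩
  set r := 3 + 1944 * B / ε with hr
  have hr3 : 3 ≤ r := le_add_of_nonneg_right (by positivity)
  set β := δ / (r + 4) with hβ
  have hβ0 : 0 < β := by positivity
  have hβc : (β : ℂ) ≠ 0 := by exact_mod_cast hβ0.ne'
  have nβ : ‖(β : ℂ)‖ = β := by rw [Complex.norm_real, Real.norm_of_nonneg hβ0.le]
  obtain ⟨J, F, α, d1, d2, d3, d4⟩ := decomp (hf.nice hE) hβ0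
  have h1 : ∀ j ∈ J, ∃ L g, IsCompact L ∧ L ⊆ (E ∩ closedBall (β * gp j) (2 * β)) \ K ∧
      Adm L g (α j) (M * C) ∧ (∀ z, 2 * β < ‖z - β * gp j‖ →
        ‖F j z - g z‖ ≤ B * (2 * β) ^ 3 / ‖z - β * gp j‖ ^ 3) ∧
      (Disjoint (closedBall (β * gp j) (2 * β)) K → g = F j) := by
    intro j hj
    have e1 : IsCompact (E ∩ closedBall (β * gp j) (2 * β)) := hE.inter_right isClosed_closedBall
    by_cases hd : Disjoint (closedBall (β * gp j) (2 * β)) K
    · refine ⟨_, F j, e1, fun w hw => ⟨hw, disjoint_left.1 hd hw.2⟩,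
        (d1 j hj).mono_bd (by nlinarith), fun z hz => ?_, fun _ => rfl⟩
      rw [sub_self, norm_zero]; positivity
    obtain ⟨b, b1, _⟩ := (d1 j hj).coef2 e1 (by linarith) inter_subset_right
    have nM : ‖((M⁻¹ : ℝ) : ℂ)‖ = M⁻¹ := by
      rw [Complex.norm_real, Real.norm_of_nonneg (by positivity)]
    have nM' : ‖(M : ℂ)‖ = M := by rw [Complex.norm_real, Real.norm_of_nonneg hM0.le]
    have eM : ∀ u : ℂ, (M : ℂ) * (((M⁻¹ : ℝ) : ℂ) * u) = u := fun u => by
      have : (M : ℂ) ≠ 0 := by exact_mod_cast hM0.ne'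
      push_cast; field_simp
    have q1 := (d1 j hj).const_mul ((M⁻¹ : ℝ) : ℂ)
    rw [nM, ← hM, inv_mul_cancel₀ hM0.ne'] at q1
    obtain ⟨L, g, l1, l2, l3, l4⟩ := hloc K _ _ _ _ hK hK0 e1 q1 (b1.const_mul _)
    have q2 := l3.const_mul (M : ℂ)
    have q3 := l4.const_mul (M : ℂ)
    rw [eM] at q2
    rw [eM, eM] at q3
    rw [nM'] at q2
    refine ⟨L, _, l1, l2, q2, fun z hz => ?_, fun h => absurd h hd⟩
    have q4 := (d1 j hj).sub (q2.mono (l2.trans sdiff_subset))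
    have q5 := b1.sub q3
    rw [sub_self] at q4 q5
    rw [sub_self] at q5
    exact triple_zero (by linarith) (q4.diff.mono (ext_subset inter_subset_right le_rfl))
      (fun z hz => q4.bd z (ext_subset inter_subset_right le_rfl hz)) q4.lim q5 hz
  choose! L g l1 l2 l3 l4 l5 using h1
  have hT : ∀ j ∈ J, L j ⊆ ⋃ j ∈ J, L j := fun j hj => subset_biUnion_of_mem (u := L) hj
  have key : ∀ z (t N : ℝ), 3 ≤ t → ∑ j ∈ J, ‖F j z - g j z‖ *
      ind (fun j => ‖gp (rq (z / β)) - gp j‖ ≤ t) j ≤ N →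
      ‖∑ j ∈ J, g j z - indicator Eᶜ f z‖ ≤ N + 1944 * B / t := by
    intro z t N ht hN
    set x := rq (z / β) with hx
    rw [← d3, norm_sub_rev, ← Finset.sum_sub_distrib]
    have a1 : ∀ j ∈ J, ‖F j z - g j z‖ ≤ ‖F j z - g j z‖ * ind (fun j => ‖gp x - gp j‖ ≤ t) j +
        27 * B * (‖gp j - gp x‖⁻¹ / ‖gp x - gp j‖ ^ 2 * ind (fun y => t < ‖gp x - gp y‖) j) := by
      intro j hj
      by_cases h : ‖gp x - gp j‖ ≤ t
      · rw [ind_pos (p := fun j => ‖gp x - gp j‖ ≤ t) h,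
          ind_neg (p := fun y => t < ‖gp x - gp y‖) (not_lt.2 h)]
        simp
      · rw [ind_neg (p := fun j => ‖gp x - gp j‖ ≤ t) h,
          ind_pos (p := fun y => t < ‖gp x - gp y‖) (not_le.1 h), mul_zero, zero_add, mul_one]
        have e : z - β * gp j = β * (z / β - gp j) := by field_simp
        have b1 := norm_sub_rq (z / β)
        have b2 := norm_sub_le_norm_sub_add_norm_sub (gp x) (z / β) (gp j)
        rw [norm_sub_rev (gp x) (z / β)] at b2
        rw [← hx] at b1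
        have b3 : 2 < ‖z / β - gp j‖ := by linarith
        refine (l4 j hj z (by rw [e, norm_mul, nβ]; nlinarith)).trans ?_
        have b4 : 0 < ‖gp x - gp j‖ := by linarith
        have b5 : (2 * ‖gp x - gp j‖) ^ 3 ≤ (3 * ‖z / β - gp j‖) ^ 3 :=
          pow_le_pow_left₀ (by linarith) (by linarith) 3
        have e2 : B * (2 * β) ^ 3 / (β * ‖z / β - gp j‖) ^ 3 = 8 * B / ‖z / β - gp j‖ ^ 3 := by
          field_simp; ring
        have e3 : 27 * B * (‖gp x - gp j‖⁻¹ / ‖gp x - gp j‖ ^ 2) = 27 * B / ‖gp x - gp j‖ ^ 3 := by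
          field_simp
        rw [e, norm_mul, nβ, e2, norm_sub_rev (gp j), e3,
          div_le_div_iff₀ (by positivity) (by positivity)]
        nlinarith [mul_le_mul_of_nonneg_left b5 hB0.le]
    refine (norm_sum_le _ _).trans ((Finset.sum_le_sum a1).trans ?_)
    rw [Finset.sum_add_distrib, ← Finset.mul_sum]
    refine add_le_add hN ((mul_le_mul_of_nonneg_left (grid_cube J x (by linarith))
      (by linarith)).trans (le_of_eq (by ring)))
  refine ⟨⋃ j ∈ J, L j, fun z => ∑ j ∈ J, g j z, J.isCompact_biUnion l1, iUnion₂_subset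
    fun j hj => (l2 j hj).trans (sdiff_subset_sdiff_left inter_subset_left), ?_, fun z hz hz' => ?_⟩
  · rw [← d4]
    refine adm_sum J l3 hT fun z hz => ?_
    have a1 := key z 3 ((2 * 3 + 1) ^ 2 * B) le_rfl (grid_sum_le J one_pos (ρ := 3) (by norm_num)
      hB0.le (gp (rq (z / β))) _ (fun j hj => (mul_le_of_le_one_right (norm_nonneg _)
        (ind_U01 _ _).2).trans ((norm_sub_le _ _).trans (add_le_add (d2 j hj z)
          ((l3 j hj).bd z fun h => hz (hT j hj h))))) fun j _ h => by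
      rw [ind_neg (p := fun j => ‖gp (rq (z / β)) - gp j‖ ≤ 3) (by simpa using h), mul_zero])
    have a2 := (hf.nice hE).bd z
    linarith [norm_le_norm_add_norm_sub' (∑ j ∈ J, g j z) (indicator Eᶜ f z)]
  · have a1 := key z r 0 hr3 (Finset.sum_nonpos fun j hj => ?_)
    · rw [indicator_of_mem (show z ∈ Eᶜ from hz), zero_add] at a1
      refine a1.trans ?_
      have e : ε * r = 3 * ε + 1944 * B := by rw [hr]; field_simp
      rw [div_le_iff₀ (by linarith), e]; linarith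
    by_cases h : ‖gp (rq (z / β)) - gp j‖ ≤ r
    · rw [l5 j hj (disjoint_left.2 fun k h1 h2 => hz' ?_), sub_self, norm_zero, zero_mul]
      refine mem_cthickening_of_dist_le z k δ K h2 ?_
      have b1 := norm_sub_rq (z / β)
      have b2 := norm_sub_le_norm_sub_add_norm_sub (z / β) (gp (rq (z / β))) (gp j)
      have b3 := norm_sub_le_norm_sub_add_norm_sub z (β * gp j) k
      have e : z - β * gp j = β * (z / β - gp j) := by field_simp
      rw [e, norm_mul, nβ] at b3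
      have b4 := mem_closedBall_iff_norm'.1 h1
      have b5 : β * (r + 4) = δ := by rw [hβ]; field_simp
      rw [dist_eq_norm]; nlinarith
    · rw [ind_neg (p := fun j => ‖gp (rq (z / β)) - gp j‖ ≤ r) h, mul_zero]

end

end Pool.Agent.Lib.MP_dfc9b7_an
end

-- part Pool.Agent.Lib.MP_dfc9b7_an.Ideal
section

/-! Bounded sequences of analytic functions that tend to zero off the removable set. -/

set_option autoImplicit false
open Set Metric Filter Topology MeasureTheory Real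

namespace Pool.Agent.Lib.MP_dfc9b7_an

noncomputable section

variable {K E L : Set ℂ} {f g : ℂ → ℂ} {a b : ℂ} {M N : ℝ}

theorem le_of_dense (hE : Dense Eᶜ) {W : Set ℂ} (hW : IsOpen W) (hg : ContinuousOn g W)
    (h : ∀ z ∈ W, z ∉ E → ‖g z‖ ≤ M) : ∀ z ∈ W, ‖g z‖ ≤ M := fun z hz =>
  ContinuousWithinAt.closure_le (hE.open_subset_closure_inter hW hz)
    ((hg z hz).mono inter_subset_left).norm continuousWithinAt_const fun y hy => h y hy.1 hy.2

theorem Adm.mul (h : Adm L f a M) (h' : Adm L g b N) : Adm L (fun z => f z * g z) 0 (M * N) :=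
  ⟨h.diff.mul h'.diff, fun z hz => by
    rw [norm_mul]
    exact mul_le_mul (h.bd z hz) (h'.bd z hz) (norm_nonneg _) ((norm_nonneg _).trans (h.bd z hz)),
    by simpa [mul_assoc] using h.lim.mul (tendsto_zero_of_mul h'.lim)⟩

theorem Adm.pow (h : Adm L f a M) (n : ℕ) : Adm L (fun z => f z ^ (n + 2)) 0 (M ^ (n + 2)) := by
  induction n with
  | zero => simpa [sq] using h.mul h
  | succ n ih => simpa [pow_succ] using ih.mul h

theorem norm_pow_sub_pow {x y : ℂ} {C : ℝ} (hC : 1 ≤ C) (hx : ‖x‖ ≤ C) (hy : ‖y‖ ≤ C) (n : ℕ) :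
    ‖x ^ n - y ^ n‖ ≤ n * C ^ n * ‖x - y‖ := by
  induction n with
  | zero => simp
  | succ n ih =>
    have e : x ^ (n + 1) - y ^ (n + 1) = x * (x ^ n - y ^ n) + y ^ n * (x - y) := by ring
    have h1 := mul_le_mul hx ih (norm_nonneg _) (by linarith)
    have h2 : ‖y‖ ^ n ≤ C ^ (n + 1) :=
      (pow_le_pow_left₀ (norm_nonneg _) hy n).trans (pow_le_pow_right₀ hC (Nat.le_succ n))
    have h3 := mul_le_mul_of_nonneg_right h2 (norm_nonneg (x - y))
    rw [e]
    refine (norm_add_le _ _).trans ?_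
    rw [norm_mul, norm_mul, norm_pow]
    push_cast
    rw [pow_succ] at h3 ⊢
    linarith

theorem exists_conj_tst (hK : IsCompact K) (hL : IsClosed L) (hKL : K ⊆ Lᶜ)
    (hg : DifferentiableOn ℂ g Lᶜ) : ∃ φ δ, Tst φ ∧ 0 < δ ∧
      ∀ z ∈ cthickening δ K, φ z = (starRingEnd ℂ) (g z) := by
  obtain ⟨T, t1, t2, t3⟩ := exists_compact_between hK hL.isOpen_compl hKL
  obtain ⟨χ, c1, c2, _⟩ := exists_contMDiffMap_one_nhds_of_subset_interior
    (modelWithCornersSelf ℝ ℂ) (n := 1) hK.isClosed t2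
  obtain ⟨U, u1, u2, u3⟩ := mem_nhdsSet_iff_exists.1 c1
  obtain ⟨δ, d1, d2⟩ := hK.exists_cthickening_subset_open u1 u2
  have c3 : ContDiff ℝ 1 fun z => ((χ z : ℝ) : ℂ) :=
    Complex.ofRealCLM.contDiff.comp χ.contMDiff.contDiff
  refine ⟨fun z => (χ z : ℝ) * (starRingEnd ℂ) (g z), δ, ⟨contDiff_iff_contDiffAt.2 fun z => ?_,
    HasCompactSupport.intro t1 fun z hz => by simp [c2 z hz]⟩, d1, fun z hz => ?_⟩
  · by_cases hz : z ∈ T
    · exact c3.contDiffAt.mul (Complex.conjCLE.contDiff.contDiffAt.comp z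
        ((hg.analyticAt (hL.isOpen_compl.mem_nhds (t3 hz))).contDiffAt.restrict_scalars ℝ))
    · refine (contDiffAt_const (c := 0)).congr_of_eventuallyEq ?_
      filter_upwards [t1.isClosed.isOpen_compl.mem_nhds hz] with u hu
      simp [c2 u hu]
  · have : χ z = 1 := u3 (d2 hz)
    simp [this]

/-- Bounded sequences of functions analytic near `K`. -/
def Sq (K E : Set ℂ) (d : ℕ → ℂ → ℂ) (B : ℝ) : Prop :=
  ∀ n, ∃ L α, IsCompact L ∧ L ⊆ E \ K ∧ Adm L (d n) α B

/-- Sequences tending to zero off `K`. -/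
def Sm (K E : Set ℂ) (d : ℕ → ℂ → ℂ) : Prop :=
  ∀ δ > 0, ∀ ε > 0, ∀ᶠ n in atTop, ∀ z, z ∉ E → z ∉ cthickening δ K → ‖d n z‖ ≤ ε

variable {d e : ℕ → ℂ → ℂ} {A B : ℝ}

theorem Sq.bd (h : Sq K E d B) (n : ℕ) {z : ℂ} (hz : z ∉ E) : ‖d n z‖ ≤ B :=
  let ⟨_, _, _, h2, h3⟩ := h n
  h3.bd z fun h => hz (h2 h).1

theorem Sq.add (h : Sq K E d A) (h' : Sq K E e B) (s : ℂ) :
    Sq K E (fun n z => d n z + s * e n z) (A + ‖s‖ * B) := fun n =>
  let ⟨_, _, p1, p2, p3⟩ := h n
  let ⟨_, _, q1, q2, q3⟩ := h' n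
  ⟨_, _, p1.union q1, union_subset p2 q2,
    (p3.mono subset_union_left).add ((q3.const_mul s).mono subset_union_right)⟩

theorem Sq.sub (h : Sq K E d A) (h' : Sq K E e B) :
    Sq K E (fun n z => d n z - e n z) (A + B) := fun n =>
  let ⟨_, _, p1, p2, p3⟩ := h n
  let ⟨_, _, q1, q2, q3⟩ := h' n
  ⟨_, _, p1.union q1, union_subset p2 q2,
    (p3.mono subset_union_left).sub (q3.mono subset_union_right)⟩

theorem Sq.mul (h : Sq K E d A) (h' : Sq K E e B) :
    Sq K E (fun n z => d n z * e n z) (A * B) := fun n =>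
  let ⟨_, _, p1, p2, p3⟩ := h n
  let ⟨_, _, q1, q2, q3⟩ := h' n
  ⟨_, _, p1.union q1, union_subset p2 q2,
    (p3.mono subset_union_left).mul (q3.mono subset_union_right)⟩

theorem Sm.of_le (h : Sm K E d) (h' : Sm K E e) {u : ℕ → ℂ → ℂ} {c : ℝ}
    (hu : ∀ n z, z ∉ E → ‖u n z‖ ≤ c * (‖d n z‖ + ‖e n z‖)) : Sm K E u := fun δ hδ ε hε => by
  have h0 : 0 < ε / (2 * (|c| + 1)) := by positivity
  filter_upwards [h δ hδ _ h0, h' δ hδ _ h0] with n h1 h2 z hz hz'
  refine (hu n z hz).trans ((mul_le_mul (show c ≤ |c| + 1 by linarith [le_abs_self c])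
    (add_le_add (h1 z hz hz') (h2 z hz hz')) (by positivity) (by positivity)).trans (le_of_eq ?_))
  field_simp; ring

theorem tl_ideal (hE : Dense Eᶜ) (hK : IsCompact K) (h0 : cap K = 0) (h1 : Sq K E d B)
    (h2 : Sm K E d) {φ : ℂ → ℂ} (hφ : Tst φ) : ∃ d' B', Sq K E d' B' ∧ Sm K E d' ∧
      ∀ ε > 0, ∀ᶠ n in atTop, ∀ z, z ∉ E → ‖d' n z - φ z * d n z‖ ≤ ε := by
  choose L α l1 l2 l3 using h1
  obtain ⟨Λ, hΛ⟩ := hφ.exists_bd
  obtain ⟨A, hA⟩ := hφ.c1.continuous.bounded_above_of_compact_support hφ.cs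
  obtain ⟨R, hR, hs⟩ := hφ.cs.isCompact.isBounded.subset_closedBall_lt 0 0
  have hF := fun n => (l3 n).nice (l1 n)
  have hB := (l3 0).nonneg (l1 0)
  have hΛ0 : 0 ≤ Λ := (norm_nonneg _).trans (hΛ 0)
  have key : ∀ ε > 0, ∀ᶠ n in atTop, ∀ z, z ∉ E →
      ‖Tl ((L n)ᶜ.indicator (d n)) φ z - φ z * d n z‖ ≤ ε := fun ε hε => by
    set r := ε / (4 * (B * Λ + 1)) with hr
    have hr0 : 0 < r := by positivity
    set J := ∫ w, ‖dbar φ w‖ with hJ
    have hJ0 : 0 ≤ J := integral_nonneg fun _ => norm_nonneg _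
    have t1 : Tendsto (fun δ => (volume (cthickening δ K)).toReal) (𝓝[>] 0) (𝓝 0) := by
      have := (ENNReal.tendsto_toReal hK.measure_lt_top.ne).comp
        (tendsto_measure_cthickening_of_isCompact (μ := volume) hK)
      rw [volume_eq_zero_of_cap hK h0] at this
      exact this.mono_left nhdsWithin_le_nhds
    obtain ⟨δ, d1, d2⟩ := ((t1.eventually (ge_mem_nhds (show 0 < ε * r / (4 * (B * Λ + 1)) by
      positivity))).and self_mem_nhdsWithin).exists
    filter_upwards [h2 δ d2 (ε * r / (4 * (J + 1))) (by positivity)] with n hn z hz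
    have a1 : ∀ w, w ∉ cthickening δ K → ‖(L n)ᶜ.indicator (d n) w‖ ≤ ε * r / (4 * (J + 1)) := by
      intro w hw
      by_cases hw' : w ∈ (L n)ᶜ
      · rw [indicator_of_mem hw']
        exact le_of_dense hE ((l1 n).isClosed.isOpen_compl.inter isClosed_cthickening.isOpen_compl)
          ((l3 n).diff.continuousOn.mono inter_subset_left) (fun y hy hy' => hn y hy' hy.2) w
          ⟨hw', hw⟩
      · rw [indicator_of_notMem hw', norm_zero]; positivity
    have i1 : Integrable ((cthickening δ K).indicator fun _ : ℂ => B * Λ) :=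
      (integrable_indicator_iff isClosed_cthickening.measurableSet).2
        (integrableOn_const hK.cthickening.measure_lt_top.ne)
    have a2 : ∫ w, ‖(L n)ᶜ.indicator (d n) w * dbar φ w‖ ≤ ε * r / 2 := by
      refine (integral_mono ((hF n).int hφ).norm ((hφ.int_dbar.norm.const_mul
        (ε * r / (4 * (J + 1)))).add i1) fun w => ?_).trans ?_
      · simp only [Pi.add_apply, norm_mul]
        by_cases hw : w ∈ cthickening δ K
        · rw [indicator_of_mem hw]
          exact (mul_le_mul ((hF n).bd w) (hΛ w) (norm_nonneg _) hB).trans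
            (le_add_of_nonneg_left (by positivity))
        · rw [indicator_of_notMem hw, add_zero]
          exact mul_le_mul_of_nonneg_right (a1 w hw) (norm_nonneg _)
      · simp only [Pi.add_apply]
        rw [integral_add (hφ.int_dbar.norm.const_mul _) i1, integral_const_mul,
          integral_indicator isClosed_cthickening.measurableSet, setIntegral_const, smul_eq_mul]
        have b1 : ε * r / (4 * (J + 1)) * J ≤ ε * r / 4 := by
          rw [div_mul_eq_mul_div, div_le_div_iff₀ (by positivity) (by norm_num)]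
          nlinarith [mul_pos hε hr0]
        have b2 : volume.real (cthickening δ K) * (B * Λ) ≤ ε * r / 4 := by
          refine (mul_le_mul_of_nonneg_right d1 (by positivity)).trans ?_
          rw [div_mul_eq_mul_div, div_le_div_iff₀ (by positivity) (by norm_num)]
          nlinarith [mul_pos hε hr0]
        linarith
    have a3 := (hφ.bc (hF n).meas (hF n).bd hΛ).norm_CI_le z hr0
    have a4 : (∫ w, ‖(L n)ᶜ.indicator (d n) w * dbar φ w‖) / r ≤ π * (ε / 2) := by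
      rw [div_le_iff₀ hr0]; nlinarith [pi_gt_three, mul_pos hε hr0]
    have a5 : 2 * (B * Λ) * r ≤ ε / 2 := by
      rw [hr, ← mul_div_assoc, div_le_div_iff₀ (by positivity) (by norm_num)]; nlinarith
    rw [Tl, indicator_of_mem (show z ∈ (L n)ᶜ from fun h => hz (l2 n h).1), add_sub_cancel_left,
      norm_mul, norm_pi_inv, inv_mul_le_iff₀ pi_pos]
    nlinarith [mul_le_mul_of_nonneg_left a5 pi_pos.le]
  refine ⟨fun n => Tl ((L n)ᶜ.indicator (d n)) φ, _, fun n => ⟨L n, _, l1 n, l2 n,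
    ((hF n).Tl_adm hφ hR hA hΛ hs).mono inter_subset_left⟩, ?_, key⟩
  refine Sm.of_le (d := fun n z => Tl ((L n)ᶜ.indicator (d n)) φ z - φ z * d n z)
    (fun δ _ ε hε => (key ε hε).mono fun n hn z hz _ => hn z hz) h2 (c := A + 1) fun n z _ => ?_
  have h3 := norm_le_norm_add_norm_sub' (Tl ((L n)ᶜ.indicator (d n)) φ z) (φ z * d n z)
  rw [norm_mul] at h3
  have hA0 : 0 ≤ A := (norm_nonneg _).trans (hA 0)
  nlinarith [mul_le_mul_of_nonneg_right (hA z) (norm_nonneg (d n z)), norm_nonneg (d n z),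
    mul_nonneg hA0 (norm_nonneg (Tl ((L n)ᶜ.indicator (d n)) φ z - φ z * d n z))]

theorem exists_seq {C : ℝ} (hap : ∀ δ ε : ℝ, 0 < δ → 0 < ε → ∃ L g, IsCompact L ∧ L ⊆ E \ K ∧
    Adm L g a C ∧ ∀ z, z ∉ E → z ∉ cthickening δ K → ‖g z - f z‖ ≤ ε) {l : Filter ↥Eᶜ}
    {τ : (↥Eᶜ → ℝ) →ₗ[ℝ] ℝ} (hτ : PF l τ) : ∃ g : ℕ → ℂ → ℂ,
      (∀ n, ∃ L, IsCompact L ∧ L ⊆ E \ K ∧ Adm L (g n) a C) ∧ Sm K E (fun n z => g n z - f z) ∧
      ∀ ε > 0, ∀ᶠ i in atTop, ∀ j ≥ i, τ (fun x => ‖g j x - g i x‖ ^ 2) ≤ ε := by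
  have hd : ∀ {i j : ℕ}, i ≤ j → (1 : ℝ) / (j + 1) ≤ 1 / (i + 1) := fun h =>
    one_div_le_one_div_of_le (by positivity) (by exact_mod_cast Nat.succ_le_succ h)
  obtain ⟨G, h1, h2⟩ := hτ.cauchy (fun j : ℕ => {u | ∃ g L, IsCompact L ∧ L ⊆ E \ K ∧ Adm L g a C ∧
      (∀ z, z ∉ E → z ∉ cthickening (1 / (j + 1)) K → ‖g z - f z‖ ≤ 1 / (j + 1)) ∧
      u = fun x : ↥Eᶜ => g x})
    (fun i j hij u ⟨g, L, p1, p2, p3, p4, p5⟩ => ⟨g, L, p1, p2, p3, fun z hz hz' =>
      (p4 z hz fun h => hz' (cthickening_mono (hd hij) K h)).trans (hd hij), p5⟩)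
    (fun j => by
      obtain ⟨L, g, p1, p2, p3, p4⟩ := hap (1 / (j + 1)) (1 / (j + 1)) (by positivity)
        (by positivity)
      exact ⟨_, g, L, p1, p2, p3, p4, rfl⟩)
    (C := C) (fun j u ⟨g, L, _, p2, p3, _, p5⟩ x => p5 ▸ p3.bd x fun h => x.2 (p2 h).1)
    (fun j u ⟨g, L, p1, p2, p3, p4, p5⟩ u' ⟨g', L', q1, q2, q3, q4, q5⟩ => by
      have r1 := ((p3.mono subset_union_left).add (q3.mono subset_union_right)).const_mul 2⁻¹
      have e : (2 : ℂ)⁻¹ * (a + a) = a := by ring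
      have e' : ‖(2 : ℂ)⁻¹‖ * (C + C) = C := by rw [norm_inv, Complex.norm_ofNat]; ring
      rw [e, e'] at r1
      refine ⟨_, _, p1.union q1, union_subset p2 q2, r1, fun z hz hz' => ?_, ?_⟩
      · have e2 : 2⁻¹ * (g z + g' z) - f z = 2⁻¹ * ((g z - f z) + (g' z - f z)) := by ring
        rw [e2, norm_mul, norm_inv, Complex.norm_ofNat]
        linarith [norm_add_le (g z - f z) (g' z - f z), p4 z hz hz', q4 z hz hz']
      · ext x; rw [p5, q5]; ring)
  choose g L p1 p2 p3 p4 p5 using h1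
  refine ⟨g, fun n => ⟨L n, p1 n, p2 n, p3 n⟩, fun δ hδ ε hε => ?_, by simpa only [p5] using h2⟩
  filter_upwards [(tendsto_one_div_add_atTop_nhds_zero_nat (𝕜 := ℝ)).eventually
    (ge_mem_nhds (lt_min hδ hε))] with n hn z hz hz'
  exact (p4 n z hz fun h => hz' (cthickening_mono (hn.trans (min_le_left _ _)) K h)).trans
    (hn.trans (min_le_right _ _))

end

end Pool.Agent.Lib.MP_dfc9b7_an
end

-- part Pool.Agent.Lib.MP_dfc9b7_an.Main
section

/-! Reduction of the norm of the approximants to one. -/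

set_option autoImplicit false
open Set Metric Filter Topology

namespace Pool.Agent.Lib.MP_dfc9b7_an

noncomputable section

theorem exists_state_adm {K E : Set ℂ} (hE : IsCompact E) (hd : Dense Eᶜ) {a γ : ℝ} (hγ0 : 0 < γ)
    (h1 : gs (E \ K) < γ) (ha : 0 < a)
    (hne : ∃ L g M, IsCompact L ∧ L ⊆ E \ K ∧ Adm L g a M) :
    ∃ ρ : (↥Eᶜ → ℝ) →ₗ[ℝ] ℝ, PF ⊤ ρ ∧ ρ (fun _ => 1) = 1 ∧ ∀ L g M, IsCompact L → L ⊆ E \ K →
      Adm L g a M → (a / γ) ^ 2 ≤ ρ fun x => ‖g x‖ ^ 2 := by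
  have : Nonempty ↥Eᶜ := hd.nonempty.to_subtype
  obtain ⟨ρ, r1, r2, r3⟩ := exists_state (⊤ : Filter ↥Eᶜ) {u | ∃ L g M, IsCompact L ∧ L ⊆ E \ K ∧
      Adm L g a M ∧ u = fun x : ↥Eᶜ => ‖g x‖ ^ 2} ((a / γ) ^ 2)
    (let ⟨L, g, M, p1, p2, p3⟩ := hne; ⟨_, L, g, M, p1, p2, p3, rfl⟩)
    (fun u ⟨L, g, M, _, p2, p3, p4⟩ => p4 ▸ Bd.sq ⟨M, fun x => p3.bd x fun h => x.2 (p2 h).1⟩)
    (fun u ⟨L, g, M, p1, p2, p3, p4⟩ v ⟨L', g', M', q1, q2, q3, q4⟩ s t hs ht hst => by
      have r := ((p3.const_mul s).mono subset_union_left).add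
        ((q3.const_mul t).mono subset_union_right)
      have e : (s : ℂ) * a + t * a = a := by
        rw [← add_mul, ← Complex.ofReal_add, hst, Complex.ofReal_one, one_mul]
      rw [e] at r
      refine ⟨_, ⟨_, _, _, p1.union q1, union_subset p2 q2, r, rfl⟩, fun x => ?_⟩
      have b1 := norm_add_le (s * g x) (t * g' x)
      rw [norm_mul, norm_mul, Complex.norm_real, Complex.norm_real, Real.norm_of_nonneg hs,
        Real.norm_of_nonneg ht] at b1
      rw [p4, q4]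
      refine (pow_le_pow_left₀ (norm_nonneg _) b1 2).trans ?_
      obtain rfl : t = 1 - s := by linarith
      nlinarith [mul_nonneg (mul_nonneg hs ht) (sq_nonneg (‖g x‖ - ‖g' x‖))])
    (fun u ⟨L, g, M, p1, p2, p3, p4⟩ m hm h => by
      have b1 : Adm L g a (a / γ) := ⟨p3.diff, le_of_dense hd p1.isClosed.isOpen_compl
        p3.diff.continuousOn fun z _ hz => by
          have := eventually_top.1 h ⟨z, hz⟩
          rw [p4] at this
          exact (pow_le_pow_iff_left₀ (norm_nonneg _) (by positivity) two_ne_zero).1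
            (this.trans hm.le), p3.lim⟩
      have b2 := b1.le_cap p1.isBounded (by positivity)
      have b3 := (le_gs (hE.isBounded.subset sdiff_subset) p1 p2).trans_lt h1
      have b4 := mul_lt_mul_of_pos_left b3 (show 0 < a / γ by positivity)
      rw [div_mul_cancel₀ _ hγ0.ne'] at b4
      rw [Complex.norm_real, Real.norm_of_nonneg ha.le] at b2
      linarith)
  exact ⟨ρ, r1, r2, fun L g M p1 p2 p3 => r3 _ ⟨L, g, M, p1, p2, p3, rfl⟩⟩

theorem cap_le_gs_dense {K E : Set ℂ} (hK : IsCompact K) (h0 : cap K = 0) (hE : IsCompact E)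
    (hd : Dense Eᶜ) : cap E ≤ gs (E \ K) := by
  by_contra hc
  obtain ⟨γ, g1, g2⟩ := exists_between (not_le.1 hc)
  have hγ0 : 0 < γ := (gs_nonneg _).trans_lt g1
  obtain ⟨f, a, hf, a1, _⟩ := exists_adm_lt g2
  obtain ⟨C, hC, hap⟩ := approx
  obtain ⟨ρ, r1, r2, r3⟩ := exists_state_adm hE hd hγ0 g1 (hγ0.trans a1)
    (by
      obtain ⟨L, g, p1, p2, p3, _⟩ := hap K E f a hK h0 hE hf 1 1 one_pos one_pos
      exact ⟨L, g, C, p1, p2, p3⟩)
  set θ := ((a / γ) ^ 2 - 1) / 4 with hθ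
  have θ0 : 0 < θ := by
    have : 1 < a / γ := (one_lt_div hγ0).2 a1
    rw [hθ]; nlinarith
  set V : ℕ → Set ↥Eᶜ := fun j => {x | x.1 ∈ cthickening (1 / (j + 1)) K} with hV
  obtain ⟨τ, t1, t2, t3⟩ := exists_tau r1 V fun i j hij x hx => cthickening_mono
    (one_div_le_one_div_of_le (by positivity) (by exact_mod_cast Nat.succ_le_succ hij)) K hx
  obtain ⟨Λ, l1, l2⟩ := exists_lim
  have T1 : glim Λ τ (fun _ => 1) = τ fun _ => 1 := by
    show Λ (fun _ => τ fun _ => 1) = _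
    rw [lin_const, l2, mul_one]
  have τ1 : τ (fun _ => 1) ≤ 1 := by
    have := t2.one_nonneg
    rw [LinearMap.sub_apply, r2] at this; linarith
  obtain ⟨g, s1, s2, s3⟩ := exists_seq (hap K E f a hK h0 hE hf) t1
  have sg : Sq K E g C := fun n => let ⟨L, p1, p2, p3⟩ := s1 n; ⟨L, _, p1, p2, p3⟩
  obtain ⟨D, ⟨d, B, d1, d2, rfl⟩, hD⟩ := (l1.glim t1).core_est (T1.le.trans τ1)
    {D | ∃ d B, Sq K E d B ∧ Sm K E d ∧ D = fun y : ℕ × ↥Eᶜ => d y.1 y.2}
    ⟨fun _ _ => 0, 0, fun _ => ⟨∅, 0, isCompact_empty, empty_subset _, adm_zero _⟩,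
      fun _ _ ε hε => Eventually.of_forall fun _ _ _ _ => by simpa using hε.le, rfl⟩
    (fun D ⟨d, A, p1, p2, p3⟩ D' ⟨e, B, q1, q2, q3⟩ s => ⟨_, _, p1.add q1 s,
      p2.of_le q2 (c := 1 + ‖(s : ℂ)‖) fun n z _ => by
        have := norm_add_le (d n z) (s * e n z)
        rw [norm_mul] at this
        nlinarith [norm_nonneg (e n z), mul_nonneg (norm_nonneg (s : ℂ)) (norm_nonneg (d n z))],
      by rw [p3, q3]⟩)
    (fun D ⟨d, A, p1, _, p3⟩ => p3 ▸ ⟨A, fun y => p1.bd y.1 y.2.2⟩)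
    (G := fun y => g y.1 y.2) (C := C) (fun y => sg.bd y.1 y.2.2) (fun N => by
      have hfN := hf.pow N
      rw [one_pow] at hfN
      obtain ⟨h, u1, u2, u3⟩ := exists_seq (hap K E _ 0 hK h0 hE hfN) t1
      have sh : Sq K E h C := fun n => let ⟨L, p1, p2, p3⟩ := u1 n; ⟨L, _, p1, p2, p3⟩
      have sN : Sq K E (fun n z => g n z ^ (N + 2)) (C ^ (N + 2)) := fun n =>
        let ⟨L, p1, p2, p3⟩ := s1 n; ⟨L, _, p1, p2, p3.pow N⟩
      have sP := sN.sub sh
      set A : ℝ := ((N + 2 : ℕ) : ℝ) * C ^ (N + 2) with hA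
      have hA0 : 0 ≤ A := by positivity
      have mP : Sm K E fun n z => g n z ^ (N + 2) - h n z :=
        s2.of_le u2 (c := A + 1) fun n z hz => by
          have b1 := norm_pow_sub_pow hC (sg.bd n hz) ((hf.bd z hz).trans hC) (N + 2)
          have b2 := norm_sub_le (g n z ^ (N + 2) - f z ^ (N + 2)) (h n z - f z ^ (N + 2))
          rw [sub_sub_sub_cancel_right] at b2
          nlinarith [norm_nonneg (g n z - f z),
            mul_nonneg hA0 (norm_nonneg (h n z - f z ^ (N + 2)))]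
      refine ⟨fun y => h y.1 y.2, fun y => sh.bd y.1 y.2.2, ?_⟩
      rintro _ ⟨d, B, d1, d2, rfl⟩ ε hε
      have sQ := sP.sub (sP.mul d1)
      have mQ : Sm K E fun n z => (g n z ^ (N + 2) - h n z) - (g n z ^ (N + 2) - h n z) * d n z :=
        mP.of_le mP (c := 1 + |B|) fun n z hz => by
          have b1 := norm_sub_le (g n z ^ (N + 2) - h n z) ((g n z ^ (N + 2) - h n z) * d n z)
          rw [norm_mul] at b1
          nlinarith [mul_le_mul_of_nonneg_left ((d1.bd n hz).trans (le_abs_self B))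
            (norm_nonneg (g n z ^ (N + 2) - h n z)), norm_nonneg (g n z ^ (N + 2) - h n z),
            mul_nonneg (abs_nonneg B) (norm_nonneg (g n z ^ (N + 2) - h n z))]
      have η0 : 0 < ε / (2 * A ^ 2 + 2) := by positivity
      obtain ⟨i, i1, i2⟩ := ((s3 _ η0).and (u3 _ η0)).exists
      obtain ⟨L, α, p1, p2, p3⟩ := sP i
      obtain ⟨φ, δ, f1, f2, f3⟩ := exists_conj_tst hK p1.isClosed (fun z hz h => (p2 h).2 hz)
        p3.diff
      obtain ⟨d', B', q1, q2, q3⟩ := tl_ideal hd hK h0 sQ mQ f1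
      refine ⟨fun y => g i y.2 ^ (N + 2) - h i y.2, _, ⟨d', B', q1, q2, rfl⟩,
        fun y => sP.bd i y.2.2, ?_, eventually_curry_iff.2 ?_⟩
      · have b0 : ∀ (n : ℕ) (x : ↥Eᶜ), ‖‖g n x ^ (N + 2) - h n x - (g i x ^ (N + 2) - h i x)‖ ^ 2‖ ≤
            (2 * (C ^ (N + 2) + C)) ^ 2 := fun n x => by
          rw [norm_pow, norm_norm]
          exact pow_le_pow_left₀ (norm_nonneg _) ((norm_sub_le _ _).trans
            (by linarith [sP.bd n x.2, sP.bd i x.2])) 2
        have := l1.mono ⟨_, fun n => t1.norm_le (b0 n)⟩ (bd_const ε) (by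
          filter_upwards [eventually_ge_atTop i] with n hn
          have bg : ∀ n, Bd fun x : ↥Eᶜ => g n x := fun n => ⟨C, fun x => sg.bd n x.2⟩
          have bh : ∀ n, Bd fun x : ↥Eᶜ => h n x := fun n => ⟨C, fun x => sh.bd n x.2⟩
          have c1 := t1.mono ⟨_, b0 n⟩ ((((bg n).sub (bg i)).sq.cmul (2 * A ^ 2)).add
            (((bh n).sub (bh i)).sq.cmul 2)) (Eventually.of_forall fun x => by
              have b1 := norm_pow_sub_pow hC (sg.bd n x.2) (sg.bd i x.2) (N + 2)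
              have b2 := norm_sub_le (g n x ^ (N + 2) - g i x ^ (N + 2)) (h n x - h i x)
              rw [sub_sub_sub_comm] at b2
              nlinarith [pow_le_pow_left₀ (norm_nonneg _) (b2.trans (add_le_add_left b1 _)) 2,
                sq_nonneg (A * ‖g n x - g i x‖ - ‖h n x - h i x‖)])
          rw [lin_add, lin_mul, lin_mul] at c1
          have c2 := mul_le_mul_of_nonneg_left (i1 n hn) (show 0 ≤ 2 * A ^ 2 by positivity)
          have c3 : 2 * A ^ 2 * (ε / (2 * A ^ 2 + 2)) + 2 * (ε / (2 * A ^ 2 + 2)) = ε := by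
            field_simp
          linarith [i2 n hn])
        rw [lin_const, l2, mul_one] at this
        exact this
      · obtain ⟨j, hj⟩ := ((tendsto_one_div_add_atTop_nhds_zero_nat (𝕜 := ℝ)).eventually
          (ge_mem_nhds f2)).exists
        filter_upwards [q3 ε hε] with n hn
        refine mem_iInf_of_mem j (mem_principal.2 fun x hx => ?_)
        have := hn x x.2
        rw [f3 x (cthickening_mono hj K hx), ← mul_one_sub] at this
        exact this) θ0
  have sw := sg.sub (sg.mul d1)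
  set M := C + C * B with hM
  obtain ⟨j, hj⟩ := t3 (θ / (M ^ 2 + 1)) (by positivity)
  set η := min 1 (θ / 15) with hη
  have η0 : 0 < η := by positivity
  have η1 : η ≤ 1 := min_le_left _ _
  have η2 : η ≤ θ / 15 := min_le_right _ _
  have b0 : ∀ (n : ℕ) (x : ↥Eᶜ), ‖g n x * (1 - d n x)‖ ^ 2 ≤ M ^ 2 := fun n x => by
    rw [mul_one_sub]; exact pow_le_pow_left₀ (norm_nonneg _) (sw.bd n x.2) 2
  have b1 : ∀ (n : ℕ) (x : ↥Eᶜ), ‖‖g n x * (1 - d n x)‖ ^ 2‖ ≤ M ^ 2 := fun n x => by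
    rw [Real.norm_of_nonneg (by positivity)]; exact b0 n x
  have key := l1.mono (bd_const ((a / γ) ^ 2 - (1 + θ) * (1 - τ fun _ => 1) - θ))
    ⟨_, fun n => t1.norm_le (b1 n)⟩ (by
    filter_upwards [s2 (1 / (j + 1)) (by positivity) η η0, d2 (1 / (j + 1)) (by positivity) η η0]
      with n h1 h2
    obtain ⟨L, p1, p2, p3⟩ := s1 n
    obtain ⟨L', α, q1, q2, q3⟩ := d1 n
    have c1 := (p3.mono subset_union_left).sub
      ((p3.mono subset_union_left).mul (q3.mono subset_union_right))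
    rw [sub_zero] at c1
    have c2 := r3 _ _ _ (p1.union q1) (union_subset p2 q2) c1
    simp only [← mul_one_sub] at c2
    have bi : Bd ((V j).indicator fun _ => (1 : ℝ)) :=
      ⟨1, fun x => (norm_indicator_le_norm_self _ _).trans (by simp)⟩
    have c3 := t2.mono ⟨_, b1 n⟩ ((bd_const (1 + θ)).add (bi.cmul (M ^ 2)))
      (Eventually.of_forall fun x => by
        by_cases hx : x ∈ V j
        · rw [indicator_of_mem hx]; linarith [b0 n x]
        · rw [indicator_of_notMem hx, mul_zero, add_zero, norm_mul]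
          have e1 : ‖g n x‖ ≤ 1 + η := by
            linarith [norm_le_norm_add_norm_sub' (g n x) (f x), h1 x x.2 hx, hf.bd x x.2]
          have e2 : ‖1 - d n x‖ ≤ 1 + η := (norm_sub_le _ _).trans (by
            rw [norm_one]; linarith [h2 x x.2 hx])
          refine (pow_le_pow_left₀ (by positivity) (mul_le_mul e1 e2 (norm_nonneg _)
            (by linarith)) 2).trans ?_
          have e3 : (1 + η) * (1 + η) ≤ 1 + 3 * η := by nlinarith
          nlinarith [pow_le_pow_left₀ (by positivity) e3 2])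
    rw [lin_add, lin_const (ρ - τ) (1 + θ), lin_mul, LinearMap.sub_apply, LinearMap.sub_apply,
      r2] at c3
    have c4 : M ^ 2 * (ρ - τ) ((V j).indicator fun _ => 1) ≤ θ := by
      refine (mul_le_mul_of_nonneg_left hj (sq_nonneg M)).trans ?_
      rw [← mul_div_assoc, div_le_iff₀ (by positivity)]; nlinarith
    linarith)
  rw [lin_const, l2, mul_one] at key
  rw [T1] at hD
  have fin := key.trans hD
  nlinarith [mul_nonneg θ0.le t1.one_nonneg]

theorem gs_eq_cap {K E : Set ℂ} (hK : IsCompact K) (h0 : cap K = 0) (hE : IsCompact E) :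
    gs (E \ K) = cap E := by
  have hb : Bornology.IsBounded (E \ K) := hE.isBounded.subset sdiff_subset
  refine le_antisymm ((gs_le_cap hb).trans (cap_mono sdiff_subset hE.isBounded)) ?_
  have hs : frontier E ⊆ E := hE.isClosed.frontier_subset
  have hc : IsCompact (frontier E) := hE.of_isClosed_subset isClosed_frontier hs
  have h1 : cap E ≤ cap (frontier E) := cap_le (cap_nonneg _) fun f a hf => by
    have h2 := hf.nice hE
    refine Adm.le_cap_one ⟨fun z hz => ?_, fun z _ => h2.bd z, h2.adm.lim⟩ hc.isBounded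
    by_cases h : z ∈ E
    · have h3 : z ∈ interior E := by
        by_contra h3
        exact hz ⟨subset_closure h, h3⟩
      refine ((differentiableAt_const (0 : ℂ)).congr_of_eventuallyEq ?_).differentiableWithinAt
      filter_upwards [mem_interior_iff_mem_nhds.1 h3] with u hu
      exact indicator_of_notMem (show u ∉ Eᶜ from fun h => h hu) _
    · exact (h2.adm.diff.differentiableAt
        (hE.isClosed.isOpen_compl.mem_nhds h)).differentiableWithinAt
  exact h1.trans ((cap_le_gs_dense hK h0 hc (interior_eq_empty_iff_dense_compl.1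
    (interior_frontier hE.isClosed))).trans (gs_mono (sdiff_subset_sdiff_left hs) hb))

end

end Pool.Agent.Lib.MP_dfc9b7_an
end
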