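import Pool.Agent.Lib.MP_dfc9b7_an.Weak

-- part Pool.Agent.Lib.MP_dfc9b7_an.Weak11
section

/-! The weak type (1,1) estimate for finite measures. -/

set_option autoImplicit false
open Finset

namespace Pool.Agent.Lib.MP_dfc9b7_an

noncomputable section
variable {X : Type*} [Fintype X]

/-- The operator acting on complex point masses. -/
def opM (k : X → X → ℂ) (ν : X → ℂ) (x : X) : ℂ := ∑ y, k x y * ν y

variable {μ : X → ℝ} {D : X → X → ℝ} {k : X → X → ℂ} {N : ℝ}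

theorem four_phase (w : ℂ) (A : ℝ) (h : 2 * A < ‖w‖) :
    A < (1 * w).re ∨ A < (-1 * w).re ∨ A < (Complex.I * w).re ∨ A < (-Complex.I * w).re := by
  have h1 := Complex.norm_le_abs_re_add_abs_im w
  simp only [one_mul, neg_mul, Complex.neg_re, Complex.mul_re, Complex.I_re, Complex.I_im,
    zero_mul, zero_sub, neg_neg]
  by_contra hc
  push Not at hc
  obtain ⟨a, b, c, d⟩ := hc
  have := abs_le.2 ⟨(by linarith : -A ≤ w.re), a⟩
  have := abs_le.2 ⟨(by linarith : -A ≤ w.im), d⟩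
  linarith

theorem sigma_bound (hS : Sp μ D) (hK : Ker D k) (hN : 0 ≤ N) (h : RT μ k N) (m : ℝ) (hm : 0 < m)
    (ρ : X → ℝ) (e : X → X → ℝ) (u : X → ℂ) (hu : ∀ i, ‖u i‖ ≤ 1) (h1 : ∀ i, 0 < ρ i)
    (h2 : ∀ i y, 0 ≤ e i y) (h4 : ∀ i y, ρ i < D i y → e i y = 0) (h5 : ∀ y, ∑ i, e i y ≤ 1)
    (h3 : ∑ y, μ y * ∑ i, e i y ≤ m) (θ : ℂ) (hθ : ‖θ‖ ≤ 1) :
    bm μ (fun x => 1012 * (N + 1) < (θ * ∑ i, u i *
      cut (fun x => 2 * ρ i < D i x) (opT μ k fun y => (e i y : ℂ)) x).re) ≤ m := by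
  classical
  set σ : X → ℂ := fun x => ∑ i, u i *
      cut (fun x => 2 * ρ i < D i x) (opT μ k fun y => (e i y : ℂ)) x with hσ
  set S : X → Prop := fun x => 1012 * (N + 1) < (θ * σ x).re with hSdef
  by_contra hc
  push Not at hc
  change m < bm μ S at hc
  have hb : 0 < bm μ S := hm.trans hc
  set φ : X → ℝ := fun x => m / bm μ S * ind S x with hφ
  have hc1 : m / bm μ S ≤ 1 := div_le_one_of_le₀ hc.le hb.le
  have hc0 : 0 ≤ m / bm μ S := by positivity
  have hφ1 : U01 φ := fun x => ⟨mul_nonneg hc0 (ind_U01 S x).1,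
    mul_le_one₀ hc1 (ind_U01 S x).1 (ind_U01 S x).2⟩
  have hφm : ∑ x, μ x * φ x = m := by
    have : ∑ x, μ x * φ x = m / bm μ S * ∑ x, μ x * ind S x := by
      rw [mul_sum]; exact sum_congr rfl fun x _ => by simp only [hφ]; ring
    rw [this, sum_mul_ind]; field_simp
  obtain ⟨H, hH0, hH1, hH2⟩ := trunc_majorant hS hK hN h hφ1
  have hlow : 1012 * (N + 1) * m ≤ (θ * ∑ x, (μ x * φ x : ℝ) * σ x).re := by
    rw [← hφm, mul_sum, mul_sum, Complex.re_sum]
    refine sum_le_sum fun x _ => ?_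
    have e1 : (θ * ((μ x * φ x : ℝ) * σ x)).re = μ x * φ x * (θ * σ x).re := by
      rw [mul_left_comm, Complex.re_ofReal_mul]
    rw [e1]
    by_cases hx : S x
    · have := mul_nonneg (hS.mu_nn x) (hφ1 x).1
      have hx' : 1012 * (N + 1) < (θ * σ x).re := hx
      nlinarith
    · simp [hφ, ind, hx]
  have hid : ∑ x, (μ x * φ x : ℝ) * σ x = -∑ y, ∑ i, u i * (μ y * e i y : ℝ) *
      opT μ k (cut (fun x => 2 * ρ i < D i x) fun x => (φ x : ℂ)) y := by
    rw [sum_comm]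
    simp only [hσ, mul_sum]
    rw [sum_comm, ← sum_neg_distrib]
    refine sum_congr rfl fun i _ => ?_
    unfold opT
    simp only [mul_sum]
    rw [sum_comm, ← sum_neg_distrib]
    refine sum_congr rfl fun x _ => ?_
    by_cases hx : 2 * ρ i < D i x
    · rw [cut_pos (p := fun x => 2 * ρ i < D i x) _ hx,
        cut_pos (p := fun x => 2 * ρ i < D i x) _ hx, mul_sum, mul_sum, ← sum_neg_distrib]
      refine sum_congr rfl fun y _ => ?_
      rw [hK.anti y x]; push_cast; ring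
    · rw [cut_neg (p := fun x => 2 * ρ i < D i x) _ hx,
        cut_neg (p := fun x => 2 * ρ i < D i x) _ hx]; simp
  have hpt : ∀ i y, e i y ≠ 0 →
      ‖opT μ k (cut (fun x => 2 * ρ i < D i x) fun x => (φ x : ℂ)) y‖ ≤ H y + 3 := by
    intro i y hy
    have hiy : D i y ≤ ρ i := by
      by_contra hh; exact hy (h4 i y (not_le.1 hh))
    rw [opT_cut_split _ (fun z => 3 * ρ i < D y z)]
    refine (norm_add_le _ _).trans (add_le_add ?_ ?_)
    · rw [cut_congr _ (q := fun z => 3 * ρ i < D y z) fun z => ⟨fun h => h.2, fun h => ⟨by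
        have := hS.D_tri y i z
        rw [hS.D_symm y i] at this
        linarith, h⟩⟩]
      exact hH1 y _ (by linarith [h1 i])
    · refine (norm_opT_ann hS hK _ _ y (h1 i) fun z hz => ?_).trans ?_
      · have := hS.D_tri i y z
        linarith [hz.1]
      · rw [div_le_iff₀ (h1 i)]
        refine le_trans ?_ (hS.growth y (3 * ρ i) (by linarith [h1 i]))
        refine (bm_le_of_le (v := μ) fun z _ => ?_).trans
          (bm_mono hS.mu_nn fun z hz => not_lt.1 hz.2)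
        rw [Complex.norm_real, Real.norm_of_nonneg (hφ1 z).1]
        nlinarith [hS.mu_nn z, (hφ1 z).2]
  have hup : ‖∑ x, (μ x * φ x : ℝ) * σ x‖ ≤ ∑ y, μ y * (∑ i, e i y) * (H y + 3) := by
    rw [hid, norm_neg]
    refine (norm_sum_le _ _).trans (sum_le_sum fun y _ => ?_)
    rw [mul_sum, sum_mul]
    refine (norm_sum_le _ _).trans (sum_le_sum fun i _ => ?_)
    rw [norm_mul, norm_mul, Complex.norm_real,
      Real.norm_of_nonneg (mul_nonneg (hS.mu_nn y) (h2 i y))]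
    by_cases hy : e i y = 0
    · simp [hy]
    · have a1 := hpt i y hy
      have a2 := mul_nonneg (hS.mu_nn y) (h2 i y)
      have a3 : ‖u i‖ * (μ y * e i y) ≤ μ y * e i y := by nlinarith [hu i]
      exact mul_le_mul a3 a1 (norm_nonneg _) a2
  have hE : U01 fun y => ∑ i, e i y := fun y => ⟨sum_nonneg fun i _ => h2 i y, h5 y⟩
  have h6 := hH2 _ hE
  have h7 : ∑ y, μ y * (∑ i, e i y) * (H y + 3) =
      ∑ y, μ y * (∑ i, e i y) * H y + 3 * ∑ y, μ y * ∑ i, e i y := by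
    rw [mul_sum, ← sum_add_distrib]; exact sum_congr rfl fun y _ => by ring
  have h8 : (θ * ∑ x, (μ x * φ x : ℝ) * σ x).re ≤ ‖∑ x, (μ x * φ x : ℝ) * σ x‖ := by
    refine (Complex.re_le_norm _).trans ?_
    rw [norm_mul]
    nlinarith [norm_nonneg (∑ x, (μ x * φ x : ℝ) * σ x)]
  rw [hφm] at h6
  nlinarith

theorem weak11 (hS : Sp μ D) (hK : Ker D k) (hN : 0 ≤ N) (h : RT μ k N) (ν : X → ℂ) {t : ℝ}
    (ht : 0 < t) :
    bm μ (fun x => 2100 * (N + 1) * t < ‖opM k ν x‖) ≤ 6 * ((∑ y, ‖ν y‖) / t) := by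
  classical
  set m := (∑ y, ‖ν y‖) / t with hm
  have hm0 : 0 ≤ m := div_nonneg (sum_nonneg fun _ _ => norm_nonneg _) ht.le
  rcases hm0.lt_or_eq with hmpos | hmz
  swap
  · have h0 : ∑ y, ‖ν y‖ = 0 := by
      have := hmz.symm; rw [hm, div_eq_zero_iff] at this
      exact this.resolve_right ht.ne'
    have h1 := (sum_eq_zero_iff_of_nonneg fun y _ => norm_nonneg (ν y)).1 h0
    rw [bm_false, ← hmz]; · simp
    intro x
    have : opM k ν x = 0 := sum_eq_zero fun y hy => by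
      rw [norm_eq_zero.1 (h1 y hy)]; simp
    rw [this, norm_zero, not_lt]; positivity
  by_cases hbig : ∑ y, μ y ≤ m
  · exact (bm_le_sum hS.mu_nn _).trans (by linarith)
  push Not at hbig
  have hsa : ∑ i, ‖ν i‖ / t = m := by rw [hm, sum_div]
  obtain ⟨ρ, e, h1, h2, h3, h4, h5, h6⟩ := fill_all hS (fun i => ‖ν i‖ / t)
    (fun i => by positivity) univ (by rw [hsa]; exact hbig.le)
  have h3' : ∀ i, ∑ y, μ y * e i y = ‖ν i‖ / t := fun i => h3 i (mem_univ i)
  have hE : ∑ y, μ y * ∑ i, e i y = m := by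
    rw [← hsa, ← sum_congr rfl fun i _ => h3' i, sum_comm]
    exact sum_congr rfl fun y _ => by rw [mul_sum]
  set u : X → ℂ := fun i => ν i / (‖ν i‖ : ℂ) with hu
  have hu1 : ∀ i, ‖u i‖ ≤ 1 := fun i => by
    simp only [hu, norm_div, Complex.norm_real, norm_norm]
    exact div_self_le_one _
  have hu2 : ∀ i, u i * (‖ν i‖ : ℂ) = ν i := fun i => by
    by_cases h0 : ν i = 0
    · simp [hu, h0]
    · have : (‖ν i‖ : ℂ) ≠ 0 := by simpa using h0
      simp only [hu]; field_simp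
  set σ : X → ℂ := fun x => ∑ i, u i *
      cut (fun x => 2 * ρ i < D i x) (opT μ k fun y => (e i y : ℂ)) x with hσ
  set Bad : X → Prop := fun x => ∃ i, D i x < ρ i with hBad
  have hBadm : bm μ Bad ≤ m := by
    rw [← hE]
    refine (bm_le_of_le (v := fun y => μ y * ∑ i, e i y) fun y hy => ?_).trans
      (bm_le_sum (fun y => mul_nonneg (hS.mu_nn y) (sum_nonneg fun i _ => h2 i y)) _)
    obtain ⟨i, hi⟩ := hy
    rw [h6 i (mem_univ i) y hi, mul_one]
  set g : X → X → ℝ := fun i x => ‖k x i * ν i - t * (u i *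
      cut (fun x => 2 * ρ i < D i x) (opT μ k fun y => (e i y : ℂ)) x)‖ with hg
  have hgi : ∀ i, bm (fun x => μ x * g i x) (fun x => ¬ Bad x) ≤ 10 * ‖ν i‖ := by
    intro i
    rw [bm_split _ _ (fun x => 2 * ρ i < D i x)]
    have a1 : bm (fun x => μ x * g i x) (fun x => ¬ Bad x ∧ 2 * ρ i < D i x) ≤ 8 * ‖ν i‖ := by
      have b1 := tail_bound μ (D i) hS.mu_nn 1 (2 * ρ i) (by linarith [h1 i]) fun s hs => by
        rw [one_mul]; exact hS.growth i s (by linarith [h1 i])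
      have b2 : ∀ x, 2 * ρ i < D i x → g i x ≤ 4 * ρ i * ‖ν i‖ / D i x ^ 2 := by
        intro x hx
        have c0 : (‖ν i‖ : ℂ) = t * ∑ y, (μ y : ℂ) * (e i y : ℂ) := by
          have := h3' i
          rw [eq_div_iff ht.ne'] at this
          rw [← this]; push_cast; ring
        have c1 : k x i * ν i - t * (u i *
            cut (fun x => 2 * ρ i < D i x) (opT μ k fun y => (e i y : ℂ)) x) =
            u i * t * ∑ y, (k y x - k i x) * (μ y * e i y : ℝ) := by
          rw [cut_pos (p := fun x => 2 * ρ i < D i x) _ hx]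
          conv_lhs => rw [← hu2 i, c0]
          unfold opT
          simp only [mul_sum]
          rw [← sum_sub_distrib]
          refine sum_congr rfl fun y _ => ?_
          rw [hK.anti y x, hK.anti i x]; push_cast; ring
        simp only [hg]
        rw [c1, norm_mul, norm_mul, Complex.norm_real, Real.norm_of_nonneg ht.le]
        have c2 : ‖∑ y, (k y x - k i x) * (μ y * e i y : ℝ)‖ ≤
            4 * ρ i / D i x ^ 2 * (‖ν i‖ / t) := by
          rw [← h3' i, mul_sum]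
          refine (norm_sum_le _ _).trans (sum_le_sum fun y _ => ?_)
          rw [norm_mul, Complex.norm_real,
            Real.norm_of_nonneg (mul_nonneg (hS.mu_nn y) (h2 i y))]
          by_cases hy : e i y = 0
          · simp [hy]
          · have hiy : D i y ≤ ρ i := by
              by_contra hh; exact hy (h4 i y (not_le.1 hh))
            refine mul_le_mul_of_nonneg_right ?_ (mul_nonneg (hS.mu_nn y) (h2 i y))
            rw [norm_sub_rev]
            refine (hK.smooth i y x (by linarith)).trans ?_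
            exact div_le_div_of_nonneg_right (by linarith) (sq_nonneg _)
        have c3 : ‖u i‖ * t ≤ t := by nlinarith [hu1 i]
        refine (mul_le_mul c3 c2 (norm_nonneg _) ht.le).trans (le_of_eq ?_)
        field_simp
      have b3 : bm (fun x => μ x * g i x) (fun x => ¬ Bad x ∧ 2 * ρ i < D i x) ≤
          4 * ρ i * ‖ν i‖ * bm (fun x => μ x / D i x ^ 2) (fun x => 2 * ρ i < D i x) := by
        rw [← bm_mul]
        refine (bm_mono (fun x => mul_nonneg (hS.mu_nn x) (norm_nonneg _))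
          (q := fun x => 2 * ρ i < D i x) fun x hx => hx.2).trans (bm_le_of_le fun x hx => ?_)
        refine (mul_le_mul_of_nonneg_left (b2 x hx) (hS.mu_nn x)).trans (le_of_eq ?_)
        ring
      refine b3.trans ((mul_le_mul_of_nonneg_left b1 (by have := h1 i; positivity)).trans
        (le_of_eq ?_))
      have := h1 i
      field_simp
      ring
    have a2 : bm (fun x => μ x * g i x) (fun x => ¬ Bad x ∧ ¬ 2 * ρ i < D i x) ≤ 2 * ‖ν i‖ := by
      have b1 := hS.growth i (2 * ρ i) (by linarith [h1 i])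
      have b3 : bm (fun x => μ x * g i x) (fun x => ¬ Bad x ∧ ¬ 2 * ρ i < D i x) ≤
          ‖ν i‖ / ρ i * bm μ (fun x => D i x ≤ 2 * ρ i) := by
        rw [← bm_mul]
        refine (bm_le_of_le (v := fun x => ‖ν i‖ / ρ i * μ x) fun x hx => ?_).trans
          (bm_mono (fun x => mul_nonneg (by have := h1 i; positivity) (hS.mu_nn x))
            fun x hx => not_lt.1 hx.2)
        have c1 : ρ i ≤ D x i := by
          rw [hS.D_symm]; by_contra hh; exact hx.1 ⟨i, not_le.1 hh⟩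
        have c2 : g i x ≤ ‖ν i‖ / ρ i := by
          simp only [hg]
          rw [cut_neg (p := fun x => 2 * ρ i < D i x) _ hx.2, mul_zero, mul_zero, sub_zero,
            norm_mul]
          have := (hK.size x i).trans (one_div_le_one_div_of_le (h1 i) c1)
          refine (mul_le_mul_of_nonneg_right this (norm_nonneg _)).trans (le_of_eq ?_)
          ring
        nlinarith [hS.mu_nn x]
      refine b3.trans ((mul_le_mul_of_nonneg_left b1 (by have := h1 i; positivity)).trans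
        (le_of_eq ?_))
      have := h1 i
      field_simp
    linarith
  have hch : bm μ (fun x => ¬ Bad x ∧ 10 * t < ∑ i, g i x) ≤ m := by
    have a1 := bm_cheb (g := fun x => ∑ i, g i x) hS.mu_nn (p := fun x => ¬ Bad x)
      (fun x _ => sum_nonneg fun i _ => norm_nonneg _) (10 * t)
    have a2 : bm (fun x => μ x * ∑ i, g i x) (fun x => ¬ Bad x) =
        ∑ i, bm (fun x => μ x * g i x) (fun x => ¬ Bad x) := by
      unfold bm
      rw [sum_comm]
      refine sum_congr rfl fun x _ => ?_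
      split_ifs
      · exact mul_sum _ _ _
      · simp
    have a3 : ∑ i, bm (fun x => μ x * g i x) (fun x => ¬ Bad x) ≤ 10 * (m * t) := by
      rw [hm, div_mul_cancel₀ _ ht.ne', mul_sum]
      exact sum_le_sum fun i _ => hgi i
    rw [a2] at a1
    nlinarith
  have hs := fun θ hθ => sigma_bound hS hK hN h m hmpos ρ e u hu1 h1 h2 h4 h5 hE.le θ hθ
  have s1 := hs 1 (by simp)
  have s2 := hs (-1) (by simp)
  have s3 := hs Complex.I (by simp)
  have s4 := hs (-Complex.I) (by simp)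
  have hcover : ∀ x, 2100 * (N + 1) * t < ‖opM k ν x‖ → Bad x ∨
      (¬ Bad x ∧ 10 * t < ∑ i, g i x) ∨ 1012 * (N + 1) < (1 * σ x).re ∨
      1012 * (N + 1) < (-1 * σ x).re ∨ 1012 * (N + 1) < (Complex.I * σ x).re ∨
      1012 * (N + 1) < (-Complex.I * σ x).re := by
    intro x hx
    by_cases hb : Bad x
    · exact Or.inl hb
    by_cases hc : 10 * t < ∑ i, g i x
    · exact Or.inr (Or.inl ⟨hb, hc⟩)
    refine Or.inr (Or.inr (four_phase _ _ ?_))
    have a1 : ‖opM k ν x - t * σ x‖ ≤ ∑ i, g i x := by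
      simp only [opM, hσ, mul_sum]
      rw [← sum_sub_distrib]
      exact norm_sum_le _ _
    have a2 := norm_le_norm_add_norm_sub' (opM k ν x) (t * σ x)
    rw [norm_mul, Complex.norm_real, Real.norm_of_nonneg ht.le] at a2
    by_contra hh
    push Not at hh hc
    nlinarith
  have t1 := bm_le_add hS.mu_nn hcover
  have t2 := bm_or_le hS.mu_nn (fun x => ¬ Bad x ∧ 10 * t < ∑ i, g i x)
    (fun x => 1012 * (N + 1) < (1 * σ x).re ∨
      1012 * (N + 1) < (-1 * σ x).re ∨ 1012 * (N + 1) < (Complex.I * σ x).re ∨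
      1012 * (N + 1) < (-Complex.I * σ x).re)
  have t3 := bm_or_le hS.mu_nn (fun x => 1012 * (N + 1) < (1 * σ x).re)
    (fun x => 1012 * (N + 1) < (-1 * σ x).re ∨ 1012 * (N + 1) < (Complex.I * σ x).re ∨
      1012 * (N + 1) < (-Complex.I * σ x).re)
  have t4 := bm_or_le hS.mu_nn (fun x => 1012 * (N + 1) < (-1 * σ x).re)
    (fun x => 1012 * (N + 1) < (Complex.I * σ x).re ∨
      1012 * (N + 1) < (-Complex.I * σ x).re)
  have t5 := bm_or_le hS.mu_nn (fun x => 1012 * (N + 1) < (Complex.I * σ x).re)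
    (fun x => 1012 * (N + 1) < (-Complex.I * σ x).re)
  simp only [hσ] at t1 t2 t3 t4 t5
  linarith

end

end Pool.Agent.Lib.MP_dfc9b7_an
end

-- part Pool.Agent.Lib.MP_dfc9b7_an.DO
section

/-! The Davie and Oksendal dualisation, square bounds and the Cotlar inequality. -/

set_option autoImplicit false
open Finset

namespace Pool.Agent.Lib.MP_dfc9b7_an

noncomputable section
variable {X : Type*} [Fintype X]
variable {μ : X → ℝ} {D : X → X → ℝ} {k : X → X → ℂ} {N : ℝ}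

theorem clm_repr (F : (X → ℂ) →L[ℝ] ℝ) :
    ∃ ν : X → ℂ, ∀ g : X → ℂ, F g = (∑ y, ν y * g y).re := by
  classical
  refine ⟨fun y => (F (Pi.single y 1) : ℂ) - Complex.I * (F (Pi.single y Complex.I) : ℂ),
    fun g => ?_⟩
  have e : g = ∑ y, ((g y).re • (Pi.single y 1 : X → ℂ) +
      (g y).im • (Pi.single y Complex.I : X → ℂ)) := by
    funext x
    rw [Finset.sum_apply, sum_eq_single_of_mem x (mem_univ x)]
    · simp
    · intro y _ hy
      simp [Pi.single_eq_of_ne hy.symm]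
  conv_lhs => rw [e]
  rw [map_sum, Complex.re_sum]
  refine sum_congr rfl fun y _ => ?_
  rw [map_add, map_smul, map_smul]
  simp
  ring

theorem davie_oksendal (hS : Sp μ D) (hK : Ker D k) (hN : 0 ≤ N) (h : RT μ k N) (S : X → Prop) :
    ∃ φ : X → ℝ, U01 φ ∧ (∀ x, ¬ S x → φ x = 0) ∧ bm μ S / 2 ≤ ∑ x, μ x * φ x ∧
      ∀ y, ‖opT μ k (fun x => (φ x : ℂ)) y‖ ≤ 25201 * (N + 1) := by
  classical
  rcases (bm_nonneg hS.mu_nn S).lt_or_eq with hpos | h0
  swap
  · refine ⟨fun _ => 0, fun _ => ⟨le_rfl, zero_le_one⟩, fun _ _ => rfl, by rw [← h0]; simp,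
      fun y => ?_⟩
    have : opT μ k (fun _ => ((0:ℝ) : ℂ)) y = 0 := by simp [opT]
    rw [this, norm_zero]; positivity
  by_contra hcon
  push Not at hcon
  set A : Set (X → ℂ) := {g | ∃ φ : X → ℝ, U01 φ ∧ (∀ x, ¬ S x → φ x = 0) ∧
    bm μ S / 2 ≤ ∑ x, μ x * φ x ∧ g = opT μ k (fun x => (φ x : ℂ))} with hA
  have hAc : Convex ℝ A := by
    rintro _ ⟨φ, h1, h2, h3, rfl⟩ _ ⟨ψ, g1, g2, g3, rfl⟩ a b ha hb hab
    refine ⟨fun x => a * φ x + b * ψ x, fun x => ⟨?_, ?_⟩, fun x hx => ?_, ?_, ?_⟩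
    · have := (h1 x).1; have := (g1 x).1; positivity
    · nlinarith [(h1 x).2, (g1 x).2]
    · simp [h2 x hx, g2 x hx]
    · have : ∑ x, μ x * (a * φ x + b * ψ x) = a * ∑ x, μ x * φ x + b * ∑ x, μ x * ψ x := by
        rw [mul_sum, mul_sum, ← sum_add_distrib]; exact sum_congr rfl fun x _ => by ring
      rw [this]; nlinarith
    · funext y
      simp only [opT, Pi.add_apply, Pi.smul_apply, Complex.real_smul, mul_sum]
      rw [← sum_add_distrib]
      exact sum_congr rfl fun x _ => by push_cast; ring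
  have hdisj : Disjoint (Metric.ball (0 : X → ℂ) (25201 * (N + 1))) A := by
    rw [Set.disjoint_left]
    rintro _ hg ⟨φ, h1, h2, h3, rfl⟩
    obtain ⟨y, hy⟩ := hcon φ h1 h2 h3
    rw [mem_ball_zero_iff] at hg
    linarith [norm_le_pi_norm (opT μ k fun x => (φ x : ℂ)) y]
  obtain ⟨F, u, hF1, hF2⟩ := geometric_hahn_banach_open (convex_ball _ _) Metric.isOpen_ball hAc
    hdisj
  obtain ⟨ν, hν⟩ := clm_repr F
  set n := ∑ y, ‖ν y‖ with hn
  have hn0 : 0 ≤ n := sum_nonneg fun _ _ => norm_nonneg _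
  have hlow : 25200 * (N + 1) * n < u := by
    have := hF1 (fun y => (25200 * (N + 1) : ℝ) * ((starRingEnd ℂ) (ν y) / (‖ν y‖ : ℂ))) (by
      rw [mem_ball_zero_iff, pi_norm_lt_iff (by positivity)]
      intro y
      rw [norm_mul, Complex.norm_real, Real.norm_of_nonneg (by positivity), norm_div,
        Complex.norm_conj, Complex.norm_real, norm_norm]
      have := div_self_le_one ‖ν y‖
      nlinarith)
    rw [hν] at this
    refine lt_of_eq_of_lt ?_ this
    rw [hn, mul_sum, Complex.re_sum]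
    refine sum_congr rfl fun y _ => ?_
    by_cases h0 : ν y = 0
    · simp [h0]
    · have h1 : (‖ν y‖ : ℂ) ≠ 0 := by simpa using h0
      have : ν y * (((25200 * (N + 1) : ℝ) : ℂ) * ((starRingEnd ℂ) (ν y) / (‖ν y‖ : ℂ))) =
          ((25200 * (N + 1) * ‖ν y‖ : ℝ) : ℂ) := by
        have h2 := Complex.mul_conj' (ν y)
        push_cast
        field_simp
        rw [← h2]; ring
      rw [this, Complex.ofReal_re]
  have hup : ∀ ε : ℝ, 0 < ε → u ≤ 2100 * (N + 1) * (12 * n + ε) := by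
    intro ε hε
    set t := (12 * n + ε) / bm μ S with ht
    have ht0 : 0 < t := by positivity
    have hw := weak11 hS hK hN h ν ht0
    set P : X → Prop := fun x => 2100 * (N + 1) * t < ‖opM k ν x‖ with hP
    have hw2 : bm μ P ≤ bm μ S / 2 := by
      refine hw.trans ?_
      rw [← hn, ht, div_div_eq_mul_div, ← mul_div_assoc, div_le_iff₀ (by positivity)]
      nlinarith
    have hmem : opT μ k (fun x => (ind (fun x => S x ∧ ¬ P x) x : ℂ)) ∈ A := by
      refine ⟨_, ind_U01 _, fun x hx => by simp [ind, hx], ?_, rfl⟩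
      rw [sum_mul_ind]
      have h1 := bm_split μ S P
      have h2 : bm μ (fun y => S y ∧ P y) ≤ bm μ P := bm_mono hS.mu_nn fun y hy => hy.2
      linarith
    have h1 := hF2 _ hmem
    rw [hν] at h1
    have e : ∑ y, ν y * opT μ k (fun x => (ind (fun x => S x ∧ ¬ P x) x : ℂ)) y =
        -∑ x, ((μ x * ind (fun x => S x ∧ ¬ P x) x : ℝ) : ℂ) * opM k ν x := by
      unfold opT opM
      simp only [mul_sum]
      rw [sum_comm, ← sum_neg_distrib]
      refine sum_congr rfl fun x _ => ?_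
      rw [← sum_neg_distrib]
      refine sum_congr rfl fun y _ => ?_
      rw [hK.anti y x]; push_cast; ring
    have h2 : ‖∑ x, ((μ x * ind (fun x => S x ∧ ¬ P x) x : ℝ) : ℂ) * opM k ν x‖ ≤
        2100 * (N + 1) * t * bm μ S := by
      rw [← sum_mul_ind, mul_sum]
      refine (norm_sum_le _ _).trans (sum_le_sum fun x _ => ?_)
      rw [norm_mul, Complex.norm_real]
      by_cases hx : S x ∧ ¬ P x
      · have a1 : ind (fun x => S x ∧ ¬ P x) x = 1 := by simp only [ind]; rw [if_pos hx]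
        have a2 : ind S x = 1 := by simp only [ind]; rw [if_pos hx.1]
        rw [a1, a2, mul_one, Real.norm_of_nonneg (hS.mu_nn x), mul_comm]
        exact mul_le_mul_of_nonneg_right (not_lt.1 hx.2) (hS.mu_nn x)
      · have a1 : ind (fun x => S x ∧ ¬ P x) x = 0 := by simp only [ind]; rw [if_neg hx]
        rw [a1, mul_zero, norm_zero, zero_mul]
        have := hS.mu_nn x
        have := (ind_U01 S x).1
        positivity
    have h3 : t * bm μ S = 12 * n + ε := by rw [ht]; field_simp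
    rw [e] at h1
    have h4 := Complex.re_le_norm
      (-∑ x, ((μ x * ind (fun x => S x ∧ ¬ P x) x : ℝ) : ℂ) * opM k ν x)
    rw [norm_neg] at h4
    rw [mul_assoc _ t, h3] at h2
    linarith
  have h5 := hup ((u - 25200 * (N + 1) * n) / (4200 * (N + 1))) (by
    apply div_pos <;> linarith)
  have h6 : 2100 * (N + 1) * (12 * n + (u - 25200 * (N + 1) * n) / (4200 * (N + 1))) =
      25200 * (N + 1) * n + (u - 25200 * (N + 1) * n) / 2 := by
    field_simp; ring
  linarith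

/-- Weighted square norm. -/
def nsq (μ : X → ℝ) (f : X → ℂ) : ℝ := ∑ x, μ x * ‖f x‖ ^ 2

/-- The square bound for the operator. -/
def L2B (μ : X → ℝ) (k : X → X → ℂ) (N : ℝ) : Prop :=
  ∀ f : X → ℂ, nsq μ (opT μ k f) ≤ N ^ 2 * nsq μ f

theorem nsq_nonneg (hμ : ∀ x, 0 ≤ μ x) (f : X → ℂ) : 0 ≤ nsq μ f :=
  sum_nonneg fun x _ => mul_nonneg (hμ x) (sq_nonneg _)

theorem L2B.rt (hμ : ∀ x, 0 ≤ μ x) (h : L2B μ k N) : RT μ k N := by
  intro φ hφ
  have h1 := h fun y => (φ y : ℂ)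
  unfold nsq at h1
  refine le_trans (sum_le_sum fun x _ => ?_) (h1.trans
    (mul_le_mul_of_nonneg_left (sum_le_sum fun x _ => ?_) (sq_nonneg _)))
  · refine mul_le_mul_of_nonneg_right ?_ (sq_nonneg _)
    nlinarith [hμ x, (hφ x).2]
  · refine mul_le_mul_of_nonneg_left ?_ (hμ x)
    rw [Complex.norm_real, Real.norm_of_nonneg (hφ x).1]
    nlinarith [(hφ x).1, (hφ x).2]

theorem L2B.mono (hμ : ∀ x, 0 ≤ μ x) (h : L2B μ k N) (hN : 0 ≤ N) {M : ℝ} (hM : N ≤ M) :
    L2B μ k M := fun f =>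
  (h f).trans (mul_le_mul_of_nonneg_right (pow_le_pow_left₀ hN hM 2) (nsq_nonneg hμ f))

theorem cotlar_pt (hS : Sp μ D) (hK : Ker D k) (hN : 0 ≤ N) (h : L2B μ k N) (f : X → ℂ) (x : X)
    {r : ℝ} (hr : 0 < r) :
    ‖opT μ k (cut (fun z => r < D x z) f) x‖ ≤ 72 * mx μ D (fun z => ‖opT μ k f z‖) x +
      907500 * (N + 1) * mx μ D (fun z => ‖f z‖) x := by
  classical
  set m1 := mx μ D (fun z => ‖opT μ k f z‖) x with hm1
  set m2 := mx μ D (fun z => ‖f z‖) x with hm2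
  have hm10 : 0 ≤ m1 := mx_nonneg hS (fun z => norm_nonneg _) x
  have hm20 : 0 ≤ m2 := mx_nonneg hS (fun z => norm_nonneg _) x
  by_cases hpos : 0 < ∑ y, μ y
  swap
  · rw [opT_zero_of_sum hS.mu_nn hpos, norm_zero]; positivity
  obtain ⟨R, hrR, hb0, hb1, hb2⟩ := core hS hK hpos f x hr
  set β := bm μ (fun z => D x z ≤ R) with hβ
  refine le_of_forall_pos_le_add fun ε hε => ?_
  set η := ε / (2101 * (N + 1)) with hη
  have hη0 : 0 < η := by positivity
  have h3R : bm μ (fun z => D x z ≤ 3 * R) ≤ 18 * β :=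
    (bm_mono hS.mu_nn fun z hz => by linarith).trans hb1
  have a1 : bm μ (fun y => D x y ≤ R ∧ 72 * m1 + η < ‖opT μ k f y‖) ≤ β / 4 := by
    have c1 := bm_cheb (g := fun z => ‖opT μ k f z‖) hS.mu_nn (p := fun y => D x y ≤ R)
      (fun _ _ => norm_nonneg _) (72 * m1 + η)
    have c2 := le_mx hS (g := fun z => ‖opT μ k f z‖) (fun _ => norm_nonneg _) x R
    rw [← hm1] at c2
    by_contra hc
    push Not at hc
    have c3 : (72 * m1 + η) * (β / 4) ≤ (72 * m1 + η) *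
        bm μ (fun y => D x y ≤ R ∧ 72 * m1 + η < ‖opT μ k f y‖) :=
      mul_le_mul_of_nonneg_left hc.le (by positivity)
    nlinarith [mul_pos hη0 hb0]
  set ν : X → ℂ := fun y => cut (fun z => D x z ≤ 3 * R) f y * (μ y : ℂ) with hν
  have hνT : ∀ y, opM k ν y = opT μ k (cut (fun z => D x z ≤ 3 * R) f) y := fun y =>
    sum_congr rfl fun z _ => by simp only [hν]; ring
  have a2 : bm μ (fun y => 2100 * (N + 1) * (432 * m2 + η) <
      ‖opT μ k (cut (fun z => D x z ≤ 3 * R) f) y‖) ≤ β / 4 := by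
    have c1 := weak11 hS hK hN (h.rt hS.mu_nn) ν (t := 432 * m2 + η) (by positivity)
    simp only [hνT] at c1
    refine c1.trans ?_
    have c2 : ∑ y, ‖ν y‖ = bm (fun z => μ z * ‖f z‖) (fun z => D x z ≤ 3 * R) := by
      rw [bm_eq_sum_ite]
      refine sum_congr rfl fun y _ => ?_
      simp only [hν]
      by_cases hy : D x y ≤ 3 * R
      · rw [cut_pos (p := fun z => D x z ≤ 3 * R) _ hy, if_pos hy, norm_mul, Complex.norm_real,
          Real.norm_of_nonneg (hS.mu_nn y), mul_comm]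
      · rw [cut_neg (p := fun z => D x z ≤ 3 * R) _ hy, if_neg hy]; simp
    have c3 := le_mx hS (g := fun z => ‖f z‖) (fun _ => norm_nonneg _) x (3 * R)
    rw [← hm2, show 3 * (3 * R) = 9 * R by ring] at c3
    rw [c2, ← mul_div_assoc, div_le_iff₀ (by positivity)]
    nlinarith [mul_pos hη0 hb0, mul_le_mul_of_nonneg_left hb1 hm20]
  obtain ⟨y, hy1, hy2⟩ := bm_exists_not hS.mu_nn (p := fun y => D x y ≤ R)
    (q := fun y => (D x y ≤ R ∧ 72 * m1 + η < ‖opT μ k f y‖) ∨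
      2100 * (N + 1) * (432 * m2 + η) < ‖opT μ k (cut (fun z => D x z ≤ 3 * R) f) y‖)
    ((bm_or_le hS.mu_nn _ _).trans_lt (by linarith))
  push Not at hy2
  have b1 := hy2.1 hy1
  have b2 := hy2.2
  have b3 := hb2 y hy1
  have b4 : 2101 * (N + 1) * η = ε := by rw [hη]; field_simp
  nlinarith [mul_nonneg hN hη0.le, mul_nonneg hN hm20]

/-- The Cotlar inequality in the form of a majorant of all truncations. -/
theorem cotlar (hS : Sp μ D) (hK : Ker D k) (hN : 0 ≤ N) (h : L2B μ k N) (f : X → ℂ) :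
    ∃ H : X → ℝ, (∀ x, 0 ≤ H x) ∧
      (∀ x r, 0 < r → ‖opT μ k (cut (fun z => r < D x z) f) x‖ ≤ H x) ∧
      ∑ x, μ x * H x ^ 2 ≤ (4000000 * (N + 1)) ^ 2 * nsq μ f := by
  refine ⟨fun x => 72 * mx μ D (fun z => ‖opT μ k f z‖) x +
      907500 * (N + 1) * mx μ D (fun z => ‖f z‖) x, fun x => ?_,
      fun x r hr => cotlar_pt hS hK hN h f x hr, ?_⟩
  · have := mx_nonneg hS (fun z => norm_nonneg (opT μ k f z)) x
    have := mx_nonneg hS (fun z => norm_nonneg (f z)) x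
    positivity
  · have h1 := mx_L2 hS (fun z => norm_nonneg (opT μ k f z))
    have h2 := mx_L2 hS (fun z => norm_nonneg (f z))
    have h3 := h f
    have h4 := nsq_nonneg hS.mu_nn f
    unfold nsq at h3 h4 ⊢
    have h5 : ∑ x, μ x * (72 * mx μ D (fun z => ‖opT μ k f z‖) x +
        907500 * (N + 1) * mx μ D (fun z => ‖f z‖) x) ^ 2 ≤
        2 * 72 ^ 2 * ∑ x, μ x * mx μ D (fun z => ‖opT μ k f z‖) x ^ 2 +
        2 * (907500 * (N + 1)) ^ 2 * ∑ x, μ x * mx μ D (fun z => ‖f z‖) x ^ 2 := by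
      rw [mul_sum, mul_sum, ← sum_add_distrib]
      refine sum_le_sum fun x _ => ?_
      have := mul_le_mul_of_nonneg_left (add_sq_le (a := 72 * mx μ D (fun z => ‖opT μ k f z‖) x)
        (b := 907500 * (N + 1) * mx μ D (fun z => ‖f z‖) x)) (hS.mu_nn x)
      linarith
    have h6 := mul_le_mul_of_nonneg_left h2 (show 0 ≤ 2 * (907500 * (N + 1)) ^ 2 by positivity)
    have h7 : N ^ 2 * ∑ x, μ x * ‖f x‖ ^ 2 ≤ (N + 1) ^ 2 * ∑ x, μ x * ‖f x‖ ^ 2 :=
      mul_le_mul_of_nonneg_right (by nlinarith) h4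
    nlinarith [mul_nonneg (sq_nonneg (N + 1)) h4]

end

end Pool.Agent.Lib.MP_dfc9b7_an
end

-- part Pool.Agent.Lib.MP_dfc9b7_an.Cells
section

/-! Nested partitions of a finite weighted set, conditional averages, Carleson embedding. -/

set_option autoImplicit false
open Finset

namespace Pool.Agent.Lib.MP_dfc9b7_an

noncomputable section
variable {X : Type*} [Fintype X]

/-- Complex integral over a set. -/
def cint (μ : X → ℝ) (p : X → Prop) (f : X → ℂ) : ℂ := ∑ y, cut p f y * (μ y : ℂ)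

/-- A family of cells partitioning the set `U`. -/
structure Cel (U : X → Prop) (S : X → X → Prop) : Prop where
  refl : ∀ z, U z → S z z
  step : ∀ z x, U z → S z x → U x ∧ ∀ y, S x y ↔ S z y

variable {μ : X → ℝ}

theorem bm_pos_of_mem (hμ : ∀ x, 0 < μ x) {p : X → Prop} {x : X} (hx : p x) : 0 < bm μ p := by
  classical
  rw [bm_eq_sum_ite]
  refine lt_of_lt_of_le ?_ (single_le_sum (f := fun y => if p y then μ y else 0)
    (fun y _ => by split_ifs; exacts [(hμ y).le, le_rfl]) (mem_univ x))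
  simp [hx, hμ x]

theorem Cel.one {U : X → Prop} {S : X → X → Prop} (h : Cel U S) (hμ : ∀ x, 0 < μ x) (x : X) :
    ∑ z, ind U z * (μ z / bm μ (S z)) * ind (S z) x = ind U x := by
  classical
  by_cases hx : U x
  · have hp := bm_pos_of_mem hμ (h.refl x hx)
    have e : ∀ z, ind U z * (μ z / bm μ (S z)) * ind (S z) x =
        (μ z * ind (S x) z) / bm μ (S x) := by
      intro z
      by_cases hz : S x z
      · obtain ⟨h1, h2⟩ := h.step x z hx hz
        have h3 : S z x := (h2 x).2 (h.refl x hx)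
        rw [bm_congr μ h2]
        simp [ind, h1, h3, hz]
      · by_cases h1 : U z
        · have h3 : ¬ S z x := fun h3 => hz (((h.step z x h1 h3).2 z).2 (h.refl z h1))
          simp [ind, h3, hz]
        · simp [ind, h1, hz]
    rw [sum_congr rfl fun z _ => e z, ← sum_div, sum_mul_ind, div_self hp.ne']
    simp [ind, hx]
  · rw [sum_eq_zero]
    · simp [ind, hx]
    · intro z _
      by_cases h1 : U z
      · have h3 : ¬ S z x := fun h3 => hx (h.step z x h1 h3).1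
        simp [ind, h3]
      · simp [ind, h1]

theorem Cel.bm_eq {U : X → Prop} {S : X → X → Prop} (h : Cel U S) (hμ : ∀ x, 0 < μ x)
    (F : X → ℝ) : bm F U = ∑ z, ind U z * (μ z / bm μ (S z)) * bm F (S z) := by
  rw [← sum_mul_ind]
  simp only [← sum_mul_ind F, mul_sum]
  rw [sum_comm]
  refine sum_congr rfl fun x _ => ?_
  rw [← h.one hμ x, mul_sum]
  exact sum_congr rfl fun z _ => by ring

theorem cut_eq_ind {Y : Type*} (p : Y → Prop) (f : Y → ℂ) (y : Y) :
    cut p f y = (ind p y : ℂ) * f y := by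
  by_cases h : p y <;> simp [cut, ind, h]

theorem Cel.sum_eq {U : X → Prop} {S : X → X → Prop} (h : Cel U S) (hμ : ∀ x, 0 < μ x)
    (F : X → ℂ) : ∑ x, cut U F x =
      ∑ z, ((ind U z * (μ z / bm μ (S z)) : ℝ) : ℂ) * ∑ x, cut (S z) F x := by
  simp only [cut_eq_ind, mul_sum]
  rw [sum_comm]
  refine sum_congr rfl fun x _ => ?_
  rw [← h.one hμ x, Complex.ofReal_sum, sum_mul]
  exact sum_congr rfl fun z _ => by push_cast; ring

theorem ind_nonneg {Y : Type*} (p : Y → Prop) (y : Y) : 0 ≤ ind p y := (ind_U01 p y).1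

theorem ind_pos {Y : Type*} {p : Y → Prop} {y : Y} (h : p y) : ind p y = 1 := by simp [ind, h]

theorem ind_neg {Y : Type*} {p : Y → Prop} {y : Y} (h : ¬ p y) : ind p y = 0 := by simp [ind, h]

/-- Summing a bound over the cells. -/
theorem Cel.norm_sum_le {U : X → Prop} {S : X → X → Prop} (h : Cel U S) (hμ : ∀ x, 0 < μ x)
    (F : X → ℂ) (W : X → ℝ) (hF : ∀ z, U z → ‖∑ x, cut (S z) F x‖ ≤ bm W (S z)) :
    ‖∑ x, cut U F x‖ ≤ bm W U := by
  rw [h.sum_eq hμ, h.bm_eq hμ W]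
  refine (_root_.norm_sum_le _ _).trans (sum_le_sum fun z _ => ?_)
  have h0 : 0 ≤ ind U z * (μ z / bm μ (S z)) := mul_nonneg (ind_nonneg _ _)
    (div_nonneg (hμ z).le (bm_nonneg (fun y => (hμ y).le) _))
  rw [norm_mul, Complex.norm_real, Real.norm_of_nonneg h0]
  by_cases hz : U z
  · exact mul_le_mul_of_nonneg_left (hF z hz) h0
  · rw [ind_neg hz]; simp

theorem Cel.bm_le {U : X → Prop} {S : X → X → Prop} (h : Cel U S) (hμ : ∀ x, 0 < μ x)
    (F W : X → ℝ) (hF : ∀ z, U z → bm F (S z) ≤ bm W (S z)) : bm F U ≤ bm W U := by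
  rw [h.bm_eq hμ F, h.bm_eq hμ W]
  refine sum_le_sum fun z _ => ?_
  have h0 : 0 ≤ ind U z * (μ z / bm μ (S z)) := mul_nonneg (ind_nonneg _ _)
    (div_nonneg (hμ z).le (bm_nonneg (fun y => (hμ y).le) _))
  by_cases hz : U z
  · exact mul_le_mul_of_nonneg_left (hF z hz) h0
  · rw [ind_neg hz]; simp

/-- Nested partitions. -/
structure Lat (X : Type*) where
  c : ℕ → X → X → Prop
  refl : ∀ j x, c j x x
  symm : ∀ j x y, c j x y → c j y x
  trans : ∀ j x y z, c j x y → c j y z → c j x z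
  nest : ∀ j x y, c j x y → c (j + 1) x y

omit [Fintype X] in
theorem Lat.mono (Λ : Lat X) {i j : ℕ} (h : i ≤ j) {x y : X} (hc : Λ.c i x y) : Λ.c j x y := by
  induction h with
  | refl => exact hc
  | step _ ih => exact Λ.nest _ _ _ ih

omit [Fintype X] in
theorem Lat.iff (Λ : Lat X) {j : ℕ} {x y : X} (h : Λ.c j x y) (z : X) : Λ.c j y z ↔ Λ.c j x z :=
  ⟨fun h' => Λ.trans _ _ _ _ h h', fun h' => Λ.trans _ _ _ _ (Λ.symm _ _ _ h) h'⟩

omit [Fintype X] in
theorem Lat.eq (Λ : Lat X) {j : ℕ} {x y : X} (h : Λ.c j x y) : Λ.c j y = Λ.c j x :=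
  funext fun z => propext (Λ.iff h z)

omit [Fintype X] in
theorem Lat.cel (Λ : Lat X) (j : ℕ) (U : X → Prop) (hU : ∀ x y, Λ.c j x y → U x → U y) :
    Cel U (Λ.c j) :=
  ⟨fun z _ => Λ.refl j z, fun z x hz h => ⟨hU z x h hz, Λ.iff h⟩⟩

omit [Fintype X] in
theorem Lat.cel_true (Λ : Lat X) (j : ℕ) : Cel (fun _ => True) (Λ.c j) :=
  Λ.cel j _ fun _ _ _ _ => trivial

theorem cut_true {Y : Type*} (f : Y → ℂ) : cut (fun _ => True) f = f :=
  funext fun _ => cut_pos f trivial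

/-- Real average over a cell. -/
def rav (μ : X → ℝ) (Λ : Lat X) (j : ℕ) (g : X → ℝ) (x : X) : ℝ :=
  bm (fun y => μ y * g y) (Λ.c j x) / bm μ (Λ.c j x)

theorem rav_nonneg (hμ : ∀ x, 0 < μ x) (Λ : Lat X) (j : ℕ) {g : X → ℝ} (hg : ∀ x, 0 ≤ g x)
    (x : X) : 0 ≤ rav μ Λ j g x :=
  div_nonneg (bm_nonneg (fun y => mul_nonneg (hμ y).le (hg y)) _)
    (bm_nonneg (fun y => (hμ y).le) _)

/-- Carleson embedding. -/
theorem carleson (hμ : ∀ x, 0 < μ x) (Λ : Lat X) {ι : Type*} [Fintype ι] (pt : ι → X)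
    (lev : ι → ℕ) (w : ι → ℝ) (hw : ∀ a, 0 ≤ w a) (A : ℝ) (hA0 : 0 ≤ A)
    (hA : ∀ i z, bm w (fun a => lev a ≤ i ∧ Λ.c i z (pt a)) ≤ A * bm μ (Λ.c i z))
    {g : X → ℝ} (hg : ∀ x, 0 ≤ g x) :
    ∑ a, w a * rav μ Λ (lev a) g (pt a) ^ 2 ≤ 8 * A * ∑ x, μ x * g x ^ 2 := by
  classical
  have := layer w (fun a => rav μ Λ (lev a) g (pt a)) μ g (fun a => rav_nonneg hμ Λ _ hg _) hg
    (2 * A) ?_
  · linarith
  intro t ht
  set M := univ.sup lev with hM
  set P : X → ℕ → Prop := fun z i => t < rav μ Λ i g z with hP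
  have hPc : ∀ i z x, Λ.c i z x → (P x i ↔ P z i) := fun i z x h => by
    simp only [hP, rav, Λ.eq h]
  set τ : X → ℕ := fun z => Nat.findGreatest (P z) M with hτ
  set U : X → Prop := fun z => P z (τ z) with hU
  have hτle : ∀ z i, i ≤ M → P z i → i ≤ τ z ∧ U z := fun z i hi hp =>
    ⟨Nat.le_findGreatest hi hp, Nat.findGreatest_spec hi hp⟩
  have hτM : ∀ z, τ z ≤ M := fun z => Nat.findGreatest_le M
  have hτc : ∀ z x, U z → Λ.c (τ z) z x → τ x = τ z ∧ U x := by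
    intro z x hz h
    obtain ⟨h1, h2⟩ := hτle x (τ z) (hτM z) ((hPc _ z x h).2 hz)
    refine ⟨le_antisymm ?_ h1, h2⟩
    exact (hτle z (τ x) (hτM x) ((hPc _ z x (Λ.mono h1 h)).1 h2)).1
  have hcel : Cel U (fun z => Λ.c (τ z) z) := ⟨fun z _ => Λ.refl _ _, fun z x hz h =>
    ⟨(hτc z x hz h).2, fun y => by
      show Λ.c (τ x) x y ↔ Λ.c (τ z) z y
      rw [(hτc z x hz h).1]; exact Λ.iff h y⟩⟩
  have h1 : bm w (fun a => t < rav μ Λ (lev a) g (pt a)) ≤ A * bm μ U := by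
    set F : X → ℝ := fun x => bm w (fun a => pt a = x ∧ lev a ≤ τ x) with hF
    have e : ∀ p : X → Prop, bm F p = bm w (fun a => p (pt a) ∧ lev a ≤ τ (pt a)) := by
      intro p
      simp only [hF, ← sum_mul_ind, sum_mul]
      rw [sum_comm]
      refine sum_congr rfl fun a _ => ?_
      rw [sum_eq_single_of_mem (pt a) (mem_univ _)]
      · by_cases h1 : p (pt a) <;> by_cases h2 : lev a ≤ τ (pt a) <;> simp [ind, h1, h2]
      · intro x _ hx
        have : ¬ pt a = x := fun h => hx h.symm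
        simp [ind, this]
    have a1 : bm w (fun a => t < rav μ Λ (lev a) g (pt a)) ≤ bm F U := by
      rw [e]
      refine bm_mono hw fun a ha => ?_
      have := hτle (pt a) (lev a) (le_sup (f := lev) (mem_univ a)) ha
      exact ⟨this.2, this.1⟩
    refine a1.trans ?_
    rw [← bm_mul]
    refine hcel.bm_le hμ _ _ fun z hz => ?_
    rw [e, bm_mul]
    refine le_trans (bm_mono hw fun a ha => ?_) (hA (τ z) z)
    exact ⟨by rw [← (hτc z _ hz ha.1).1]; exact ha.2, ha.1⟩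
  have h2 : t / 2 * bm μ U ≤ bm (fun j => μ j * g j) (fun j => t / 2 < g j) := by
    rw [← bm_mul, ← sum_mul_ind (fun j => μ j * g j)]
    refine le_trans (hcel.bm_le hμ _ (fun x => μ x * g x * ind (fun j => t / 2 < g j) x)
      fun z hz => ?_) (bm_le_sum (fun x => mul_nonneg (mul_nonneg (hμ x).le (hg x))
        (ind_nonneg _ _)) _)
    have hp := bm_pos_of_mem hμ (Λ.refl (τ z) z)
    have b1 : t < rav μ Λ (τ z) g z := hz
    unfold rav at b1
    rw [lt_div_iff₀ hp] at b1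
    have b2 : bm (fun y => μ y * g y) (Λ.c (τ z) z) ≤
        bm (fun y => t / 2 * μ y + μ y * g y * ind (fun j => t / 2 < g j) y) (Λ.c (τ z) z) := by
      refine bm_le_of_le fun y _ => ?_
      by_cases hy : t / 2 < g y
      · rw [ind_pos (p := fun j => t / 2 < g j) hy]; nlinarith [hμ y]
      · rw [ind_neg (p := fun j => t / 2 < g j) hy]; nlinarith [hμ y, not_lt.1 hy]
    rw [bm_add, bm_mul] at b2
    rw [bm_mul]
    linarith
  nlinarith [mul_le_mul_of_nonneg_left h1 ht.le, mul_le_mul_of_nonneg_left h2 hA0]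

/-- Complex average over a cell. -/
def cav (μ : X → ℝ) (Λ : Lat X) (j : ℕ) (f : X → ℂ) (x : X) : ℂ :=
  cint μ (Λ.c j x) f / (bm μ (Λ.c j x) : ℂ)

theorem norm_cint_le (hμ : ∀ x, 0 ≤ μ x) (p : X → Prop) (f : X → ℂ) :
    ‖cint μ p f‖ ≤ bm (fun y => μ y * ‖f y‖) p := by
  have := norm_sum_cut_le hμ (fun _ => 1) p f (fun _ => 1) (fun _ _ => by simp)
  simpa [cint] using this

theorem norm_cav_le (hμ : ∀ x, 0 < μ x) (Λ : Lat X) (j : ℕ) (f : X → ℂ) (x : X) :
    ‖cav μ Λ j f x‖ ≤ rav μ Λ j (fun y => ‖f y‖) x := by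
  unfold cav rav
  have hp := bm_pos_of_mem hμ (Λ.refl j x)
  rw [norm_div, Complex.norm_real, Real.norm_of_nonneg hp.le]
  exact div_le_div_of_nonneg_right (norm_cint_le (fun y => (hμ y).le) _ _) hp.le

theorem cint_const_mul (p : X → Prop) (a : ℂ) (f : X → ℂ) :
    cint μ p (fun y => a * f y) = a * cint μ p f := by
  unfold cint
  rw [mul_sum]
  exact sum_congr rfl fun y _ => by rw [cut_eq_ind, cut_eq_ind]; ring

theorem cint_sub (p : X → Prop) (f g : X → ℂ) :
    cint μ p (fun y => f y - g y) = cint μ p f - cint μ p g := by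
  unfold cint
  rw [← sum_sub_distrib]
  exact sum_congr rfl fun y _ => by rw [cut_eq_ind, cut_eq_ind, cut_eq_ind]; ring

theorem cint_congr {p : X → Prop} {f g : X → ℂ} (h : ∀ y, p y → f y = g y) :
    cint μ p f = cint μ p g := by
  unfold cint
  refine sum_congr rfl fun y _ => ?_
  by_cases hy : p y
  · rw [cut_pos _ hy, cut_pos _ hy, h y hy]
  · rw [cut_neg _ hy, cut_neg _ hy]

theorem cint_const (p : X → Prop) (a : ℂ) : cint μ p (fun _ => a) = a * bm μ p := by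
  rw [← sum_mul_ind, Complex.ofReal_sum, mul_sum]
  exact sum_congr rfl fun y _ => by rw [cut_eq_ind]; push_cast; ring

theorem cint_eq_sum_cut (p : X → Prop) (f : X → ℂ) :
    cint μ p f = ∑ y, cut p (fun y => f y * (μ y : ℂ)) y :=
  sum_congr rfl fun y _ => by rw [cut_eq_ind, cut_eq_ind]; ring

/-- Two functions with the same integrals over cells have the same integrals over unions. -/
theorem Cel.cint_eq {U : X → Prop} {S : X → X → Prop} (h : Cel U S) (hμ : ∀ x, 0 < μ x)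
    {f g : X → ℂ} (hfg : ∀ z, U z → cint μ (S z) f = cint μ (S z) g) :
    cint μ U f = cint μ U g := by
  simp only [cint_eq_sum_cut] at hfg ⊢
  rw [h.sum_eq hμ, h.sum_eq hμ]
  refine sum_congr rfl fun z _ => ?_
  by_cases hz : U z
  · rw [hfg z hz]
  · rw [ind_neg hz]; simp

theorem cint_cav (hμ : ∀ x, 0 < μ x) (Λ : Lat X) (j : ℕ) (f : X → ℂ) (x : X) :
    cint μ (Λ.c j x) (cav μ Λ j f) = cint μ (Λ.c j x) f := by
  have hp := bm_pos_of_mem hμ (Λ.refl j x)
  rw [cint_congr (g := fun _ => cav μ Λ j f x) fun y hy => by simp only [cav, Λ.eq hy],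
    cint_const, cav, div_mul_cancel₀]
  exact_mod_cast hp.ne'

theorem cint_cav_le (hμ : ∀ x, 0 < μ x) (Λ : Lat X) {i j : ℕ} (hij : i ≤ j) (f : X → ℂ) (x : X) :
    cint μ (Λ.c j x) (cav μ Λ i f) = cint μ (Λ.c j x) f :=
  (Λ.cel i _ fun _ _ h h' => Λ.trans _ _ _ _ h' (Λ.mono hij h)).cint_eq hμ
    fun z _ => cint_cav hμ Λ i f z

theorem cint_true (f : X → ℂ) : cint μ (fun _ => True) f = ∑ y, f y * (μ y : ℂ) := by
  unfold cint; rw [cut_true]

/-- Pythagoras for a function with cell means zero and a function constant on cells. -/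
theorem nsq_add_orth (hμ : ∀ x, 0 < μ x) (Λ : Lat X) (j : ℕ) {u v : X → ℂ}
    (hu : ∀ z, cint μ (Λ.c j z) u = 0) (hv : ∀ x y, Λ.c j x y → v y = v x) :
    nsq μ (fun x => u x + v x) = nsq μ u + nsq μ v := by
  have h1 : cint μ (fun _ => True) (fun x => (starRingEnd ℂ) (v x) * u x) =
      cint μ (fun _ => True) (fun _ => 0) := by
    refine (Λ.cel_true j).cint_eq hμ fun z _ => ?_
    rw [cint_congr (g := fun x => (starRingEnd ℂ) (v z) * u x) fun y hy => by rw [hv z y hy],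
      cint_const_mul, hu, cint_const]
    simp
  rw [cint_true, cint_true] at h1
  simp only [zero_mul, sum_const_zero] at h1
  have h2 := congrArg Complex.re h1
  rw [Complex.re_sum, Complex.zero_re] at h2
  unfold nsq
  rw [← sum_add_distrib, ← sub_eq_zero, ← sum_sub_distrib]
  have : ∑ x, (μ x * ‖u x + v x‖ ^ 2 - (μ x * ‖u x‖ ^ 2 + μ x * ‖v x‖ ^ 2)) =
      2 * ∑ x, ((starRingEnd ℂ) (v x) * u x * (μ x : ℂ)).re := by
    rw [mul_sum]
    refine sum_congr rfl fun x _ => ?_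
    simp only [Complex.sq_norm, Complex.normSq_apply, Complex.add_re, Complex.add_im,
      Complex.mul_re, Complex.mul_im, Complex.conj_re, Complex.conj_im, Complex.ofReal_re,
      Complex.ofReal_im]
    ring
  rw [this, h2, mul_zero]

theorem nsq_cav_le (hμ : ∀ x, 0 < μ x) (Λ : Lat X) (j : ℕ) (f : X → ℂ) :
    nsq μ (cav μ Λ j f) ≤ nsq μ f := by
  have h := nsq_add_orth hμ Λ j (u := fun x => f x - cav μ Λ j f x) (v := cav μ Λ j f)
    (fun z => by rw [cint_sub, cint_cav hμ, sub_self]) (fun x y h => by simp only [cav, Λ.eq h])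
  simp only [sub_add_cancel] at h
  have := nsq_nonneg (fun x => (hμ x).le) (fun x => f x - cav μ Λ j f x)
  linarith

/-- The ordinary martingale square function bound. -/
theorem sum_nsq_cav_le (hμ : ∀ x, 0 < μ x) (Λ : Lat X) (n : ℕ) (f : X → ℂ) :
    ∑ j ∈ range n, nsq μ (fun x => cav μ Λ j f x - cav μ Λ (j + 1) f x) ≤ nsq μ f := by
  have key : ∀ n, ∑ j ∈ range n, nsq μ (fun x => cav μ Λ j f x - cav μ Λ (j + 1) f x) +
      nsq μ (cav μ Λ n f) = nsq μ (cav μ Λ 0 f) := by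
    intro n
    induction n with
    | zero => simp
    | succ n ih =>
      rw [sum_range_succ, ← ih, add_assoc]
      congr 1
      have h := nsq_add_orth hμ Λ (n + 1) (u := fun x => cav μ Λ n f x - cav μ Λ (n + 1) f x)
        (v := cav μ Λ (n + 1) f)
        (fun z => by rw [cint_sub, cint_cav hμ, cint_cav_le hμ Λ (Nat.le_succ n), sub_self])
        (fun x y h => by simp only [cav, Λ.eq h])
      simp only [sub_add_cancel] at h
      exact h.symm
  have := key n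
  have := nsq_cav_le hμ Λ 0 f
  have := nsq_nonneg (fun x => (hμ x).le) (cav μ Λ n f)
  linarith

end

end Pool.Agent.Lib.MP_dfc9b7_an
end

-- part Pool.Agent.Lib.MP_dfc9b7_an.Mart
section

/-! Martingale differences adapted to an accretive function, with stopping. -/

set_option autoImplicit false
open Finset

namespace Pool.Agent.Lib.MP_dfc9b7_an

noncomputable section
variable {X : Type*} [Fintype X]

/-- Accretivity of `b` on all cells containing a point of `G`. -/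
structure Acc (μ : X → ℝ) (b : X → ℂ) (η : ℝ) (Λ : Lat X) (G : X → Prop) : Prop where
  mu_pos : ∀ x, 0 < μ x
  b_le : ∀ x, ‖b x‖ ≤ 1
  eta_pos : 0 < η
  eta_le : η ≤ 1
  acc : ∀ x, G x → ∀ j, η * bm μ (Λ.c j x) ≤ ‖cint μ (Λ.c j x) b‖

/-- Transit cells. -/
def tr {Y : Type*} (Λ : Lat Y) (G : Y → Prop) (j : ℕ) (x : Y) : Prop := ∃ y, Λ.c j x y ∧ G y

/-- Adapted average. -/
def co (μ : X → ℝ) (b : X → ℂ) (Λ : Lat X) (j : ℕ) (f : X → ℂ) (x : X) : ℂ :=
  cint μ (Λ.c j x) f / cint μ (Λ.c j x) b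

open Classical in
/-- Adapted conditional expectation. -/
def Eb (μ : X → ℝ) (b : X → ℂ) (Λ : Lat X) (G : X → Prop) (j : ℕ) (f : X → ℂ) (x : X) : ℂ :=
  if tr Λ G j x then co μ b Λ j f x * b x else f x

open Classical in
/-- Adjoint of the adapted conditional expectation. -/
def Es (μ : X → ℝ) (b : X → ℂ) (Λ : Lat X) (G : X → Prop) (j : ℕ) (h : X → ℂ) (x : X) : ℂ :=
  if tr Λ G j x then co μ b Λ j (fun y => b y * h y) x else h x

/-- Adapted martingale difference. -/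
def Db (μ : X → ℝ) (b : X → ℂ) (Λ : Lat X) (G : X → Prop) (j : ℕ) (f : X → ℂ) (x : X) : ℂ :=
  Eb μ b Λ G j f x - Eb μ b Λ G (j + 1) f x

/-- Adjoint martingale difference. -/
def Ds (μ : X → ℝ) (b : X → ℂ) (Λ : Lat X) (G : X → Prop) (j : ℕ) (h : X → ℂ) (x : X) : ℂ :=
  Es μ b Λ G j h x - Es μ b Λ G (j + 1) h x

/-- Coefficient difference. -/
def dc (μ : X → ℝ) (b : X → ℂ) (Λ : Lat X) (G : X → Prop) (j : ℕ) (f : X → ℂ) : X → ℂ :=
  cut (tr Λ G j) fun x => co μ b Λ j f x - co μ b Λ (j + 1) f x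

variable {μ : X → ℝ} {b : X → ℂ} {η : ℝ} {Λ : Lat X} {G : X → Prop}

omit [Fintype X] in
theorem tr_of_c {j : ℕ} {x y : X} (h : Λ.c j x y) (hx : tr Λ G j x) : tr Λ G j y := by
  obtain ⟨z, h1, h2⟩ := hx
  exact ⟨z, (Λ.iff h z).2 h1, h2⟩

omit [Fintype X] in
theorem tr_iff {j : ℕ} {x y : X} (h : Λ.c j x y) : tr Λ G j y ↔ tr Λ G j x :=
  ⟨tr_of_c (Λ.symm _ _ _ h), tr_of_c h⟩

omit [Fintype X] in
theorem tr_mono {i j : ℕ} (h : i ≤ j) {x : X} (hx : tr Λ G i x) : tr Λ G j x := by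
  obtain ⟨z, h1, h2⟩ := hx
  exact ⟨z, Λ.mono h h1, h2⟩

theorem co_of_c {j : ℕ} {x y : X} (h : Λ.c j x y) (f : X → ℂ) :
    co μ b Λ j f y = co μ b Λ j f x := by simp only [co, Λ.eq h]

theorem Acc.tr_acc (hA : Acc μ b η Λ G) {j : ℕ} {x : X} (hx : tr Λ G j x) :
    η * bm μ (Λ.c j x) ≤ ‖cint μ (Λ.c j x) b‖ := by
  obtain ⟨z, h1, h2⟩ := hx
  have := hA.acc z h2 j
  rwa [Λ.eq h1] at this

theorem Acc.cint_ne (hA : Acc μ b η Λ G) {j : ℕ} {x : X} (hx : tr Λ G j x) :
    cint μ (Λ.c j x) b ≠ 0 := by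
  have h1 := hA.tr_acc hx
  have h2 := mul_pos hA.eta_pos (bm_pos_of_mem hA.mu_pos (Λ.refl j x))
  intro h; rw [h, norm_zero] at h1; linarith

theorem Acc.cav_ge (hA : Acc μ b η Λ G) {j : ℕ} {x : X} (hx : tr Λ G j x) :
    η ≤ ‖cav μ Λ j b x‖ := by
  have hp := bm_pos_of_mem hA.mu_pos (Λ.refl j x)
  unfold cav
  rw [norm_div, Complex.norm_real, Real.norm_of_nonneg hp.le, le_div_iff₀ hp]
  exact hA.tr_acc hx

theorem Acc.co_eq (hA : Acc μ b η Λ G) (j : ℕ) (f : X → ℂ) (x : X) :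
    co μ b Λ j f x = cav μ Λ j f x / cav μ Λ j b x := by
  have hp : ((bm μ (Λ.c j x) : ℝ) : ℂ) ≠ 0 := by
    exact_mod_cast (bm_pos_of_mem hA.mu_pos (Λ.refl j x)).ne'
  unfold co cav
  rw [div_div_div_cancel_right₀ hp]

theorem Acc.norm_co_le (hA : Acc μ b η Λ G) {j : ℕ} {x : X} (hx : tr Λ G j x) (f : X → ℂ) :
    ‖co μ b Λ j f x‖ ≤ rav μ Λ j (fun y => ‖f y‖) x / η := by
  rw [hA.co_eq, norm_div]
  exact div_le_div₀ (rav_nonneg hA.mu_pos Λ j (fun _ => norm_nonneg _) x)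
    (norm_cav_le hA.mu_pos Λ j f x) hA.eta_pos (hA.cav_ge hx)

theorem carleson' (hμ : ∀ x, 0 < μ x) (Λ : Lat X) (n : ℕ) (lev : ℕ → X → ℕ) (w : ℕ → X → ℝ)
    (hw : ∀ j x, 0 ≤ w j x) (A : ℝ) (hA0 : 0 ≤ A)
    (hA : ∀ i z, ∑ j ∈ range n, bm (w j) (fun x => lev j x ≤ i ∧ Λ.c i z x) ≤
      A * bm μ (Λ.c i z)) (f : X → ℂ) :
    ∑ j ∈ range n, ∑ x, w j x * rav μ Λ (lev j x) (fun y => ‖f y‖) x ^ 2 ≤ 8 * A * nsq μ f := by
  have := carleson hμ Λ (ι := Fin n × X) (fun a => a.2) (fun a => lev a.1 a.2)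
    (fun a => w a.1 a.2) (fun a => hw _ _) A hA0 (fun i z => by
      refine le_trans (le_of_eq ?_) (hA i z)
      rw [← sum_mul_ind, Fintype.sum_prod_type, ← Fin.sum_univ_eq_sum_range
        (fun j => bm (w j) (fun x => lev j x ≤ i ∧ Λ.c i z x))]
      refine sum_congr rfl fun j _ => ?_
      rw [← sum_mul_ind]; rfl) (g := fun y => ‖f y‖) (fun _ => norm_nonneg _)
  rw [Fintype.sum_prod_type] at this
  rw [← Fin.sum_univ_eq_sum_range
    (fun j => ∑ x, w j x * rav μ Λ (lev j x) (fun y => ‖f y‖) x ^ 2)]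
  exact this

theorem nsq_cut (p : X → Prop) (f : X → ℂ) : nsq μ (cut p f) = bm (fun x => μ x * ‖f x‖ ^ 2) p := by
  rw [← sum_mul_ind]
  refine sum_congr rfl fun x _ => ?_
  by_cases h : p x
  · rw [cut_pos _ h, ind_pos h, mul_one]
  · rw [cut_neg _ h, ind_neg h]; simp

theorem nsq_cut_le_bm (hμ : ∀ x, 0 ≤ μ x) (p : X → Prop) {f : X → ℂ} {β : ℝ}
    (hf : ∀ x, ‖f x‖ ≤ β) : nsq μ (cut p f) ≤ β ^ 2 * bm μ p := by
  rw [nsq_cut, ← bm_mul]
  refine bm_le_of_le fun x _ => ?_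
  have := pow_le_pow_left₀ (norm_nonneg _) (hf x) 2
  nlinarith [hμ x]

theorem cint_cut_of_sub {p q : X → Prop} (h : ∀ y, p y → q y) (f : X → ℂ) :
    cint μ p (cut q f) = cint μ p f := cint_congr fun y hy => cut_pos f (h y hy)

theorem Acc.sum_dc (hA : Acc μ b η Λ G) (n : ℕ) (f : X → ℂ) :
    ∑ j ∈ range n, nsq μ (dc μ b Λ G j f) ≤ 18 / η ^ 4 * nsq μ f := by
  have hμ := hA.mu_pos
  have hη := hA.eta_pos
  have h1 := sum_nsq_cav_le hμ Λ n f
  have h2 := carleson' hμ Λ n (fun j _ => j + 1)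
    (fun j x => μ x * ‖cav μ Λ j b x - cav μ Λ (j + 1) b x‖ ^ 2)
    (fun j x => mul_nonneg (hμ x).le (sq_nonneg _)) 1 zero_le_one (fun i z => by
      refine le_trans ?_ ((sum_nsq_cav_le hμ Λ n (cut (Λ.c i z) b)).trans ?_)
      · refine sum_le_sum fun j _ => ?_
        refine le_trans (bm_le_of_le fun x hx => le_of_eq ?_)
          (bm_le_sum (fun x => mul_nonneg (hμ x).le (sq_nonneg _)) _)
        have a1 : ∀ l, l ≤ i → cav μ Λ l (cut (Λ.c i z) b) x = cav μ Λ l b x := fun l hl => by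
          unfold cav
          rw [cint_cut_of_sub fun y hy => Λ.trans _ _ _ _ hx.2 (Λ.mono hl hy)]
        dsimp only
        rw [a1 j (by omega), a1 (j + 1) hx.1]
      · simpa using nsq_cut_le_bm (fun x => (hμ x).le) (Λ.c i z) hA.b_le) f
  have h3 : ∀ j x, μ x * ‖dc μ b Λ G j f x‖ ^ 2 ≤
      2 / η ^ 4 * (μ x * ‖cav μ Λ j f x - cav μ Λ (j + 1) f x‖ ^ 2) +
      2 / η ^ 4 * (μ x * ‖cav μ Λ j b x - cav μ Λ (j + 1) b x‖ ^ 2 *
        rav μ Λ (j + 1) (fun y => ‖f y‖) x ^ 2) := by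
    intro j x
    have hx0 := (hμ x).le
    by_cases hx : tr Λ G j x
    swap
    · unfold dc; rw [cut_neg _ hx]; simp only [norm_zero]
      have : 0 ≤ rav μ Λ (j + 1) (fun y => ‖f y‖) x ^ 2 := sq_nonneg _
      rw [zero_pow two_ne_zero, mul_zero]; positivity
    unfold dc
    rw [cut_pos _ hx, hA.co_eq, hA.co_eq]
    have c1 := hA.cav_ge hx
    have c2 := hA.cav_ge (tr_mono (Nat.le_succ j) hx)
    have c3 := norm_cav_le hμ Λ (j + 1) f x
    set p := cav μ Λ j f x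
    set q := cav μ Λ (j + 1) f x
    set r := cav μ Λ j b x
    set s := cav μ Λ (j + 1) b x
    set m := rav μ Λ (j + 1) (fun y => ‖f y‖) x
    have hr : r ≠ 0 := by intro h; rw [h, norm_zero] at c1; linarith
    have hs : s ≠ 0 := by intro h; rw [h, norm_zero] at c2; linarith
    have e : p / r - q / s = (p - q) / r - q * (r - s) / (r * s) := by field_simp; ring
    have hη2 : η ^ 2 ≤ η := by nlinarith [hA.eta_le]
    have d1 : ‖(p - q) / r‖ ≤ ‖p - q‖ / η ^ 2 := by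
      rw [norm_div]
      exact div_le_div_of_nonneg_left (norm_nonneg _) (by positivity) (hη2.trans c1)
    have d2 : ‖q * (r - s) / (r * s)‖ ≤ ‖r - s‖ * m / η ^ 2 := by
      rw [norm_div, norm_mul, norm_mul, mul_comm ‖q‖]
      refine div_le_div₀ (mul_nonneg (norm_nonneg _) ((norm_nonneg _).trans c3))
        (mul_le_mul_of_nonneg_left c3 (norm_nonneg _)) (by positivity) ?_
      rw [sq]; exact mul_le_mul c1 c2 hη.le (norm_nonneg _)
    have d3 : ‖p / r - q / s‖ ≤ ‖p - q‖ / η ^ 2 + ‖r - s‖ * m / η ^ 2 := by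
      rw [e]; exact (norm_sub_le _ _).trans (add_le_add d1 d2)
    have d4 := (pow_le_pow_left₀ (norm_nonneg _) d3 2).trans add_sq_le
    refine (mul_le_mul_of_nonneg_left d4 hx0).trans (le_of_eq ?_)
    field_simp
  have h4 : ∑ j ∈ range n, nsq μ (dc μ b Λ G j f) ≤
      2 / η ^ 4 * ∑ j ∈ range n, nsq μ (fun x => cav μ Λ j f x - cav μ Λ (j + 1) f x) +
      2 / η ^ 4 * ∑ j ∈ range n, ∑ x, μ x * ‖cav μ Λ j b x - cav μ Λ (j + 1) b x‖ ^ 2 *
        rav μ Λ (j + 1) (fun y => ‖f y‖) x ^ 2 := by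
    rw [mul_sum, mul_sum, ← sum_add_distrib]
    refine sum_le_sum fun j _ => ?_
    unfold nsq
    rw [mul_sum, mul_sum, ← sum_add_distrib]
    exact sum_le_sum fun x _ => h3 j x
  have h5 : 0 ≤ 2 / η ^ 4 := by positivity
  have := mul_le_mul_of_nonneg_left h1 h5
  have := mul_le_mul_of_nonneg_left h2 h5
  have e : 18 / η ^ 4 * nsq μ f = 2 / η ^ 4 * nsq μ f + 2 / η ^ 4 * (8 * 1 * nsq μ f) := by ring
  linarith

omit [Fintype X] in
theorem sum_stop_le (n : ℕ) (x : X) :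
    ∑ j ∈ range n, ind (fun x => ¬ tr Λ G j x ∧ tr Λ G (j + 1) x) x ≤ 1 := by
  have key : ∀ n, ∑ j ∈ range n, ind (fun x => ¬ tr Λ G j x ∧ tr Λ G (j + 1) x) x ≤
      ind (tr Λ G n) x := by
    intro n
    induction n with
    | zero => simpa using ind_nonneg _ _
    | succ n ih =>
      rw [sum_range_succ]
      by_cases h1 : tr Λ G n x
      · rw [ind_neg (p := fun x => ¬ tr Λ G n x ∧ tr Λ G (n + 1) x) fun h => h.1 h1,
          ind_pos (tr_mono (Nat.le_succ n) h1)]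
        rw [ind_pos h1] at ih; linarith
      · rw [ind_neg h1] at ih
        by_cases h2 : tr Λ G (n + 1) x
        · rw [ind_pos h2]; linarith [(ind_U01 (fun x => ¬ tr Λ G n x ∧ tr Λ G (n + 1) x) x).2]
        · rw [ind_neg (p := fun x => ¬ tr Λ G n x ∧ tr Λ G (n + 1) x) fun h => h2 h.2, ind_neg h2]
          linarith
  exact (key n).trans (ind_U01 _ _).2

theorem Acc.sum_gen (hA : Acc μ b η Λ G) (n : ℕ) (f f' : X → ℂ) (hf : nsq μ f' ≤ nsq μ f)
    (u : ℕ → X → ℂ) (hu : ∀ j x, ‖u j x‖ ^ 2 ≤ ‖dc μ b Λ G j f' x‖ ^ 2 +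
      ind (fun x => ¬ tr Λ G j x ∧ tr Λ G (j + 1) x) x *
        (2 * ‖f x‖ ^ 2 + 2 * ‖co μ b Λ (j + 1) f' x‖ ^ 2)) :
    ∑ j ∈ range n, nsq μ (u j) ≤ 36 / η ^ 4 * nsq μ f := by
  have hμ := hA.mu_pos
  have hη := hA.eta_pos
  have h1 := hA.sum_dc n f'
  have hstop : ∀ (g : X → ℝ), (∀ x, 0 ≤ g x) → ∑ j ∈ range n, ∑ x,
      ind (fun x => ¬ tr Λ G j x ∧ tr Λ G (j + 1) x) x * g x ≤ ∑ x, g x := by
    intro g hg
    rw [sum_comm]
    refine sum_le_sum fun x _ => ?_
    rw [← sum_mul]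
    nlinarith [sum_stop_le (Λ := Λ) (G := G) n x, hg x]
  have h2 := carleson' hμ Λ n (fun j _ => j + 1)
    (fun j x => μ x * ind (fun x => ¬ tr Λ G j x ∧ tr Λ G (j + 1) x) x)
    (fun j x => mul_nonneg (hμ x).le (ind_nonneg _ _)) 1 zero_le_one (fun i z => by
      rw [one_mul, ← sum_mul_ind μ]
      refine le_trans (sum_le_sum fun j _ => ?_) (hstop _ fun x =>
        mul_nonneg (hμ x).le (ind_nonneg (Λ.c i z) x))
      refine (bm_mono (fun x => mul_nonneg (hμ x).le (ind_nonneg _ _))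
        (q := Λ.c i z) fun x hx => hx.2).trans (le_of_eq ?_)
      rw [← sum_mul_ind]
      exact sum_congr rfl fun x _ => by ring) f'
  have h3 := hstop (fun x => μ x * ‖f x‖ ^ 2) fun x => mul_nonneg (hμ x).le (sq_nonneg _)
  have h4 : ∑ j ∈ range n, nsq μ (u j) ≤ ∑ j ∈ range n, nsq μ (dc μ b Λ G j f') +
      2 * ∑ j ∈ range n, ∑ x, ind (fun x => ¬ tr Λ G j x ∧ tr Λ G (j + 1) x) x *
        (μ x * ‖f x‖ ^ 2) +
      2 / η ^ 2 * ∑ j ∈ range n, ∑ x, μ x * ind (fun x => ¬ tr Λ G j x ∧ tr Λ G (j + 1) x) x *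
        rav μ Λ (j + 1) (fun y => ‖f' y‖) x ^ 2 := by
    rw [mul_sum, mul_sum, ← sum_add_distrib, ← sum_add_distrib]
    refine sum_le_sum fun j _ => ?_
    unfold nsq
    rw [mul_sum, mul_sum, ← sum_add_distrib, ← sum_add_distrib]
    refine sum_le_sum fun x _ => ?_
    refine (mul_le_mul_of_nonneg_left (hu j x) (hμ x).le).trans ?_
    by_cases hx : ¬ tr Λ G j x ∧ tr Λ G (j + 1) x
    · rw [ind_pos (p := fun x => ¬ tr Λ G j x ∧ tr Λ G (j + 1) x) hx]
      have a1 := pow_le_pow_left₀ (norm_nonneg _) (hA.norm_co_le hx.2 f') 2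
      rw [div_pow] at a1
      have a2 := mul_le_mul_of_nonneg_left a1 (hμ x).le
      have e : 2 / η ^ 2 * (μ x * 1 * rav μ Λ (j + 1) (fun y => ‖f' y‖) x ^ 2) =
        2 * (μ x * (rav μ Λ (j + 1) (fun y => ‖f' y‖) x ^ 2 / η ^ 2)) := by ring
      rw [e]; linarith
    · rw [ind_neg (p := fun x => ¬ tr Λ G j x ∧ tr Λ G (j + 1) x) hx]; simp
  have hn := nsq_nonneg (fun x => (hμ x).le) f
  have hη4 : η ^ 4 ≤ η ^ 2 := pow_le_pow_of_le_one hη.le hA.eta_le (by norm_num)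
  have hη2 : η ^ 2 ≤ 1 := pow_le_one₀ hη.le hA.eta_le
  have b1 : 2 / η ^ 2 ≤ 2 / η ^ 4 := div_le_div_of_nonneg_left (by norm_num) (by positivity) hη4
  have b2 : 2 ≤ 2 / η ^ 4 := by rw [le_div_iff₀ (by positivity)]; linarith
  have b3 : 0 ≤ 2 / η ^ 2 := by positivity
  have b4 := mul_le_mul_of_nonneg_left h2 b3
  have b5 : 18 / η ^ 4 * nsq μ f' ≤ 18 / η ^ 4 * nsq μ f :=
    mul_le_mul_of_nonneg_left hf (by positivity)
  have b6 : 2 / η ^ 2 * (8 * 1 * nsq μ f') ≤ 2 / η ^ 4 * (8 * nsq μ f) :=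
    mul_le_mul b1 (by linarith) (by have := nsq_nonneg (fun x => (hμ x).le) f'; positivity)
      (by positivity)
  have b7 : 2 * nsq μ f ≤ 2 / η ^ 4 * nsq μ f := mul_le_mul_of_nonneg_right b2 hn
  have e : 36 / η ^ 4 * nsq μ f =
    18 / η ^ 4 * nsq μ f + 2 / η ^ 4 * nsq μ f + 2 / η ^ 4 * (8 * nsq μ f) := by ring
  unfold nsq at *
  linarith

theorem Db_tr {j : ℕ} {x : X} (hx : tr Λ G j x) (f : X → ℂ) :
    Db μ b Λ G j f x = dc μ b Λ G j f x * b x := by
  unfold Db Eb dc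
  rw [if_pos hx, if_pos (tr_mono (Nat.le_succ j) hx), cut_pos _ hx]; ring

theorem Db_not_tr {j : ℕ} {x : X} (hx : ¬ tr Λ G (j + 1) x) (f : X → ℂ) :
    Db μ b Λ G j f x = 0 := by
  unfold Db Eb
  rw [if_neg hx, if_neg fun h => hx (tr_mono (Nat.le_succ j) h), sub_self]

theorem dc_of_c {j : ℕ} {x y : X} (h : Λ.c j x y) (f : X → ℂ) :
    dc μ b Λ G j f y = dc μ b Λ G j f x := by
  unfold dc
  by_cases hx : tr Λ G j x
  · rw [cut_pos _ hx, cut_pos _ (tr_of_c h hx), co_of_c h, co_of_c (Λ.nest _ _ _ h)]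
  · rw [cut_neg _ hx, cut_neg _ fun h' => hx ((tr_iff h).1 h')]

theorem Acc.sum_Db (hA : Acc μ b η Λ G) (n : ℕ) (f : X → ℂ) :
    ∑ j ∈ range n, nsq μ (Db μ b Λ G j f) ≤ 36 / η ^ 4 * nsq μ f := by
  refine hA.sum_gen n f f le_rfl _ fun j x => ?_
  by_cases h1 : tr Λ G j x
  · rw [Db_tr h1, ind_neg (p := fun x => ¬ tr Λ G j x ∧ tr Λ G (j + 1) x) fun h => h.1 h1,
      zero_mul, add_zero, norm_mul]
    refine pow_le_pow_left₀ (by positivity) ?_ 2
    nlinarith [hA.b_le x, norm_nonneg (dc μ b Λ G j f x)]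
  by_cases h2 : tr Λ G (j + 1) x
  · rw [ind_pos (p := fun x => ¬ tr Λ G j x ∧ tr Λ G (j + 1) x) ⟨h1, h2⟩]
    unfold Db Eb
    rw [if_neg h1, if_pos h2]
    have a1 : ‖f x - co μ b Λ (j + 1) f x * b x‖ ≤ ‖f x‖ + ‖co μ b Λ (j + 1) f x‖ := by
      refine (norm_sub_le _ _).trans ?_
      rw [norm_mul]
      nlinarith [hA.b_le x, norm_nonneg (co μ b Λ (j + 1) f x)]
    have a2 := (pow_le_pow_left₀ (norm_nonneg _) a1 2).trans add_sq_le
    nlinarith [sq_nonneg ‖dc μ b Λ G j f x‖]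
  · rw [Db_not_tr h2, ind_neg (p := fun x => ¬ tr Λ G j x ∧ tr Λ G (j + 1) x) fun h => h2 h.2]
    simp

theorem Acc.sum_Ds (hA : Acc μ b η Λ G) (n : ℕ) (h : X → ℂ) :
    ∑ j ∈ range n, nsq μ (Ds μ b Λ G j h) ≤ 36 / η ^ 4 * nsq μ h := by
  refine hA.sum_gen n h (fun y => b y * h y) (sum_le_sum fun x _ => ?_) _ fun j x => ?_
  · refine mul_le_mul_of_nonneg_left (pow_le_pow_left₀ (norm_nonneg _) ?_ 2) (hA.mu_pos x).le
    rw [norm_mul]; nlinarith [hA.b_le x, norm_nonneg (h x)]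
  by_cases h1 : tr Λ G j x
  · rw [ind_neg (p := fun x => ¬ tr Λ G j x ∧ tr Λ G (j + 1) x) fun h => h.1 h1]
    unfold Ds Es dc
    rw [if_pos h1, if_pos (tr_mono (Nat.le_succ j) h1), cut_pos _ h1]; simp
  by_cases h2 : tr Λ G (j + 1) x
  · rw [ind_pos (p := fun x => ¬ tr Λ G j x ∧ tr Λ G (j + 1) x) ⟨h1, h2⟩]
    unfold Ds Es
    rw [if_neg h1, if_pos h2]
    have a2 := (pow_le_pow_left₀ (norm_nonneg _)
      (norm_sub_le (h x) (co μ b Λ (j + 1) (fun y => b y * h y) x)) 2).trans add_sq_le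
    nlinarith [sq_nonneg ‖dc μ b Λ G j (fun y => b y * h y) x‖]
  · rw [ind_neg (p := fun x => ¬ tr Λ G j x ∧ tr Λ G (j + 1) x) fun h => h2 h.2]
    unfold Ds Es
    rw [if_neg h1, if_neg h2]; simp

theorem Acc.cint_Eb (hA : Acc μ b η Λ G) (j : ℕ) (f : X → ℂ) (z : X) :
    cint μ (Λ.c j z) (Eb μ b Λ G j f) = cint μ (Λ.c j z) f := by
  by_cases hz : tr Λ G j z
  · rw [cint_congr (g := fun y => co μ b Λ j f z * b y) fun y hy => by
      unfold Eb; rw [if_pos (tr_of_c hy hz), co_of_c hy], cint_const_mul, co,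
      div_mul_cancel₀ _ (hA.cint_ne hz)]
  · exact cint_congr fun y hy => by unfold Eb; rw [if_neg fun h => hz ((tr_iff hy).1 h)]

theorem Acc.cint_Db (hA : Acc μ b η Λ G) (j : ℕ) (f : X → ℂ) (z : X) :
    cint μ (Λ.c (j + 1) z) (Db μ b Λ G j f) = 0 := by
  have h1 : cint μ (Λ.c (j + 1) z) (Eb μ b Λ G j f) = cint μ (Λ.c (j + 1) z) f :=
    (Λ.cel j _ fun _ _ h h' => Λ.trans _ _ _ _ h' (Λ.nest _ _ _ h)).cint_eq hA.mu_pos
      fun z _ => hA.cint_Eb j f z
  have := cint_sub (μ := μ) (Λ.c (j + 1) z) (Eb μ b Λ G j f) (Eb μ b Λ G (j + 1) f)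
  rw [h1, hA.cint_Eb, sub_self] at this
  exact this

theorem Acc.decomp (hA : Acc μ b η Λ G) (h0 : ∀ x y, Λ.c 0 x y → y = x) (L : ℕ) (f : X → ℂ)
    (x : X) : f x = ∑ j ∈ range L, Db μ b Λ G j f x + Eb μ b Λ G L f x := by
  have e0 : Eb μ b Λ G 0 f x = f x := by
    have h1 := hA.cint_Eb 0 f x
    have h2 : ∀ g : X → ℂ, cint μ (Λ.c 0 x) g = g x * μ x := fun g => by
      unfold cint
      rw [sum_eq_single_of_mem x (mem_univ x), cut_pos _ (Λ.refl 0 x)]
      intro y _ hy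
      rw [cut_neg _ fun h => hy (h0 x y h), zero_mul]
    rw [h2, h2] at h1
    exact mul_right_cancel₀ (by exact_mod_cast (hA.mu_pos x).ne') h1
  unfold Db
  rw [sum_range_sub' (fun j => Eb μ b Λ G j f x), e0]; ring

/-- The pairing identity behind the paraproduct estimate. -/
theorem Acc.pair_Ds (hA : Acc μ b η Λ G) (j : ℕ) (f h a : X → ℂ)
    (ha : ∀ x y, Λ.c (j + 1) x y → a y = a x) :
    ∑ x, a x * Db μ b Λ G j f x * h x * (μ x : ℂ) =
      ∑ x, a x * Db μ b Λ G j f x * Ds μ b Λ G j h x * (μ x : ℂ) := by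
  have h1 : cint μ (fun _ => True) (fun x => a x * Db μ b Λ G j f x * Es μ b Λ G (j + 1) h x) =
      cint μ (fun _ => True) (fun _ => 0) := by
    refine (Λ.cel_true (j + 1)).cint_eq hA.mu_pos fun z _ => ?_
    by_cases hz : tr Λ G (j + 1) z
    · rw [cint_congr (g := fun x => (a z * co μ b Λ (j + 1) (fun y => b y * h y) z) *
        Db μ b Λ G j f x) fun y hy => by
          unfold Es; rw [if_pos (tr_of_c hy hz), co_of_c hy, ha z y hy]; ring,
        cint_const_mul, hA.cint_Db, cint_const]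
      simp
    · exact cint_congr fun y hy => by rw [Db_not_tr fun h => hz ((tr_iff hy).1 h)]; simp
  have h2 : cint μ (fun _ => True) (fun x => a x * Db μ b Λ G j f x * Es μ b Λ G j h x) =
      cint μ (fun _ => True) (fun x => a x * Db μ b Λ G j f x * h x) := by
    refine (Λ.cel_true j).cint_eq hA.mu_pos fun z _ => ?_
    by_cases hz : tr Λ G j z
    · rw [cint_congr (g := fun x => (a z * dc μ b Λ G j f z *
          co μ b Λ j (fun y => b y * h y) z) * b x) fun y hy => by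
          unfold Es; rw [if_pos (tr_of_c hy hz), co_of_c hy, ha z y (Λ.nest _ _ _ hy),
            Db_tr (tr_of_c hy hz), dc_of_c hy]; ring,
        cint_congr (f := fun x => a x * Db μ b Λ G j f x * h x)
          (g := fun x => (a z * dc μ b Λ G j f z) * (b x * h x)) fun y hy => by
          rw [ha z y (Λ.nest _ _ _ hy), Db_tr (tr_of_c hy hz), dc_of_c hy]; ring,
        cint_const_mul, cint_const_mul, co, mul_assoc, div_mul_cancel₀ _ (hA.cint_ne hz)]
    · exact cint_congr fun y hy => by unfold Es; rw [if_neg fun h => hz ((tr_iff hy).1 h)]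
  rw [cint_true, cint_true] at h1 h2
  simp only [zero_mul, sum_const_zero] at h1
  rw [← h2, ← sub_zero (∑ x, a x * Db μ b Λ G j f x * Es μ b Λ G j h x * (μ x : ℂ)), ← h1,
    ← sum_sub_distrib]
  exact sum_congr rfl fun x _ => by unfold Ds; ring

theorem Ds_local {j : ℕ} {x : X} {S : X → Prop} (hS : ∀ y, Λ.c (j + 1) x y → S y) (h : X → ℂ) :
    Ds μ b Λ G j (cut S h) x = Ds μ b Λ G j h x := by
  have e : ∀ i, i ≤ j + 1 → Es μ b Λ G i (cut S h) x = Es μ b Λ G i h x := by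
    intro i hi
    unfold Es co
    rw [cut_pos _ (hS x (Λ.refl _ _)), cint_congr (g := fun y => b y * h y) fun y hy => by
      rw [cut_pos _ (hS y (Λ.mono hi hy))]]
  unfold Ds
  rw [e j (Nat.le_succ j), e (j + 1) le_rfl]

end

end Pool.Agent.Lib.MP_dfc9b7_an
end
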