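import Pool.Agent.Lib.MP_dfc9b7_an.Main

/-! Removing countably many compact sets of zero capacity; capacity in the chart at infinity. -/

open Filter Topology Set Metric
open scoped ENNReal

namespace Pool.Agent.Lib.MP_dfc9b7_an

theorem sg_step {K E : Set ℂ} (hK : IsCompact K) (h0 : cap K = 0) (hE : IsCompact E) {t : ℝ}
    (ht : t < cap E) : ∃ L, IsCompact L ∧ L ⊆ E \ K ∧ t < cap L := by
  by_contra hc
  push Not at hc
  have h1 : 0 ≤ t := by simpa [cap_empty] using hc ∅ isCompact_empty (empty_subset _)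
  have h2 := gs_le h1 hc
  rw [gs_eq_cap hK h0 hE] at h2
  linarith

theorem sg_union {K : ℕ → Set ℂ} (hK : ∀ n, IsCompact (K n)) (h0 : ∀ n, cap (K n) = 0)
    {E : Set ℂ} (hE : IsCompact E) {t : ℝ} (ht : t < cap E) :
    ∃ L, IsCompact L ∧ L ⊆ E \ ⋃ n, K n ∧ t ≤ cap L := by
  choose! F hF using fun (n : ℕ) (A : Set ℂ) (h : IsCompact A ∧ t < cap A) =>
    sg_step (hK n) (h0 n) h.1 h.2
  let A : ℕ → Set ℂ := fun n => Nat.rec E F n
  have hA : ∀ n, IsCompact (A n) ∧ t < cap (A n) := fun n => by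
    induction n with
    | zero => exact ⟨hE, ht⟩
    | succ n ih => exact ⟨(hF n _ ih).1, (hF n _ ih).2.2⟩
  have hs : ∀ n, A (n + 1) ⊆ A n \ K n := fun n => (hF n _ (hA n)).2.1
  have hanti : Antitone A := antitone_nat_of_succ_le fun n => (hs n).trans sdiff_subset
  have hL : IsCompact (⋂ n, A n) :=
    hE.of_isClosed_subset (isClosed_iInter fun n => (hA n).1.isClosed) (iInter_subset A 0)
  refine ⟨⋂ n, A n, hL, fun z hz => ⟨mem_iInter.1 hz 0, fun h => ?_⟩,
    le_of_forall_pos_le_add fun ε hε => ?_⟩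
  · obtain ⟨n, hn⟩ := mem_iUnion.1 h
    exact (hs n (mem_iInter.1 hz (n + 1))).2 hn
  · obtain ⟨d, hd, h⟩ := cap_outer hL hε
    obtain ⟨n, hn⟩ := exists_subset_nhds_of_isCompact' hanti.directed_ge (fun n => (hA n).1)
      (fun n => (hA n).1.isClosed) (U := thickening d (⋂ n, A n))
      fun z hz => isOpen_thickening.mem_nhds (self_subset_thickening hd _ hz)
    exact (hA n).2.le.trans ((cap_mono (hn.trans (thickening_subset_cthickening _ _))
      hL.isBounded.cthickening).trans h)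

/-- the function in the chart at infinity -/
noncomputable def sgInf (f : ℂ → ℂ) : ℂ → ℂ := fun w => if w = 0 then 0 else f w⁻¹

/-- capacity written with the chart at infinity -/
noncomputable def sgCap (E : Set ℂ) : ℝ≥0∞ :=
  ⨆ (f : ℂ → ℂ) (_ : AnalyticOnNhd ℂ f Eᶜ) (_ : AnalyticAt ℂ (sgInf f) 0)
    (_ : ∀ z ∈ Eᶜ, ‖f z‖ ≤ 1), ‖deriv (sgInf f) 0‖ₑ

theorem sg_lim {f : ℂ → ℂ} (h : AnalyticAt ℂ (sgInf f) 0) :
    Tendsto (fun z => z * f z) (cocompact ℂ) (𝓝 (deriv (sgInf f) 0)) := by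
  have h1 : ContinuousAt (dslope (sgInf f) 0) 0 := continuousAt_dslope_same.2 h.differentiableAt
  have h2 := h1.tendsto.comp (tendsto_inv_sub 0)
  rw [dslope_same] at h2
  refine h2.congr' ?_
  filter_upwards [eventually_norm_sub_gt 0 0] with z hz
  have h3 : z ≠ 0 := by simpa using hz
  simp [dslope_of_ne _ (inv_ne_zero h3), slope_def_field, sgInf, h3, mul_comm]

theorem sg_analytic {S : Set ℂ} (hS : IsCompact S) {f : ℂ → ℂ} {a : ℂ} (h : Adm S f a 1) :
    AnalyticAt ℂ (sgInf f) 0 := by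
  have h1 : Tendsto (fun w : ℂ => w⁻¹) (𝓝[≠] 0) (cocompact ℂ) := by
    rw [← cobounded_eq_cocompact]
    exact tendsto_inv₀_nhdsNE_zero
  refine Complex.analyticAt_of_differentiable_on_punctured_nhds_of_continuousAt ?_ ?_
  · filter_upwards [h1 hS.compl_mem_cocompact, self_mem_nhdsWithin] with w hw h2
    have h3 : w ≠ 0 := h2
    have h4 : DifferentiableAt ℂ (fun w : ℂ => f w⁻¹) w :=
      (h.diff.differentiableAt (hS.isClosed.isOpen_compl.mem_nhds hw)).comp w
        (differentiableAt_inv h3)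
    refine h4.congr_of_eventuallyEq ?_
    filter_upwards [isOpen_ne.mem_nhds h3] with u hu
    simp [sgInf, hu]
  · rw [continuousAt_iff_punctured_nhds, show sgInf f 0 = 0 by simp [sgInf]]
    refine ((tendsto_zero_of_mul h.lim).comp h1).congr' ?_
    filter_upwards [self_mem_nhdsWithin] with u hu
    have : u ≠ 0 := hu
    simp [sgInf, this]

theorem sgCap_eq {S : Set ℂ} (hS : IsCompact S) : sgCap S = ENNReal.ofReal (cap S) := by
  refine le_antisymm (iSup_le fun f => iSup_le fun h1 => iSup_le fun h2 => iSup_le fun h3 => ?_) ?_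
  · rw [← ofReal_norm]
    exact ENNReal.ofReal_le_ofReal
      (Adm.le_cap_one ⟨h1.differentiableOn, h3, sg_lim h2⟩ hS.isBounded)
  · refine ENNReal.le_of_forall_nnreal_lt fun r hr => ?_
    obtain ⟨f, a, h, h1, h2⟩ := exists_adm_lt (ENNReal.coe_lt_ofReal.1 hr)
    have h3 := sg_analytic hS h
    refine le_iSup_of_le f (le_iSup_of_le (h.diff.analyticOnNhd hS.isClosed.isOpen_compl)
      (le_iSup_of_le h3 (le_iSup_of_le h.bd ?_)))
    rw [tendsto_nhds_unique (sg_lim h3) h.lim, ← ofReal_norm, Complex.norm_real,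
      Real.norm_of_nonneg h2, ← ENNReal.ofReal_coe_nnreal]
    exact ENNReal.ofReal_le_ofReal h1.le

theorem sg_main {K : ℕ → Set ℂ} (hK : ∀ n, IsCompact (K n)) (h0 : ∀ n, sgCap (K n) = 0)
    {E : Set ℂ} (hE : IsCompact E) :
    ⨆ (L : Set ℂ) (_ : IsCompact L) (_ : L ⊆ E \ ⋃ n, K n), sgCap L = sgCap E := by
  have h1 : ∀ n, cap (K n) = 0 := fun n =>
    le_antisymm (ENNReal.ofReal_eq_zero.1 (sgCap_eq (hK n) ▸ h0 n)) (cap_nonneg _)
  refine le_antisymm (iSup_le fun L => iSup_le fun hL => iSup_le fun hs => ?_) ?_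
  · rw [sgCap_eq hL, sgCap_eq hE]
    exact ENNReal.ofReal_le_ofReal (cap_mono (hs.trans sdiff_subset) hE.isBounded)
  · rw [sgCap_eq hE]
    refine ENNReal.le_of_forall_nnreal_lt fun r hr => ?_
    obtain ⟨L, hL, hs, ht⟩ := sg_union hK h1 hE (ENNReal.coe_lt_ofReal.1 hr)
    refine le_iSup_of_le L (le_iSup_of_le hL (le_iSup_of_le hs ?_))
    rw [sgCap_eq hL, ← ENNReal.ofReal_coe_nnreal]
    exact ENNReal.ofReal_le_ofReal ht

end Pool.Agent.Lib.MP_dfc9b7_an
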