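import Pool.Agent.Lib.MP_dfc9b7_an.GridCap

-- part Pool.Agent.Lib.MP_dfc9b7_an.Good
section

/-! Removing the exceptional sets before the Tb theorem is applied. -/

set_option autoImplicit false
open Finset

namespace Pool.Agent.Lib.MP_dfc9b7_an

noncomputable section

theorem Lat.stop {X : Type*} (Λ : Lat X) (P : X → ℕ → Prop)
    (hPc : ∀ i z x, Λ.c i z x → (P x i ↔ P z i)) (M : ℕ) :
    ∃ τ : X → ℕ, Cel (fun z => ∃ i, i ≤ M ∧ P z i) (fun z => Λ.c (τ z) z) ∧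
      ∀ z, (∃ i, i ≤ M ∧ P z i) → P z (τ z) := by
  classical
  set τ : X → ℕ := fun z => Nat.findGreatest (P z) M with hτ
  have hτle : ∀ z i, i ≤ M → P z i → i ≤ τ z ∧ P z (τ z) := fun z i hi hp =>
    ⟨Nat.le_findGreatest hi hp, Nat.findGreatest_spec hi hp⟩
  have hτM : ∀ z, τ z ≤ M := fun z => Nat.findGreatest_le M
  have hτc : ∀ z x, P z (τ z) → Λ.c (τ z) z x → τ x = τ z ∧ P x (τ x) := by
    intro z x hz h
    obtain ⟨h1, h2⟩ := hτle x (τ z) (hτM z) ((hPc _ z x h).2 hz)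
    refine ⟨le_antisymm ?_ h1, h2⟩
    exact (hτle z (τ x) (hτM x) ((hPc _ z x (Λ.mono h1 h)).1 h2)).1
  refine ⟨τ, ⟨fun z _ => Λ.refl _ _, fun z x ⟨i, hi, hz⟩ h => ?_⟩,
    fun z ⟨i, hi, hz⟩ => (hτle z i hi hz).2⟩
  have hz' := (hτle z i hi hz).2
  refine ⟨⟨τ x, hτM x, (hτc z x hz' h).2⟩, fun y => ?_⟩
  show Λ.c (τ x) x y ↔ Λ.c (τ z) z y
  rw [(hτc z x hz' h).1]; exact Λ.iff h y

theorem ediv_near {a b N : ℤ} (hN : 0 < N) (h : |a - b| ≤ N) :
    a / N ∈ Icc (b / N - 1) (b / N + 1) := by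
  rw [abs_le] at h
  have h1 : a / N ≤ (b + 1 * N) / N := Int.ediv_le_ediv hN (by linarith)
  have h2 : (b + (-1) * N) / N ≤ a / N := Int.ediv_le_ediv hN (by linarith)
  rw [Int.add_mul_ediv_right _ _ hN.ne'] at h1 h2
  rw [mem_Icc]; omega

theorem good_mass {X : Type*} [Fintype X] (pos : X → ℤ × ℤ) {μ : X → ℝ} {ν : X → ℂ}
    (hμ : ∀ x, 0 < μ x) (hν : ∀ x, ‖ν x‖ ≤ μ x) {η CR c₀ : ℝ} (hη : 0 < η) (hc₀ : 0 < c₀)
    (hCR : 0 ≤ CR) (htot : 2 * η * ∑ x, μ x ≤ ‖∑ x, ν x‖) (s : ℤ × ℤ)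
    (hcell : ∀ j x, ‖∑ y, cut ((gl pos s).c j x) ν y‖ ≤ CR * 2 ^ j) (L : ℕ) :
    (η - 54 * CR / (η * c₀)) * ∑ x, μ x ≤ bm μ (fun x =>
      (∀ r, 1 ≤ r → bm μ (fun y => ‖gp (pos x) - gp (pos y)‖ ≤ r) ≤ c₀ * r) ∧
      ∀ j, j ≤ L → η * bm μ ((gl pos s).c j x) ≤ ‖∑ y, cut ((gl pos s).c j x) ν y‖) := by
  classical
  have hμ0 : ∀ x, 0 ≤ μ x := fun x => (hμ x).le
  set G : X → Prop := fun x =>
    ∀ r, 1 ≤ r → bm μ (fun y => ‖gp (pos x) - gp (pos y)‖ ≤ r) ≤ c₀ * r with hG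
  have hex : ∀ x, ∃ r : ℝ, ∃ j : ℕ, 1 ≤ r ∧ 3 * r ≤ 2 ^ j ∧ 2 ^ j ≤ 6 * r ∧
      (¬ G x → c₀ * r < bm μ (fun y => ‖gp (pos x) - gp (pos y)‖ ≤ r)) := by
    intro x
    have : ∃ r : ℝ, 1 ≤ r ∧ (¬ G x → c₀ * r < bm μ (fun y => ‖gp (pos x) - gp (pos y)‖ ≤ r)) := by
      by_cases h : G x
      · exact ⟨1, le_rfl, fun h' => absurd h h'⟩
      · simp only [hG, not_forall, not_le] at h
        obtain ⟨r, h1, h2⟩ := h
        exact ⟨r, h1, fun _ => h2⟩
    obtain ⟨r, h1, h2⟩ := this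
    obtain ⟨n, h3, h4⟩ := exists_nat_pow_near (x := 3 * r) (y := 2) (by linarith) one_lt_two
    exact ⟨r, n + 1, h1, h4.le, by rw [pow_succ]; linarith, h2⟩
  choose r j hr1 hr2 hr3 hr4 using hex
  set L' := L + ∑ x, j x with hL'
  have hjL : ∀ x, j x ≤ L' := fun x =>
    (single_le_sum (f := j) (fun _ _ => Nat.zero_le _) (mem_univ x)).trans (Nat.le_add_left _ _)
  set P : X → ℕ → Prop := fun z i =>
    ‖∑ y, cut ((gl pos s).c i z) ν y‖ < η * bm μ ((gl pos s).c i z) with hP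
  obtain ⟨τ, hcel, hτ⟩ := (gl pos s).stop P
    (fun i z x h => by simp only [hP, (gl pos s).eq h]) L'
  set U : X → Prop := fun z => ∃ i, i ≤ L' ∧ P z i with hU
  have a1 : ‖∑ x, cut U ν x‖ ≤ η * ∑ x, μ x := by
    refine (hcel.norm_sum_le hμ ν (fun x => η * μ x) fun z hz => ?_).trans ?_
    · rw [bm_mul]; exact (hτ z hz).le
    · rw [bm_mul]; exact mul_le_mul_of_nonneg_left (bm_le_sum hμ0 _) hη.le
  have a2 : ‖∑ x, cut (fun y => ¬ U y) ν x‖ ≤ bm μ (fun y => ¬ U y) := by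
    rw [← sum_mul_ind]
    refine (norm_sum_le _ _).trans (sum_le_sum fun x _ => ?_)
    rw [cut_eq_ind, norm_mul, Complex.norm_real, Real.norm_of_nonneg (ind_nonneg _ _), mul_comm]
    exact mul_le_mul_of_nonneg_right (hν x) (ind_nonneg _ _)
  have a3 : η * ∑ x, μ x ≤ bm μ (fun y => ¬ U y) := by
    have e : ∑ x, ν x = ∑ x, cut U ν x + ∑ x, cut (fun y => ¬ U y) ν x := by
      rw [← sum_add_distrib]; exact sum_congr rfl fun x _ => cut_compl U ν x
    rw [e] at htot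
    linarith [norm_add_le (∑ x, cut U ν x) (∑ x, cut (fun y => ¬ U y) ν x)]
  obtain ⟨u, u1, u2, u3⟩ := vitali_fin (fun x y => ‖gp (pos x) - gp (pos y)‖)
    (fun x y => norm_sub_rev _ _) (fun x y z => norm_sub_le_norm_sub_add_norm_sub _ _ _)
    (fun x => ¬ G x) r (fun x _ => by linarith [hr1 x])
    (fun x _ => ⟨x, by simp; linarith [hr1 x]⟩)
  have b1 : c₀ * ∑ b ∈ u, r b ≤ ∑ x, μ x := by
    rw [mul_sum]
    exact (sum_le_sum fun b hb => (hr4 b (u1 b hb)).le).trans (sum_bm_le_of_disj u hμ0 _ u2)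
  have b2 : ∀ b, bm μ (fun y => ¬ U y ∧ ‖gp (pos b) - gp (pos y)‖ ≤ 3 * r b) ≤
      54 * CR / η * r b := by
    intro b
    set N : ℤ := 2 ^ j b with hN
    have hN0 : 0 < N := by positivity
    set T := Icc (((pos b).1 + s.1) / N - 1) (((pos b).1 + s.1) / N + 1) ×ˢ
      Icc (((pos b).2 + s.2) / N - 1) (((pos b).2 + s.2) / N + 1) with hT
    have hT9 : T.card = 9 := by
      rw [hT, card_product, Int.card_Icc, Int.card_Icc]
      have : ∀ a : ℤ, (a + 1 + 1 - (a - 1)).toNat = 3 := fun a => by omega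
      rw [this, this]
    have c1 : ∀ v ∈ T, bm μ (fun y => ¬ U y ∧ ((pos y).1 + s.1) / N = v.1 ∧
        ((pos y).2 + s.2) / N = v.2) ≤ 6 * CR / η * r b := by
      intro v _
      by_cases hne : ∃ y, ¬ U y ∧ ((pos y).1 + s.1) / N = v.1 ∧ ((pos y).2 + s.2) / N = v.2
      · obtain ⟨x, x1, x2, x3⟩ := hne
        have d1 : ¬ P x (j b) := fun h => x1 ⟨j b, hjL b, h⟩
        simp only [hP, not_lt] at d1
        refine (bm_mono (q := (gl pos s).c (j b) x) hμ0 fun y hy =>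
          ⟨x2.trans hy.2.1.symm, x3.trans hy.2.2.symm⟩).trans ?_
        rw [div_mul_eq_mul_div, le_div_iff₀ hη]
        nlinarith [hcell (j b) x, mul_le_mul_of_nonneg_left (hr3 b) hCR]
      · rw [bm_false _ fun y hy => hne ⟨y, hy⟩]
        have := hr1 b
        positivity
    refine (bm_mono (q := fun y => ∃ v ∈ T, ¬ U y ∧ ((pos y).1 + s.1) / N = v.1 ∧
        ((pos y).2 + s.2) / N = v.2) hμ0 fun y hy => ?_).trans
      ((bm_exists_le T hμ0 _).trans ((sum_le_sum c1).trans (le_of_eq ?_)))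
    · refine ⟨(((pos y).1 + s.1) / N, ((pos y).2 + s.2) / N), ?_, hy.1, rfl, rfl⟩
      have e1 : |(pos y).1 - (pos b).1| ≤ N := by
        have := ((abs_fst_le (pos y) (pos b)).trans (by rw [norm_sub_rev]; exact hy.2)).trans
          (hr2 b)
        exact_mod_cast this
      have e2 : |(pos y).2 - (pos b).2| ≤ N := by
        have := ((abs_snd_le (pos y) (pos b)).trans (by rw [norm_sub_rev]; exact hy.2)).trans
          (hr2 b)
        exact_mod_cast this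
      exact mem_product.2 ⟨ediv_near hN0 (by simpa using e1), ediv_near hN0 (by simpa using e2)⟩
    · rw [sum_const, hT9, nsmul_eq_mul]; push_cast; ring
  have b3 : bm μ (fun y => ¬ U y ∧ ¬ G y) ≤ 54 * CR / (η * c₀) * ∑ x, μ x := by
    refine (bm_mono (q := fun y => ∃ b ∈ u, ¬ U y ∧ ‖gp (pos b) - gp (pos y)‖ ≤ 3 * r b) hμ0
      fun y hy => ?_).trans ((bm_exists_le u hμ0 _).trans ((sum_le_sum fun b _ => b2 b).trans ?_))
    · obtain ⟨b, hb, h, _⟩ := u3 y hy.2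
      exact ⟨b, hb, hy.1, h⟩
    · rw [← mul_sum]
      have : 54 * CR / η * ∑ b ∈ u, r b = 54 * CR / (η * c₀) * (c₀ * ∑ b ∈ u, r b) := by
        field_simp
      rw [this]
      exact mul_le_mul_of_nonneg_left b1 (by positivity)
  have b4 := bm_split μ (fun y => ¬ U y) G
  refine le_trans (by linarith) (bm_mono (p := fun y => ¬ U y ∧ G y) hμ0 fun y hy =>
    ⟨hy.2, fun i hi => ?_⟩)
  by_contra hc
  exact hy.1 ⟨i, hi.trans (Nat.le_add_right _ _), not_le.1 hc⟩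

theorem tb_gam2 {η CR B : ℝ} (hη : 0 < η) (hη1 : η ≤ 1) (hCR : 0 < CR) (hB : 0 < B) :
    ∃ c : ℝ, 0 < c ∧ ∀ (X : Finset (ℤ × ℤ)) (μ : ℤ × ℤ → ℝ) (ν : ℤ × ℤ → ℂ) (S : ℤ × ℤ → ℝ),
      (∀ x ∈ X, 0 < μ x) → (∀ x ∈ X, ‖ν x‖ ≤ μ x) → 2 * η * ∑ x ∈ X, μ x ≤ ‖∑ x ∈ X, ν x‖ →
      (∀ s j x, ‖∑ y ∈ X, cut ((gl id s).c j x) ν y‖ ≤ CR * 2 ^ j) → (∀ x, 0 ≤ S x) →
      (∀ (τ : ℤ × ℤ → ℝ) (c : ℝ), 0 ≤ c → (∀ x ∈ X, 0 ≤ τ x) →
        (∀ a r, 1 ≤ r → bl X gp τ a r ≤ c * r) →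
          ∑ x ∈ X, τ x * S x ≤ B * c * ∑ x ∈ X, μ x) →
      (∀ x ∈ X, ∀ c, 0 ≤ c → (∀ r, 1 ≤ r → bl X gp μ (gp x) r ≤ c * r) → ∀ r, 1 ≤ r →
        ‖∑ y ∈ X, cut (fun y => r < ‖gp x - gp y‖) ν y * (gp x - gp y)⁻¹‖ ≤ B * (1 + c + S x)) →
      c * ∑ x ∈ X, μ x ≤ Gam X gp := by
  set c₀ := 162 * CR / η ^ 2 with hc₀
  have hc0 : 0 < c₀ := by positivity
  set α := 6 * B * c₀ / η with hα
  have hα0 : 0 < α := by positivity
  obtain ⟨c, hc, h⟩ := tb_gam (κ := η / 3) (α := B * (1 + c₀ + α) / (2 * c₀)) hη hη1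
    (by positivity) (by linarith) (by positivity)
  refine ⟨c / (2 * c₀), by positivity, fun X μ ν S hμ hν htot hcell hS hS2 htr => ?_⟩
  set G : ℤ × ℤ → Prop := fun x => ∀ r, 1 ≤ r → bl X gp μ (gp x) r ≤ c₀ * r with hG
  have hμ0 : ∀ x ∈ X, 0 ≤ μ x := fun x hx => (hμ x hx).le
  have hM : 0 ≤ ∑ x ∈ X, μ x := sum_nonneg hμ0
  set t : ℝ := (2 * c₀)⁻¹ with ht
  have ht0 : 0 < t := by positivity
  have hcut : ∀ (p : ℤ × ℤ → Prop) y, cut p (fun y => (t : ℂ) * ν y) y = t * cut p ν y :=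
    fun p y => by rw [cut_eq_ind, cut_eq_ind]; ring
  have hnt : ‖(t : ℂ)‖ = t := by rw [Complex.norm_real, Real.norm_of_nonneg ht0.le]
  have key := h X (fun x => t * μ x) (fun x => t * ν x) (fun x => G x ∧ S x ≤ α)
    (fun x hx => mul_pos ht0 (hμ x hx))
    (fun x hx => by rw [norm_mul, hnt]; exact mul_le_mul_of_nonneg_left (hν x hx) ht0.le)
    (fun x hx h0 r hr => by
      have e : bl X gp (fun x => t * μ x) (gp x) r = t * bl X gp μ (gp x) r := by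
        unfold bl; rw [mul_sum]; exact sum_congr rfl fun y _ => by ring
      rw [e]
      refine (mul_le_mul_of_nonneg_left (h0.1 r hr) ht0.le).trans (le_of_eq ?_)
      rw [ht]; field_simp)
    (fun x hx h0 r hr => by
      simp only [hcut, mul_assoc]
      rw [← mul_sum, norm_mul, hnt, div_eq_inv_mul]
      refine mul_le_mul_of_nonneg_left ((htr x hx c₀ hc0.le h0.1 r hr).trans ?_) ht0.le
      exact mul_le_mul_of_nonneg_left (by linarith [h0.2]) hB.le)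
    (fun s L => by
      have a1 := good_mass (X := X) Subtype.val (μ := fun x => μ x) (ν := fun x => ν x)
        (fun x => hμ x x.2) (fun x => hν x x.2) hη hc0 hCR.le
        (by rw [sum_coe, sum_coe_sort X ν]; exact htot) s
        (fun j x => by
          have := hcell s j x
          rw [← sum_coe_sort X] at this
          exact this) L
      rw [sum_coe] at a1
      have a2 := hS2 (fun x => μ x * ind G x) (2 * c₀) (by positivity)
        (fun x hx => mul_nonneg (hμ0 x hx) (ind_nonneg _ _)) (fun a r hr => by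
          by_cases hne : ∃ x ∈ X, G x ∧ ‖a - gp x‖ ≤ r
          · obtain ⟨x, hx, h1, h2⟩ := hne
            refine (bl_le_of_le (τ := μ) (fun y hy => ?_) a r).trans
              ((bl_mono hμ0 (a' := gp x) (r' := 2 * r) (by rw [norm_sub_rev]; linarith)).trans ?_)
            · nlinarith [hμ0 y hy, (ind_U01 G y).2]
            · linarith [h1 (2 * r) (by linarith)]
          · refine le_trans (le_of_eq (sum_eq_zero fun x hx => ?_)) (by positivity)
            by_cases h1 : G x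
            · rw [ind_neg (p := fun y => ‖a - gp y‖ ≤ r) fun h2 => hne ⟨x, hx, h1, h2⟩, mul_zero]
            · beta_reduce
              rw [ind_neg h1, mul_zero, zero_mul])
      have a3 := bm_cheb (w := fun x : X => μ x) (g := fun x => S x) (fun x => hμ0 x x.2)
        (p := fun x => G x) (fun x _ => hS x) α
      rw [bm_coe X (fun x => μ x * S x) G] at a3
      have a4 : ∑ x ∈ X, μ x * S x * ind G x = ∑ x ∈ X, μ x * ind G x * S x :=
        sum_congr rfl fun x _ => by ring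
      have a5 : bm (fun x : X => μ x) (fun x => G x ∧ α < S x) ≤ η / 3 * ∑ x ∈ X, μ x := by
        refine le_of_mul_le_mul_left (a3.trans (a4.le.trans (a2.trans (le_of_eq ?_)))) hα0
        rw [hα]; field_simp; ring
      have a6 : 54 * CR / (η * c₀) = η / 3 := by rw [hc₀]; field_simp; ring
      rw [a6] at a1
      rw [← mul_sum, ← bm_coe, bm_mul, mul_left_comm]
      refine mul_le_mul_of_nonneg_left ?_ ht0.le
      refine le_of_add_le_add_right (a := bm (fun x : X => μ x) (fun x => G x ∧ α < S x))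
        (le_trans (b := (η - η / 3) * ∑ x ∈ X, μ x) (by linarith) (a1.trans
          (bm_le_add (X := X) (fun x => hμ0 x x.2) fun x hx => ?_)))
      have g1 : G x := fun r hr => by rw [bl_eq]; exact hx.1 r hr
      by_cases g2 : S x ≤ α
      · refine Or.inl ⟨⟨g1, g2⟩, fun j hj => ?_⟩
        have g3 := hx.2 j hj
        simp only [hcut, mul_assoc]
        rw [← mul_sum, ← mul_sum, norm_mul, hnt, mul_left_comm, ← bm_coe, ← sum_coe_sort X]
        exact mul_le_mul_of_nonneg_left g3 ht0.le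
      · exact Or.inr ⟨g1, not_le.1 g2⟩)
  rw [← mul_sum] at key
  refine le_trans (le_of_eq ?_) key
  rw [ht]; field_simp

end

end Pool.Agent.Lib.MP_dfc9b7_an
end

-- part Pool.Agent.Lib.MP_dfc9b7_an.Wh
section

/-! Whitney discs. -/

set_option autoImplicit false
open Finset

namespace Pool.Agent.Lib.MP_dfc9b7_an

noncomputable section

/-- A Whitney family of discs. -/
structure Wh (Z : Finset (ℤ × ℤ)) (l : ℤ × ℤ → ℝ) : Prop where
  one : ∀ k ∈ Z, 1 ≤ l k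
  cmp : ∀ k ∈ Z, ∀ k' ∈ Z, ‖gp k - gp k'‖ ≤ 20 * (l k + l k') → l k ≤ 2 * l k'
  sep : ∀ k ∈ Z, ∀ k' ∈ Z, k ≠ k' → l k + l k' ≤ ‖gp k - gp k'‖

variable {Z : Finset (ℤ × ℤ)} {l : ℤ × ℤ → ℝ}

theorem Wh.pos (h : Wh Z l) {k : ℤ × ℤ} (hk : k ∈ Z) : 0 < l k := by linarith [h.one k hk]

theorem Wh.cmp' (h : Wh Z l) {k k' : ℤ × ℤ} (hk : k ∈ Z) (hk' : k' ∈ Z) {w : ℂ}
    (h1 : ‖w - gp k‖ ≤ 20 * l k) (h2 : ‖w - gp k'‖ ≤ 20 * l k') : l k ≤ 2 * l k' := by
  refine h.cmp k hk k' hk' ?_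
  have := norm_sub_le_norm_sub_add_norm_sub (gp k) w (gp k')
  rw [norm_sub_rev (gp k) w] at this
  linarith

theorem Wh.sum_le (h : Wh Z l) (w : ℂ) (f : ℤ × ℤ → ℝ) {c : ℝ} (hc : 0 ≤ c)
    (h1 : ∀ k ∈ Z, ‖w - gp k‖ ≤ 20 * l k → f k ≤ c)
    (h2 : ∀ k ∈ Z, 20 * l k < ‖w - gp k‖ → f k ≤ 0) : ∑ k ∈ Z, f k ≤ 1681 * c := by
  classical
  set J := Z.filter fun k => ‖w - gp k‖ ≤ 20 * l k with hJ
  have a1 : (J.card : ℝ) ≤ 1681 := by
    rcases J.eq_empty_or_nonempty with h0 | h0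
    · rw [h0]; simp
    obtain ⟨k, hk, hm⟩ := J.exists_min_image l h0
    have hk1 := mem_filter.1 hk
    have hp := h.pos hk1.1
    refine (packing J gp w (δ := 2 * l k) (R := 40 * l k) (by linarith) (by linarith)
      (fun i hi j hj hij => ?_) fun i hi => ?_).trans (le_of_eq ?_)
    · linarith [h.sep i (mem_filter.1 hi).1 j (mem_filter.1 hj).1 hij, hm i hi, hm j hj]
    · have := h.cmp' (mem_filter.1 hi).1 hk1.1 (mem_filter.1 hi).2 hk1.2
      rw [norm_sub_rev]; linarith [(mem_filter.1 hi).2]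
    · field_simp; norm_num
  rw [← sum_filter_add_sum_filter_not Z fun k => ‖w - gp k‖ ≤ 20 * l k]
  have a2 : ∑ k ∈ J, f k ≤ J.card • c :=
    sum_le_card_nsmul _ _ _ fun k hk => h1 k (mem_filter.1 hk).1 (mem_filter.1 hk).2
  have a3 : ∑ k ∈ Z.filter fun k => ¬ ‖w - gp k‖ ≤ 20 * l k, f k ≤ 0 :=
    sum_nonpos fun k hk => h2 k (mem_filter.1 hk).1 (not_le.1 (mem_filter.1 hk).2)
  rw [nsmul_eq_mul] at a2
  nlinarith

theorem exists_net (P : Finset (ℤ × ℤ)) (l : ℤ × ℤ → ℝ) (h0 : ∀ p ∈ P, 0 ≤ l p) :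
    ∃ Z ⊆ P, (∀ k ∈ Z, ∀ k' ∈ Z, k ≠ k' → l k + l k' ≤ ‖gp k - gp k'‖) ∧
      ∀ p ∈ P, ∃ k ∈ Z, ‖gp p - gp k‖ ≤ l p + l k := by
  classical
  obtain ⟨Z, ⟨h1, h2⟩, hm⟩ := Set.exists_max_image {Z : Finset (ℤ × ℤ) | Z ⊆ P ∧
    ∀ k ∈ Z, ∀ k' ∈ Z, k ≠ k' → l k + l k' ≤ ‖gp k - gp k'‖} card
    ((P.powerset.finite_toSet).subset fun Z hZ => mem_coe.2 (mem_powerset.2 hZ.1)) ⟨∅, by simp⟩
  refine ⟨Z, h1, h2, fun p hp => ?_⟩
  by_contra hc
  push Not at hc
  have hpZ : p ∉ Z := fun h => by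
    have := hc p h
    rw [sub_self, norm_zero] at this; linarith [h0 p hp]
  have := hm (insert p Z) ⟨insert_subset hp h1, fun k hk k' hk' hne => by
    rcases mem_insert.1 hk with e | e <;> rcases mem_insert.1 hk' with e' | e'
    · exact absurd (e.trans e'.symm) hne
    · rw [e]; exact (hc k' e').le
    · rw [e', norm_sub_rev, add_comm]; exact (hc k e).le
    · exact h2 k e k' e' hne⟩
  rw [card_insert_of_notMem hpZ] at this
  omega

theorem exists_far (P : Finset (ℤ × ℤ)) (d : ℝ) : ∃ q, ∀ p ∈ P, d ≤ ‖gp q - gp p‖ := by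
  obtain ⟨N, hN⟩ := exists_nat_ge (d + ∑ p ∈ P, ‖gp p‖)
  refine ⟨(N, 0), fun p hp => ?_⟩
  have h1 : ‖gp p‖ ≤ ∑ p ∈ P, ‖gp p‖ :=
    single_le_sum (f := fun p => ‖gp p‖) (fun _ _ => norm_nonneg _) hp
  have h2 : ‖gp (N, 0)‖ = N := by simp [gp]
  linarith [norm_sub_norm_le (gp (N, 0)) (gp p)]

theorem whitney : ∃ C : ℝ, 0 < C ∧ ∀ P : Finset (ℤ × ℤ), ∃ Z l, Wh Z l ∧ Z ⊆ P ∧
    (∀ p ∈ P, ∃ k ∈ Z, ‖gp p - gp k‖ ≤ 3 * l k) ∧
    (∀ X : Finset (ℤ × ℤ), (∀ x ∈ X, ∃ k ∈ Z, ‖gp x - gp k‖ ≤ 2 * l k) →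
      Gam X gp ≤ C * Gam P gp) ∧
    ∑ k ∈ Z, Gam (P.filter fun p => ‖gp p - gp k‖ ≤ 11 * l k) gp ≤ C * Gam P gp := by
  classical
  set lam : ℝ := 1 / 5017600 with hlam
  have hl0 : 0 < lam := by norm_num [hlam]
  refine ⟨44000000 / lam ^ 2 * 5 + 44000000 / (1 / 4) ^ 2 * (1681 * 5), by positivity,
    fun P => ?_⟩
  set σ := ext P gp with hσ
  have g := ext_gr P gp
  rw [← hσ] at g
  have hm := mass_le_Gam P gp
  have ht := ext_t3_le P gp
  have hG := Gam_nonneg P gp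
  rw [← hσ] at hm ht
  set m := ∑ x ∈ P, σ x with hm'
  have hm0 : 0 ≤ m := sum_nonneg g.1
  set W : Set (ℤ × ℤ) := {q | (∀ r, 1 ≤ r → bl P gp σ (gp q) r ≤ lam * r) ∧
    cp P gp σ (gp q) ≤ lam ^ 2} with hW
  have hWne : (gp '' W).Nonempty := by
    obtain ⟨q, hq⟩ := exists_far P (2 * m / lam + 1)
    have hd : 0 < 2 * m / lam + 1 := by positivity
    refine ⟨gp q, q, ⟨fun r hr => ?_, ?_⟩, rfl⟩
    · by_cases h1 : r < 2 * m / lam + 1
      · refine le_trans (le_of_eq (sum_eq_zero fun y hy => ?_)) (by positivity)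
        rw [ind_neg (p := fun y => ‖gp q - gp y‖ ≤ r) (by linarith [hq y hy]), mul_zero]
      · refine (bl_le_sum g.1 _ _).trans ?_
        have : lam * (2 * m / lam + 1) = 2 * m + lam := by field_simp
        have h2 := mul_le_mul_of_nonneg_left (not_lt.1 h1) hl0.le
        rw [this] at h2
        exact le_trans (by linarith) h2
    · have h1 : cp P gp σ (gp q) ≤ ∑ y ∈ P, ∑ w ∈ P, 4 / (2 * m / lam + 1) ^ 2 * (σ y * σ w) := by
        refine sum_le_sum fun y hy => sum_le_sum fun w hw => mul_le_mul_of_nonneg_right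
          ((cq_le12 _ _ _).trans ?_) (mul_nonneg (g.1 y hy) (g.1 w hw))
        exact div_le_div_of_nonneg_left (by norm_num) (by positivity)
          (pow_le_pow_left₀ hd.le (hq y hy) 2)
      simp only [← mul_sum, ← sum_mul] at h1
      refine h1.trans ?_
      rw [← hm', div_mul_eq_mul_div, div_le_iff₀ (by positivity), ← mul_pow]
      have : lam * (2 * m / lam + 1) = 2 * m + lam := by field_simp
      rw [this]; nlinarith
  set ρ : ℤ × ℤ → ℝ := fun p => Metric.infDist (gp p) (gp '' W) with hρ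
  have hnear : ∀ p t, ρ p < t → ∃ q ∈ W, ‖gp p - gp q‖ < t := fun p t h => by
    obtain ⟨_, ⟨q, hq, rfl⟩, h⟩ := (Metric.infDist_lt_iff hWne).1 h
    exact ⟨q, hq, by rwa [dist_eq_norm] at h⟩
  have hlip : ∀ p q, ρ p ≤ ρ q + ‖gp p - gp q‖ := fun p q => by
    rw [← dist_eq_norm]; exact Metric.infDist_le_infDist_add_dist
  have hloc : ∀ p ∈ P, ∀ q ∈ W, ∀ l, 1 ≤ l → ‖gp p - gp q‖ ≤ 112 * l → ∀ B : ℤ × ℤ → Prop,
      (∀ y ∈ P, ‖gp p - gp y‖ < l → B y) →
      (∃ r, 1 ≤ r ∧ r / 4 ≤ bl P gp (fun y => σ y * ind B y) (gp p) r) ∨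
        1 / 4 ≤ cp P gp (fun y => σ y * ind B y) (gp p) := fun p hp q hq l hl h B hB =>
    localize g.1 (K := 112) (by norm_num) hl h hl0.le (by norm_num [hlam]) hq.1 hq.2
      (ext_pot P gp hp) B hB
  have h100 : ∀ p ∈ P, 100 ≤ ρ p := fun p hp => by
    by_contra hc
    obtain ⟨q, hq, h1⟩ := hnear p 100 (not_le.1 hc)
    have h2 : ∀ y ∈ P, σ y * ind (fun y => y = p) y ≤ σ y * ind (fun y => ‖gp q - gp y‖ ≤ 100) y := by
      intro y hy
      by_cases h : y = p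
      · rw [ind_pos (p := fun y => y = p) h, ind_pos (p := fun y => ‖gp q - gp y‖ ≤ 100)
          (by rw [h, norm_sub_rev]; exact h1.le)]
      · rw [ind_neg (p := fun y => y = p) h, mul_zero]
        exact mul_nonneg (g.1 y hy) (ind_nonneg _ _)
    rcases hloc p hp q hq 1 le_rfl (by linarith) (fun y => y = p) (fun y _ hy => by
      by_contra h
      linarith [gp_sep (Ne.symm h)]) with ⟨r, h3, h4⟩ | h3
    · have h5 := h4.trans ((bl_le_sum (fun y hy => mul_nonneg (g.1 y hy) (ind_nonneg _ _))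
        (gp p) r).trans ((sum_le_sum h2).trans (hq.1 100 (by norm_num))))
      rw [hlam] at h5; linarith
    · have : cp P gp (fun y => σ y * ind (fun y => y = p) y) (gp p) = 0 := by
        refine sum_eq_zero fun y _ => sum_eq_zero fun w _ => ?_
        by_cases h : y = p
        · rw [h, cq_self12, zero_mul]
        · beta_reduce
          rw [ind_neg (p := fun y => y = p) h]; ring
      linarith
  obtain ⟨Z, z1, z2, z3⟩ := exists_net P (fun p => ρ p / 100) fun p hp => by linarith [h100 p hp]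
  have hcmp : ∀ k ∈ P, ∀ k' ∈ P, ‖gp k - gp k'‖ ≤ 20 * (ρ k / 100 + ρ k' / 100) →
      ρ k / 100 ≤ 2 * (ρ k' / 100) := fun k _ k' hk' h => by
    linarith [hlip k k', h100 k' hk']
  have hwh : Wh Z fun p => ρ p / 100 :=
    ⟨fun k hk => by linarith [h100 k (z1 hk)], fun k hk k' hk' => hcmp k (z1 hk) k' (z1 hk'), z2⟩
  have ht0 := t3_nonneg (z := gp) g.1
  refine ⟨Z, fun p => ρ p / 100, hwh, z1, fun p hp => ?_, fun X hX => ?_, ?_⟩
  · obtain ⟨k, hk, h⟩ := z3 p hp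
    have := hcmp p hp k (z1 hk) (by linarith [h100 p hp, h100 k (z1 hk)])
    exact ⟨k, hk, by linarith⟩
  · refine (Gam_le_pot gp_sep' X P g hl0 (by norm_num [hlam]) fun x hx => ?_).trans ?_
    · obtain ⟨k, hk, h⟩ := hX x hx
      by_contra hc
      push Not at hc
      have h1 : ρ k ≤ dist (gp k) (gp x) :=
        Metric.infDist_le_dist_of_mem ⟨x, ⟨fun r hr => (hc.1 r hr).le, hc.2.le⟩, rfl⟩
      rw [dist_eq_norm, norm_sub_rev] at h1
      linarith [h100 k (z1 hk)]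
    · have : 0 ≤ 44000000 / lam ^ 2 := by positivity
      nlinarith [mul_le_mul_of_nonneg_left (show m + t3 P gp σ σ σ ≤ 5 * Gam P gp by linarith) this]
  · set B : ℤ × ℤ → ℤ × ℤ → Prop := fun k y => ‖gp y - gp k‖ ≤ 12 * (ρ k / 100) with hB
    have b0 : ∀ k, ∀ y ∈ P, 0 ≤ σ y * ind (B k) y := fun k y hy =>
      mul_nonneg (g.1 y hy) (ind_nonneg _ _)
    have b1 : ∀ k, ∀ y ∈ P, σ y * ind (B k) y ≤ σ y := fun k y hy => by
      nlinarith [g.1 y hy, (ind_U01 (B k) y).2]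
    have b2 : ∀ k ∈ Z, Gam (P.filter fun p => ‖gp p - gp k‖ ≤ 11 * (ρ k / 100)) gp ≤
        44000000 / (1 / 4) ^ 2 * ∑ y ∈ P, ind (B k) y * (σ y * (1 + cp P gp σ (gp y))) := by
      intro k hk
      refine (Gam_le_pot gp_sep' _ P (g.of_le (b0 k) (b1 k)) (lam := 1 / 4) (by norm_num)
        (by norm_num) fun p hp => ?_).trans (mul_le_mul_of_nonneg_left ?_ (by positivity))
      · obtain ⟨p1, p2⟩ := mem_filter.1 hp
        have k1 := hwh.one k hk
        obtain ⟨q, hq, h1⟩ := hnear k (101 * (ρ k / 100)) (by linarith)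
        have h2 := norm_sub_le_norm_sub_add_norm_sub (gp p) (gp k) (gp q)
        rcases hloc p p1 q hq _ k1 (by linarith) (B k) (fun y _ hy => by
          have h3 := norm_sub_le_norm_sub_add_norm_sub (gp y) (gp p) (gp k)
          rw [norm_sub_rev] at hy
          simp only [hB]; linarith) with ⟨r, h3, h4⟩ | h3
        · exact Or.inl ⟨r, h3, by linarith⟩
        · exact Or.inr (by linarith)
      · rw [t3_eq_cp, ← sum_add_distrib]
        refine sum_le_sum fun y hy => ?_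
        nlinarith [mul_le_mul_of_nonneg_left (cp_mono (z := gp) (b0 k) (b1 k) (gp y)) (b0 k y hy)]
    refine (sum_le_sum b2).trans ?_
    rw [← mul_sum, sum_comm]
    have b3 : ∑ y ∈ P, ∑ k ∈ Z, ind (B k) y * (σ y * (1 + cp P gp σ (gp y))) ≤
        ∑ y ∈ P, 1681 * (σ y * (1 + cp P gp σ (gp y))) := by
      refine sum_le_sum fun y hy => ?_
      have c0 : 0 ≤ σ y * (1 + cp P gp σ (gp y)) :=
        mul_nonneg (g.1 y hy) (by linarith [cp_nonneg (z := gp) g.1 (gp y)])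
      refine hwh.sum_le (gp y) _ c0 (fun k _ _ => ?_) fun k hk h => ?_
      · nlinarith [(ind_U01 (B k) y).2]
      · rw [ind_neg (p := B k) (by simp only [hB]; linarith [hwh.one k hk]), zero_mul]
    have b4 : ∑ y ∈ P, σ y * (1 + cp P gp σ (gp y)) = m + t3 P gp σ σ σ := by
      rw [t3_eq_cp, hm', ← sum_add_distrib]; exact sum_congr rfl fun y _ => by ring
    rw [← mul_sum, b4] at b3
    have : 0 ≤ 44000000 / lam ^ 2 * 5 * Gam P gp := by positivity
    nlinarith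

end

end Pool.Agent.Lib.MP_dfc9b7_an
end

-- part Pool.Agent.Lib.MP_dfc9b7_an.Cfg
section

/-! Squares of grid points, spread measures, and the Whitney partition of unity. -/

set_option autoImplicit false
open Finset Metric

namespace Pool.Agent.Lib.MP_dfc9b7_an

noncomputable section

/-- A square of grid points. -/
def sqr (k : ℤ × ℤ) (n : ℕ) : Finset (ℤ × ℤ) := Ico k.1 (k.1 + n) ×ˢ Ico k.2 (k.2 + n)

theorem mem_sqr {k y : ℤ × ℤ} {n : ℕ} :
    y ∈ sqr k n ↔ (k.1 ≤ y.1 ∧ y.1 < k.1 + n) ∧ k.2 ≤ y.2 ∧ y.2 < k.2 + n := by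
  simp [sqr]

theorem card_sqr (k : ℤ × ℤ) (n : ℕ) : ((sqr k n).card : ℝ) = n ^ 2 := by
  simp [sqr, sq]

theorem norm_sqr {k y : ℤ × ℤ} {n : ℕ} (h : y ∈ sqr k n) : ‖gp y - gp k‖ ≤ 2 * n := by
  obtain ⟨⟨h1, h2⟩, h3, h4⟩ := mem_sqr.1 h
  have a1 : |y.1 - k.1| ≤ n := abs_le.2 ⟨by omega, by omega⟩
  have a2 : |y.2 - k.2| ≤ n := abs_le.2 ⟨by omega, by omega⟩
  have b1 : |((y.1 - k.1 : ℤ) : ℝ)| ≤ n := by exact_mod_cast a1
  have b2 : |((y.2 - k.2 : ℤ) : ℝ)| ≤ n := by exact_mod_cast a2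
  linarith [norm_gp_le y k]

theorem floor_bds {t : ℝ} (h : 1 ≤ t) : (1 : ℝ) ≤ ⌊t⌋₊ ∧ (⌊t⌋₊ : ℝ) ≤ t ∧ t ≤ 2 * ⌊t⌋₊ := by
  have h1 : (1 : ℝ) ≤ ⌊t⌋₊ := by exact_mod_cast Nat.one_le_floor_iff t |>.2 h
  exact ⟨h1, Nat.floor_le (by linarith), by linarith [Nat.lt_floor_add_one t]⟩

/-- Union of the squares. -/
def XX (Z : Finset (ℤ × ℤ)) (l : ℤ × ℤ → ℝ) : Finset (ℤ × ℤ) := Z.biUnion fun k => sqr k ⌊l k⌋₊

/-- Real spread measure. -/
def sprR (Z : Finset (ℤ × ℤ)) (l c : ℤ × ℤ → ℝ) (y : ℤ × ℤ) : ℝ :=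
  ∑ k ∈ Z, c k / (⌊l k⌋₊ : ℝ) ^ 2 * ind (fun y => y ∈ sqr k ⌊l k⌋₊) y

/-- Complex spread measure. -/
def spr (Z : Finset (ℤ × ℤ)) (l : ℤ × ℤ → ℝ) (c : ℤ × ℤ → ℂ) (y : ℤ × ℤ) : ℂ :=
  ∑ k ∈ Z, c k / (⌊l k⌋₊ : ℂ) ^ 2 * (ind (fun y => y ∈ sqr k ⌊l k⌋₊) y : ℝ)

/-- Average over a square. -/
def av (k : ℤ × ℤ) (n : ℕ) (h : ℤ × ℤ → ℂ) : ℂ := (∑ y ∈ sqr k n, h y) / (n : ℂ) ^ 2

variable {Z : Finset (ℤ × ℤ)} {l : ℤ × ℤ → ℝ}

theorem sum_ind_mem {M : Type*} [NonAssocSemiring M] {s t : Finset (ℤ × ℤ)} (h : t ⊆ s)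
    (e : ℝ → M) (e0 : e 0 = 0) (e1 : e 1 = 1) (f : ℤ × ℤ → M) :
    ∑ y ∈ s, e (ind (fun y => y ∈ t) y) * f y = ∑ y ∈ t, f y := by
  rw [← sum_subset h fun y _ hy => by rw [ind_neg (p := fun y => y ∈ t) hy, e0, zero_mul]]
  exact sum_congr rfl fun y hy => by rw [ind_pos (p := fun y => y ∈ t) hy, e1, one_mul]

theorem sum_spr (c h : ℤ × ℤ → ℂ) :
    ∑ y ∈ XX Z l, spr Z l c y * h y = ∑ k ∈ Z, c k * av k ⌊l k⌋₊ h := by
  simp only [spr, sum_mul]
  rw [sum_comm]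
  refine sum_congr rfl fun k hk => ?_
  simp only [mul_assoc]
  rw [← mul_sum, XX, sum_ind_mem (subset_biUnion_of_mem (fun k => sqr k ⌊l k⌋₊) hk)
    (fun t : ℝ => (t : ℂ)) (by simp) (by simp), av]
  ring

theorem sum_sprR (h : Wh Z l) (c : ℤ × ℤ → ℝ) : ∑ y ∈ XX Z l, sprR Z l c y = ∑ k ∈ Z, c k := by
  simp only [sprR]
  rw [sum_comm]
  refine sum_congr rfl fun k hk => ?_
  have := sum_ind_mem (subset_biUnion_of_mem (fun k => sqr k ⌊l k⌋₊) hk) id rfl rfl fun _ => (1 : ℝ)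
  simp only [id, mul_one] at this
  rw [← mul_sum, XX, this, sum_const, nsmul_eq_mul, card_sqr, mul_one, div_mul_cancel₀]
  have := (floor_bds (h.one k hk)).1
  positivity

theorem av_const (k : ℤ × ℤ) {n : ℕ} (hn : (1 : ℝ) ≤ n) (c : ℂ) : av k n (fun _ => c) = c := by
  have h1 : ((sqr k n).card : ℂ) = n ^ 2 := by exact_mod_cast congrArg Complex.ofReal (card_sqr k n)
  have h2 : (n : ℂ) ≠ 0 := by
    have : (n : ℝ) ≠ 0 := by positivity
    exact_mod_cast this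
  rw [av, sum_const, nsmul_eq_mul, h1]; field_simp

theorem av_sub (k : ℤ × ℤ) (n : ℕ) (f g : ℤ × ℤ → ℂ) :
    av k n (fun y => f y - g y) = av k n f - av k n g := by
  rw [av, av, av, sum_sub_distrib, sub_div]

theorem av_congr {k : ℤ × ℤ} {n : ℕ} {f g : ℤ × ℤ → ℂ} (h : ∀ y ∈ sqr k n, f y = g y) :
    av k n f = av k n g := by
  rw [av, av, sum_congr rfl h]

theorem norm_av_le (k : ℤ × ℤ) (n : ℕ) (f : ℤ × ℤ → ℂ) :
    ‖av k n f‖ ≤ (∑ y ∈ sqr k n, ‖f y‖) / n ^ 2 := by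
  rw [av, norm_div, norm_pow, Complex.norm_natCast]
  exact div_le_div_of_nonneg_right (norm_sum_le _ _) (by positivity)

theorem norm_av_le_of_le (k : ℤ × ℤ) {n : ℕ} (hn : (1 : ℝ) ≤ n) {f : ℤ × ℤ → ℂ} {c : ℝ}
    (h : ∀ y ∈ sqr k n, ‖f y‖ ≤ c) : ‖av k n f‖ ≤ c := by
  refine (norm_av_le k n f).trans ?_
  have := sum_le_card_nsmul _ _ _ h
  rw [nsmul_eq_mul, card_sqr] at this
  rw [div_le_iff₀ (by positivity)]; linarith

theorem sprR_pos (h : Wh Z l) {c : ℤ × ℤ → ℝ} (hc : ∀ k ∈ Z, 0 < c k) {y : ℤ × ℤ}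
    (hy : y ∈ XX Z l) : 0 < sprR Z l c y := by
  obtain ⟨k, hk, hy⟩ := mem_biUnion.1 hy
  refine sum_pos' (fun k hk => mul_nonneg (div_nonneg (hc k hk).le (by positivity))
    (ind_nonneg _ _)) ⟨k, hk, ?_⟩
  rw [ind_pos (p := fun y => y ∈ sqr k ⌊l k⌋₊) hy, mul_one]
  have := (floor_bds (h.one k hk)).1
  exact div_pos (hc k hk) (by positivity)

theorem norm_spr_le {c : ℤ × ℤ → ℂ} {g : ℤ × ℤ → ℝ} (h : ∀ k ∈ Z, ‖c k‖ ≤ g k) (y : ℤ × ℤ) :
    ‖spr Z l c y‖ ≤ sprR Z l g y := by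
  refine (norm_sum_le _ _).trans (sum_le_sum fun k hk => ?_)
  rw [norm_mul, norm_div, norm_pow, Complex.norm_natCast, Complex.norm_real,
    Real.norm_of_nonneg (ind_nonneg _ _)]
  exact mul_le_mul_of_nonneg_right (div_le_div_of_nonneg_right (h k hk) (by positivity))
    (ind_nonneg _ _)

theorem Nice.pr_congr {S : Set ℂ} {F φ ψ : ℂ → ℂ} {a : ℂ} {M : ℝ} (hF : Nice S F a M) (h : Tst φ)
    (h' : Tst ψ) {U : Set ℂ} (hU : IsOpen U) (hS : S ⊆ U) (e : ∀ w ∈ U, φ w = ψ w) :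
    pr F φ = pr F ψ := by
  rw [← sub_eq_zero, ← hF.pr_sub h h']
  refine hF.pr_eq_zero (h.sub h') (Set.eq_empty_of_forall_notMem fun w hw => ?_)
  refine (notMem_tsupport_iff_eventuallyEq.2 ?_) hw.2
  filter_upwards [hU.mem_nhds (hS hw.1)] with u hu
  simp [e u hu]

/-- A Whitney partition of unity. -/
structure PU (Z : Finset (ℤ × ℤ)) (l : ℤ × ℤ → ℝ) (E : Set ℂ) (φ : ℤ × ℤ → ℂ → ℂ) : Prop where
  wh : Wh Z l
  tst : ∀ k ∈ Z, Tst (φ k)
  supp : ∀ k ∈ Z, tsupport (φ k) ⊆ closedBall (gp k) (10 * l k)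
  bd : ∀ k w, ‖φ k w‖ ≤ 1
  db : ∀ k ∈ Z, ∀ w, ‖dbar (φ k) w‖ ≤ 700 * Cb / l k
  one : ∃ U, IsOpen U ∧ E ⊆ U ∧ ∀ w ∈ U, ∑ k ∈ Z, φ k w = 1

theorem Wh.exists_pu (h : Wh Z l) {E : Set ℂ} (hE : ∀ w ∈ E, ∃ k ∈ Z, ‖w - gp k‖ ≤ 4 * l k) :
    ∃ φ, PU Z l E φ := by
  obtain ⟨φ, p1, p2, p3, p4, p5⟩ := Lib.MP_dfc9b7_an.exists_pu Z gp (fun k => 5 * l k)
    fun k hk => by linarith [h.pos hk]
  have e : ∀ k, 2 * (5 * l k) = 10 * l k := fun k => by ring
  simp only [e] at p2 p4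
  refine ⟨φ, h, p1, p2, p3, fun k hk w => ?_, ⋃ k ∈ Z, ball (gp k) (5 * l k),
    isOpen_biUnion fun _ _ => isOpen_ball, fun w hw => ?_, fun w hw => ?_⟩
  · have k0 := h.pos hk
    have := Cb_pos
    by_cases hw : w ∈ tsupport (φ k)
    · have h1 := p2 k hk hw
      rw [mem_closedBall, dist_eq_norm] at h1
      refine (p4 k hk w).trans ((h.sum_le w _ (c := 2 * Cb / (5 * l k)) (by positivity)
        (fun j hj h2 => ?_) fun j hj h2 => ?_).trans ?_)
      · have j0 := h.pos hj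
        refine (Set.indicator_le_self' (fun _ _ => by positivity) w).trans ?_
        have := h.cmp' hk hj (w := w) (by linarith) h2
        rw [div_le_div_iff₀ (by positivity) (by positivity)]; nlinarith
      · rw [Set.indicator_of_notMem]
        rw [mem_closedBall, dist_eq_norm]; linarith [h.pos hj]
      · rw [← mul_div_assoc, div_le_div_iff₀ (by positivity) (by positivity)]
        nlinarith [mul_pos this k0]
    · rw [dbar_of_notMem hw, norm_zero]; positivity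
  · obtain ⟨k, hk, h1⟩ := hE w hw
    refine Set.mem_biUnion (mem_coe.2 hk) ?_
    rw [mem_ball, dist_eq_norm]; linarith [h.pos hk]
  · obtain ⟨k, hk, h1⟩ := Set.mem_iUnion₂.1 hw
    rw [mem_ball, dist_eq_norm] at h1
    rw [p5, prod_bmp_zero Z gp (fun k => 5 * l k) hk (by linarith [h.pos hk]) h1.le, sub_zero]

variable {E : Set ℂ} {φ : ℤ × ℤ → ℂ → ℂ}

theorem PU.zero (h : PU Z l E φ) {k : ℤ × ℤ} (hk : k ∈ Z) {w : ℂ} (hw : 10 * l k < ‖w - gp k‖) :
    φ k w = 0 ∧ dbar (φ k) w = 0 := by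
  have : w ∉ tsupport (φ k) := fun h1 => by
    have := h.supp k hk h1
    rw [mem_closedBall, dist_eq_norm] at this; linarith
  exact ⟨image_eq_zero_of_notMem_tsupport this, dbar_of_notMem this⟩

theorem PU.sum_norm_le (h : PU Z l E φ) (w : ℂ) : ∑ k ∈ Z, ‖φ k w‖ ≤ 1681 := by
  have := h.wh.sum_le w (fun k => ‖φ k w‖) zero_le_one (fun k _ _ => h.bd k w) fun k hk h1 => by
    rw [(h.zero hk (by linarith [h.wh.pos hk])).1, norm_zero]
  linarith

theorem PU.pr_le (h : PU Z l E φ) {F : ℂ → ℂ} {a : ℂ} (hF : Nice E F a 1) {k : ℤ × ℤ}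
    (hk : k ∈ Z) : ‖pr F (φ k)‖ ≤ 21001 * Cb * cap (E ∩ closedBall (gp k) (10 * l k)) := by
  have k0 := h.wh.pos hk
  refine (hF.norm_pr_le (h.tst k hk) (by linarith) (h.bd k) (h.db k hk) (h.supp k hk)).trans
    (mul_le_mul ?_ (cap_mono (Set.inter_subset_inter_right _ (h.supp k hk))
      (isBounded_closedBall.subset Set.inter_subset_right)) (cap_nonneg _)
      (by linarith [Cb_pos]))
  have : 3 * (700 * Cb / l k) * (10 * l k) = 21000 * Cb := by field_simp; ring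
  rw [this]; linarith [one_le_Cb]

end

end Pool.Agent.Lib.MP_dfc9b7_an
end

-- part Pool.Agent.Lib.MP_dfc9b7_an.CellB
section

/-! The bound for the spread complex measure of a square. -/

set_option autoImplicit false
open Finset Metric Filter Topology MeasureTheory Real

namespace Pool.Agent.Lib.MP_dfc9b7_an

noncomputable section

/-- Smooth indicator of a set of grid points. -/
def psi (R : Finset (ℤ × ℤ)) (w : ℂ) : ℂ := 1 - ∏ q ∈ R, (1 - bmp (gp q) 1 w)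

variable {R : Finset (ℤ × ℤ)} {w : ℂ}

theorem psi_c1 (R : Finset (ℤ × ℤ)) : ContDiff ℝ 1 (psi R) :=
  contDiff_const.sub (contDiff_prod fun _ _ => contDiff_const.sub (bmp_c1 _ _))

theorem norm_psi_le (R : Finset (ℤ × ℤ)) (w : ℂ) : ‖psi R w‖ ≤ 2 := by
  have : ‖∏ q ∈ R, (1 - bmp (gp q) 1 w)‖ ≤ 1 := by
    rw [norm_prod]
    exact prod_le_one (fun _ _ => norm_nonneg _) fun _ _ => norm_one_sub_bmp_le _ _ _
  have h := norm_sub_le 1 (∏ q ∈ R, (1 - bmp (gp q) 1 w))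
  rw [norm_one] at h
  unfold psi; linarith

theorem psi_zero (h : ∀ q ∈ R, 2 ≤ ‖w - gp q‖) : psi R w = 0 := by
  unfold psi
  rw [prod_eq_one fun q hq => by rw [bmp_zero one_pos (by linarith [h q hq]), sub_zero], sub_self]

theorem psi_one (h : rq w ∈ R) : psi R =ᶠ[𝓝 w] fun _ => 1 := by
  have : ball (gp (rq w)) 1 ∈ 𝓝 w :=
    isOpen_ball.mem_nhds (by rw [mem_ball, dist_eq_norm]; exact norm_sub_rq w)
  filter_upwards [this] with u hu
  rw [mem_ball, dist_eq_norm] at hu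
  rw [psi, prod_bmp_zero R gp (fun _ => 1) h one_pos hu.le, sub_zero]

theorem psi_sqr_zero {c : ℤ × ℤ} {n : ℕ} (h : 2 * n + 2 < ‖w - gp c‖) : psi (sqr c n) w = 0 :=
  psi_zero fun q hq => by
    linarith [norm_sqr hq, norm_sub_le_norm_sub_add_norm_sub w (gp q) (gp c)]

theorem psi_tst (c : ℤ × ℤ) (n : ℕ) : Tst (psi (sqr c n)) :=
  ⟨psi_c1 _, HasCompactSupport.intro (isCompact_closedBall (gp c) (2 * n + 2)) fun w hw =>
    psi_sqr_zero (by simpa [dist_eq_norm] using hw)⟩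

theorem norm_dbar_psi (D : Finset (ℤ × ℤ))
    (hD : ∀ q ∈ R, ∀ q', q' ∉ R → ‖gp q - gp q'‖ ≤ 3 → q ∈ D) (w : ℂ) :
    ‖dbar (psi R) w‖ ≤ ∑ q ∈ D, (closedBall (gp q) 2).indicator (fun _ => Cb) w := by
  classical
  have h0 : ∀ q, 0 ≤ (closedBall (gp q) 2).indicator (fun _ => Cb) w := fun q =>
    Set.indicator_nonneg (fun _ _ => Cb_pos.le) w
  by_cases h : rq w ∈ R
  · rw [dbar_congr (psi_one h), dbar_const, norm_zero]; exact sum_nonneg fun q _ => h0 q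
  unfold psi
  rw [norm_dbar_one_sub (contDiff_prod fun _ _ => contDiff_const.sub (bmp_c1 _ _))]
  refine (norm_dbar_prod_le R (fun _ _ => contDiff_const.sub (bmp_c1 _ _)) w
    fun _ _ => norm_one_sub_bmp_le _ _ _).trans ?_
  have h1 : ∀ q ∈ R, ‖dbar (fun u => 1 - bmp (gp q) 1 u) w‖ ≤
      (closedBall (gp q) 2).indicator (fun _ => Cb) w := fun q _ => by
    rw [norm_dbar_one_sub (bmp_c1 _ _)]
    simpa using norm_dbar_bmp_le (c := gp q) one_pos w
  refine (sum_le_sum h1).trans ?_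
  rw [← sum_filter_of_ne (p := fun q => q ∈ D) fun q hq h2 => hD q hq _ h ?_]
  · exact sum_le_sum_of_subset_of_nonneg (fun q hq => (mem_filter.1 hq).2) fun q _ _ => h0 q
  · have h3 := Set.mem_of_indicator_ne_zero h2
    rw [mem_closedBall, dist_eq_norm, norm_sub_rev] at h3
    linarith [norm_sub_rq w, norm_sub_le_norm_sub_add_norm_sub (gp q) w (gp (rq w))]

theorem exists_frame (c : ℤ × ℤ) (n : ℕ) : ∃ D : Finset (ℤ × ℤ), (D.card : ℝ) ≤ 12 * n ∧
    ∀ q ∈ sqr c n, ∀ q', q' ∉ sqr c n → ‖gp q - gp q'‖ ≤ 3 → q ∈ D := by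
  refine ⟨(Ico c.1 (c.1 + 3) ∪ Ico (c.1 + n - 3) (c.1 + n)) ×ˢ Ico c.2 (c.2 + n) ∪
    Ico c.1 (c.1 + n) ×ˢ (Ico c.2 (c.2 + 3) ∪ Ico (c.2 + n - 3) (c.2 + n)), ?_,
    fun q hq q' hq' h => ?_⟩
  · have h1 : ∀ a : ℤ, (Ico a (a + 3) ∪ Ico (a + n - 3) (a + n)).card ≤ 6 := fun a =>
      (card_union_le _ _).trans (by simp only [Int.card_Ico]; omega)
    have h2 : ∀ a : ℤ, (Ico a (a + n)).card = n := fun a => by simp
    have h3 := card_union_le ((Ico c.1 (c.1 + 3) ∪ Ico (c.1 + n - 3) (c.1 + n)) ×ˢ Ico c.2 (c.2 + n))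
      (Ico c.1 (c.1 + n) ×ˢ (Ico c.2 (c.2 + 3) ∪ Ico (c.2 + n - 3) (c.2 + n)))
    rw [card_product, card_product, h2, h2] at h3
    have h4 := h3.trans (add_le_add (Nat.mul_le_mul_right n (h1 c.1)) (Nat.mul_le_mul_left n (h1 c.2)))
    have h5 : 6 * n + n * 6 = 12 * n := by ring
    rw [h5] at h4
    exact_mod_cast h4
  · have h1 : |q.1 - q'.1| ≤ 3 := by exact_mod_cast (abs_fst_le q q').trans h
    have h2 : |q.2 - q'.2| ≤ 3 := by exact_mod_cast (abs_snd_le q q').trans h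
    rw [mem_sqr] at hq hq'
    rw [abs_le] at h1 h2
    simp only [mem_union, mem_product, mem_Ico]; omega

theorem line_count {k : ℤ × ℤ} {t : ℝ} (ht : 1 ≤ t) (T : Finset (ℤ × ℤ)) (e : ℕ → ℤ × ℤ)
    (he : Function.Injective e) (h : ∀ i < ⌊t⌋₊, e i ∈ T ∧ ‖gp (e i) - gp k‖ ≤ 20 * t) :
    t ≤ 2 * ∑ y ∈ T, ind (fun y => ‖gp y - gp k‖ ≤ 20 * t) y := by
  have h1 : ∑ y ∈ (range ⌊t⌋₊).map ⟨e, he⟩, ind (fun y => ‖gp y - gp k‖ ≤ 20 * t) y = ⌊t⌋₊ := by
    rw [sum_map]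
    refine (sum_congr rfl fun i hi => ind_pos (p := fun y => ‖gp y - gp k‖ ≤ 20 * t)
      (h i (mem_range.1 hi)).2).trans ?_
    simp
  have h2 : ∑ y ∈ (range ⌊t⌋₊).map ⟨e, he⟩, ind (fun y => ‖gp y - gp k‖ ≤ 20 * t) y ≤
      ∑ y ∈ T, ind (fun y => ‖gp y - gp k‖ ≤ 20 * t) y :=
    sum_le_sum_of_subset_of_nonneg (fun y hy => by
      obtain ⟨i, hi, rfl⟩ := mem_map.1 hy
      exact (h i (mem_range.1 hi)).1) fun _ _ _ => ind_nonneg _ _
  linarith [(floor_bds ht).2.2]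

theorem exists_lines (c : ℤ × ℤ) {n : ℕ} (hn : 1 ≤ n) : ∃ T : Finset (ℤ × ℤ),
    (T.card : ℝ) ≤ 120 * n ∧ ∀ (k : ℤ × ℤ) (t : ℝ), 1 ≤ t → t ≤ n → ∀ q q', q ∉ sqr c n →
      q' ∈ sqr c n → ‖gp q - gp k‖ ≤ 12 * t → ‖gp q' - gp k‖ ≤ 12 * t →
      t ≤ 2 * ∑ y ∈ T, ind (fun y => ‖gp y - gp k‖ ≤ 20 * t) y := by
  refine ⟨{c.1, c.1 + n} ×ˢ Icc (c.2 - 14 * n) (c.2 + 15 * n) ∪
    Icc (c.1 - 14 * n) (c.1 + 15 * n) ×ˢ {c.2, c.2 + n}, ?_, fun k t h1 h2 q q' hq hq' a1 a2 => ?_⟩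
  · have h1 : ∀ a : ℤ, ({a, a + n} : Finset ℤ).card ≤ 2 := fun a => card_le_two
    have h2 : ∀ a : ℤ, (Icc (a - 14 * n) (a + 15 * n)).card ≤ 30 * n := fun a => by
      simp only [Int.card_Icc]; omega
    have h3 := card_union_le ({c.1, c.1 + n} ×ˢ Icc (c.2 - 14 * n) (c.2 + 15 * n))
      (Icc (c.1 - 14 * n) (c.1 + 15 * n) ×ˢ {c.2, c.2 + n})
    rw [card_product, card_product] at h3
    have h4 := h3.trans (add_le_add (Nat.mul_le_mul (h1 c.1) (h2 c.2)) (Nat.mul_le_mul (h2 c.1) (h1 c.2)))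
    have h5 : 2 * (30 * n) + 30 * n * 2 = 120 * n := by ring
    rw [h5] at h4
    exact_mod_cast h4
  obtain ⟨f1, f2, f3⟩ := floor_bds h1
  have hN : (⌊12 * t⌋ : ℝ) ≤ 12 * t := Int.floor_le _
  have hNn : ⌊12 * t⌋ ≤ 12 * (n : ℤ) := by
    have : (⌊12 * t⌋ : ℝ) ≤ 12 * n := by linarith
    exact_mod_cast this
  have hfn : ⌊t⌋₊ ≤ n := by exact_mod_cast f2.trans h2
  have b : ∀ {p : ℤ × ℤ}, ‖gp p - gp k‖ ≤ 12 * t →
      |p.1 - k.1| ≤ ⌊12 * t⌋ ∧ |p.2 - k.2| ≤ ⌊12 * t⌋ := fun {p} hp =>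
    ⟨Int.le_floor.2 (by exact_mod_cast (abs_fst_le p k).trans hp),
      Int.le_floor.2 (by exact_mod_cast (abs_snd_le p k).trans hp)⟩
  obtain ⟨b1, b2⟩ := b a1
  obtain ⟨b3, b4⟩ := b a2
  rw [abs_le] at b1 b2 b3 b4
  rw [mem_sqr] at hq hq'
  have fin : ∀ (p : ℤ × ℤ) (i : ℕ), i < ⌊t⌋₊ → |p.1 - k.1| + |p.2 - k.2| ≤ ⌊12 * t⌋ + i →
      ‖gp p - gp k‖ ≤ 20 * t := fun p i hi h => by
    have c1 : (i : ℝ) ≤ ⌊t⌋₊ := by exact_mod_cast hi.le
    have c2 : |((p.1 - k.1 : ℤ) : ℝ)| + |((p.2 - k.2 : ℤ) : ℝ)| ≤ ⌊12 * t⌋ + i := by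
      exact_mod_cast h
    linarith [norm_gp_le p k]
  have v : ∀ a, (a = c.1 ∨ a = c.1 + n) → |a - k.1| ≤ ⌊12 * t⌋ → _ := fun a ha ha' =>
    line_count (k := k) h1 ({c.1, c.1 + n} ×ˢ Icc (c.2 - 14 * n) (c.2 + 15 * n) ∪
      Icc (c.1 - 14 * n) (c.1 + 15 * n) ×ˢ {c.2, c.2 + n}) (fun i => (a, k.2 + i))
      (fun i j h => by simpa using h) fun i hi => ⟨by
        simp only [mem_union, mem_product, mem_insert, mem_singleton, mem_Icc]; omega,
        fin _ i hi (by simpa using ha')⟩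
  have u : ∀ a, (a = c.2 ∨ a = c.2 + n) → |a - k.2| ≤ ⌊12 * t⌋ → _ := fun a ha ha' =>
    line_count (k := k) h1 ({c.1, c.1 + n} ×ˢ Icc (c.2 - 14 * n) (c.2 + 15 * n) ∪
      Icc (c.1 - 14 * n) (c.1 + 15 * n) ×ˢ {c.2, c.2 + n}) (fun i => (k.1 + i, a))
      (fun i j h => by simpa using h) fun i hi => ⟨by
        simp only [mem_union, mem_product, mem_insert, mem_singleton, mem_Icc]; omega,
        fin _ i hi (by
          simp only [add_sub_cancel_left, Nat.abs_cast]; linarith)⟩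
  by_cases d1 : q.1 < c.1
  · exact v _ (Or.inl rfl) (abs_le.2 (by omega))
  by_cases d2 : c.1 + n ≤ q.1
  · exact v _ (Or.inr rfl) (abs_le.2 (by omega))
  by_cases d3 : q.2 < c.2
  · exact u _ (Or.inl rfl) (abs_le.2 (by omega))
  · exact u _ (Or.inr rfl) (abs_le.2 (by omega))

variable {Z : Finset (ℤ × ℤ)} {l : ℤ × ℤ → ℝ} {E : Set ℂ} {φ : ℤ × ℤ → ℂ → ℂ}

theorem PU.cell_term (h : PU Z l E φ) (c : ℤ × ℤ) {n : ℕ} (hn : 1 ≤ n) (T : Finset (ℤ × ℤ))
    (hT : ∀ (k : ℤ × ℤ) (t : ℝ), 1 ≤ t → t ≤ n → ∀ q q', q ∉ sqr c n →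
      q' ∈ sqr c n → ‖gp q - gp k‖ ≤ 12 * t → ‖gp q' - gp k‖ ≤ 12 * t →
      t ≤ 2 * ∑ y ∈ T, ind (fun y => ‖gp y - gp k‖ ≤ 20 * t) y) {k : ℤ × ℤ} (hk : k ∈ Z) :
    ∃ b : ℂ → ℝ, Integrable b ∧ (∀ w, ‖(av k ⌊l k⌋₊ (fun y => (ind (fun y => y ∈ sqr c n) y : ℝ)) -
      psi (sqr c n) w) * dbar (φ k) w‖ ≤ b w) ∧ ∫ w, b w ≤ π * (420000 * Cb *
        ∑ y ∈ T, ind (fun y => ‖gp y - gp k‖ ≤ 20 * l k) y +
        302400 * Cb * n * ind (fun k => ‖gp c - gp k‖ ≤ 20 * l k) k) := by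
  have k1 := h.wh.one k hk
  obtain ⟨f1, f2, f3⟩ := floor_bds k1
  have hC := Cb_pos
  have hn' : (1 : ℝ) ≤ n := by exact_mod_cast hn
  have s0 : 0 ≤ ∑ y ∈ T, ind (fun y => ‖gp y - gp k‖ ≤ 20 * l k) y :=
    sum_nonneg fun _ _ => ind_nonneg _ _
  have s1 := ind_nonneg (fun k => ‖gp c - gp k‖ ≤ 20 * l k) k
  set θ := av k ⌊l k⌋₊ (fun y => (ind (fun y => y ∈ sqr c n) y : ℝ)) with hθ
  have hz : (∀ w, ‖w - gp k‖ ≤ 10 * l k → θ = psi (sqr c n) w) → ∃ b : ℂ → ℝ, Integrable b ∧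
      (∀ w, ‖(θ - psi (sqr c n) w) * dbar (φ k) w‖ ≤ b w) ∧ ∫ w, b w ≤ π * (420000 * Cb *
        ∑ y ∈ T, ind (fun y => ‖gp y - gp k‖ ≤ 20 * l k) y +
        302400 * Cb * n * ind (fun k => ‖gp c - gp k‖ ≤ 20 * l k) k) := fun hz => by
    refine ⟨fun _ => 0, integrable_zero _ _ _, fun w => ?_, by simp only [integral_zero]; positivity⟩
    by_cases hw : ‖w - gp k‖ ≤ 10 * l k
    · rw [hz w hw, sub_self, zero_mul, norm_zero]
    · rw [(h.zero hk (not_le.1 hw)).2, mul_zero, norm_zero]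
  have hd : ∀ w, ‖dbar (φ k) w‖ ≤
      (closedBall (gp k) (10 * l k)).indicator (fun _ => 700 * Cb / l k) w := fun w => by
    by_cases hw : w ∈ closedBall (gp k) (10 * l k)
    · rw [Set.indicator_of_mem hw]; exact h.db k hk w
    · rw [Set.indicator_of_notMem hw, (h.zero hk (by simpa [dist_eq_norm] using hw)).2, norm_zero]
  by_cases h1 : ∀ q, ‖gp q - gp k‖ ≤ 12 * l k → q ∈ sqr c n
  · refine hz fun w hw => ?_
    rw [(psi_one (h1 (rq w) ?_)).self_of_nhds, hθ, av_congr (g := fun _ => 1), av_const k f1]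
    · intro y hy
      rw [ind_pos (p := fun y => y ∈ sqr c n) (h1 y (by linarith [norm_sqr hy]))]; simp
    · have := norm_sub_le_norm_sub_add_norm_sub (gp (rq w)) w (gp k)
      rw [norm_sub_rev (gp (rq w)) w] at this
      linarith [norm_sub_rq w]
  by_cases h2 : ∀ q ∈ sqr c n, 12 * l k < ‖gp q - gp k‖
  · refine hz fun w hw => ?_
    rw [psi_zero, hθ, av_congr (g := fun _ => 0), av_const k f1]
    · intro y hy
      rw [ind_neg (p := fun y => y ∈ sqr c n) fun h3 => by linarith [h2 y h3, norm_sqr hy]]; simp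
    · intro q hq
      have := norm_sub_le_norm_sub_add_norm_sub (gp q) w (gp k)
      rw [norm_sub_rev (gp q) w] at this
      linarith [h2 q hq]
  push Not at h1 h2
  obtain ⟨q, q1, q2⟩ := h1
  obtain ⟨q', q3, q4⟩ := h2
  have hi : ∀ y, ‖((ind (fun y => y ∈ sqr c n) y : ℝ) : ℂ)‖ = ind (fun y => y ∈ sqr c n) y :=
    fun y => by rw [Complex.norm_real, Real.norm_of_nonneg (ind_nonneg _ _)]
  by_cases h3 : l k ≤ n
  · have t1 : ‖θ‖ ≤ 1 := norm_av_le_of_le k f1 fun y _ => by rw [hi]; exact (ind_U01 _ _).2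
    refine ⟨fun w => 3 * (closedBall (gp k) (10 * l k)).indicator (fun _ => 700 * Cb / l k) w,
      (ind_ball_integrable _ _ _).const_mul _, fun w => ?_, ?_⟩
    · rw [norm_mul]
      exact mul_le_mul ((norm_sub_le _ _).trans (by linarith [norm_psi_le (sqr c n) w])) (hd w)
        (norm_nonneg _) (by norm_num)
    · rw [integral_const_mul, ind_ball_integral _ (by linarith)]
      have := hT k (l k) k1 h3 q q' q2 q3 q1 q4
      have e : 3 * (700 * Cb / l k * (π * (10 * l k) ^ 2)) = π * (210000 * Cb * l k) := by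
        field_simp; ring
      rw [e]
      refine mul_le_mul_of_nonneg_left ?_ pi_pos.le
      nlinarith [mul_le_mul_of_nonneg_left this hC.le, mul_nonneg (mul_nonneg hC.le (by linarith : (0:ℝ) ≤ n)) s1]
  · push Not at h3
    have t1 : ‖θ‖ ≤ 4 * n ^ 2 / l k ^ 2 := by
      refine (norm_av_le _ _ _).trans ?_
      simp only [hi]
      have a1 : ∑ y ∈ sqr k ⌊l k⌋₊, ind (fun y => y ∈ sqr c n) y ≤ n ^ 2 := by
        have := sum_ind_mem (subset_union_right (s₁ := sqr k ⌊l k⌋₊) (s₂ := sqr c n)) id rfl rfl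
          fun _ => (1 : ℝ)
        simp only [id, mul_one] at this
        rw [sum_const, nsmul_eq_mul, card_sqr, mul_one] at this
        exact (sum_le_sum_of_subset_of_nonneg subset_union_left fun _ _ _ => ind_nonneg _ _).trans
          this.le
      rw [div_le_div_iff₀ (by positivity) (by positivity)]
      have a2 : l k ^ 2 ≤ 4 * (⌊l k⌋₊ : ℝ) ^ 2 := by nlinarith
      nlinarith [mul_le_mul a1 a2 (by positivity) (by positivity)]
    refine ⟨fun w => 4 * n ^ 2 / l k ^ 2 *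
        (closedBall (gp k) (10 * l k)).indicator (fun _ => 700 * Cb / l k) w +
        (closedBall (gp c) (2 * n + 2)).indicator (fun _ => 1400 * Cb / l k) w,
      ((ind_ball_integrable _ _ _).const_mul _).add (ind_ball_integrable _ _ _), fun w => ?_, ?_⟩
    · rw [sub_mul]
      refine (norm_sub_le _ _).trans (add_le_add ?_ ?_)
      · rw [norm_mul]; exact mul_le_mul t1 (hd w) (norm_nonneg _) (by positivity)
      · by_cases hw : w ∈ closedBall (gp c) (2 * n + 2)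
        · rw [Set.indicator_of_mem hw, norm_mul]
          exact (mul_le_mul (norm_psi_le _ w) (h.db k hk w) (norm_nonneg _) (by norm_num)).trans
            (le_of_eq (by ring))
        · rw [Set.indicator_of_notMem hw, psi_sqr_zero (by simpa [dist_eq_norm] using hw),
            zero_mul, norm_zero]
    · rw [integral_add ((ind_ball_integrable _ _ _).const_mul _) (ind_ball_integrable _ _ _),
        integral_const_mul, ind_ball_integral _ (by linarith), ind_ball_integral _ (by linarith),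
        ind_pos (p := fun k => ‖gp c - gp k‖ ≤ 20 * l k) (by
          have := norm_sub_le_norm_sub_add_norm_sub (gp c) (gp q') (gp k)
          rw [norm_sub_rev (gp c) (gp q')] at this
          linarith [norm_sqr q3])]
      have e : 4 * n ^ 2 / l k ^ 2 * (700 * Cb / l k * (π * (10 * l k) ^ 2)) +
          1400 * Cb / l k * (π * (2 * n + 2) ^ 2) =
          π * (Cb * ((280000 * n ^ 2 + 1400 * (2 * n + 2) ^ 2) / l k)) := by
        field_simp; ring
      rw [e]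
      refine mul_le_mul_of_nonneg_left ?_ pi_pos.le
      have a1 : (280000 * n ^ 2 + 1400 * (2 * n + 2) ^ 2) / l k ≤ 302400 * n := by
        rw [div_le_iff₀ (by linarith)]; nlinarith
      nlinarith [mul_le_mul_of_nonneg_left a1 hC.le, mul_nonneg hC.le s0]

theorem PU.cell (h : PU Z l E φ) {F : ℂ → ℂ} {a : ℂ} (hF : Nice E F a 1) (c : ℤ × ℤ) {n : ℕ}
    (hn : 1 ≤ n) : ‖∑ k ∈ Z, pr F (φ k) *
      av k ⌊l k⌋₊ (fun y => (ind (fun y => y ∈ sqr c n) y : ℝ))‖ ≤ 10 ^ 11 * Cb * n := by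
  obtain ⟨D, hD1, hD2⟩ := exists_frame c n
  obtain ⟨T, hT1, hT2⟩ := exists_lines c hn
  choose! b b1 b2 b3 using fun k hk => h.cell_term c hn T hT2 (k := k) hk
  set θ := fun k => av k ⌊l k⌋₊ (fun y => (ind (fun y => y ∈ sqr c n) y : ℝ)) with hθ
  have hψ := psi_tst c n
  set ψ := psi (sqr c n) with hψ'
  have hC := Cb_pos
  have hn' : (1 : ℝ) ≤ n := by exact_mod_cast hn
  have t1 : ∀ k ∈ Z, Tst fun w => φ k w * θ k := fun k hk => (h.tst k hk).mul_right contDiff_const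
  have t2 : ∀ k ∈ Z, Tst fun w => φ k w * (θ k - ψ w) := fun k hk =>
    (h.tst k hk).mul_right (contDiff_const.sub hψ.c1)
  obtain ⟨U, u1, u2, u3⟩ := h.one
  have e : ∑ k ∈ Z, pr F (φ k) * θ k = pr F fun w => ψ w + ∑ k ∈ Z, φ k w * (θ k - ψ w) := by
    rw [← sum_congr rfl fun k hk => pr_mul_const (F := F) (h.tst k hk) (θ k), ← hF.pr_sum Z t1]
    refine hF.pr_congr (tst_sum Z t1) (hψ.add (tst_sum Z t2)) u1 u2 fun w hw => ?_
    simp only [mul_sub]
    rw [sum_sub_distrib, ← sum_mul, u3 w hw]; ring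
  have i1 : Integrable fun w => ∑ q ∈ D, (closedBall (gp q) 2).indicator (fun _ => Cb) w :=
    integrable_finsetSum _ fun _ _ => ind_ball_integrable _ _ _
  have i2 : Integrable fun w => ∑ k ∈ Z, b k w := integrable_finsetSum _ b1
  rw [e]
  refine (hF.norm_pr_le_int _ ((i1.const_mul 1682).add i2) fun w => ?_).trans ?_
  · rw [dbar_add (hψ.diff w) ((tst_sum Z t2).diff w), dbar_sum Z t2]
    have a1 : ∀ k ∈ Z, ‖dbar (fun w => φ k w * (θ k - ψ w)) w‖ ≤ ‖φ k w‖ * ‖dbar ψ w‖ + b k w := by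
      intro k hk
      rw [dbar_mul ((h.tst k hk).diff w) ((hψ.diff w).const_sub _),
        dbar_sub (differentiableAt_const _) (hψ.diff w), dbar_const, zero_sub]
      refine (norm_add_le _ _).trans (add_le_add ?_ (b2 k hk w))
      rw [norm_mul, norm_neg]
    have a2 := (norm_sum_le _ _).trans (sum_le_sum a1)
    rw [sum_add_distrib, ← sum_mul] at a2
    have a3 := norm_dbar_psi D hD2 w
    have a4 := mul_le_mul_of_nonneg_right (h.sum_norm_le w) (norm_nonneg (dbar ψ w))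
    refine (norm_add_le _ _).trans ?_
    simp only [Pi.add_apply]
    linarith
  · simp only [Pi.add_apply]
    rw [integral_add (i1.const_mul _) i2, integral_const_mul,
      integral_finsetSum _ fun _ _ => ind_ball_integrable _ _ _, integral_finsetSum _ b1]
    simp only [ind_ball_integral _ zero_le_two]
    rw [sum_const, nsmul_eq_mul]
    have a1 := sum_le_sum b3
    rw [← mul_sum, sum_add_distrib, ← mul_sum, ← mul_sum, sum_comm] at a1
    have a2 : ∀ w : ℤ × ℤ, ∑ k ∈ Z, ind (fun y => ‖gp y - gp k‖ ≤ 20 * l k) w ≤ 1681 * 1 := fun w =>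
      h.wh.sum_le (gp w) _ zero_le_one (fun _ _ _ => (ind_U01 _ _).2) fun k _ h1 =>
        (ind_neg (p := fun y => ‖gp y - gp k‖ ≤ 20 * l k) (not_le.2 h1)).le
    have a3 := sum_le_card_nsmul _ _ _ fun w (_ : w ∈ T) => a2 w
    rw [nsmul_eq_mul] at a3
    have a4 : ∑ k ∈ Z, ind (fun k => ‖gp c - gp k‖ ≤ 20 * l k) k ≤ 1681 * 1 :=
      h.wh.sum_le (gp c) _ zero_le_one (fun _ _ _ => (ind_U01 _ _).2) fun k _ h1 =>
        (ind_neg (p := fun k => ‖gp c - gp k‖ ≤ 20 * l k) (not_le.2 h1)).le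
    have a5 : 420000 * Cb * ∑ y ∈ T, ∑ k ∈ Z, ind (fun y => ‖gp y - gp k‖ ≤ 20 * l k) y +
        302400 * Cb * n * ∑ k ∈ Z, ind (fun k => ‖gp c - gp k‖ ≤ 20 * l k) k ≤
        9 * 10 ^ 10 * (Cb * n) := by
      have p1 := mul_le_mul_of_nonneg_left (a3.trans (mul_le_mul_of_nonneg_right hT1
        (by norm_num))) hC.le
      have p2 := mul_le_mul_of_nonneg_left a4 (show 0 ≤ Cb * n by positivity)
      nlinarith [mul_pos hC (show (0:ℝ) < n by linarith)]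
    have a6 := a1.trans (mul_le_mul_of_nonneg_left a5 pi_pos.le)
    have a7 := mul_le_mul_of_nonneg_right hD1 (show 0 ≤ Cb * (π * 2 ^ 2) by positivity)
    rw [div_mul_eq_mul_div, one_mul, div_le_iff₀ pi_pos]
    nlinarith [mul_pos (mul_pos hC (show (0:ℝ) < n by linarith)) pi_pos]

end

end Pool.Agent.Lib.MP_dfc9b7_an
end

-- part Pool.Agent.Lib.MP_dfc9b7_an.Trunc
section

/-! The bound for the truncated Cauchy transform of the spread complex measure. -/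

set_option autoImplicit false
open Finset Metric Filter Topology MeasureTheory Real

namespace Pool.Agent.Lib.MP_dfc9b7_an

noncomputable section

/-- Smoothly truncated Cauchy kernel. -/
def kap (x : ℂ) (r : ℝ) (w : ℂ) : ℂ := (1 - bmp x r w) * (x - w)⁻¹

variable {x w : ℂ} {r : ℝ}

theorem kap_inner (hr : 0 < r) (h : ‖w - x‖ < r) : kap x r =ᶠ[𝓝 w] fun _ => 0 := by
  have : ball x r ∈ 𝓝 w := isOpen_ball.mem_nhds (by rwa [mem_ball, dist_eq_norm])
  filter_upwards [this] with u hu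
  rw [mem_ball, dist_eq_norm] at hu
  rw [kap, bmp_one hr hu.le, sub_self, zero_mul]

theorem kap_c1 (hr : 0 < r) : ContDiff ℝ 1 (kap x r) := by
  refine contDiff_iff_contDiffAt.2 fun w => ?_
  by_cases h : ‖w - x‖ < r
  · exact contDiffAt_const.congr_of_eventuallyEq (kap_inner hr h)
  · refine (contDiff_const.sub (bmp_c1 x r)).contDiffAt.mul
      ((contDiffAt_const.sub contDiffAt_id).inv fun e => h ?_)
    rw [← norm_neg, neg_sub, show x - w = 0 from e, norm_zero]; exact hr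

theorem norm_kap_le (x : ℂ) (r : ℝ) (w : ℂ) : ‖kap x r w‖ ≤ ‖w - x‖⁻¹ := by
  rw [kap, norm_mul, norm_inv, norm_sub_rev x w]
  exact mul_le_of_le_one_left (by positivity) (norm_one_sub_bmp_le _ _ _)

theorem norm_dbar_kap (hr : 0 < r) (w : ℂ) :
    ‖dbar (kap x r) w‖ ≤ (closedBall x (2 * r)).indicator (fun _ => Cb / r ^ 2) w ∧
      ‖dbar (kap x r) w‖ ≤ 2 * Cb / ‖w - x‖ ^ 2 := by
  have hC := Cb_pos
  by_cases h : ‖w - x‖ < r
  · rw [dbar_congr (kap_inner hr h), dbar_const, norm_zero]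
    exact ⟨Set.indicator_nonneg (fun _ _ => by positivity) w, by positivity⟩
  push Not at h
  have h0 : 0 < ‖w - x‖ := hr.trans_le h
  have hne : x - w ≠ 0 := fun e => by rw [← norm_neg, neg_sub, e, norm_zero] at h0; linarith
  have d1 : DifferentiableAt ℂ (fun u => (x - u)⁻¹) w := (differentiableAt_id.const_sub x).inv hne
  have e : ‖dbar (kap x r) w‖ = ‖w - x‖⁻¹ * ‖dbar (bmp x r) w‖ := by
    unfold kap
    rw [dbar_mul (((bmp_c1 x r).differentiable one_ne_zero w).const_sub 1) (d1.restrictScalars ℝ),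
      dbar_holo d1, mul_zero, zero_add, norm_mul, norm_dbar_one_sub (bmp_c1 x r), norm_inv,
      norm_sub_rev x w]
  have b := norm_dbar_bmp_le (c := x) hr w
  rw [e]
  by_cases hw : w ∈ closedBall x (2 * r)
  · rw [Set.indicator_of_mem hw] at b ⊢
    rw [mem_closedBall, dist_eq_norm] at hw
    have b1 := mul_le_mul_of_nonneg_left b (show 0 ≤ ‖w - x‖⁻¹ by positivity)
    refine ⟨b1.trans ?_, b1.trans ?_⟩
    · rw [inv_mul_eq_div, div_div, div_le_div_iff₀ (by positivity) (by positivity)]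
      nlinarith [mul_le_mul_of_nonneg_left h (mul_pos hC hr).le]
    · rw [inv_mul_eq_div, div_div, div_le_div_iff₀ (by positivity) (by positivity)]
      nlinarith [mul_le_mul_of_nonneg_left hw (mul_pos hC h0).le]
  · rw [Set.indicator_of_notMem hw] at b ⊢
    rw [le_antisymm b (norm_nonneg _), mul_zero]
    exact ⟨le_rfl, by positivity⟩

theorem kap_lip (hr : 0 < r) {d : ℝ} (hd : 0 < d) {w w' : ℂ} (h : d ≤ ‖w - x‖)
    (h' : d ≤ ‖w' - x‖) : ‖kap x r w - kap x r w'‖ ≤ 3 * Cb * ‖w - w'‖ / d ^ 2 := by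
  have hC := one_le_Cb
  have n1 : x - w ≠ 0 := fun e => by rw [← norm_neg, neg_sub, e, norm_zero] at h; linarith
  have n2 : x - w' ≠ 0 := fun e => by rw [← norm_neg, neg_sub, e, norm_zero] at h'; linarith
  have e : kap x r w - kap x r w' = -(bmp x r w - bmp x r w') * (x - w)⁻¹ +
      (1 - bmp x r w') * ((w - w') * ((x - w)⁻¹ * (x - w')⁻¹)) := by
    unfold kap; field_simp; ring
  have i1 : ‖(x - w)⁻¹‖ ≤ d⁻¹ := by rw [norm_inv, norm_sub_rev]; exact inv_anti₀ hd h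
  have i2 : ‖(x - w')⁻¹‖ ≤ d⁻¹ := by rw [norm_inv, norm_sub_rev]; exact inv_anti₀ hd h'
  have b1 : ‖bmp x r w - bmp x r w'‖ ≤ 2 * Cb * ‖w - w'‖ * d⁻¹ := by
    by_cases h2 : 2 * r ≤ d
    · rw [bmp_zero hr (by linarith), bmp_zero hr (by linarith), sub_self, norm_zero]; positivity
    · refine (bmp_lip hr w w').trans ?_
      have : Cb / r ≤ 2 * Cb * d⁻¹ := by
        rw [← div_eq_mul_inv, div_le_div_iff₀ hr hd]; nlinarith
      nlinarith [mul_le_mul_of_nonneg_right this (norm_nonneg (w - w'))]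
  rw [e]
  refine (norm_add_le _ _).trans ?_
  rw [norm_mul, norm_neg, norm_mul, norm_mul, norm_mul]
  have c1 := mul_le_mul b1 i1 (norm_nonneg _) (by positivity)
  have c2 := mul_le_mul (norm_one_sub_bmp_le x r w') (mul_le_mul_of_nonneg_left
    (mul_le_mul i1 i2 (norm_nonneg _) (by positivity)) (norm_nonneg (w - w'))) (by positivity)
    zero_le_one
  have e2 : 3 * Cb * ‖w - w'‖ / d ^ 2 = 3 * Cb * (‖w - w'‖ * (d⁻¹ * d⁻¹)) := by field_simp
  rw [e2]
  nlinarith [mul_nonneg (norm_nonneg (w - w')) (show 0 ≤ d⁻¹ * d⁻¹ by positivity)]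

theorem row_sum (I : Finset ℤ) (c a : ℤ) :
    ∑ v ∈ I, (if |v - c| ≤ |a| then |(a : ℝ)|⁻¹ else 0) ≤ 3 := by
  by_cases ha : a = 0
  · simp [ha]
  have h1 : (1 : ℝ) ≤ |(a : ℝ)| := by exact_mod_cast Int.one_le_abs ha
  rw [← sum_filter, sum_const, nsmul_eq_mul, ← div_eq_mul_inv, div_le_iff₀ (by linarith)]
  have h2 : (I.filter fun v => |v - c| ≤ |a|).card ≤ (Icc (c - |a|) (c + |a|)).card :=
    card_le_card fun v hv => by
      have := abs_le.1 (mem_filter.1 hv).2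
      rw [mem_Icc]; omega
  have h3 : ((Icc (c - |a|) (c + |a|)).card : ℤ) = 2 * |a| + 1 := by
    rw [Int.card_Icc_of_le _ _ (by linarith [abs_nonneg a])]; ring
  have h4 : ((I.filter fun v => |v - c| ≤ |a|).card : ℤ) ≤ 2 * |a| + 1 := by
    rw [← h3]; exact_mod_cast h2
  have h5 : ((I.filter fun v => |v - c| ≤ |a|).card : ℝ) ≤ 2 * |(a : ℝ)| + 1 := by exact_mod_cast h4
  linarith

theorem sqr_inv_sum (k x : ℤ × ℤ) (n : ℕ) : ∑ y ∈ sqr k n, ‖gp y - gp x‖⁻¹ ≤ 6 * n := by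
  have h1 : ∀ y ∈ sqr k n, ‖gp y - gp x‖⁻¹ ≤
      (if |y.2 - x.2| ≤ |y.1 - x.1| then |((y.1 - x.1 : ℤ) : ℝ)|⁻¹ else 0) +
      (if |y.1 - x.1| ≤ |y.2 - x.2| then |((y.2 - x.2 : ℤ) : ℝ)|⁻¹ else 0) := by
    intro y _
    by_cases h0 : y = x
    · simp [h0]
    have hne : ¬ (y.1 - x.1 = 0 ∧ y.2 - x.2 = 0) := fun h => h0 (Prod.ext (by omega) (by omega))
    by_cases h : |y.2 - x.2| ≤ |y.1 - x.1|
    · rw [if_pos h]
      have : y.1 - x.1 ≠ 0 := fun e => hne ⟨e, by rw [e, abs_zero] at h; exact abs_nonpos_iff.1 h⟩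
      refine (inv_anti₀ (abs_pos.2 (by exact_mod_cast this)) (abs_fst_le y x)).trans
        (le_add_of_nonneg_right ?_)
      split_ifs <;> positivity
    · rw [if_neg h, if_pos (not_le.1 h).le, zero_add]
      have : y.2 - x.2 ≠ 0 := fun e => h (by rw [e, abs_zero]; exact abs_nonneg _)
      exact inv_anti₀ (abs_pos.2 (by exact_mod_cast this)) (abs_snd_le y x)
  refine (sum_le_sum h1).trans ?_
  rw [sum_add_distrib, sqr, sum_product, sum_product_right]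
  have h2 := sum_le_card_nsmul (Ico k.1 (k.1 + n)) _ _ fun u _ =>
    row_sum (Ico k.2 (k.2 + n)) x.2 (u - x.1)
  have h3 := sum_le_card_nsmul (Ico k.2 (k.2 + n)) _ _ fun u _ =>
    row_sum (Ico k.1 (k.1 + n)) x.1 (u - x.2)
  simp only [Int.card_Ico, add_sub_cancel_left, Int.toNat_natCast, nsmul_eq_mul] at h2 h3
  linarith

variable {Z : Finset (ℤ × ℤ)} {l : ℤ × ℤ → ℝ} {E : Set ℂ} {φ : ℤ × ℤ → ℂ → ℂ} {F : ℂ → ℂ} {a : ℂ}

theorem int_kap (hr : 0 < r) (x : ℂ) :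
    ∫ w, (closedBall x (2 * r)).indicator (fun _ => Cb / r ^ 2) w = π * (4 * Cb) := by
  rw [ind_ball_integral _ (by linarith)]; field_simp; ring

theorem PU.trunc_far (h : PU Z l E φ) (hF : Nice E F a 1) (hr : 0 < r) {k : ℤ × ℤ} (hk : k ∈ Z)
    (hx : 20 * l k < ‖x - gp k‖) :
    ‖pr F (fun w => φ k w * kap x r w) - pr F (φ k) * av k ⌊l k⌋₊ (fun y => kap x r (gp y))‖ ≤
      3100000 * Cb ^ 2 * (cap (E ∩ closedBall (gp k) (10 * l k)) * l k / ‖x - gp k‖ ^ 2) := by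
  have k1 := h.wh.one k hk
  obtain ⟨f1, f2, f3⟩ := floor_bds k1
  have hC := one_le_Cb
  set ρ := ‖x - gp k‖ with hρ
  have hρ0 : 0 < ρ := by linarith
  set θ := av k ⌊l k⌋₊ (fun y => kap x r (gp y)) with hθ
  have t1 := (h.tst k hk).mul_right (kap_c1 (x := x) hr)
  have t2 := (h.tst k hk).mul_right (contDiff_const (c := θ))
  have t3 := (h.tst k hk).mul_right ((kap_c1 (x := x) hr).sub (contDiff_const (c := θ)))
  have far : ∀ w, ‖w - gp k‖ ≤ 10 * l k → ρ / 2 ≤ ‖w - x‖ := fun w hw => by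
    have := norm_sub_le_norm_sub_add_norm_sub x w (gp k)
    rw [norm_sub_rev x w] at this; linarith
  have osc : ∀ w, ‖w - gp k‖ ≤ 10 * l k → ‖kap x r w - θ‖ ≤ 144 * Cb * l k / ρ ^ 2 := fun w hw => by
    rw [← av_const k f1 (kap x r w), hθ, ← av_sub]
    refine norm_av_le_of_le k f1 fun y hy => ?_
    have y1 := norm_sqr hy
    refine (kap_lip hr (half_pos hρ0) (far w hw) (far _ (by linarith))).trans ?_
    have := norm_sub_le_norm_sub_add_norm_sub w (gp k) (gp y)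
    rw [norm_sub_rev (gp k) (gp y)] at this
    rw [div_le_div_iff₀ (by positivity) (by positivity)]
    have h2 : ‖w - gp y‖ ≤ 12 * l k := by linarith
    nlinarith [mul_le_mul_of_nonneg_left h2 (show 0 ≤ Cb * ρ ^ 2 by positivity)]
  rw [← pr_mul_const (h.tst k hk), ← hF.pr_sub t1 t2]
  simp only [← mul_sub]
  have hs : tsupport (fun w => φ k w * (kap x r w - θ)) ⊆ closedBall (gp k) (10 * l k) :=
    (tsupport_mul_subset_left).trans (h.supp k hk)
  refine (hF.norm_pr_le t3 (A := 144 * Cb * l k / ρ ^ 2) (Λ := 100808 * Cb ^ 2 / ρ ^ 2)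
    (by linarith) (fun w => ?_) (fun w => ?_) hs).trans ?_
  · by_cases hw : ‖w - gp k‖ ≤ 10 * l k
    · rw [norm_mul]
      exact (mul_le_of_le_one_left (norm_nonneg _) (h.bd k w)).trans (osc w hw)
    · rw [(h.zero hk (not_le.1 hw)).1, zero_mul, norm_zero]; positivity
  · have d1 := (kap_c1 (x := x) hr).differentiable one_ne_zero w
    rw [dbar_mul ((h.tst k hk).diff w) (d1.sub_const _), dbar_sub d1 (differentiableAt_const _),
      dbar_const, sub_zero]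
    by_cases hw : ‖w - gp k‖ ≤ 10 * l k
    · refine (norm_add_le _ _).trans ?_
      rw [norm_mul, norm_mul]
      have a1 : ‖dbar (kap x r) w‖ ≤ 8 * Cb / ρ ^ 2 := by
        refine (norm_dbar_kap hr w).2.trans ?_
        have := far w hw
        rw [div_le_div_iff₀ (by have : 0 < ‖w - x‖ := by linarith
                                positivity) (by positivity)]
        have h2 : ρ ^ 2 ≤ 4 * ‖w - x‖ ^ 2 := by nlinarith
        nlinarith
      have a2 := mul_le_mul (osc w hw) (h.db k hk w) (norm_nonneg _) (by positivity)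
      have a3 := mul_le_of_le_one_left (norm_nonneg (dbar (kap x r) w)) (h.bd k w)
      have e : 144 * Cb * l k / ρ ^ 2 * (700 * Cb / l k) = 100800 * Cb ^ 2 / ρ ^ 2 := by
        field_simp; ring
      have a4 : 8 * Cb / ρ ^ 2 + 100800 * Cb ^ 2 / ρ ^ 2 ≤ 100808 * Cb ^ 2 / ρ ^ 2 := by
        rw [← add_div]; exact div_le_div_of_nonneg_right (by nlinarith) (by positivity)
      linarith
    · rw [(h.zero hk (not_le.1 hw)).1, (h.zero hk (not_le.1 hw)).2]; simp; positivity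
  · have c1 := cap_mono (Set.inter_subset_inter_right E hs)
      (isBounded_closedBall.subset Set.inter_subset_right)
    refine (mul_le_mul (b := 3100000 * Cb ^ 2 * l k / ρ ^ 2) ?_ c1 (cap_nonneg _)
      (by positivity)).trans (le_of_eq (by ring))
    have e : 1 * (144 * Cb * l k / ρ ^ 2 + 3 * (100808 * Cb ^ 2 / ρ ^ 2) * (10 * l k)) =
        (144 * Cb + 3024240 * Cb ^ 2) * l k / ρ ^ 2 := by ring
    rw [e]
    exact div_le_div_of_nonneg_right (mul_le_mul_of_nonneg_right (by nlinarith) (by linarith))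
      (by positivity)

theorem PU.trunc_near (h : PU Z l E φ) (hF : Nice E F a 1) (hr : 0 < r) {k : ℤ × ℤ} (hk : k ∈ Z)
    {x : ℤ × ℤ} (hx : ‖gp x - gp k‖ ≤ 20 * l k) :
    ‖pr F (fun w => φ k w * kap (gp x) r w) -
      pr F (φ k) * av k ⌊l k⌋₊ (fun y => kap (gp x) r (gp y))‖ ≤ 2600000 * Cb := by
  have k1 := h.wh.one k hk
  obtain ⟨f1, f2, f3⟩ := floor_bds k1
  have hC := Cb_pos
  have a1 : ‖pr F (fun w => φ k w * kap (gp x) r w)‖ ≤ 43404 * Cb := by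
    refine (hF.norm_pr_le_int _ ((ind_ball_integrable (gp x) (2 * r) (Cb / r ^ 2)).add
      ((inv_ball_integrable (gp x) (31 * l k)).const_mul (700 * Cb / l k))) fun w => ?_).trans ?_
    · rw [dbar_mul ((h.tst k hk).diff w) ((kap_c1 hr).differentiable one_ne_zero w)]
      refine (norm_add_le _ _).trans (add_le_add ?_ ?_)
      · rw [norm_mul]
        exact (mul_le_of_le_one_left (norm_nonneg _) (h.bd k w)).trans (norm_dbar_kap hr w).1
      · by_cases hw : ‖w - gp k‖ ≤ 10 * l k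
        · have := norm_sub_le_norm_sub_add_norm_sub w (gp k) (gp x)
          rw [norm_sub_rev (gp k) (gp x)] at this
          beta_reduce
          rw [norm_mul, mul_comm, Set.indicator_of_mem (s := ball (gp x) (31 * l k))
            (by rw [mem_ball, dist_eq_norm]; linarith)]
          exact mul_le_mul (h.db k hk w) (norm_kap_le _ _ _) (norm_nonneg _) (by positivity)
        · rw [(h.zero hk (not_le.1 hw)).2, mul_zero, norm_zero]
          exact mul_nonneg (by positivity) (Set.indicator_nonneg (fun _ _ => by positivity) w)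
    · simp only [Pi.add_apply]
      rw [integral_add (ind_ball_integrable _ _ _) ((inv_ball_integrable _ _).const_mul _),
        int_kap hr, integral_const_mul, inv_ball_integral _ (by linarith)]
      refine le_of_eq ?_
      field_simp; ring
  have a2 : ‖pr F (φ k)‖ ≤ 21001 * Cb * (10 * l k) :=
    (h.pr_le hF hk).trans (mul_le_mul_of_nonneg_left
      (cap_le_radius (by linarith) Set.inter_subset_right) (by positivity))
  have a3 : ‖av k ⌊l k⌋₊ (fun y => kap (gp x) r (gp y))‖ ≤ 12 / l k := by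
    refine (norm_av_le _ _ _).trans ((div_le_div_of_nonneg_right ((sum_le_sum fun y _ =>
      norm_kap_le _ _ _).trans (sqr_inv_sum k x _)) (by positivity)).trans ?_)
    rw [div_le_div_iff₀ (by positivity) (by positivity)]; nlinarith
  have a4 := mul_le_mul a2 a3 (norm_nonneg _) (by positivity)
  have e : 21001 * Cb * (10 * l k) * (12 / l k) = 2520120 * Cb := by field_simp; ring
  refine (norm_sub_le _ _).trans ?_
  rw [norm_mul]; linarith

theorem PU.trunc (h : PU Z l E φ) (hF : Nice E F a 1) (hr : 0 < r) (x : ℤ × ℤ) :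
    ‖∑ k ∈ Z, pr F (φ k) * av k ⌊l k⌋₊ (fun y => kap (gp x) r (gp y))‖ ≤ 5 * 10 ^ 9 * Cb +
      3100000 * Cb ^ 2 * ∑ k ∈ Z, cap (E ∩ closedBall (gp k) (10 * l k)) * l k /
        ‖gp x - gp k‖ ^ 2 * ind (fun k => 20 * l k < ‖gp x - gp k‖) k := by
  have hC := Cb_pos
  have t1 : ∀ k ∈ Z, Tst fun w => φ k w * kap (gp x) r w := fun k hk =>
    (h.tst k hk).mul_right (kap_c1 hr)
  have a1 : ‖∑ k ∈ Z, pr F (fun w => φ k w * kap (gp x) r w)‖ ≤ 8 * Cb := by
    obtain ⟨R, hR, h1⟩ := hF.cpt.isBounded.subset_ball_lt 0 (gp x)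
    obtain ⟨U, u1, u2, u3⟩ := h.one
    rw [← hF.pr_sum Z t1, hF.pr_congr (tst_sum Z t1) ((bmp_tst (c := gp x) hR).mul_right
      (kap_c1 (x := gp x) hr)) (u1.inter isOpen_ball) (Set.subset_inter u2 h1) fun w hw => by
        rw [← sum_mul, u3 w hw.1, bmp_one hR (mem_ball_iff_norm.1 hw.2).le]]
    refine (hF.norm_pr_le_int _ ((ind_ball_integrable (gp x) (2 * r) (Cb / r ^ 2)).add
      (ind_ball_integrable (gp x) (2 * R) (Cb / R ^ 2))) fun w => ?_).trans ?_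
    · rw [dbar_mul ((bmp_tst hR).diff w) ((kap_c1 hr).differentiable one_ne_zero w)]
      refine (norm_add_le _ _).trans (add_le_add ?_ ?_)
      · rw [norm_mul]
        exact (mul_le_of_le_one_left (norm_nonneg _) (norm_bmp_le _ _ _)).trans
          (norm_dbar_kap hr w).1
      · by_cases hw : ‖w - gp x‖ < R
        · rw [dbar_bmp_inner hR hw, mul_zero, norm_zero]
          exact Set.indicator_nonneg (fun _ _ => by positivity) w
        · have b1 := (norm_kap_le (gp x) r w).trans (inv_anti₀ hR (not_lt.1 hw))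
          have b2 := norm_dbar_bmp_le (c := gp x) hR w
          rw [norm_mul]
          refine (mul_le_mul b1 b2 (norm_nonneg _) (by positivity)).trans (le_of_eq ?_)
          by_cases hw' : w ∈ closedBall (gp x) (2 * R)
          · rw [Set.indicator_of_mem hw', Set.indicator_of_mem hw']; field_simp
          · rw [Set.indicator_of_notMem hw', Set.indicator_of_notMem hw', mul_zero]
    · simp only [Pi.add_apply]
      rw [integral_add (ind_ball_integrable _ _ _) (ind_ball_integrable _ _ _), int_kap hr,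
        int_kap hR]
      refine le_of_eq ?_
      field_simp; ring
  have a2 : ∀ k ∈ Z, ‖pr F (fun w => φ k w * kap (gp x) r w) -
      pr F (φ k) * av k ⌊l k⌋₊ (fun y => kap (gp x) r (gp y))‖ ≤
      2600000 * Cb * ind (fun k => ‖gp x - gp k‖ ≤ 20 * l k) k + 3100000 * Cb ^ 2 *
        (cap (E ∩ closedBall (gp k) (10 * l k)) * l k /
        ‖gp x - gp k‖ ^ 2 * ind (fun k => 20 * l k < ‖gp x - gp k‖) k) := by
    intro k hk
    by_cases hx : ‖gp x - gp k‖ ≤ 20 * l k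
    · rw [ind_pos (p := fun k => ‖gp x - gp k‖ ≤ 20 * l k) hx,
        ind_neg (p := fun k => 20 * l k < ‖gp x - gp k‖) (not_lt.2 hx)]
      simpa using h.trunc_near hF hr hk hx
    · rw [ind_neg (p := fun k => ‖gp x - gp k‖ ≤ 20 * l k) hx,
        ind_pos (p := fun k => 20 * l k < ‖gp x - gp k‖) (not_le.1 hx)]
      simpa using h.trunc_far hF hr hk (not_le.1 hx)
  have a3 := (norm_sum_le _ _).trans (sum_le_sum a2)
  rw [sum_sub_distrib, sum_add_distrib, ← mul_sum, ← mul_sum] at a3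
  have a4 : ∑ k ∈ Z, ind (fun k => ‖gp x - gp k‖ ≤ 20 * l k) k ≤ 1681 * 1 :=
    h.wh.sum_le (gp x) _ zero_le_one (fun _ _ _ => (ind_U01 _ _).2) fun k _ h1 =>
      (ind_neg (p := fun k => ‖gp x - gp k‖ ≤ 20 * l k) (not_le.2 h1)).le
  have a5 := norm_le_norm_add_norm_sub (∑ k ∈ Z, pr F (fun w => φ k w * kap (gp x) r w))
    (∑ k ∈ Z, pr F (φ k) * av k ⌊l k⌋₊ (fun y => kap (gp x) r (gp y)))
  nlinarith

end

end Pool.Agent.Lib.MP_dfc9b7_an
end
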