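import Mathlib

-- part Pool.Agent.Lib.MP_dfc9b7_an.Fin
section

/-! Elementary tools for finite weighted sets: masses of subsets, a layer cake lemma, tails. -/

set_option autoImplicit false
open Finset

namespace Pool.Agent.Lib.MP_dfc9b7_an

noncomputable section

open Classical in
/-- The mass of the set `p` for the weight `w`. -/
def bm {X : Type*} [Fintype X] (w : X → ℝ) (p : X → Prop) : ℝ := ∑ y, if p y then w y else 0

section bm
variable {X : Type*} [Fintype X]

theorem bm_nonneg {w : X → ℝ} (hw : ∀ y, 0 ≤ w y) (p : X → Prop) : 0 ≤ bm w p := by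
  unfold bm
  exact sum_nonneg fun y _ => by split_ifs; exacts [hw y, le_rfl]

theorem bm_mono {w : X → ℝ} (hw : ∀ y, 0 ≤ w y) {p q : X → Prop} (h : ∀ y, p y → q y) :
    bm w p ≤ bm w q := by
  unfold bm
  refine sum_le_sum fun y _ => ?_
  by_cases hp : p y
  · simp [hp, h y hp]
  · by_cases hq : q y <;> simp [hp, hq, hw y]

theorem bm_mono' {w : X → ℝ} (hw : ∀ y, 0 ≤ w y) {p q : X → Prop} (h : ∀ y, p y → w y ≠ 0 → q y) :
    bm w p ≤ bm w q := by
  unfold bm
  refine sum_le_sum fun y _ => ?_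
  by_cases hp : p y
  · by_cases h0 : w y = 0
    · by_cases hq : q y <;> simp [hp, hq, h0]
    · simp [hp, h y hp h0]
  · by_cases hq : q y <;> simp [hp, hq, hw y]

theorem bm_congr (w : X → ℝ) {p q : X → Prop} (h : ∀ y, p y ↔ q y) : bm w p = bm w q := by
  have : p = q := funext fun y => propext (h y)
  rw [this]

theorem bm_le_of_le {w v : X → ℝ} {p : X → Prop} (h : ∀ y, p y → w y ≤ v y) :
    bm w p ≤ bm v p := by
  unfold bm
  refine sum_le_sum fun y _ => ?_
  by_cases hp : p y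
  · simp [hp, h y hp]
  · simp [hp]

theorem bm_congr_w {w v : X → ℝ} {p : X → Prop} (h : ∀ y, p y → w y = v y) :
    bm w p = bm v p :=
  le_antisymm (bm_le_of_le fun y hy => (h y hy).le) (bm_le_of_le fun y hy => (h y hy).ge)

theorem bm_le_sum {w : X → ℝ} (hw : ∀ y, 0 ≤ w y) (p : X → Prop) : bm w p ≤ ∑ y, w y := by
  unfold bm
  refine sum_le_sum fun y _ => ?_
  split_ifs; exacts [le_rfl, hw y]

theorem bm_true (w : X → ℝ) : bm w (fun _ => True) = ∑ y, w y := by
  unfold bm; simp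

theorem bm_of_forall (w : X → ℝ) {p : X → Prop} (h : ∀ y, p y) : bm w p = ∑ y, w y := by
  unfold bm; simp [h]

theorem bm_false (w : X → ℝ) {p : X → Prop} (h : ∀ y, ¬ p y) : bm w p = 0 := by
  unfold bm; simp [h]

theorem bm_split (w : X → ℝ) (p q : X → Prop) :
    bm w p = bm w (fun y => p y ∧ q y) + bm w (fun y => p y ∧ ¬ q y) := by
  unfold bm
  rw [← sum_add_distrib]
  refine sum_congr rfl fun y _ => ?_
  by_cases hp : p y <;> by_cases hq : q y <;> simp [hp, hq]

theorem bm_compl (w : X → ℝ) (p : X → Prop) :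
    bm w p + bm w (fun y => ¬ p y) = ∑ y, w y := by
  unfold bm
  rw [← sum_add_distrib]
  refine sum_congr rfl fun y _ => ?_
  by_cases hp : p y <;> simp [hp]

theorem bm_or_le {w : X → ℝ} (hw : ∀ y, 0 ≤ w y) (p q : X → Prop) :
    bm w (fun y => p y ∨ q y) ≤ bm w p + bm w q := by
  unfold bm
  rw [← sum_add_distrib]
  refine sum_le_sum fun y _ => ?_
  have := hw y
  by_cases hp : p y <;> by_cases hq : q y <;> simp [hp, hq, this]

theorem bm_le_add {w : X → ℝ} (hw : ∀ y, 0 ≤ w y) {p q r : X → Prop} (h : ∀ y, p y → q y ∨ r y) :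
    bm w p ≤ bm w q + bm w r :=
  (bm_mono hw h).trans (bm_or_le hw q r)

theorem bm_mul (c : ℝ) (w : X → ℝ) (p : X → Prop) :
    bm (fun y => c * w y) p = c * bm w p := by
  unfold bm
  rw [mul_sum]
  refine sum_congr rfl fun y _ => ?_
  split_ifs <;> simp

theorem bm_add (w v : X → ℝ) (p : X → Prop) :
    bm (fun y => w y + v y) p = bm w p + bm v p := by
  unfold bm
  rw [← sum_add_distrib]
  refine sum_congr rfl fun y _ => ?_
  split_ifs <;> simp

theorem bm_exists_le {ι : Type*} (s : Finset ι) {w : X → ℝ} (hw : ∀ y, 0 ≤ w y)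
    (p : ι → X → Prop) : bm w (fun y => ∃ i ∈ s, p i y) ≤ ∑ i ∈ s, bm w (p i) := by
  classical
  unfold bm
  rw [sum_comm]
  refine sum_le_sum fun y _ => ?_
  split_ifs with h
  · obtain ⟨i, hi, hp⟩ := h
    have := single_le_sum (f := fun i => if p i y then w y else 0)
      (fun j _ => by split_ifs; exacts [hw y, le_rfl]) hi
    simpa [hp] using this
  · exact sum_nonneg fun j _ => by split_ifs; exacts [hw y, le_rfl]

/-- Chebyshev's inequality. -/
theorem bm_cheb {w g : X → ℝ} (hw : ∀ y, 0 ≤ w y) {p : X → Prop} (hg : ∀ y, p y → 0 ≤ g y)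
    (t : ℝ) : t * bm w (fun y => p y ∧ t < g y) ≤ bm (fun y => w y * g y) p := by
  unfold bm
  rw [mul_sum]
  refine sum_le_sum fun y _ => ?_
  by_cases hp : p y
  · by_cases h : t < g y
    · simp only [hp, h, and_self, if_true]
      nlinarith [hw y]
    · simp only [hp, h, and_false, if_false, if_true, mul_zero]
      exact mul_nonneg (hw y) (hg y hp)
  · simp [hp]

theorem bm_pos_exists {w : X → ℝ} {p : X → Prop} (h : 0 < bm w p) : ∃ y, p y ∧ 0 < w y := by
  by_contra hne
  push Not at hne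
  have : bm w p ≤ 0 := by
    unfold bm
    refine sum_nonpos fun y _ => ?_
    split_ifs with hp; exacts [hne y hp, le_rfl]
  linarith

/-- If a set has more mass than a second one, some point lies in the first and not the second. -/
theorem bm_exists_not {w : X → ℝ} (hw : ∀ y, 0 ≤ w y) {p q : X → Prop} (h : bm w q < bm w p) :
    ∃ y, p y ∧ ¬ q y := by
  by_contra hne
  push Not at hne
  exact absurd (bm_mono hw hne) (not_le.2 h)

theorem bm_eq_sum_mul (w : X → ℝ) (p : X → Prop) [DecidablePred p] :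
    bm w p = ∑ y, w y * (if p y then 1 else 0) := by
  unfold bm
  refine sum_congr rfl fun y _ => ?_
  by_cases hp : p y <;> simp [hp]

theorem bm_eq_sum_ite (w : X → ℝ) (p : X → Prop) [DecidablePred p] :
    bm w p = ∑ y, if p y then w y else 0 := by
  unfold bm
  refine sum_congr rfl fun y _ => ?_
  by_cases hp : p y <;> simp [hp]

end bm

open MeasureTheory Set in
theorem int_ind_aux (T m : ℝ) (hm : 0 ≤ m) (hT : m ≤ T) (F : ℝ → ℝ) (hF : Continuous F) :
    IntegrableOn (fun t => if t < m then F t else 0) (Ioc 0 T) ∧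
      ∫ t in Ioc 0 T, (if t < m then F t else 0) = ∫ t in (0:ℝ)..m, F t := by
  have h1 : (fun t => if t < m then F t else 0) = indicator (Iio m) F := by
    funext t; simp [indicator]
  rw [h1]
  constructor
  · exact (hF.integrableOn_Ioc).indicator measurableSet_Iio
  · rw [integral_indicator measurableSet_Iio, Measure.restrict_restrict measurableSet_Iio]
    have : Iio m ∩ Ioc 0 T = Ioo 0 m := by
      ext t; simp only [mem_inter_iff, Set.mem_Iio, Set.mem_Ioc, Set.mem_Ioo]
      constructor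
      · rintro ⟨a, b, _⟩; exact ⟨b, a⟩
      · rintro ⟨a, b⟩; exact ⟨b, a, by linarith⟩
    rw [this, intervalIntegral.integral_of_le hm, integral_Ioc_eq_integral_Ioo]

open MeasureTheory Set in
/-- Layer cake lemma: a truncated weak type bound gives a square bound. -/
theorem layer {ι κ : Type*} [Fintype ι] [Fintype κ] (w m : ι → ℝ) (v g : κ → ℝ)
    (hm : ∀ i, 0 ≤ m i) (hg : ∀ j, 0 ≤ g j) (c : ℝ)
    (h : ∀ t, 0 < t → t * bm w (fun i => t < m i) ≤
      c * bm (fun j => v j * g j) (fun j => t / 2 < g j)) :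
    ∑ i, w i * m i ^ 2 ≤ 4 * c * ∑ j, v j * g j ^ 2 := by
  classical
  set T : ℝ := ∑ i, m i + ∑ j, 2 * g j with hT
  have hs1 : 0 ≤ ∑ i, m i := sum_nonneg fun i _ => hm i
  have hs2 : 0 ≤ ∑ j, 2 * g j := sum_nonneg fun j _ => by linarith [hg j]
  have hmT : ∀ i, m i ≤ T := fun i => by
    have := single_le_sum (f := m) (fun i _ => hm i) (Finset.mem_univ i)
    linarith
  have hgT : ∀ j, 2 * g j ≤ T := fun j => by
    have := single_le_sum (f := fun j => 2 * g j) (fun j _ => by linarith [hg j])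
      (Finset.mem_univ j)
    linarith
  have A := fun i => int_ind_aux T (m i) (hm i) (hmT i) (fun t => 2 * t * w i) (by fun_prop)
  have B := fun j => int_ind_aux T (2 * g j) (by linarith [hg j]) (hgT j)
    (fun _ => 2 * c * (v j * g j)) (by fun_prop)
  have eA : ∑ i, w i * m i ^ 2 =
      ∫ t in Ioc 0 T, ∑ i, (if t < m i then 2 * t * w i else 0) := by
    rw [integral_finsetSum _ fun i _ => (A i).1]
    refine sum_congr rfl fun i _ => ?_
    rw [(A i).2, intervalIntegral.integral_mul_const, intervalIntegral.integral_const_mul,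
      integral_id]
    ring
  have eB : 4 * c * ∑ j, v j * g j ^ 2 =
      ∫ t in Ioc 0 T, ∑ j, (if t < 2 * g j then 2 * c * (v j * g j) else 0) := by
    rw [integral_finsetSum _ fun j _ => (B j).1, mul_sum]
    refine sum_congr rfl fun j _ => ?_
    rw [(B j).2, intervalIntegral.integral_const]
    simp only [sub_zero, smul_eq_mul]
    ring
  rw [eA, eB]
  refine setIntegral_mono_on (integrable_finsetSum _ fun i _ => (A i).1)
    (integrable_finsetSum _ fun j _ => (B j).1) measurableSet_Ioc fun t ht => ?_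
  have h1 := h t ht.1
  have e1 : ∑ i, (if t < m i then 2 * t * w i else 0) = 2 * (t * bm w (fun i => t < m i)) := by
    rw [bm_eq_sum_ite, mul_sum, mul_sum]
    refine sum_congr rfl fun i _ => ?_
    split_ifs <;> ring
  have e2 : ∑ j, (if t < 2 * g j then 2 * c * (v j * g j) else 0) =
      2 * (c * bm (fun j => v j * g j) (fun j => t / 2 < g j)) := by
    rw [bm_eq_sum_ite, mul_sum, mul_sum]
    refine sum_congr rfl fun j _ => ?_
    by_cases hj : t < 2 * g j
    · rw [if_pos hj, if_pos (by linarith)]; ring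
    · rw [if_neg hj, if_neg (by intro h; exact hj (by linarith))]; ring
  rw [e1, e2]
  linarith

/-- Tail estimate: linear growth of a weight gives a bound for the tail of the inverse square. -/
theorem tail_bound {X : Type*} [Fintype X] (w δ : X → ℝ) (hw : ∀ y, 0 ≤ w y) (a r : ℝ)
    (hr : 0 < r) (h : ∀ t, r ≤ t → bm w (fun y => δ y ≤ t) ≤ a * t) :
    bm (fun y => w y / δ y ^ 2) (fun y => r < δ y) ≤ 4 * a / r := by
  classical
  have ha : 0 ≤ a := by
    have h1 := h r le_rfl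
    have h2 := bm_nonneg hw (fun y => δ y ≤ r)
    by_contra hneg
    push Not at hneg
    nlinarith
  obtain ⟨J, hJ⟩ : ∃ J : ℕ, ∀ y, δ y ≤ 2 ^ J * r := by
    obtain ⟨J, hJ⟩ := pow_unbounded_of_one_lt ((∑ y, |δ y|) / r) (one_lt_two (α := ℝ))
    refine ⟨J, fun y => ?_⟩
    have h1 := single_le_sum (f := fun y => |δ y|) (fun y _ => abs_nonneg _) (Finset.mem_univ y)
    rw [div_lt_iff₀ hr] at hJ
    linarith [le_abs_self (δ y)]
  have key : ∀ y, (if r < δ y then w y / δ y ^ 2 else 0) ≤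
      ∑ j ∈ range J, (if δ y ≤ 2 ^ (j + 1) * r then w y else 0) / (2 ^ j * r) ^ 2 := by
    intro y
    have hnn : ∀ j ∈ range J,
        0 ≤ (if δ y ≤ 2 ^ (j + 1) * r then w y else 0) / (2 ^ j * r) ^ 2 := by
      intro j _
      refine div_nonneg ?_ (by positivity)
      split_ifs; exacts [hw y, le_rfl]
    split_ifs with hy
    · have hex : ∃ j : ℕ, δ y ≤ 2 ^ j * r := ⟨J, hJ y⟩
      have hj := Nat.find_spec hex
      have hjJ : Nat.find hex ≤ J := Nat.find_min' hex (hJ y)
      have hj0 : Nat.find hex ≠ 0 := by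
        intro h0; rw [h0] at hj; simp at hj; linarith
      obtain ⟨j, hj'⟩ := Nat.exists_eq_succ_of_ne_zero hj0
      have hlt : ¬ δ y ≤ 2 ^ j * r := Nat.find_min hex (by omega)
      rw [hj'] at hj
      have hmem : j ∈ range J := by rw [Finset.mem_range]; omega
      refine le_trans ?_ (single_le_sum hnn hmem)
      rw [if_pos hj]
      have hp : (0:ℝ) < 2 ^ j * r := by positivity
      push Not at hlt
      exact div_le_div_of_nonneg_left (hw y) (by positivity) (by nlinarith)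
    · exact sum_nonneg hnn
  calc bm (fun y => w y / δ y ^ 2) (fun y => r < δ y)
      ≤ ∑ y, ∑ j ∈ range J,
          (if δ y ≤ 2 ^ (j + 1) * r then w y else 0) / (2 ^ j * r) ^ 2 := by
        rw [bm_eq_sum_ite]; exact sum_le_sum fun y _ => key y
    _ = ∑ j ∈ range J, bm w (fun y => δ y ≤ 2 ^ (j + 1) * r) / (2 ^ j * r) ^ 2 := by
        rw [sum_comm]
        refine sum_congr rfl fun j _ => ?_
        rw [bm_eq_sum_ite, sum_div]
    _ ≤ ∑ j ∈ range J, (2 * a / r) * (1 / 2) ^ j := by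
        refine sum_le_sum fun j _ => ?_
        have h1 : (1:ℝ) ≤ 2 ^ (j + 1) := one_le_pow₀ (by norm_num)
        have h2 := h (2 ^ (j + 1) * r) (by nlinarith)
        refine (div_le_div_of_nonneg_right h2 (by positivity)).trans (le_of_eq ?_)
        rw [one_div, inv_pow]
        field_simp
        ring
    _ ≤ 4 * a / r := by
        rw [← mul_sum]
        have := sum_geometric_two_le J
        have h2 : 0 ≤ 2 * a / r := by positivity
        calc 2 * a / r * ∑ j ∈ range J, (1 / 2 : ℝ) ^ j ≤ 2 * a / r * 2 :=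
              mul_le_mul_of_nonneg_left this h2
          _ = 4 * a / r := by ring

end

end Pool.Agent.Lib.MP_dfc9b7_an
end

-- part Pool.Agent.Lib.MP_dfc9b7_an.Max
section

/-! Finite spaces with a positive symmetric distance, Vitali covering, maximal function. -/

set_option autoImplicit false
open Finset

namespace Pool.Agent.Lib.MP_dfc9b7_an

noncomputable section
variable {X : Type*} [Fintype X]

/-- Sum of masses of pairwise disjoint sets. -/
theorem sum_bm_le_of_disj {ι : Type*} (s : Finset ι) {w : X → ℝ} (hw : ∀ y, 0 ≤ w y)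
    (p : ι → X → Prop) (h : ∀ i ∈ s, ∀ j ∈ s, ∀ y, p i y → p j y → i = j) :
    ∑ i ∈ s, bm w (p i) ≤ ∑ y, w y := by
  classical
  unfold bm
  rw [sum_comm]
  refine sum_le_sum fun y _ => ?_
  by_cases hex : ∃ i ∈ s, p i y
  · obtain ⟨i, hi, hp⟩ := hex
    rw [sum_eq_single_of_mem i hi]
    · simp [hp]
    · intro j hj hne
      rw [if_neg]
      intro hj'
      exact hne (h j hj i hi y hj' hp)
  · push Not at hex
    rw [sum_eq_zero fun i hi => by simp [hex i hi]]
    exact hw y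

/-- Vitali covering lemma on a finite set. -/
theorem vitali_fin (D : X → X → ℝ) (hs : ∀ x y, D x y = D y x)
    (ht : ∀ x y z, D x z ≤ D x y + D y z) (S : X → Prop) (r : X → ℝ) (hr : ∀ x, S x → 0 ≤ r x)
    (hne : ∀ x, S x → ∃ y, D x y ≤ r x) :
    ∃ u : Finset X, (∀ b ∈ u, S b) ∧
      (∀ i ∈ u, ∀ j ∈ u, ∀ y, D i y ≤ r i → D j y ≤ r j → i = j) ∧
      ∀ x, S x → ∃ b ∈ u, D b x ≤ 3 * r b ∧ r x ≤ 2 * r b := by
  classical
  obtain ⟨u, hu, hd, hc⟩ := Vitali.exists_disjoint_subfamily_covering_enlargement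
    (fun x : X => {y | D x y ≤ r x}) {x | S x} r 2 (by norm_num) (fun a ha => hr a ha)
    (∑ x, |r x|) (fun a _ => (le_abs_self _).trans
      (single_le_sum (f := fun x => |r x|) (fun _ _ => abs_nonneg _) (mem_univ a)))
    (fun a ha => hne a ha)
  have hmem : ∀ b, b ∈ u.toFinite.toFinset ↔ b ∈ u := fun b => Set.Finite.mem_toFinset _
  refine ⟨u.toFinite.toFinset, fun b hb => hu ((hmem b).1 hb), ?_, fun x hx => ?_⟩
  · intro i hi j hj y hyi hyj
    by_contra hne
    have := hd ((hmem i).1 hi) ((hmem j).1 hj) hne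
    exact Set.disjoint_left.1 this hyi hyj
  · obtain ⟨b, hb, ⟨y, hy1, hy2⟩, hle⟩ := hc x hx
    refine ⟨b, (hmem b).2 hb, ?_, hle⟩
    have h1 : D x y ≤ r x := hy1
    have h2 : D b y ≤ r b := hy2
    have := ht b y x
    rw [hs y x] at this
    linarith

/-- A finite weighted set with a positive symmetric distance and linear growth. -/
structure Sp (μ : X → ℝ) (D : X → X → ℝ) : Prop where
  mu_nn : ∀ x, 0 ≤ μ x
  D_pos : ∀ x y, 0 < D x y
  D_symm : ∀ x y, D x y = D y x
  D_tri : ∀ x y z, D x z ≤ D x y + D y z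
  growth : ∀ x r, 0 < r → bm μ (fun y => D x y ≤ r) ≤ r

/-- The maximal function with enlarged balls in the denominator. -/
def mx (μ : X → ℝ) (D : X → X → ℝ) (g : X → ℝ) (x : X) : ℝ :=
  ⨆ y, bm (fun z => μ z * g z) (fun z => D x z ≤ D x y) / bm μ (fun z => D x z ≤ 3 * D x y)

variable {μ : X → ℝ} {D : X → X → ℝ}

theorem mx_nonneg (h : Sp μ D) {g : X → ℝ} (hg : ∀ z, 0 ≤ g z) (x : X) : 0 ≤ mx μ D g x :=
  Real.iSup_nonneg fun _ => div_nonneg (bm_nonneg (fun z => mul_nonneg (h.mu_nn z) (hg z)) _)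
    (bm_nonneg h.mu_nn _)

theorem bm_mul_eq_zero (hμ : ∀ x, 0 ≤ μ x) {p : X → Prop} (g : X → ℝ) (h0 : bm μ p = 0) :
    bm (fun z => μ z * g z) p = 0 := by
  classical
  rw [bm_eq_sum_ite] at h0 ⊢
  have := (sum_eq_zero_iff_of_nonneg (fun y _ => by
    split_ifs; exacts [hμ y, le_rfl])).1 h0
  refine sum_eq_zero fun y hy => ?_
  have h1 := this y hy
  split_ifs at h1 ⊢ with hp
  · rw [h1, zero_mul]
  · rfl

theorem le_mx (h : Sp μ D) {g : X → ℝ} (hg : ∀ z, 0 ≤ g z) (x : X) (r : ℝ) :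
    bm (fun z => μ z * g z) (fun z => D x z ≤ r) ≤ mx μ D g x * bm μ (fun z => D x z ≤ 3 * r) := by
  classical
  by_cases hne : ∃ z, D x z ≤ r
  · obtain ⟨y, hy, hmax⟩ := exists_max_image (univ.filter fun z => D x z ≤ r) (fun z => D x z)
      (by obtain ⟨z, hz⟩ := hne; exact ⟨z, by simpa using hz⟩)
    have hy' : D x y ≤ r := by simpa using hy
    have e1 : bm (fun z => μ z * g z) (fun z => D x z ≤ r) =
        bm (fun z => μ z * g z) (fun z => D x z ≤ D x y) :=
      bm_congr _ fun z => ⟨fun hz => hmax z (by simpa using hz), fun hz => hz.trans hy'⟩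
    have e2 : bm μ (fun z => D x z ≤ 3 * D x y) ≤ bm μ (fun z => D x z ≤ 3 * r) :=
      bm_mono h.mu_nn fun z hz => by linarith
    have h3 : bm (fun z => μ z * g z) (fun z => D x z ≤ D x y) /
        bm μ (fun z => D x z ≤ 3 * D x y) ≤ mx μ D g x :=
      Finite.le_ciSup (fun y => bm (fun z => μ z * g z) (fun z => D x z ≤ D x y) /
        bm μ (fun z => D x z ≤ 3 * D x y)) y
    rw [e1]
    rcases (bm_nonneg h.mu_nn (fun z => D x z ≤ 3 * D x y)).lt_or_eq with hpos | h0
    · rw [div_le_iff₀ hpos] at h3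
      exact h3.trans (mul_le_mul_of_nonneg_left e2 (mx_nonneg h hg x))
    · have : bm μ (fun z => D x z ≤ D x y) = 0 := by
        refine le_antisymm ?_ (bm_nonneg h.mu_nn _)
        rw [h0]
        exact bm_mono h.mu_nn fun z hz => by linarith [h.D_pos x y]
      rw [bm_mul_eq_zero h.mu_nn g this]
      exact mul_nonneg (mx_nonneg h hg x) (bm_nonneg h.mu_nn _)
  · push Not at hne
    rw [bm_false _ fun z => not_le.2 (hne z)]
    exact mul_nonneg (mx_nonneg h hg x) (bm_nonneg h.mu_nn _)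

/-- Radial form. -/
theorem le_mx_rad (h : Sp μ D) {g : X → ℝ} (hg : ∀ z, 0 ≤ g z) (x : X) {r : ℝ} (hr : 0 < r) :
    bm (fun z => μ z * g z) (fun z => D x z ≤ r) ≤ 3 * mx μ D g x * r := by
  have h1 := le_mx h hg x r
  have h2 := h.growth x (3 * r) (by linarith)
  have h3 := mx_nonneg h hg x
  nlinarith

theorem mx_le (h : Sp μ D) {g : X → ℝ} (x : X) {c : ℝ} (hc : 0 ≤ c)
    (hb : ∀ r, 0 < r → bm (fun z => μ z * g z) (fun z => D x z ≤ r) ≤
      c * bm μ (fun z => D x z ≤ 3 * r)) : mx μ D g x ≤ c := by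
  refine Real.iSup_le (fun y => ?_) hc
  exact div_le_of_le_mul₀ (bm_nonneg h.mu_nn _) hc (hb _ (h.D_pos x y))

theorem mx_le_of_le (h : Sp μ D) {g : X → ℝ} (x : X) {c : ℝ} (hc : 0 ≤ c) (hg : ∀ z, g z ≤ c) :
    mx μ D g x ≤ c := by
  refine mx_le h x hc fun r hr => ?_
  rw [← bm_mul]
  refine le_trans (bm_le_of_le fun y _ => ?_)
    (bm_mono (fun y => mul_nonneg hc (h.mu_nn y)) fun y hy => by linarith)
  nlinarith [h.mu_nn y, hg y]

theorem mx_weak (h : Sp μ D) {g : X → ℝ} (hg : ∀ z, 0 ≤ g z) (t : ℝ) (ht : 0 < t) :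
    t * bm μ (fun x => t < mx μ D g x) ≤
      2 * bm (fun z => μ z * g z) (fun z => t / 2 < g z) := by
  classical
  set w : X → ℝ := fun z => if t / 2 < g z then μ z * g z else 0 with hw
  have hw0 : ∀ z, 0 ≤ w z := fun z => by
    simp only [hw]; split_ifs; exacts [mul_nonneg (h.mu_nn z) (hg z), le_rfl]
  have key : ∀ x, ∃ r, t < mx μ D g x → (0 < r ∧ (∃ y, D x y ≤ r) ∧
      t / 2 * bm μ (fun z => D x z ≤ 3 * r) ≤ bm w (fun z => D x z ≤ r)) := by
    intro x
    by_cases hx : t < mx μ D g x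
    · have : Nonempty X := ⟨x⟩
      obtain ⟨y, hy⟩ := exists_lt_of_lt_ciSup (hx : t < ⨆ y, _)
      refine ⟨D x y, fun _ => ⟨h.D_pos x y, ⟨y, le_rfl⟩, ?_⟩⟩
      have hpos : 0 < bm μ (fun z => D x z ≤ 3 * D x y) := by
        rcases (bm_nonneg h.mu_nn (fun z => D x z ≤ 3 * D x y)).lt_or_eq with hp | h0
        · exact hp
        · rw [← h0, div_zero] at hy; linarith
      rw [lt_div_iff₀ hpos] at hy
      have h1 : bm (fun z => μ z * g z) (fun z => D x z ≤ D x y) ≤
          t / 2 * bm μ (fun z => D x z ≤ D x y) + bm w (fun z => D x z ≤ D x y) := by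
        rw [← bm_mul, ← bm_add]
        refine bm_le_of_le fun z _ => ?_
        simp only [hw]
        split_ifs with hz
        · nlinarith [h.mu_nn z]
        · push Not at hz; nlinarith [h.mu_nn z]
      have h2 : bm μ (fun z => D x z ≤ D x y) ≤ bm μ (fun z => D x z ≤ 3 * D x y) :=
        bm_mono h.mu_nn fun z hz => by linarith [h.D_pos x y]
      nlinarith
    · exact ⟨0, fun h' => absurd h' hx⟩
  choose r hr using key
  obtain ⟨u, hu, hd, hc⟩ := vitali_fin D h.D_symm h.D_tri (fun x => t < mx μ D g x) r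
    (fun x hx => (hr x hx).1.le) (fun x hx => (hr x hx).2.1)
  have h1 : bm μ (fun x => t < mx μ D g x) ≤ ∑ b ∈ u, bm μ (fun z => D b z ≤ 3 * r b) :=
    (bm_mono h.mu_nn fun x hx => by
      obtain ⟨b, hb, h1, _⟩ := hc x hx; exact ⟨b, hb, h1⟩).trans
      (bm_exists_le u h.mu_nn fun b z => D b z ≤ 3 * r b)
  have h2 : t / 2 * ∑ b ∈ u, bm μ (fun z => D b z ≤ 3 * r b) ≤
      ∑ b ∈ u, bm w (fun z => D b z ≤ r b) := by
    rw [mul_sum]; exact sum_le_sum fun b hb => (hr b (hu b hb)).2.2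
  have h3 := sum_bm_le_of_disj u hw0 (fun b z => D b z ≤ r b) hd
  have h4 : ∑ z, w z = bm (fun z => μ z * g z) (fun z => t / 2 < g z) := by
    rw [bm_eq_sum_ite]
  nlinarith

theorem mx_L2 (h : Sp μ D) {g : X → ℝ} (hg : ∀ z, 0 ≤ g z) :
    ∑ x, μ x * mx μ D g x ^ 2 ≤ 8 * ∑ z, μ z * g z ^ 2 := by
  have := layer μ (mx μ D g) μ g (mx_nonneg h hg) hg 2 (fun t ht => mx_weak h hg t ht)
  linarith

end

end Pool.Agent.Lib.MP_dfc9b7_an
end

-- part Pool.Agent.Lib.MP_dfc9b7_an.Core
section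

/-! Antisymmetric singular kernels on finite spaces; the basic Cotlar type comparison. -/

set_option autoImplicit false
open Finset

namespace Pool.Agent.Lib.MP_dfc9b7_an

noncomputable section
variable {X : Type*} [Fintype X]

/-- Antisymmetric standard kernel. -/
structure Ker (D : X → X → ℝ) (k : X → X → ℂ) : Prop where
  anti : ∀ x y, k x y = - k y x
  size : ∀ x y, ‖k x y‖ ≤ 1 / D x y
  smooth : ∀ x x' y, 2 * D x x' ≤ D x y → ‖k x y - k x' y‖ ≤ 4 * D x x' / D x y ^ 2

/-- The operator with kernel `k`. -/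
def opT (μ : X → ℝ) (k : X → X → ℂ) (f : X → ℂ) (x : X) : ℂ := ∑ y, k x y * f y * (μ y : ℂ)

open Classical in
/-- Restriction of a function to a set. -/
def cut {Y : Type*} (p : Y → Prop) (f : Y → ℂ) : Y → ℂ := fun y => if p y then f y else 0

theorem cut_pos {Y : Type*} {p : Y → Prop} (f : Y → ℂ) {y : Y} (h : p y) : cut p f y = f y := by
  simp [cut, h]

theorem cut_neg {Y : Type*} {p : Y → Prop} (f : Y → ℂ) {y : Y} (h : ¬ p y) : cut p f y = 0 := by
  simp [cut, h]

theorem norm_cut_le {Y : Type*} (p : Y → Prop) (f : Y → ℂ) (y : Y) : ‖cut p f y‖ ≤ ‖f y‖ := by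
  by_cases h : p y
  · rw [cut_pos f h]
  · rw [cut_neg f h]; simp

theorem cut_split {Y : Type*} (p q : Y → Prop) (f : Y → ℂ) (y : Y) :
    cut p f y = cut (fun y => p y ∧ q y) f y + cut (fun y => p y ∧ ¬ q y) f y := by
  by_cases hp : p y <;> by_cases hq : q y <;> simp [cut, hp, hq]

theorem cut_compl {Y : Type*} (p : Y → Prop) (f : Y → ℂ) (y : Y) :
    f y = cut p f y + cut (fun y => ¬ p y) f y := by
  by_cases hp : p y <;> simp [cut, hp]

theorem cut_congr {Y : Type*} {p q : Y → Prop} (f : Y → ℂ) (h : ∀ y, p y ↔ q y) :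
    cut p f = cut q f := by
  have : p = q := funext fun y => propext (h y)
  rw [this]

variable {μ : X → ℝ} {D : X → X → ℝ} {k : X → X → ℂ}

theorem opT_add (f g : X → ℂ) (x : X) :
    opT μ k (fun y => f y + g y) x = opT μ k f x + opT μ k g x := by
  unfold opT
  rw [← sum_add_distrib]
  exact sum_congr rfl fun y _ => by ring

theorem opT_sub (f g : X → ℂ) (x : X) :
    opT μ k (fun y => f y - g y) x = opT μ k f x - opT μ k g x := by
  unfold opT
  rw [← sum_sub_distrib]
  exact sum_congr rfl fun y _ => by ring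

theorem opT_congr {f g : X → ℂ} (h : ∀ y, f y = g y) (x : X) : opT μ k f x = opT μ k g x := by
  rw [funext h]

theorem opT_cut_split (p q : X → Prop) (f : X → ℂ) (x : X) :
    opT μ k (cut p f) x =
      opT μ k (cut (fun y => p y ∧ q y) f) x + opT μ k (cut (fun y => p y ∧ ¬ q y) f) x := by
  rw [← opT_add]; exact opT_congr (cut_split p q f) x

theorem opT_cut_compl (p : X → Prop) (f : X → ℂ) (x : X) :
    opT μ k f x = opT μ k (cut p f) x + opT μ k (cut (fun y => ¬ p y) f) x := by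
  rw [← opT_add]; exact opT_congr (cut_compl p f) x

/-- Bounding a difference of two kernels against a restricted function. -/
theorem norm_sum_cut_le (hμ : ∀ x, 0 ≤ μ x) (c : X → ℂ) (p : X → Prop) (f : X → ℂ) (B : X → ℝ)
    (hB : ∀ y, p y → ‖c y‖ ≤ B y) :
    ‖∑ y, c y * cut p f y * (μ y : ℂ)‖ ≤ bm (fun y => B y * (μ y * ‖f y‖)) p := by
  classical
  rw [bm_eq_sum_ite]
  refine (norm_sum_le _ _).trans (sum_le_sum fun y _ => ?_)
  by_cases hp : p y
  · rw [cut_pos f hp, if_pos hp, norm_mul, norm_mul, Complex.norm_real, Real.norm_of_nonneg (hμ y)]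
    have := mul_le_mul_of_nonneg_right (hB y hp) (mul_nonneg (hμ y) (norm_nonneg (f y)))
    linarith
  · rw [cut_neg f hp, if_neg hp]; simp

theorem norm_opT_ann (hS : Sp μ D) (hK : Ker D k) (p : X → Prop) (f : X → ℂ) (x : X) {a : ℝ}
    (ha : 0 < a) (hp : ∀ y, p y → a ≤ D x y) :
    ‖opT μ k (cut p f) x‖ ≤ bm (fun y => μ y * ‖f y‖) p / a := by
  refine (norm_sum_cut_le hS.mu_nn (k x) p f (fun _ => 1 / a) fun y hy =>
    (hK.size x y).trans (one_div_le_one_div_of_le ha (hp y hy))).trans (le_of_eq ?_)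
  rw [bm_mul]; ring

theorem norm_opT_far (hS : Sp μ D) (hK : Ker D k) (f : X → ℂ) (x y : X) {R m : ℝ} (hR : 0 < R)
    (hxy : 2 * D x y ≤ R)
    (hm : ∀ t, R ≤ t → bm (fun z => μ z * ‖f z‖) (fun z => D x z ≤ t) ≤ m * t) :
    ‖opT μ k (cut (fun z => R < D x z) f) x - opT μ k (cut (fun z => R < D x z) f) y‖ ≤
      16 * D x y * m / R := by
  have e : opT μ k (cut (fun z => R < D x z) f) x - opT μ k (cut (fun z => R < D x z) f) y =
      ∑ z, (k x z - k y z) * cut (fun z => R < D x z) f z * (μ z : ℂ) := by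
    unfold opT
    rw [← sum_sub_distrib]
    exact sum_congr rfl fun z _ => by ring
  rw [e]
  refine (norm_sum_cut_le hS.mu_nn _ _ f (fun z => 4 * D x y / D x z ^ 2) fun z hz =>
    hK.smooth x y z (by linarith)).trans ?_
  have h1 := tail_bound (fun z => μ z * ‖f z‖) (D x)
    (fun z => mul_nonneg (hS.mu_nn z) (norm_nonneg _)) m R hR hm
  have e2 : bm (fun z => 4 * D x y / D x z ^ 2 * (μ z * ‖f z‖)) (fun z => R < D x z) =
      4 * D x y * bm (fun z => μ z * ‖f z‖ / D x z ^ 2) (fun z => R < D x z) := by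
    rw [← bm_mul]; exact bm_congr_w fun z _ => by ring
  rw [e2]
  have := mul_le_mul_of_nonneg_left h1 (show 0 ≤ 4 * D x y by linarith [hS.D_pos x y])
  refine this.trans (le_of_eq ?_)
  ring

theorem core (hS : Sp μ D) (hK : Ker D k) (hpos : 0 < ∑ y, μ y) (f : X → ℂ) (x : X) {r : ℝ}
    (hr : 0 < r) :
    ∃ R, r ≤ R ∧ 0 < bm μ (fun z => D x z ≤ R) ∧
      bm μ (fun z => D x z ≤ 9 * R) ≤ 18 * bm μ (fun z => D x z ≤ R) ∧
      ∀ y, D x y ≤ R → ‖opT μ k (cut (fun z => r < D x z) f) x‖ ≤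
        ‖opT μ k f y‖ + ‖opT μ k (cut (fun z => D x z ≤ 3 * R) f) y‖ +
          300 * mx μ D (fun z => ‖f z‖) x := by
  classical
  set m := mx μ D (fun z => ‖f z‖) x with hm
  have hm0 : 0 ≤ m := mx_nonneg hS (fun z => norm_nonneg _) x
  set a : ℕ → ℝ := fun j => bm μ (fun z => D x z ≤ 9 ^ j * r) with ha
  have ha0 : ∀ j, 0 ≤ a j := fun j => bm_nonneg hS.mu_nn _
  have hex : ∃ j, 0 < a j ∧ a (j + 1) ≤ 18 * a j := by
    obtain ⟨J, hJ⟩ := pow_unbounded_of_one_lt ((∑ y, D x y) / r) (show (1:ℝ) < 9 by norm_num)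
    rw [div_lt_iff₀ hr] at hJ
    have hall : ∀ z, D x z ≤ 9 ^ J * r := fun z =>
      (single_le_sum (f := fun y => D x y) (fun y _ => (hS.D_pos x y).le) (mem_univ z)).trans hJ.le
    have e1 : a J = ∑ y, μ y := bm_of_forall μ hall
    refine ⟨J, by rw [e1]; exact hpos, ?_⟩
    have := bm_le_sum hS.mu_nn (fun z => D x z ≤ 9 ^ (J + 1) * r)
    simp only [ha] at e1 ⊢
    linarith
  set k0 := Nat.find hex with hk0
  obtain ⟨hk1, hk2⟩ := Nat.find_spec hex
  rw [← hk0] at hk1 hk2
  have hlow : ∀ j, j < k0 → 18 * a j ≤ a (j + 1) := by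
    intro j hj
    have := Nat.find_min hex hj
    push Not at this
    rcases (ha0 j).lt_or_eq with hp | h0
    · exact (this hp).le
    · rw [← h0]; simpa using ha0 (j + 1)
  set b : ℕ → ℝ := fun j => a j / (9 ^ j * r) with hb
  have hpw : ∀ j : ℕ, (0:ℝ) < 9 ^ j * r := fun j => by positivity
  have hb0 : ∀ j, 0 ≤ b j := fun j => div_nonneg (ha0 j) (hpw j).le
  have hb1 : ∀ j, b j ≤ 1 := fun j => by
    simp only [hb]; rw [div_le_one (hpw j)]; exact hS.growth x _ (hpw j)
  have hb2 : ∀ j, j < k0 → 2 * b j ≤ b (j + 1) := by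
    intro j hj
    have := hlow j hj
    simp only [hb]
    rw [pow_succ, ← mul_div_assoc, div_le_div_iff₀ (hpw j) (by positivity)]
    have h9 := hpw j
    nlinarith
  have hsum : ∀ j, j ≤ k0 → ∑ i ∈ range (j + 1), b i ≤ 2 * b j := by
    intro j
    induction j with
    | zero => intro _; simp; linarith [hb0 0]
    | succ j ih =>
      intro hj
      rw [sum_range_succ]
      have := ih (by omega)
      have := hb2 j (by omega)
      linarith
  have hshift : ∀ j, ∑ i ∈ range j, b (i + 2) ≤ ∑ i ∈ range (j + 2), b i := by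
    intro j
    induction j with
    | zero => simp only [range_zero, sum_empty]; exact sum_nonneg fun i _ => hb0 i
    | succ j ih => rw [sum_range_succ, show j + 1 + 2 = (j + 2) + 1 by ring, sum_range_succ]; linarith
  have hann : ∀ j, ‖opT μ k (cut (fun z => r < D x z ∧ D x z ≤ 9 ^ j * r) f) x‖ ≤
      81 * m * ∑ i ∈ range j, b (i + 2) := by
    intro j
    induction j with
    | zero =>
      have : opT μ k (cut (fun z => r < D x z ∧ D x z ≤ 9 ^ 0 * r) f) x = 0 := by
        unfold opT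
        refine sum_eq_zero fun z _ => ?_
        rw [cut_neg f (by simp)]; simp
      rw [this]; simp
    | succ j ih =>
      rw [opT_cut_split _ (fun z => D x z ≤ 9 ^ j * r), sum_range_succ, mul_add]
      refine (norm_add_le _ _).trans (add_le_add ?_ ?_)
      · have h9 : (9:ℝ) ^ j * r ≤ 9 ^ (j + 1) * r := by
          rw [pow_succ]; nlinarith [hpw j]
        rw [cut_congr f (q := fun z => r < D x z ∧ D x z ≤ 9 ^ j * r) fun z =>
          ⟨fun h => ⟨h.1.1, h.2⟩, fun h => ⟨⟨h.1, h.2.trans h9⟩, h.2⟩⟩]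
        exact ih
      · refine (norm_opT_ann hS hK _ f x (hpw j) fun y hy => (not_le.1 hy.2).le).trans ?_
        have h1 : bm (fun y => μ y * ‖f y‖)
            (fun y => (r < D x y ∧ D x y ≤ 9 ^ (j + 1) * r) ∧ ¬ D x y ≤ 9 ^ j * r) ≤
            m * a (j + 2) := by
          refine (bm_mono (fun z => mul_nonneg (hS.mu_nn z) (norm_nonneg _))
            (q := fun z => D x z ≤ 9 ^ (j + 1) * r) fun y hy => hy.1.2).trans ?_
          refine (le_mx hS (fun z => norm_nonneg (f z)) x _).trans ?_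
          refine mul_le_mul_of_nonneg_left (bm_mono hS.mu_nn fun z hz => ?_) hm0
          have := hpw (j + 1)
          rw [show j + 2 = j + 1 + 1 by ring, pow_succ _ (j + 1)]
          nlinarith
        refine (div_le_div_of_nonneg_right h1 (hpw j).le).trans (le_of_eq ?_)
        simp only [hb]
        have := hpw j
        field_simp
        ring
  set R := 9 ^ k0 * r with hR
  have hRpos : 0 < R := hpw k0
  have hrR : r ≤ R := by
    have : (1:ℝ) ≤ 9 ^ k0 := one_le_pow₀ (by norm_num)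
    rw [hR]; nlinarith
  refine ⟨R, hrR, hk1, ?_, fun y hy => ?_⟩
  · have : 9 * R = 9 ^ (k0 + 1) * r := by rw [hR]; ring
    rw [this]; exact hk2
  have h1 : ‖opT μ k (cut (fun z => r < D x z ∧ D x z ≤ R) f) x‖ ≤ 243 * m := by
    refine (hann k0).trans ?_
    have h2 := hshift k0
    rw [show k0 + 2 = (k0 + 1) + 1 by ring, sum_range_succ] at h2
    have h3 := hsum k0 le_rfl
    have := hb1 k0
    have := hb1 (k0 + 1)
    nlinarith
  have h2 : ‖opT μ k (cut (fun z => R < D x z ∧ D x z ≤ 3 * R) f) x‖ ≤ 9 * m := by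
    refine (norm_opT_ann hS hK _ f x hRpos fun y hy => hy.1.le).trans ?_
    rw [div_le_iff₀ hRpos]
    refine (bm_mono (fun z => mul_nonneg (hS.mu_nn z) (norm_nonneg _))
      (q := fun z => D x z ≤ 3 * R) fun y hy => hy.2).trans ?_
    have := le_mx_rad hS (fun z => norm_nonneg (f z)) x (r := 3 * R) (by linarith)
    linarith
  have h3 := norm_opT_far hS hK f x y (R := 3 * R) (m := 3 * m) (by linarith) (by linarith)
    fun t ht => le_mx_rad hS (fun z => norm_nonneg (f z)) x (by linarith)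
  have h4 : 16 * D x y * (3 * m) / (3 * R) ≤ 16 * m := by
    rw [div_le_iff₀ (by linarith)]; nlinarith
  have e1 : opT μ k (cut (fun z => r < D x z) f) x =
      opT μ k (cut (fun z => r < D x z ∧ D x z ≤ R) f) x +
      opT μ k (cut (fun z => R < D x z ∧ D x z ≤ 3 * R) f) x +
      opT μ k (cut (fun z => 3 * R < D x z) f) x := by
    rw [← opT_add, ← opT_add]
    refine opT_congr (fun z => ?_) x
    unfold cut
    grind
  have e2 : opT μ k (cut (fun z => 3 * R < D x z) f) y =
      opT μ k f y - opT μ k (cut (fun z => D x z ≤ 3 * R) f) y := by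
    rw [opT_cut_compl (fun z => D x z ≤ 3 * R) f y,
      cut_congr f (p := fun z => ¬ D x z ≤ 3 * R) (q := fun z => 3 * R < D x z)
        fun z => not_le]
    ring
  have h5 : ‖opT μ k (cut (fun z => 3 * R < D x z) f) x‖ ≤
      ‖opT μ k f y‖ + ‖opT μ k (cut (fun z => D x z ≤ 3 * R) f) y‖ + 16 * m := by
    have h6 := norm_sub_le (opT μ k f y) (opT μ k (cut (fun z => D x z ≤ 3 * R) f) y)
    rw [← e2] at h6
    have h7 := norm_le_norm_add_norm_sub' (opT μ k (cut (fun z => 3 * R < D x z) f) x)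
      (opT μ k (cut (fun z => 3 * R < D x z) f) y)
    linarith
  rw [e1]
  have h8 := norm_add₃_le (a := opT μ k (cut (fun z => r < D x z ∧ D x z ≤ R) f) x)
    (b := opT μ k (cut (fun z => R < D x z ∧ D x z ≤ 3 * R) f) x)
    (c := opT μ k (cut (fun z => 3 * R < D x z) f) x)
  linarith

end

end Pool.Agent.Lib.MP_dfc9b7_an
end

-- part Pool.Agent.Lib.MP_dfc9b7_an.Weak
section

/-! Restricted testing condition, bounds for truncations on bounded functions, filling lemma. -/

set_option autoImplicit false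
open Finset

namespace Pool.Agent.Lib.MP_dfc9b7_an

noncomputable section
variable {X : Type*} [Fintype X]

/-- Functions with values in the unit interval. -/
def U01 {Y : Type*} (φ : Y → ℝ) : Prop := ∀ x, 0 ≤ φ x ∧ φ x ≤ 1

/-- The restricted testing condition. -/
def RT (μ : X → ℝ) (k : X → X → ℂ) (N : ℝ) : Prop :=
  ∀ φ : X → ℝ, U01 φ →
    ∑ x, μ x * φ x * ‖opT μ k (fun y => (φ y : ℂ)) x‖ ^ 2 ≤ N ^ 2 * ∑ x, μ x * φ x

variable {μ : X → ℝ} {D : X → X → ℝ} {k : X → X → ℂ} {N : ℝ}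

theorem RT.two (hμ : ∀ x, 0 ≤ μ x) (h : RT μ k N) {φ ψ : X → ℝ} (hφ : U01 φ) (hψ : U01 ψ) :
    ∑ x, μ x * ψ x * ‖opT μ k (fun y => (φ y : ℂ)) x‖ ^ 2 ≤
      N ^ 2 * (3 * ∑ x, μ x * φ x + 4 * ∑ x, μ x * ψ x) := by
  set χ : X → ℝ := fun x => max (φ x) (ψ x) with hχ
  set v : X → ℝ := fun x => χ x - φ x with hv
  have hχ1 : U01 χ := fun x => ⟨le_max_of_le_left (hφ x).1, max_le (hφ x).2 (hψ x).2⟩
  have hv0 : ∀ x, 0 ≤ v x := fun x => sub_nonneg.2 (le_max_left _ _)
  have hvψ : ∀ x, v x ≤ ψ x := fun x => by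
    simp only [hv, hχ]
    rcases le_total (φ x) (ψ x) with h1 | h1
    · rw [max_eq_right h1]; linarith [(hφ x).1]
    · rw [max_eq_left h1]; linarith [(hψ x).1]
  have hv1 : U01 v := fun x => ⟨hv0 x, (hvψ x).trans (hψ x).2⟩
  have e : ∀ x, opT μ k (fun y => (φ y : ℂ)) x =
      opT μ k (fun y => (χ y : ℂ)) x - opT μ k (fun y => (v y : ℂ)) x := by
    intro x
    rw [← opT_sub]
    exact opT_congr (fun y => by simp [hv]) x
  have h1 := h φ hφ
  have h2 := h χ hχ1
  have h3 := h v hv1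
  have h4 : ∑ x, μ x * ψ x * ‖opT μ k (fun y => (φ y : ℂ)) x‖ ^ 2 ≤
      ∑ x, (μ x * φ x * ‖opT μ k (fun y => (φ y : ℂ)) x‖ ^ 2 +
        2 * (μ x * χ x * ‖opT μ k (fun y => (χ y : ℂ)) x‖ ^ 2) +
        2 * (μ x * v x * ‖opT μ k (fun y => (v y : ℂ)) x‖ ^ 2)) := by
    refine sum_le_sum fun x _ => ?_
    set A := ‖opT μ k (fun y => (φ y : ℂ)) x‖
    set B := ‖opT μ k (fun y => (χ y : ℂ)) x‖
    set C := ‖opT μ k (fun y => (v y : ℂ)) x‖
    have hA : A ≤ B + C := by
      simp only [A, B, C]; rw [e x]; exact norm_sub_le _ _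
    have hA0 : 0 ≤ A := norm_nonneg _
    have hA2 : A ^ 2 ≤ 2 * B ^ 2 + 2 * C ^ 2 := by
      nlinarith [sq_nonneg (B - C), pow_le_pow_left₀ hA0 hA 2]
    have c1 : ψ x ≤ φ x + v x := by simp only [hv, hχ]; linarith [le_max_right (φ x) (ψ x)]
    have c2 : v x ≤ χ x := by simp only [hv]; linarith [(hφ x).1]
    have m1 : μ x * ψ x * A ^ 2 ≤ μ x * (φ x + v x) * A ^ 2 :=
      mul_le_mul_of_nonneg_right (mul_le_mul_of_nonneg_left c1 (hμ x)) (sq_nonneg _)
    have m2 : μ x * v x * A ^ 2 ≤ μ x * v x * (2 * B ^ 2 + 2 * C ^ 2) :=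
      mul_le_mul_of_nonneg_left hA2 (mul_nonneg (hμ x) (hv0 x))
    have m3 : μ x * v x * B ^ 2 ≤ μ x * χ x * B ^ 2 :=
      mul_le_mul_of_nonneg_right (mul_le_mul_of_nonneg_left c2 (hμ x)) (sq_nonneg _)
    linarith
  rw [sum_add_distrib, sum_add_distrib, ← mul_sum, ← mul_sum] at h4
  have h5 : ∑ x, μ x * χ x ≤ ∑ x, μ x * φ x + ∑ x, μ x * ψ x := by
    rw [← sum_add_distrib]
    refine sum_le_sum fun x _ => ?_
    have : χ x ≤ φ x + ψ x := by linarith [hvψ x, show v x = χ x - φ x from rfl]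
    nlinarith [hμ x]
  have h6 : ∑ x, μ x * v x ≤ ∑ x, μ x * ψ x :=
    sum_le_sum fun x _ => mul_le_mul_of_nonneg_left (hvψ x) (hμ x)
  nlinarith [sq_nonneg N]

open Classical in
/-- Real indicator function. -/
def ind {Y : Type*} (p : Y → Prop) : Y → ℝ := fun y => if p y then 1 else 0

theorem ind_U01 {Y : Type*} (p : Y → Prop) : U01 (ind p) := fun y => by
  unfold ind; split_ifs <;> norm_num

theorem sum_mul_ind (w : X → ℝ) (p : X → Prop) : ∑ x, w x * ind p x = bm w p := by
  unfold bm ind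
  exact sum_congr rfl fun y _ => by split_ifs <;> simp

theorem sum_mul_ind_mul (w g : X → ℝ) (p : X → Prop) :
    ∑ x, w x * ind p x * g x = bm (fun x => w x * g x) p := by
  unfold bm ind
  exact sum_congr rfl fun y _ => by split_ifs <;> simp

theorem opT_zero_of_sum (hμ : ∀ x, 0 ≤ μ x) (h0 : ¬ 0 < ∑ y, μ y) (f : X → ℂ) (x : X) :
    opT μ k f x = 0 := by
  have h1 : ∑ y, μ y = 0 := le_antisymm (not_lt.1 h0) (sum_nonneg fun y _ => hμ y)
  have h2 := (sum_eq_zero_iff_of_nonneg fun y _ => hμ y).1 h1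
  exact sum_eq_zero fun y hy => by rw [h2 y hy]; simp

/-- A majorant for all truncations of the image of a bounded function. -/
theorem trunc_majorant (hS : Sp μ D) (hK : Ker D k) (hN : 0 ≤ N) (h : RT μ k N) {φ : X → ℝ}
    (hφ : U01 φ) :
    ∃ H : X → ℝ, (∀ x, 0 ≤ H x) ∧
      (∀ x r, 0 < r → ‖opT μ k (cut (fun z => r < D x z) fun y => (φ y : ℂ)) x‖ ≤ H x) ∧
      ∀ e : X → ℝ, U01 e →
        ∑ x, μ x * e x * H x ≤ 504 * (N + 1) * (∑ x, μ x * e x + ∑ x, μ x * φ x) := by
  classical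
  have hΦ : 0 ≤ ∑ x, μ x * φ x := sum_nonneg fun x _ => mul_nonneg (hS.mu_nn x) (hφ x).1
  by_cases hpos : 0 < ∑ y, μ y
  swap
  · refine ⟨fun _ => 0, fun _ => le_rfl, fun x r _ => ?_, fun e he => ?_⟩
    · rw [opT_zero_of_sum hS.mu_nn hpos]; simp
    · have : 0 ≤ ∑ x, μ x * e x := sum_nonneg fun x _ => mul_nonneg (hS.mu_nn x) (he x).1
      simp only [mul_zero, sum_const_zero]; positivity
  set M := N + 1 with hM
  have hM1 : 1 ≤ M := by linarith
  have hNM : N ^ 2 ≤ M ^ 2 := by nlinarith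
  set T : X → ℝ := fun x => ‖opT μ k (fun y => (φ y : ℂ)) x‖ with hT
  set u : X → ℝ := fun x => ind (fun x => 3 * M < T x) x * T x with hu
  have hT0 : ∀ x, 0 ≤ T x := fun x => norm_nonneg _
  have hu0 : ∀ x, 0 ≤ u x := fun x => mul_nonneg (ind_U01 _ x).1 (hT0 x)
  have hTu : ∀ x, T x ≤ 3 * M + u x := fun x => by
    simp only [hu, ind]; split_ifs with hx
    · linarith
    · push Not at hx; linarith
  have hu2 : ∑ x, μ x * u x ^ 2 ≤ 7 * M ^ 2 * ∑ x, μ x * φ x := by
    have h1 := h.two hS.mu_nn hφ (ind_U01 fun x => 3 * M < T x)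
    rw [sum_mul_ind] at h1
    have e1 : ∑ x, μ x * u x ^ 2 = ∑ x, μ x * ind (fun x => 3 * M < T x) x * T x ^ 2 :=
      sum_congr rfl fun x _ => by simp only [hu, ind]; split_ifs <;> ring
    have h2 : 9 * M ^ 2 * bm μ (fun x => 3 * M < T x) ≤ ∑ x, μ x * u x ^ 2 := by
      rw [← sum_mul_ind, mul_sum]
      refine sum_le_sum fun x _ => ?_
      simp only [hu, ind]; split_ifs with hx
      · have : (3 * M) ^ 2 ≤ T x ^ 2 := pow_le_pow_left₀ (by linarith) hx.le 2
        nlinarith [hS.mu_nn x]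
      · simp
    rw [← e1] at h1
    have hb := bm_nonneg hS.mu_nn (fun x => 3 * M < T x)
    have h3 : ∑ x, μ x * u x ^ 2 ≤
        M ^ 2 * (3 * ∑ x, μ x * φ x + 4 * bm μ (fun x => 3 * M < T x)) :=
      h1.trans (mul_le_mul_of_nonneg_right hNM (by positivity))
    have h4 : bm μ (fun x => 3 * M < T x) ≤ ∑ x, μ x * φ x := by
      by_contra hc
      push Not at hc
      have : 0 < M ^ 2 := by positivity
      nlinarith
    nlinarith [sq_nonneg M]
  refine ⟨fun x => 18 * mx μ D u x + 11 * M + 300, fun x => by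
    have := mx_nonneg hS hu0 x; positivity, fun x r hr => ?_, fun e he => ?_⟩
  · obtain ⟨R, hrR, hb0, hb1, hb2⟩ := core hS hK hpos (fun y => (φ y : ℂ)) x hr
    set β := bm μ (fun z => D x z ≤ R) with hβ
    have hmx : mx μ D (fun z => ‖(φ z : ℂ)‖) x ≤ 1 := mx_le_of_le hS x zero_le_one fun z => by
      rw [Complex.norm_real, Real.norm_of_nonneg (hφ z).1]; exact (hφ z).2
    have h3R : bm μ (fun z => D x z ≤ 3 * R) ≤ 18 * β :=
      (bm_mono hS.mu_nn fun z hz => by linarith).trans hb1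
    set φ' : X → ℝ := fun y => ind (fun z => D x z ≤ 3 * R) y * φ y with hφ'
    have hφ'1 : U01 φ' := fun y => ⟨mul_nonneg (ind_U01 _ y).1 (hφ y).1,
      mul_le_one₀ (ind_U01 _ y).2 (hφ y).1 (hφ y).2⟩
    have ecut : cut (fun z => D x z ≤ 3 * R) (fun y => (φ y : ℂ)) = fun y => (φ' y : ℂ) := by
      funext y; simp only [hφ', cut, ind]; split_ifs <;> simp
    rw [ecut] at hb2
    set W : X → ℝ := fun y => ‖opT μ k (fun y => (φ' y : ℂ)) y‖ with hW
    have hW2 : bm (fun y => μ y * W y ^ 2) (fun z => D x z ≤ R) ≤ 58 * M ^ 2 * β := by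
      have h1 := h.two hS.mu_nn hφ'1 (ind_U01 fun z => D x z ≤ R)
      rw [sum_mul_ind, sum_mul_ind_mul] at h1
      have h2 : ∑ y, μ y * φ' y ≤ 18 * β := by
        refine le_trans ?_ h3R
        rw [← sum_mul_ind]
        refine sum_le_sum fun y _ => mul_le_mul_of_nonneg_left ?_ (hS.mu_nn y)
        simp only [hφ']
        nlinarith [(ind_U01 (fun z => D x z ≤ 3 * R) y).1, (hφ y).2]
      have h3 : 0 ≤ ∑ y, μ y * φ' y := sum_nonneg fun y _ => mul_nonneg (hS.mu_nn y) (hφ'1 y).1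
      refine h1.trans ((mul_le_mul_of_nonneg_right hNM (by positivity)).trans ?_)
      nlinarith [sq_nonneg M]
    have hu1 : bm (fun y => μ y * u y) (fun z => D x z ≤ R) ≤ 18 * mx μ D u x * β := by
      have := le_mx hS hu0 x R
      nlinarith [mx_nonneg hS hu0 x]
    set L := ‖opT μ k (cut (fun z => r < D x z) fun y => (φ y : ℂ)) x‖ with hL
    have hsum : L * β ≤ bm (fun y => (7 * M + 300) * μ y + μ y * u y +
        1 / (16 * M) * (μ y * W y ^ 2)) (fun z => D x z ≤ R) := by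
      rw [hβ, ← bm_mul]
      refine bm_le_of_le fun y hy => ?_
      have h1 := hb2 y hy
      have h2 := hTu y
      have h3 : W y ≤ 1 / (16 * M) * W y ^ 2 + 4 * M := by
        have : 0 < 16 * M := by linarith
        rw [one_div, inv_mul_eq_div, div_add' _ _ _ this.ne', le_div_iff₀ this]
        nlinarith [sq_nonneg (W y - 8 * M)]
      have h4 : L ≤ 7 * M + 300 + u y + 1 / (16 * M) * W y ^ 2 := by
        simp only [hT, hW] at h2 h3 ⊢; linarith
      nlinarith [hS.mu_nn y]
    rw [bm_add, bm_add, bm_mul, bm_mul, ← hβ] at hsum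
    have h5 : 1 / (16 * M) * bm (fun y => μ y * W y ^ 2) (fun z => D x z ≤ R) ≤ 4 * M * β := by
      have : 0 < 16 * M := by linarith
      rw [one_div, inv_mul_eq_div, div_le_iff₀ this]
      nlinarith [sq_nonneg M]
    have : L * β ≤ (18 * mx μ D u x + 11 * M + 300) * β := by nlinarith
    exact le_of_mul_le_mul_right this hb0
  · have h1 := mx_L2 hS hu0
    have hE : 0 ≤ ∑ x, μ x * e x := sum_nonneg fun x _ => mul_nonneg (hS.mu_nn x) (he x).1
    have h2 : ∑ x, μ x * e x * (18 * mx μ D u x + 11 * M + 300) ≤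
        ∑ x, (9 / M * (μ x * mx μ D u x ^ 2) + (20 * M + 300) * (μ x * e x)) := by
      refine sum_le_sum fun x _ => ?_
      have hM0 : 0 < M := by linarith
      have h3 : 18 * mx μ D u x ≤ 9 / M * mx μ D u x ^ 2 + 9 * M := by
        rw [div_mul_eq_mul_div, div_add' _ _ _ hM0.ne', le_div_iff₀ hM0]
        nlinarith [sq_nonneg (mx μ D u x - M)]
      have h4 : μ x * e x * (18 * mx μ D u x) ≤
          μ x * e x * (9 / M * mx μ D u x ^ 2 + 9 * M) :=
        mul_le_mul_of_nonneg_left h3 (mul_nonneg (hS.mu_nn x) (he x).1)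
      have h5 : μ x * e x * (9 / M * mx μ D u x ^ 2) ≤ μ x * 1 * (9 / M * mx μ D u x ^ 2) :=
        mul_le_mul_of_nonneg_right (mul_le_mul_of_nonneg_left (he x).2 (hS.mu_nn x))
          (by positivity)
      nlinarith
    rw [sum_add_distrib, ← mul_sum, ← mul_sum] at h2
    have h6 : 9 / M * ∑ x, μ x * mx μ D u x ^ 2 ≤ 504 * M * ∑ x, μ x * φ x := by
      have hM0 : 0 < M := by linarith
      rw [div_mul_eq_mul_div, div_le_iff₀ hM0]
      nlinarith
    nlinarith

theorem fill_one (hS : Sp μ D) (ψ : X → ℝ) (hψ : ∀ y, 0 ≤ ψ y) (a : ℝ) (ha : 0 ≤ a)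
    (haψ : a ≤ ∑ y, μ y * ψ y) (x : X) :
    ∃ ρ : ℝ, ∃ e : X → ℝ, 0 < ρ ∧ (∀ y, 0 ≤ e y ∧ e y ≤ ψ y) ∧ ∑ y, μ y * e y = a ∧
      (∀ y, ρ < D x y → e y = 0) ∧ ∀ y, D x y < ρ → e y = ψ y := by
  classical
  set w : X → ℝ := fun y => μ y * ψ y with hw
  have hw0 : ∀ y, 0 ≤ w y := fun y => mul_nonneg (hS.mu_nn y) (hψ y)
  obtain ⟨y1, _, hy1⟩ := exists_max_image univ (fun y => D x y) ⟨x, mem_univ x⟩
  obtain ⟨y0, hy0, hmin⟩ := exists_min_image
    (univ.filter fun y => a ≤ bm w fun z => D x z ≤ D x y) (fun y => D x y)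
    ⟨y1, by
      simp only [mem_filter, mem_univ, true_and]
      rw [bm_of_forall w fun z => hy1 z (mem_univ z)]; exact haψ⟩
  have hy0' : a ≤ bm w fun z => D x z ≤ D x y0 := by simpa using hy0
  set ρ := D x y0 with hρ
  have hopen : bm w (fun z => D x z < ρ) ≤ a := by
    by_cases hne : ∃ z, D x z < ρ
    · obtain ⟨y2, hy2, hmax⟩ := exists_max_image (univ.filter fun z => D x z < ρ) (fun z => D x z)
        (by obtain ⟨z, hz⟩ := hne; exact ⟨z, by simpa using hz⟩)
      have hy2' : D x y2 < ρ := by simpa using hy2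
      have h1 : ¬ a ≤ bm w fun z => D x z ≤ D x y2 := fun h =>
        absurd (hmin y2 (by simpa using h)) (not_le.2 hy2')
      exact (bm_mono hw0 fun z hz => hmax z (by simpa using hz)).trans (not_le.1 h1).le
    · push Not at hne
      rw [bm_false w fun z => not_lt.2 (hne z)]; exact ha
  set o := bm w (fun z => D x z < ρ) with ho
  set s := bm w (fun z => D x z = ρ) with hs
  have hs0 : 0 ≤ s := bm_nonneg hw0 _
  have hos : a ≤ o + s :=
    hy0'.trans (bm_le_add hw0 fun z hz => hz.lt_or_eq)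
  set θ := (a - o) / s with hθ
  have hθ0 : 0 ≤ θ := div_nonneg (by linarith) hs0
  have hθ1 : θ ≤ 1 := div_le_one_of_le₀ (by linarith) hs0
  have hθs : θ * s = a - o := by
    rcases hs0.lt_or_eq with hp | h0
    · rw [hθ]; field_simp
    · rw [← h0]; linarith
  refine ⟨ρ, fun y => if D x y < ρ then ψ y else if D x y = ρ then θ * ψ y else 0,
    hS.D_pos x y0, fun y => ?_, ?_, fun y hy => ?_, fun y hy => ?_⟩
  · have := hψ y
    dsimp only
    split_ifs
    · exact ⟨this, le_rfl⟩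
    · exact ⟨by positivity, by nlinarith⟩
    · exact ⟨le_rfl, this⟩
  · have : a = o + θ * s := by linarith
    rw [this, ho, hs, ← bm_mul, bm_eq_sum_ite, bm_eq_sum_ite, ← sum_add_distrib]
    refine sum_congr rfl fun y _ => ?_
    dsimp only
    by_cases h1 : D x y < ρ
    · rw [if_pos h1, if_pos h1, if_neg h1.ne]; simp [hw]
    · rw [if_neg h1, if_neg h1]
      split_ifs
      · simp only [hw]; ring
      · simp
  · dsimp only
    rw [if_neg (by linarith), if_neg hy.ne']
  · dsimp only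
    rw [if_pos hy]

theorem fill_all (hS : Sp μ D) (a : X → ℝ) (ha : ∀ i, 0 ≤ a i) (s : Finset X)
    (hs : ∑ i ∈ s, a i ≤ ∑ y, μ y) :
    ∃ ρ : X → ℝ, ∃ e : X → X → ℝ, (∀ i, 0 < ρ i) ∧ (∀ i y, 0 ≤ e i y) ∧
      (∀ i ∈ s, ∑ y, μ y * e i y = a i) ∧ (∀ i y, ρ i < D i y → e i y = 0) ∧
      (∀ y, ∑ i ∈ s, e i y ≤ 1) ∧ ∀ i ∈ s, ∀ y, D i y < ρ i → ∑ j ∈ s, e j y = 1 := by
  classical
  induction s using Finset.induction_on with
  | empty => exact ⟨fun _ => 1, fun _ _ => 0, by simp, by simp, by simp, by simp, by simp, by simp⟩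
  | insert i0 s hi0 ih =>
    rw [sum_insert hi0] at hs
    obtain ⟨ρ, e, h1, h2, h3, h4, h5, h6⟩ := ih (by linarith [ha i0])
    have hsum : ∑ y, μ y * (1 - ∑ i ∈ s, e i y) = ∑ y, μ y - ∑ i ∈ s, a i := by
      rw [← sum_congr rfl h3, sum_comm, ← sum_sub_distrib]
      exact sum_congr rfl fun y _ => by rw [← mul_sum]; ring
    obtain ⟨ρ0, e0, g1, g2, g3, g4, g5⟩ := fill_one hS (fun y => 1 - ∑ i ∈ s, e i y)
      (fun y => by linarith [h5 y]) (a i0) (ha i0) (by rw [hsum]; linarith) i0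
    have hsu : ∀ y, ∑ j ∈ insert i0 s, Function.update e i0 e0 j y = e0 y + ∑ j ∈ s, e j y := by
      intro y
      rw [sum_insert hi0, Function.update_self]
      congr 1
      exact sum_congr rfl fun j hj => by
        rw [Function.update_of_ne (by rintro rfl; exact hi0 hj)]
    refine ⟨Function.update ρ i0 ρ0, Function.update e i0 e0, fun i => ?_, fun i y => ?_,
      fun i hi => ?_, fun i y => ?_, fun y => ?_, fun i hi y => ?_⟩
    · by_cases h : i = i0
      · subst h; simpa using g1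
      · rw [Function.update_of_ne h]; exact h1 i
    · by_cases h : i = i0
      · subst h; simpa using (g2 y).1
      · rw [Function.update_of_ne h]; exact h2 i y
    · by_cases h : i = i0
      · subst h; simpa using g3
      · rw [Function.update_of_ne h]; exact h3 i ((mem_insert.1 hi).resolve_left h)
    · by_cases h : i = i0
      · subst h; simpa using g4 y
      · rw [Function.update_of_ne h, Function.update_of_ne h]; exact h4 i y
    · rw [hsu]; linarith [(g2 y).2]
    · rw [hsu]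
      by_cases h : i = i0
      · subst h
        rw [Function.update_self]
        intro hy; rw [g5 y hy]; ring
      · rw [Function.update_of_ne h]
        intro hy
        have := h6 i ((mem_insert.1 hi).resolve_left h) y hy
        linarith [(g2 y).1, (g2 y).2]

end

end Pool.Agent.Lib.MP_dfc9b7_an
end
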